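import Pool.Agent.Lib.MP_a52643_an.VC.Cur

/-!
The time spent near the crossing point.
-/

open MeasureTheory Set Filter Topology Metric
open scoped ENNReal

noncomputable section

namespace Pool.Agent.Lib.MP_a52643_an

variable {X : Type*} {g : ℝ → X → X} {ξ x J Θ : X × X → ℝ} {C a r0 : ℝ}

lemma area_ivt {f : ℝ → ℝ} {b K : ℝ} (hb : 0 ≤ b)
    (h : ∀ s, |s| ≤ b → ∀ t, |t| ≤ b → |f s - f t| ≤ K * |s - t|) (h1 : f (-b) ≤ 0)
    (h2 : 0 ≤ f b) : ∃ t, |t| ≤ b ∧ f t = 0 := by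
  have hc : ContinuousOn f (Icc (-b) b) :=
    (LipschitzOnWith.of_dist_le' (K := K) fun s hs t ht =>
      h s (abs_le.2 hs) t (abs_le.2 ht)).continuousOn
  obtain ⟨t, ht, e⟩ := intermediate_value_Icc (by linarith) hc ⟨h1, h2⟩
  exact ⟨t, abs_le.2 ht, e⟩

lemma area_zero {F G : ℝ → ℝ → ℝ} {e θ S A : ℝ} (hS : 0 < S) (hθ : 0 < θ) (he : θ * S = e)
    (hA : 0 ≤ A) (hs : 16 * (A * θ) ≤ 1)
    (Fu : ∀ s, |s| ≤ 16 * S → ∀ u, |u| ≤ 16 * e → ∀ u', |u'| ≤ 16 * e →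
      |F s u - F s u' - (u - u')| ≤ 1 / 2 * |u - u'|)
    (Gu : ∀ s, |s| ≤ 16 * S → ∀ u, |u| ≤ 16 * e → ∀ u', |u'| ≤ 16 * e →
      |G s u - G s u'| ≤ A * θ * |u - u'|)
    (Fs : ∀ u, |u| ≤ 16 * e → ∀ s, |s| ≤ 16 * S → ∀ s', |s'| ≤ 16 * S →
      |F s u - F s' u| ≤ A * θ * θ * |s - s'|)
    (Gs : ∀ u, |u| ≤ 16 * e → ∀ s, |s| ≤ 16 * S → ∀ s', |s'| ≤ 16 * S →
      |G s u - G s' u| ≤ A * θ * |s - s'|)
    (Gm : ∀ u, |u| ≤ 16 * e → ∀ s, |s| ≤ 16 * S → ∀ s', |s'| ≤ 16 * S → s' ≤ s →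
      θ / 4 * (s - s') ≤ G s u - G s' u)
    (F0 : |F 0 0| ≤ e) (G0 : |G 0 0| ≤ e) :
    ∃ s0 u0, |s0| ≤ 8 * S ∧ |u0| ≤ 8 * e ∧ F s0 u0 = 0 ∧ G s0 u0 = 0 := by
  have e0 : 0 < e := he ▸ mul_pos hθ hS
  have a0 : 0 ≤ A * θ := by positivity
  have z1 : |(0 : ℝ)| ≤ 16 * e := by rw [abs_zero]; positivity
  have z2 : |(0 : ℝ)| ≤ 16 * S := by rw [abs_zero]; positivity
  have p1 : |8 * e| = 8 * e := abs_of_pos (by positivity)
  have p2 : |8 * S| = 8 * S := abs_of_pos (by positivity)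
  have k0 : A * θ * (8 * e) ≤ e / 2 := by nlinarith
  have ex : ∀ s, ∃ u, |s| ≤ 8 * S → |u| ≤ 8 * e ∧ F s u = 0 := fun s => by
    by_cases hs' : |s| ≤ 8 * S
    swap
    · exact ⟨0, fun h => absurd h hs'⟩
    have h0 : |s| ≤ 16 * S := by linarith
    have h1 := Fs 0 z1 s h0 0 z2
    rw [sub_zero] at h1
    have h2 : A * θ * θ * |s| ≤ e / 2 :=
      calc _ ≤ A * θ * θ * (8 * S) := by gcongr
        _ = A * θ * (8 * e) := by rw [← he]; ring
        _ ≤ _ := k0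
    have h3 := Fu s h0 (8 * e) (by linarith) 0 z1
    have h4 := Fu s h0 (-(8 * e)) (by rw [abs_neg]; linarith) 0 z1
    rw [sub_zero] at h3 h4
    rw [abs_neg] at h4
    rw [p1] at h3 h4
    obtain ⟨u, hu⟩ := area_ivt (f := F s) (b := 8 * e) (K := 3 / 2) (by positivity)
      (fun u hu u' hu' => by
        have := Fu s h0 u (by linarith) u' (by linarith)
        linarith [abs_sub_abs_le_abs_sub (F s u - F s u') (u - u')])
      (by linarith [(abs_le.1 h1).2, (abs_le.1 h4).2, (abs_le.1 F0).2])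
      (by linarith [(abs_le.1 h1).1, (abs_le.1 h3).1, (abs_le.1 F0).1])
    exact ⟨u, fun _ => hu⟩
  choose u hu using ex
  have lip : ∀ s, |s| ≤ 8 * S → ∀ t, |t| ≤ 8 * S → |u s - u t| ≤ 2 * (A * θ * θ) * |s - t| :=
    fun s h1 t h2 => by
      have h3 := Fu t (by linarith) (u s) (by linarith [(hu s h1).1]) (u t)
        (by linarith [(hu t h2).1])
      have h4 := Fs (u s) (by linarith [(hu s h1).1]) s (by linarith) t (by linarith)
      rw [(hu t h2).2, sub_zero, abs_sub_comm] at h3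
      rw [(hu s h1).2, zero_sub, abs_neg] at h4
      linarith [abs_sub_abs_le_abs_sub (u s - u t) (F t (u s))]
  have bd : ∀ s, |s| ≤ 8 * S → |G 0 (u s)| ≤ e + e / 2 := fun s h1 => by
    have h3 := Gu 0 z2 (u s) (by linarith [(hu s h1).1]) 0 z1
    rw [sub_zero] at h3
    have h4 := mul_le_mul_of_nonneg_left (hu s h1).1 a0
    linarith [abs_sub_abs_le_abs_sub (G 0 (u s)) (G 0 0)]
  have q1 : |-(8 * S)| ≤ 8 * S := by rw [abs_neg, p2]
  obtain ⟨s, h1, h2⟩ := area_ivt (f := fun s => G s (u s)) (b := 8 * S)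
    (K := A * θ + A * θ * (2 * (A * θ * θ))) (by positivity)
    (fun s h1 t h2 => by
      have h3 := Gs (u s) (by linarith [(hu s h1).1]) s (by linarith) t (by linarith)
      have h4 := Gu t (by linarith) (u s) (by linarith [(hu s h1).1]) (u t)
        (by linarith [(hu t h2).1])
      have h5 := mul_le_mul_of_nonneg_left (lip s h1 t h2) a0
      linarith [abs_sub_le (G s (u s)) (G t (u s)) (G t (u t))])
    (by
      have h3 := Gm (u (-(8 * S))) (by linarith [(hu _ q1).1]) 0 z2 (-(8 * S)) (by linarith)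
        (by linarith)
      linarith [(abs_le.1 (bd _ q1)).2])
    (by
      have h3 := Gm (u (8 * S)) (by linarith [(hu _ p2.le).1]) (8 * S) (by linarith) 0 z2
        (by linarith)
      linarith [(abs_le.1 (bd _ p2.le)).1])
  exact ⟨s, u s, h1, (hu s h1).1, (hu s h1).2, h2⟩

theorem PG.area_cross (h : PG g ξ x J Θ C a r0) : ∃ C0 c W δ0 : ℝ, 1 ≤ C0 ∧ 0 < c ∧ 0 < W ∧
    0 < δ0 ∧ δ0 ≤ r0 ∧ ∀ θ e e' : ℝ, 0 < θ → 0 < e' → e' ≤ e → ∀ p ∈ XS ξ x J Θ C0 δ0 e,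
      θ ≤ |Θ p| → |Θ p| ≤ 2 * θ → ENNReal.ofReal (c * e' ^ 2 / θ)
        ≤ volume {q ∈ Icc (-(W * e / θ)) (W * e / θ) ×ˢ Icc (-(W * e)) (W * e) |
          Tp g q p ∈ PosS ξ x J r0 e' ∩ {p | θ / 2 ≤ |Θ p| ∧ |Θ p| ≤ 4 * θ}} := by
  obtain ⟨M1, r1, m1, hr1, -, gr⟩ := h.grow 1
  obtain ⟨M2, r2, m2, hr2, n2, sd⟩ := h.slide
  have c1 := h.C1
  have hr0 := h.r0pos
  obtain ⟨B, hB⟩ : ∃ B, B = M1 * M2 * (6 * C) := ⟨_, rfl⟩
  have b0 : 1 ≤ M1 * M2 := one_le_mul_of_one_le_of_one_le m1 m2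
  have b1 : 1 ≤ B := hB ▸ one_le_mul_of_one_le_of_one_le b0 (by linarith)
  obtain ⟨θ0, t0, t1, t2, t3⟩ : ∃ θ0, 0 < θ0 ∧ B * θ0 ≤ r1 ∧ B * θ0 ≤ r2 ∧
      16 * (C * B ^ 2 * θ0) ≤ 1 := by
    refine ⟨min (min r1 r2 / B) (1 / (16 * (C * B ^ 2))), by positivity, ?_, ?_, ?_⟩
    · rw [← le_div_iff₀' (by positivity)]
      exact (min_le_left _ _).trans (by gcongr; exact min_le_left _ _)
    · rw [← le_div_iff₀' (by positivity)]
      exact (min_le_left _ _).trans (by gcongr; exact min_le_right _ _)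
    · rw [← mul_assoc, ← le_div_iff₀' (by positivity)]
      exact min_le_right _ _
  refine ⟨128 * B, 4 / (B ^ 2 + 3) ^ 2, 16, min r0 (θ0 / C), by linarith, by positivity,
    by norm_num, by positivity, min_le_left _ _, ?_⟩
  rintro θ e e' hθ he' hee p ⟨p1, p2, p3, p4⟩ p5 p6
  have e0 : 0 < e := he'.trans_le hee
  have p0 : ξ p ≤ r0 := p1.trans (min_le_left _ _)
  have s0 : θ ≤ θ0 := by
    have := mul_le_mul_of_nonneg_left (p1.trans (min_le_right _ _)) (by linarith : 0 ≤ C)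
    rw [mul_div_cancel₀ _ (by linarith)] at this
    linarith [(h.up p p0).2.2]
  have s1 : B * θ ≤ r1 := le_trans (by gcongr) t1
  have s2 : B * θ ≤ r2 := le_trans (by gcongr) t2
  have s3 : 16 * (C * B ^ 2 * θ) ≤ 1 := le_trans (by gcongr) t3
  have b2 : B ≤ B ^ 2 := by nlinarith
  have b3 : B * θ ≤ B ^ 2 * θ := by gcongr
  have s4 : 16 * (B ^ 2 * θ) ≤ 1 := by
    nlinarith [mul_nonneg (sub_nonneg.2 c1) (show 0 ≤ B ^ 2 * θ by positivity)]
  have s5 : θ ≤ B * θ := le_mul_of_one_le_left hθ.le b1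
  have s6 : 64 * (B * e) ≤ θ := by linarith
  have s7 : e ≤ B * e := le_mul_of_one_le_left e0.le b1
  obtain ⟨S, hS, he⟩ : ∃ S, 0 < S ∧ θ * S = e := ⟨e / θ, by positivity, by field_simp⟩
  have s8 : 64 * (B * S) ≤ 1 := by
    refine le_of_mul_le_mul_left ?_ hθ
    rw [← he] at s6
    linarith
  have s9 : S ≤ B * S := le_mul_of_one_le_left hS.le b1
  obtain ⟨ρ, hρ⟩ : ∃ ρ, ρ = 6 * C * θ := ⟨_, rfl⟩
  have u0 : θ ≤ ρ := hρ ▸ le_mul_of_one_le_left hθ.le (by linarith)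
  have u1 : ξ p ≤ ρ := by
    refine (h.lo p p0).trans ?_
    rw [hρ, mul_comm 6, mul_assoc]
    gcongr
    linarith
  have u2 : M1 * (M2 * ρ) = B * θ := by rw [hB, hρ]; ring
  have u3 : M2 * (M1 * ρ) = B * θ := by rw [hB, hρ]; ring
  have ρ0 : 0 ≤ ρ := by linarith
  have u4 : ρ ≤ M1 * ρ := le_mul_of_one_le_left ρ0 m1
  have u5 : ρ ≤ M2 * ρ := le_mul_of_one_le_left ρ0 m2
  have u6 : M1 * ρ ≤ B * θ := u3 ▸ le_mul_of_one_le_left (by linarith) m2
  have u7 : M2 * ρ ≤ B * θ := u2 ▸ le_mul_of_one_le_left (by linarith) m1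
  -- estimates along the relative flow
  have U : ∀ s, |s| ≤ 16 * S → ∀ u, |u| ≤ 16 * e → ξ (sl g u (jt g s p)) ≤ B * θ ∧
      ∀ u', |u'| ≤ 16 * e →
        |x (sl g u (jt g s p)) - x (sl g u' (jt g s p)) - (u - u')| ≤ B * θ * |u - u'| ∧
        |J (sl g u (jt g s p)) - J (sl g u' (jt g s p))| ≤ B * θ * |u - u'| ∧
        |Θ (sl g u (jt g s p)) - Θ (sl g u' (jt g s p))| ≤ B * θ * |u - u'| := by
    intro s hs u hu
    have h1 := sd (jt g s p) (M1 * ρ) ((gr p (by linarith) s (by linarith)).1.trans (by gcongr))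
      (by linarith) u (by linarith)
    rw [u3] at h1
    exact ⟨h1.1, fun u' hu' => h1.2 u' (by linarith)⟩
  -- estimates along the joint flow
  have V : ∀ u, |u| ≤ 16 * e → ∀ s, |s| ≤ 16 * S → ∀ s', |s'| ≤ 16 * S →
      |x (sl g u (jt g s p)) - x (sl g u (jt g s' p))| ≤ B ^ 2 * θ * θ * |s - s'| ∧
      |J (sl g u (jt g s p)) - J (sl g u (jt g s' p))| ≤ B * θ * |s - s'| ∧
      |Θ (sl g u (jt g s p)) - Θ (sl g u (jt g s' p))| ≤ B * θ * |s - s'| := by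
    intro u hu s hs s' hs'
    have h0 := (sd p ρ u1 (by linarith) u (by linarith)).1
    have h1 := (gr (sl g u p) (by linarith) s (by linarith)).2 s' (by linarith)
    have h2 := h.nn (sl g u p)
    have h3 : M1 * ξ (sl g u p) ≤ B * θ := u2 ▸ mul_le_mul_of_nonneg_left h0 (by linarith)
    rw [h.jt_sl, h.jt_sl] at h1
    refine ⟨h1.1.trans ?_, h1.2.1.trans (by gcongr), h1.2.2.trans (by gcongr)⟩
    refine mul_le_mul_of_nonneg_right ?_ (abs_nonneg _)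
    calc _ = M1 * ξ (sl g u p) * ξ (sl g u p) := by ring
      _ ≤ B * θ * (B * θ) := mul_le_mul h3 (by linarith) h2 (by linarith)
      _ = _ := by ring
  have z1 : |(0 : ℝ)| ≤ 16 * e := by rw [abs_zero]; positivity
  have z2 : |(0 : ℝ)| ≤ 16 * S := by rw [abs_zero]; positivity
  have T : ∀ s, |s| ≤ 16 * S → ∀ u, |u| ≤ 16 * e → |Θ (sl g u (jt g s p)) - Θ p| ≤ θ / 2 := by
    intro s hs u hu
    have h1 := ((U s hs u hu).2 0 z1).2.2
    have h2 := (V 0 z1 s hs 0 z2).2.2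
    rw [sub_zero] at h1 h2
    rw [h.jt_zero, h.sl_zero p] at h2
    have h3 : B * θ * |u| ≤ B * θ * (16 * e) := by gcongr
    have h4 : B * θ * |s| ≤ B * θ * (16 * S) := by gcongr
    have h5 := mul_le_mul_of_nonneg_left s8 hθ.le
    have h6 := mul_le_mul_of_nonneg_left (show 64 * (B * e) ≤ 1 by linarith) hθ.le
    linarith [abs_sub_le (Θ (sl g u (jt g s p))) (Θ (sl g 0 (jt g s p))) (Θ p)]
  have R : ∀ s, |s| ≤ 16 * S → ∀ u, |u| ≤ 16 * e → ξ (sl g u (jt g s p)) ≤ r0 := by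
    intro s hs u hu
    refine (U s hs u hu).1.trans (le_trans ?_ n2)
    rw [← u3]
    gcongr
    linarith
  obtain ⟨σ, σ1, σ2⟩ : ∃ σ : ℝ, (∀ y, |σ * y| = |y|) ∧ σ * Θ p = |Θ p| := by
    rcases le_total 0 (Θ p) with hp | hp
    · exact ⟨1, by simp, by rw [one_mul, abs_of_nonneg hp]⟩
    · exact ⟨-1, by simp, by rw [neg_one_mul, abs_of_nonpos hp]⟩
  obtain ⟨s0, u0, w1, w2, w3, w4⟩ := area_zero (F := fun s u => x (sl g u (jt g s p)))
    (G := fun s u => σ * J (sl g u (jt g s p))) (A := B ^ 2) hS hθ he (by positivity) s4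
    (fun s hs u hu u' hu' => ((U s hs u hu).2 u' hu').1.trans (by gcongr; linarith))
    (fun s hs u hu u' hu' => by
      rw [← mul_sub, σ1]
      exact ((U s hs u hu).2 u' hu').2.1.trans (by gcongr))
    (fun u hu s hs s' hs' => (V u hu s hs s' hs').1)
    (fun u hu s hs s' hs' => by
      rw [← mul_sub, σ1]
      exact (V u hu s hs s' hs').2.1.trans (by gcongr))
    (fun u hu s hs s' hs' hss => by
      have D : ∀ t ∈ Icc (-(16 * S)) (16 * S), ∃ d, θ / 4 ≤ d ∧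
          HasDerivAt (fun t => σ * J (sl g u (jt g t p))) d t := fun t ht => by
        have ht' := abs_le.2 ht
        obtain ⟨_, J', _, _, -, d1, -, -, d2, -⟩ := h.derJ (sl g u p) t
          (by rw [h.jt_sl]; exact R t ht' u hu)
        simp only [h.jt_sl] at d1 d2
        refine ⟨σ * J', ?_, d1.const_mul σ⟩
        have d3 : C * ξ (sl g u (jt g t p)) ^ 2 ≤ C * (B * θ) ^ 2 := by
          gcongr
          · exact h.nn _
          · exact (U t ht' u hu).1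
        have d4 := T t ht' u hu
        rw [← σ1, mul_sub] at d2 d4
        have d5 := mul_le_mul_of_nonneg_left s3 hθ.le
        linarith [(abs_le.1 d2).1, (abs_le.1 d4).1]
      choose! d d1 d2 using D
      exact (convex_Icc _ _).mul_sub_le_image_sub_of_le_deriv
        (fun t ht => (d2 t ht).continuousAt.continuousWithinAt)
        (fun t ht => (d2 t (interior_subset ht)).differentiableAt.differentiableWithinAt)
        (fun t ht => (d2 t (interior_subset ht)).deriv ▸ d1 t (interior_subset ht))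
        s' (abs_le.1 hs') s (abs_le.1 hs) hss)
    (by simpa only [h.jt_zero, h.sl_zero] using p2)
    (by simpa only [h.jt_zero, h.sl_zero, σ1] using p3)
  replace w4 : J (sl g u0 (jt g s0 p)) = 0 := by
    rw [← abs_eq_zero, ← σ1, abs_eq_zero]
    exact w4
  obtain ⟨D, D0, hD⟩ : ∃ D, 0 < D ∧ (B ^ 2 + 3) * (θ * D) = e' :=
    ⟨e' / ((B ^ 2 + 3) * θ), by positivity, by field_simp⟩
  have d0 : 0 < θ * D := by positivity
  have d1 : 0 ≤ B ^ 2 * (θ * D) := by positivity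
  have d2 : D ≤ S := le_of_mul_le_mul_left (by linarith) hθ
  have vol : ENNReal.ofReal (4 / (B ^ 2 + 3) ^ 2 * e' ^ 2 / θ) =
      volume (Icc (s0 - D) (s0 + D) ×ˢ Icc (u0 - θ * D) (u0 + θ * D)) := by
    rw [Measure.volume_eq_prod, Measure.prod_prod, Real.volume_Icc, Real.volume_Icc,
      ← ENNReal.ofReal_mul (by linarith), ← hD]
    congr 1
    field_simp
    ring
  rw [vol]
  refine measure_mono ?_
  rintro ⟨s, u⟩ ⟨⟨a1, a2⟩, a3, a4⟩
  dsimp only at a1 a2 a3 a4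
  have a5 : |s - s0| ≤ D := abs_le.2 ⟨by linarith, by linarith⟩
  have a6 : |u - u0| ≤ θ * D := abs_le.2 ⟨by linarith, by linarith⟩
  have hs : |s| ≤ 16 * S := by linarith [abs_sub_abs_le_abs_sub s s0]
  have hu : |u| ≤ 16 * e := by linarith [abs_sub_abs_le_abs_sub u u0]
  obtain ⟨f1, f2, -⟩ := (U s hs u hu).2 u0 (by linarith)
  obtain ⟨f3, f4, -⟩ := V u0 (by linarith) s hs s0 (by linarith)
  rw [w3, sub_zero] at f3
  rw [w4, sub_zero] at f4
  have f5 : B * θ * |u - u0| ≤ 1 * (θ * D) := by gcongr; linarith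
  have f6 : B ^ 2 * θ * θ * |s - s0| ≤ 1 * θ * D := by gcongr; linarith
  have f7 : B * θ * |s - s0| ≤ B ^ 2 * θ * D := by gcongr
  have f8 := T s hs u hu
  refine ⟨⟨?_, abs_le.1 hu⟩, ⟨R s hs u hu, ?_, ?_⟩, ?_, ?_⟩
  · rw [show 16 * e / θ = 16 * S by rw [← he]; field_simp]
    exact abs_le.1 hs
  · show |x (sl g u (jt g s p))| ≤ e'
    linarith [abs_sub_abs_le_abs_sub (x (sl g u (jt g s p))) (x (sl g u0 (jt g s p))),
      abs_sub_abs_le_abs_sub (x (sl g u (jt g s p)) - x (sl g u0 (jt g s p))) (u - u0)]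
  · show |J (sl g u (jt g s p))| ≤ e'
    linarith [abs_sub_abs_le_abs_sub (J (sl g u (jt g s p))) (J (sl g u0 (jt g s p)))]
  · show θ / 2 ≤ |Θ (sl g u (jt g s p))|
    rw [abs_sub_comm] at f8
    linarith [abs_sub_abs_le_abs_sub (Θ p) (Θ (sl g u (jt g s p)))]
  · show |Θ (sl g u (jt g s p))| ≤ 4 * θ
    linarith [abs_sub_abs_le_abs_sub (Θ (sl g u (jt g s p))) (Θ p)]

end Pool.Agent.Lib.MP_a52643_an
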