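import Pool.Agent.Lib.MP_a52643_an.VC.Defs

/-!
Uniform bounds for invariant functions that are constant outside a cocompact set.
-/

open Complex MeasureTheory Set Filter Topology Asymptotics Metric
open scoped ComplexConjugate ContDiff ENNReal Laplacian

noncomputable section

namespace Pool.Agent.Lib.MP_a52643_an

variable {Γ : Type*} {l : Γ → SL2} {ℓ : ℂ → ℝ} {k : ℤ} {c : ℂ} {f : V → ℂ}

lemma cib_pr (g : SL2) {v : V} (hv : v ∈ Om) :
    pr (LG g v) = ((g • bp (nG v) : UpperHalfPlane) : ℂ) := by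
  rw [← bp_mul, ← nG_Lg g hv, coe_bp_nG (Lg_mem (det_eq g) hv)]; rfl

lemma cib_cont {v : V} (hv : v ∈ Om) : ContinuousAt (fun w => bp (nG w)) v := by
  rw [UpperHalfPlane.isOpenEmbedding_coe.isInducing.continuousAt_iff]
  refine ((contDiffAt_pr (n := 0) (snd_ne_zero hv)).continuousAt).congr ?_
  filter_upwards [isOpen_Om.mem_nhds hv] with w hw
  exact (coe_bp_nG hw).symm

lemma cib_loc (h : CI l k c f) : ∃ K : Set UpperHalfPlane, IsCompact K ∧ ∀ v ∈ Om,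
    (∀ γ, l γ • bp (nG v) ∉ K) → f =ᶠ[𝓝 v] fun _ => c := by
  obtain ⟨K, hK, hc⟩ := h.cpt
  refine ⟨cthickening 1 K, hK.cthickening, fun v hv hn => ?_⟩
  filter_upwards [isOpen_Om.mem_nhds hv, (cib_cont hv).eventually (ball_mem_nhds _ one_pos)]
    with w hw hd
  by_contra hne
  obtain ⟨γ, hγ⟩ := hc w hw hne
  refine hn γ (mem_cthickening_of_dist_le _ _ 1 K hγ ?_)
  rw [dist_smul, dist_comm]
  exact le_of_lt hd

lemma cib_one (h : CI l k c f) : ContDiffOn ℝ 1 f Om := h.sm.of_le (by simp)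

lemma CI.Ep (h : CI l k c f) : CI l (k + 1) 0 (Ep f) := by
  refine ⟨contDiffOn_Ep (n := ∞) h.sm, h.hom.Ep (cib_one h),
    fun γ => Inv.Ep (det_eq (l γ)) (h.inv γ) (cib_one h), ?_⟩
  obtain ⟨K, hK, hc⟩ := cib_loc h
  refine ⟨K, hK, fun v hv hne => ?_⟩
  by_contra hn
  exact hne (by rw [Ep_congr (hc v hv (not_exists.1 hn)), Ep_const])

lemma CI.Em (h : CI l k c f) : CI l (k - 1) 0 (Em f) := by
  refine ⟨contDiffOn_Em (n := ∞) h.sm, h.hom.Em (cib_one h),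
    fun γ => Inv.Em (det_eq (l γ)) (h.inv γ) (cib_one h), ?_⟩
  obtain ⟨K, hK, hc⟩ := cib_loc h
  refine ⟨K, hK, fun v hv hne => ?_⟩
  by_contra hn
  exact hne (by rw [Em_congr (hc v hv (not_exists.1 hn)), Em_const])

lemma CI.bound (h : CI l k c f) : ∃ C : ℝ, 0 ≤ C ∧ ∀ v ∈ Om, ‖f v‖ ≤ C := by
  obtain ⟨K, hK, hc⟩ := h.cpt
  have c1 : Continuous fun z : UpperHalfPlane => f ((z : ℂ), 1) :=
    h.sm.continuousOn.comp_continuous
      (UpperHalfPlane.continuous_coe.prodMk continuous_const) fun z => one_mem_Om z.2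
  obtain ⟨M, hM⟩ := hK.exists_bound_of_continuousOn c1.continuousOn
  refine ⟨max M ‖c‖, le_max_of_le_right (norm_nonneg _), fun v hv => ?_⟩
  by_cases e : f v = c
  · rw [e]; exact le_max_right _ _
  · obtain ⟨γ, hγ⟩ := hc v hv e
    have hw : LG (l γ) v ∈ Om := Lg_mem (det_eq _) hv
    rw [← h.inv γ v hv, h.hom.eq_om hw, norm_mul, norm_zpow, norm_om (snd_ne_zero hw), one_zpow,
      one_mul, cib_pr _ hv]
    exact (hM _ hγ).trans (le_max_left _ _)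

lemma cib_self (h : Hom k f) {v : V} (hv : v ∈ Om) (hF : DifferentiableAt ℝ f v) :
    fderiv ℝ f v v = 0 := by
  have h0 : HasDerivAt (fun t : ℝ => cexp t) 1 0 := by
    have := ((hasDerivAt_id (0 : ℝ)).ofReal_comp).cexp
    simpa using this
  have h1 : HasDerivAt (fun t : ℝ => cexp t • v) ((1 : ℂ) • v) 0 := h0.smul_const v
  have h2 : HasDerivAt (fun t : ℝ => f (cexp t • v)) (fderiv ℝ f v ((1 : ℂ) • v)) 0 := by
    have hF' : HasFDerivAt f (fderiv ℝ f v) (cexp (0 : ℝ) • v) := by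
      simpa using hF.hasFDerivAt
    exact hF'.comp_hasDerivAt (0 : ℝ) h1
  have h3 : (fun t : ℝ => f (cexp t • v)) = fun _ => f v := by
    ext t
    rw [h _ (Complex.exp_ne_zero _) v hv, ← Complex.exp_conj, conj_ofReal,
      div_self (Complex.exp_ne_zero _), one_zpow, one_mul]
  rw [h3, one_smul] at h2
  exact h2.unique (hasDerivAt_const _ _)

lemma cib_fd (h : Hom k f) {v : V} (hv : v ∈ Om) (hF : DifferentiableAt ℝ f v) (a b : ℂ) :
    fderiv ℝ f v (a • v + b • cj v)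
      = -2 * I * k * a.im * f v - b * Ep f v - conj b * Em f v := by
  rw [map_add, map_csmul, cib_self h hv hF, h.fderiv_I hv hF, ← wp_add_wm, wp_smul, wm_smul, Ep, Em]
  ring

/-- the segment -/
def cibW (v : V) (a b : ℂ) (t : ℝ) : V := v + t • (a • v + b • cj v)

def cibD (a b : ℂ) (t : ℝ) : ℝ := normSq (1 + t * a) - normSq (t * b)

lemma cib_dt (v : V) (a b : ℂ) (t : ℝ) : dt (cibW v a b t) = cibD a b t * dt v := by
  simp [cibW, cibD, dt_eq, normSq_apply]; ring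

lemma cib_D {a b : ℂ} (hab : ‖a‖ + ‖b‖ ≤ 1 / 10) {t : ℝ} (ht : t ∈ Icc (0 : ℝ) 1) :
    |cibD a b t - 1| ≤ 3 * (‖a‖ + ‖b‖) := by
  have e : cibD a b t - 1 = 2 * (t * a.re) + t * t * (‖a‖ * ‖a‖) - t * t * (‖b‖ * ‖b‖) := by
    rw [norm_mul_self_eq_normSq, norm_mul_self_eq_normSq]
    simp [cibD, normSq_apply]; ring
  have h1 := abs_le.1 (abs_re_le_norm a)
  have h2 := norm_nonneg a
  have h3 := norm_nonneg b
  obtain ⟨t0, t1⟩ := ht
  have h4 : 0 ≤ t * t := mul_nonneg t0 t0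
  have h5 : t * t ≤ 1 := by nlinarith
  have h6 : t * t * (‖a‖ * ‖a‖) ≤ ‖a‖ := by nlinarith [mul_nonneg h2 h2]
  have h7 : t * t * (‖b‖ * ‖b‖) ≤ ‖b‖ := by nlinarith [mul_nonneg h3 h3]
  have h8 : 0 ≤ t * t * (‖a‖ * ‖a‖) := by positivity
  have h9 : 0 ≤ t * t * (‖b‖ * ‖b‖) := by positivity
  rw [e, abs_le]
  constructor <;> nlinarith

lemma cib_Dpos {a b : ℂ} (hab : ‖a‖ + ‖b‖ ≤ 1 / 10) {t : ℝ} (ht : t ∈ Icc (0 : ℝ) 1) :
    1 / 2 ≤ cibD a b t := by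
  have := abs_le.1 (cib_D hab ht)
  linarith

lemma cib_mem {v : V} (hv : v ∈ Om) {a b : ℂ} (hab : ‖a‖ + ‖b‖ ≤ 1 / 10) {t : ℝ}
    (ht : t ∈ Icc (0 : ℝ) 1) : cibW v a b t ∈ Om := by
  have h1 := cib_Dpos hab ht
  have h2 : 0 < dt v := hv
  show 0 < dt _
  rw [cib_dt]; positivity

/-- the linear term -/
def cibL (k : ℤ) (f : V → ℂ) (a b : ℂ) (w : V) : ℂ :=
  -2 * I * k * a.im * f w - b * Ep f w - conj b * Em f w

lemma cib_der (h : CI l k c f) {v : V} (hv : v ∈ Om) {a b : ℂ} (hab : ‖a‖ + ‖b‖ ≤ 1 / 10) {t : ℝ}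
    (ht : t ∈ Icc (0 : ℝ) 1) : HasDerivAt (fun t => f (cibW v a b t))
      ((cibD a b t : ℂ)⁻¹ * cibL k f a b (cibW v a b t)) t := by
  have hw := cib_mem hv hab ht
  have hd := diffAt_of_Om h.sm (by simp) hw
  have h1 : HasDerivAt (cibW v a b) (a • v + b • cj v) t := by
    have := ((hasDerivAt_id t).smul_const (a • v + b • cj v)).const_add v
    rw [one_smul] at this
    exact this
  have hD : (cibD a b t : ℂ) ≠ 0 := by
    exact_mod_cast (by linarith [cib_Dpos hab ht] : cibD a b t ≠ 0)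
  have eD : (cibD a b t : ℂ) = (1 + t * a) * (1 + t * conj a) - t * b * (t * conj b) := by
    rw [cibD]; push_cast; rw [← mul_conj, ← mul_conj]; simp
  have e : (cibD a b t) • (a • v + b • cj v)
      = (a + t * (a * conj a - b * conj b)) • cibW v a b t + b • cj (cibW v a b t) := by
    ext <;> simp [cibW, eD] <;> ring
  have e2 := congrArg (fderiv ℝ f (cibW v a b t)) e
  rw [map_smul, cib_fd h.hom hw hd] at e2
  have e3 : (a + t * (a * conj a - b * conj b)).im = a.im := by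
    rw [mul_conj, mul_conj]; simp
  rw [e3] at e2
  rw [cibL, ← e2, real_smul, ← mul_assoc, inv_mul_cancel₀ hD, one_mul]
  exact hd.hasFDerivAt.comp_hasDerivAt t h1

lemma cib_L (a b : ℂ) (x y z : ℂ) {M : ℝ} (hx : ‖x‖ ≤ M) (hy : ‖y‖ ≤ M) (hz : ‖z‖ ≤ M) :
    ‖-2 * I * k * a.im * x - b * y - conj b * z‖ ≤ 2 * (|(k : ℝ)| + 1) * M * (‖a‖ + ‖b‖) := by
  have M0 : 0 ≤ M := (norm_nonneg _).trans hx
  have h1 : ‖-2 * I * k * a.im * x‖ ≤ 2 * |(k : ℝ)| * ‖a‖ * M := by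
    simp only [norm_mul, norm_neg, norm_I, norm_real, Real.norm_eq_abs, norm_intCast, norm_ofNat,
      mul_one]
    gcongr
    exact abs_im_le_norm a
  have h2 : ‖b * y‖ ≤ ‖b‖ * M := by rw [norm_mul]; gcongr
  have h3 : ‖conj b * z‖ ≤ ‖b‖ * M := by rw [norm_mul, norm_conj]; gcongr
  have h4 := norm_sub_le (-2 * I * k * a.im * x - b * y) (conj b * z)
  have h5 := norm_sub_le (-2 * I * k * a.im * x) (b * y)
  have h6 := mul_nonneg (norm_nonneg a) M0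
  have h7 := mul_nonneg (mul_nonneg (abs_nonneg (k : ℝ)) (norm_nonneg b)) M0
  nlinarith

lemma cib_Lb (h : CI l k c f) : ∃ C : ℝ, 0 ≤ C ∧ ∀ w ∈ Om, ∀ a b : ℂ,
    ‖cibL k f a b w‖ ≤ C * (‖a‖ + ‖b‖) := by
  obtain ⟨C1, p1, h1⟩ := h.bound
  obtain ⟨C2, p2, h2⟩ := h.Ep.bound
  obtain ⟨C3, p3, h3⟩ := h.Em.bound
  exact ⟨2 * (|(k : ℝ)| + 1) * (C1 + C2 + C3), by positivity, fun w hw a b =>
    cib_L a b _ _ _ (by linarith [h1 w hw]) (by linarith [h2 w hw]) (by linarith [h3 w hw])⟩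

lemma cib_inv {a b : ℂ} (hab : ‖a‖ + ‖b‖ ≤ 1 / 10) {t : ℝ} (ht : t ∈ Icc (0 : ℝ) 1) :
    ‖(cibD a b t : ℂ)⁻¹‖ ≤ 2 := by
  have h1 := cib_Dpos hab ht
  rw [norm_inv, norm_real, Real.norm_eq_abs, abs_of_pos (by linarith), inv_le_comm₀ (by linarith)
    two_pos]
  linarith

lemma cib_lip (h : CI l k c f) : ∃ C : ℝ, 0 ≤ C ∧ ∀ v ∈ Om, ∀ a b : ℂ, ‖a‖ + ‖b‖ ≤ 1 / 10 →
    ∀ t ∈ Icc (0 : ℝ) 1, ‖f (cibW v a b t) - f v‖ ≤ C * (‖a‖ + ‖b‖) := by
  obtain ⟨C, p, hC⟩ := cib_Lb h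
  refine ⟨2 * C, by positivity, fun v hv a b hab t ht => ?_⟩
  have := norm_image_sub_le_of_norm_deriv_le_segment' (C := 2 * C * (‖a‖ + ‖b‖))
    (fun s hs => (cib_der h hv hab hs).hasDerivWithinAt) (fun s hs => by
      have hs' := Ico_subset_Icc_self hs
      rw [norm_mul, mul_assoc]
      exact mul_le_mul (cib_inv hab hs') (hC _ (cib_mem hv hab hs') a b) (norm_nonneg _)
        two_pos.le) t ht
  have e : cibW v a b 0 = v := by simp [cibW]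
  rw [e] at this
  refine this.trans (mul_le_of_le_one_right (by positivity) (by linarith [ht.2]))

lemma cib_end (v : V) (α β : ℂ) : cibW v (α - 1) β 1 = α • v + β • cj v := by
  simp [cibW, sub_smul]; abel

theorem CI.taylor (h : CI l k c f) : ∃ C : ℝ, 0 ≤ C ∧ ∀ v, dt v = 1 → ∀ α β : ℂ,
    ‖α - 1‖ + ‖β‖ ≤ 1 / 10 → ‖f (α • v + β • cj v) - f v
      - (-2 * I * k * α.im * f v - β * MP_a52643_an.Ep f v - conj β * MP_a52643_an.Em f v)‖
      ≤ C * (‖α - 1‖ + ‖β‖) ^ 2 := by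
  obtain ⟨C, p, hC⟩ := cib_Lb h
  obtain ⟨C1, p1, h1⟩ := cib_lip h
  obtain ⟨C2, p2, h2⟩ := cib_lip h.Ep
  obtain ⟨C3, p3, h3⟩ := cib_lip h.Em
  refine ⟨6 * C + 2 * (|(k : ℝ)| + 1) * (C1 + C2 + C3), by positivity, fun v hv1 α β hab => ?_⟩
  have hv : v ∈ Om := by show 0 < dt v; rw [hv1]; exact one_pos
  set a := α - 1 with ha
  have x0 : 0 ≤ ‖a‖ + ‖β‖ := by positivity
  have := norm_image_sub_le_of_norm_deriv_le_segment_01'
    (C := (6 * C + 2 * (|(k : ℝ)| + 1) * (C1 + C2 + C3)) * (‖a‖ + ‖β‖) ^ 2)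
    (f := fun s : ℝ => f (cibW v a β s) - s * cibL k f a β v)
    (f' := fun s => (cibD a β s : ℂ)⁻¹ * cibL k f a β (cibW v a β s) - cibL k f a β v)
    (fun s hs => by
      have := (cib_der h hv hab hs).fun_sub (((hasDerivAt_id s).ofReal_comp).mul_const (cibL k f a β v))
      simpa using this.hasDerivWithinAt) (fun s hs => by
      have hs' := Ico_subset_Icc_self hs
      have hD : (cibD a β s : ℂ) ≠ 0 := by
        exact_mod_cast (by linarith [cib_Dpos hab hs'] : cibD a β s ≠ 0)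
      have e : (cibD a β s : ℂ)⁻¹ * cibL k f a β (cibW v a β s) - cibL k f a β v
          = -((cibD a β s : ℂ)⁻¹ * ((cibD a β s - 1 : ℝ) : ℂ) * cibL k f a β (cibW v a β s))
            + (-2 * I * k * a.im * (f (cibW v a β s) - f v)
              - β * (MP_a52643_an.Ep f (cibW v a β s) - MP_a52643_an.Ep f v)
              - conj β * (MP_a52643_an.Em f (cibW v a β s) - MP_a52643_an.Em f v)) := by
        simp only [cibL]; push_cast; field_simp; ring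
      have b1 : ‖-((cibD a β s : ℂ)⁻¹ * ((cibD a β s - 1 : ℝ) : ℂ) * cibL k f a β (cibW v a β s))‖
          ≤ 2 * (3 * (‖a‖ + ‖β‖)) * (C * (‖a‖ + ‖β‖)) := by
        rw [norm_neg, norm_mul, norm_mul, norm_real, Real.norm_eq_abs]
        gcongr
        · exact cib_inv hab hs'
        · exact cib_D hab hs'
        · exact hC _ (cib_mem hv hab hs') a β
      have q1 := h1 v hv a β hab s hs'
      have q2 := h2 v hv a β hab s hs'
      have q3 := h3 v hv a β hab s hs'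
      have r1 := mul_nonneg p1 x0
      have r2 := mul_nonneg p2 x0
      have r3 := mul_nonneg p3 x0
      have b2 := cib_L (k := k) (M := (C1 + C2 + C3) * (‖a‖ + ‖β‖)) a β _ _ _
        (q1.trans (by linarith)) (q2.trans (by linarith)) (q3.trans (by linarith))
      rw [e]
      refine (norm_add_le _ _).trans ((add_le_add b1 b2).trans (le_of_eq ?_))
      ring)
  have e0 : cibW v a β 0 = v := by simp [cibW]
  have e1 : a.im = α.im := by simp [ha]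
  have e2 : cibW v a β 1 = α • v + β • cj v := cib_end v α β
  rw [e0, e2] at this
  refine le_of_eq_of_le (congrArg _ ?_) this
  simp only [cibL, e1]; push_cast; ring

theorem CI.lip (h : CI l k c f) : ∃ C : ℝ, 0 ≤ C ∧ ∀ v, dt v = 1 → ∀ α β : ℂ,
    ‖α - 1‖ + ‖β‖ ≤ 1 / 10 → ‖f (α • v + β • cj v) - f v‖ ≤ C * (‖α - 1‖ + ‖β‖) := by
  obtain ⟨C, p, hC⟩ := cib_lip h
  refine ⟨C, p, fun v hv1 α β hab => ?_⟩
  have hv : v ∈ Om := by show 0 < dt v; rw [hv1]; exact one_pos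
  rw [← cib_end]
  exact hC v hv _ _ hab 1 ⟨zero_le_one, le_rfl⟩

lemma cib_comp (h : CI l 0 c f) (φ : ℂ → ℂ) (hs : ContDiffOn ℝ ∞ (fun v => φ (f v)) Om) :
    CI l 0 (φ c) fun v => φ (f v) := by
  refine ⟨hs, fun a ha v hv => ?_, fun γ v hv => by simp only [h.inv γ v hv], ?_⟩
  · simp [h.hom a ha v hv]
  · obtain ⟨K, hK, hc⟩ := h.cpt
    exact ⟨K, hK, fun v hv hne => hc v hv fun e => hne (by simp only [e])⟩

lemma CG.ci_l (h : CG l ℓ) : CI l 0 0 (lV ℓ) := by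
  refine ⟨cd_lV h.sm, hom_lV, fun γ v hv => ?_, ?_⟩
  · rw [lV, lV, cib_pr _ hv, h.inv, coe_bp_nG hv]
  · obtain ⟨K, hK, hc⟩ := h.cpt
    refine ⟨K, hK, fun v hv hne => hc _ fun e => hne ?_⟩
    rw [coe_bp_nG hv] at e
    rw [lV, e, ofReal_zero]

lemma CG.ci_s (h : CG l ℓ) : CI l 0 1 fun v => (sV ℓ v : ℂ) := by
  have := cib_comp h.ci_l cexp (by simpa only [← sC_eq] using cd_sC h.sm)
  simpa only [← sC_eq, Complex.exp_zero] using this

lemma CG.ci_si (h : CG l ℓ) : CI l 0 1 fun v => (sV ℓ v : ℂ)⁻¹ := by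
  have := cib_comp h.ci_s (fun z => z⁻¹) (cd_sC_inv h.sm)
  simpa only [inv_one] using this

lemma CG.ci_A (h : CG l ℓ) : CI l 1 0 (AV ℓ) := by
  have := h.ci_l.Ep
  rwa [zero_add] at this

lemma CG.s_bd (h : CG l ℓ) :
    ∃ C : ℝ, 1 ≤ C ∧ ∀ v ∈ Om, sV ℓ v ≤ C ∧ (sV ℓ v)⁻¹ ≤ C ∧ ‖AV ℓ v‖ ≤ C := by
  obtain ⟨C1, p1, h1⟩ := h.ci_s.bound
  obtain ⟨C2, p2, h2⟩ := h.ci_si.bound
  obtain ⟨C3, p3, h3⟩ := h.ci_A.bound
  refine ⟨1 + C1 + C2 + C3, by linarith, fun v hv => ?_⟩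
  have a1 := h1 v hv
  have a2 := h2 v hv
  have a3 := h3 v hv
  rw [norm_inv] at a2
  rw [norm_real, Real.norm_eq_abs, abs_of_pos (sV_pos v)] at a1 a2
  exact ⟨by linarith, by linarith, by linarith⟩

lemma CG.rh_bd (h : CG l ℓ) : ∃ C : ℝ, 1 ≤ C ∧ ∀ z ∈ UH, rh ℓ z ≤ C ∧ (rh ℓ z)⁻¹ ≤ C := by
  obtain ⟨C, p, hC⟩ := h.s_bd
  refine ⟨C ^ 2, one_le_pow₀ p, fun z hz => ?_⟩
  obtain ⟨a1, a2, -⟩ := hC _ (one_mem_Om hz)
  have e : rh ℓ z = sV ℓ (z, 1) ^ 2 := by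
    rw [rh, sV, ← Real.exp_nat_mul]; simp [pr]
  have s0 := sV_pos (ℓ := ℓ) (z, 1)
  rw [e, ← inv_pow]
  constructor <;> gcongr

lemma CG.curv_bd (h : CG l ℓ) : ∃ a C : ℝ, 0 < a ∧ ∀ v ∈ Om,
    a ≤ (1 + qV ℓ v) / sV ℓ v ^ 2 ∧ (1 + qV ℓ v) / sV ℓ v ^ 2 ≤ C := by
  have q0 : ∀ v ∈ Om, 0 < 1 + qV ℓ v := fun v hv => h.curv _ (pr_mem hv)
  have hq : CI l 0 0 (Em (AV ℓ)) := by simpa only [sub_self] using h.ci_A.Em
  have hi := cib_comp hq (fun z => (1 + z)⁻¹) ((contDiffOn_const.add hq.sm).inv fun v hv => by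
    rw [Em_AV h.sm hv]; exact_mod_cast (q0 v hv).ne')
  obtain ⟨C, p, hC⟩ := h.s_bd
  obtain ⟨C1, p1, h1⟩ := hq.bound
  obtain ⟨C2, p2, h2⟩ := hi.bound
  refine ⟨(C2 + 1)⁻¹ / C ^ 2, (1 + C1) * C ^ 2, by positivity, fun v hv => ?_⟩
  obtain ⟨a1, a2, -⟩ := hC v hv
  have a3 := h1 v hv
  have a4 := h2 v hv
  have a5 := q0 v hv
  have s0 := sV_pos (ℓ := ℓ) v
  simp only [Em_AV h.sm hv] at a3 a4
  rw [norm_real, Real.norm_eq_abs] at a3
  rw [norm_inv, ← ofReal_one, ← ofReal_add, norm_real, Real.norm_eq_abs, abs_of_pos a5] at a4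
  have a6 : (C2 + 1)⁻¹ ≤ 1 + qV ℓ v := by
    rw [inv_le_comm₀ (by positivity) a5]; linarith
  constructor
  · gcongr
  · rw [div_eq_mul_inv, ← inv_pow]
    gcongr
    exact (le_abs_self _).trans a3

end Pool.Agent.Lib.MP_a52643_an
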