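import Pool.Agent.Lib.MP_a52643_an.VC.TwoV

/-!
Propagation of truncated square integrability along an approximate ladder.
-/

open Complex MeasureTheory Set Filter Topology Asymptotics Metric
open scoped ComplexConjugate ContDiff ENNReal Laplacian

noncomputable section

namespace Pool.Agent.Lib.MP_a52643_an

variable {ℓ : ℂ → ℝ} {Cb : ℤ → V → ℝ} {J : Type} {l : Filter J} {m : J → ℝ} {Φ : J → ℤ → V → ℂ}

lemma cpv_moll {U W : ℂ → ℂ} (hU : Continuous U) (hW : ContDiff ℝ 1 W) (z : ℂ) (ε : ℝ) :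
    moll ε U z = ∫ a, ((hk a : ℂ) * (U (z + ε • a) - ε * dz W (z + ε • a))
      - dz (fun a => (hk a : ℂ)) a * W (z + ε • a)) := by
  have h1 := ibp_shift_dz contDiff_hkC hcs_hkC hW z ε
  have cs : Continuous fun a : ℂ => z + ε • a := by fun_prop
  have ch := contDiff_hkC.continuous
  have i1 : Integrable fun a => dz (fun a => (hk a : ℂ)) a * W (z + ε • a) :=
    ((continuous_dz contDiff_hkC).mul (hW.continuous.comp cs)).integrable_of_hasCompactSupport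
      (hcs_dz hcs_hkC).mul_right
  have i2 : Integrable fun a => (hk a : ℂ) * U (z + ε • a) :=
    (ch.mul (hU.comp cs)).integrable_of_hasCompactSupport hcs_hkC.mul_right
  have i3 : Integrable fun a => (ε : ℂ) * ((hk a : ℂ) * dz W (z + ε • a)) :=
    ((ch.mul ((continuous_dz hW).comp cs)).integrable_of_hasCompactSupport
      hcs_hkC.mul_right).const_mul _
  have i4 : Integrable fun a => (hk a : ℂ) * U (z + ε • a)
      - (ε : ℂ) * ((hk a : ℂ) * dz W (z + ε • a)) := i2.sub i3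
  have e : ∀ a, (hk a : ℂ) * (U (z + ε • a) - ε * dz W (z + ε • a))
      = hk a * U (z + ε • a) - ε * (hk a * dz W (z + ε • a)) := fun a => by ring
  simp only [e]
  rw [integral_sub i4 i1, integral_sub i2 i3, integral_const_mul, h1, moll]
  ring

lemma cpv_cd_G (hs : ContDiffOn ℝ ∞ ℓ UH) :
    ContDiffOn ℝ 1 (fun w : ℂ => 2 * (w.im : ℂ) * (sV ℓ (w, 1) : ℂ)⁻¹) UH :=
  (contDiff_const.mul contDiff_imC).contDiffOn.mul
    (((cd_sC_inv hs).of_le (by simp)).comp (contDiff_id.prodMk contDiff_const).contDiffOn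
      fun _ hz => one_mem_Om hz)

/-- the lowering relation at the scale of the wavelength -/
lemma cpv_down {α : ℝ} {Ψ : ℤ → V → ℂ} (h : VL ℓ Cb α Ψ) (n : ℤ) {w : ℂ} (hw : w ∈ UH) {B Z : ℝ}
    (hB : 1 ≤ B) (b1 : Cb n (w, 1) ≤ B) (b2 : ‖AV ℓ (w, 1)‖ ≤ B) (b3 : sV ℓ (w, 1) ≤ B)
    (hZ : ‖1 / (2 * (w.im : ℂ))‖ ≤ Z) :
    α⁻¹ * ‖dzb (ph Ψ (n + 1)) w‖
      ≤ Z * (2 * B * (1 + ‖((n : ℂ) + 1)‖)) * (SN Ψ n (w, 1) + α⁻¹ * ‖ph Ψ (n + 1) w‖) := by
  have hα0 := h.m_pos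
  set ε := α⁻¹ with hεd
  have hε : 0 < ε := inv_pos.2 hα0
  have hε1 : ε ≤ 1 := inv_le_one_of_one_le₀ h.one_le
  have hεα : (ε : ℂ) * α = 1 := by exact_mod_cast inv_mul_cancel₀ hα0.ne'
  have hy : (w.im : ℂ) ≠ 0 := by exact_mod_cast (ne_of_gt hw)
  have e1 := h.toPre.dzb_ph ℓ α (n + 1) hw
  simp only [add_sub_cancel_right, Int.cast_add, Int.cast_one] at e1
  have e2 : (ε : ℂ) * dzb (ph Ψ (n + 1)) w = 1 / (2 * (w.im : ℂ)) *
      (-(sV ℓ (w, 1) * ph Ψ n w) - I * (n + 1) * (conj (AV ℓ (w, 1)) - 1) * (ε * ph Ψ (n + 1) w)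
        + I * (ε * eD ℓ α Ψ n (w, 1))) := by
    generalize (w.im : ℂ) = y at hy e1 ⊢
    field_simp
    linear_combination (-I * ε) * e1
      + (2 * y * ε * dzb (ph Ψ (n + 1)) w + ε * α * sV ℓ (w, 1) * ph Ψ n w) * I_mul_I
      - sV ℓ (w, 1) * ph Ψ n w * hεα
  have e3 := congrArg norm e2
  rw [norm_mul, Complex.norm_real, Real.norm_of_nonneg hε.le, norm_mul] at e3
  rw [e3, mul_assoc Z]
  refine mul_le_mul hZ ?_ (norm_nonneg _) ((norm_nonneg _).trans hZ)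
  have p0 := SN_nonneg Ψ n (w, 1)
  have p1 : ‖ph Ψ n w‖ ≤ SN Ψ n (w, 1) := h.toPre.norm_le_SN le_rfl _
  have p2 : 0 ≤ ε * ‖ph Ψ (n + 1) w‖ := by positivity
  have p3 := norm_nonneg ((n : ℂ) + 1)
  have q1 : ‖-((sV ℓ (w, 1) : ℂ) * ph Ψ n w)‖ ≤ B * SN Ψ n (w, 1) := by
    rw [norm_neg, norm_mul, Complex.norm_real, Real.norm_of_nonneg (sV_pos _).le]
    exact mul_le_mul b3 p1 (norm_nonneg _) (by linarith)
  have q2 : ‖I * (n + 1) * (conj (AV ℓ (w, 1)) - 1) * (ε * ph Ψ (n + 1) w)‖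
      ≤ ‖((n : ℂ) + 1)‖ * (2 * B) * (ε * ‖ph Ψ (n + 1) w‖) := by
    rw [norm_mul, norm_mul, norm_mul, norm_mul, norm_I, one_mul, Complex.norm_real,
      Real.norm_of_nonneg hε.le]
    refine mul_le_mul_of_nonneg_right (mul_le_mul_of_nonneg_left ((norm_sub_le _ _).trans ?_) p3) p2
    rw [Complex.norm_conj, norm_one]
    linarith
  have q3 : ‖I * (ε * eD ℓ α Ψ n (w, 1))‖ ≤ B * SN Ψ n (w, 1) := by
    rw [norm_mul, norm_mul, norm_I, one_mul, Complex.norm_real, Real.norm_of_nonneg hε.le]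
    exact (mul_le_of_le_one_left (norm_nonneg _) hε1).trans
      ((h.ed_le n (one_mem_Om hw)).trans (mul_le_mul_of_nonneg_right b1 p0))
  refine ((norm_add_le _ _).trans (add_le_add ((norm_sub_le _ _).trans (add_le_add q1 q2)) q3)).trans ?_
  have hB0 : 0 ≤ B := by linarith
  nlinarith [mul_nonneg hB0 (mul_nonneg p0 p3), mul_nonneg hB0 p2]

/-- the raising relation at the scale of the wavelength -/
lemma cpv_up {α : ℝ} {Ψ : ℤ → V → ℂ} (h : VL ℓ Cb α Ψ) (n : ℤ) {w : ℂ} (hw : w ∈ UH) {B : ℝ}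
    (hB : 1 ≤ B) (b1 : Cb n (w, 1) ≤ B) (b2 : ‖AV ℓ (w, 1)‖ ≤ B) (b4 : (sV ℓ (w, 1))⁻¹ ≤ B) :
    ‖ph Ψ (n + 1) w - (α⁻¹ : ℝ) * (2 * (w.im : ℂ) * (sV ℓ (w, 1) : ℂ)⁻¹ * dz (ph Ψ n) w)‖
      ≤ B * (‖(n : ℂ)‖ * (2 * B) + B) * SN Ψ n (w, 1) := by
  have hα0 := h.m_pos
  set ε := α⁻¹ with hεd
  have hε : 0 < ε := inv_pos.2 hα0
  have hε1 : ε ≤ 1 := inv_le_one_of_one_le₀ h.one_le
  have hεα : (ε : ℂ) * α = 1 := by exact_mod_cast inv_mul_cancel₀ hα0.ne'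
  have hs : (sV ℓ (w, 1) : ℂ)⁻¹ * sV ℓ (w, 1) = 1 := inv_mul_cancel₀ (sC_ne _)
  have e1 := h.toPre.dz_ph ℓ α n hw
  have e2 : ph Ψ (n + 1) w - ε * (2 * (w.im : ℂ) * (sV ℓ (w, 1) : ℂ)⁻¹ * dz (ph Ψ n) w)
      = I * ε * ((sV ℓ (w, 1) : ℂ)⁻¹
        * (n * (AV ℓ (w, 1) - 1) * ph Ψ n w + eU ℓ α Ψ n (w, 1))) := by
    generalize (sV ℓ (w, 1) : ℂ)⁻¹ = t at hs ⊢
    linear_combination (I * ε * t) * e1
      - (2 * ε * t * w.im * dz (ph Ψ n) w - ε * α * t * sV ℓ (w, 1) * ph Ψ (n + 1) w) * I_mul_I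
      - t * sV ℓ (w, 1) * ph Ψ (n + 1) w * hεα - ph Ψ (n + 1) w * hs
  have p0 := SN_nonneg Ψ n (w, 1)
  have p1 : ‖ph Ψ n w‖ ≤ SN Ψ n (w, 1) := h.toPre.norm_le_SN le_rfl _
  have hB0 : 0 ≤ B := by linarith
  rw [e2, norm_mul, norm_mul, norm_I, one_mul, Complex.norm_real, Real.norm_of_nonneg hε.le]
  refine (mul_le_of_le_one_left (norm_nonneg _) hε1).trans ?_
  rw [norm_mul, norm_inv, Complex.norm_real, Real.norm_of_nonneg (sV_pos _).le, mul_assoc B]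
  refine mul_le_mul b4 ((norm_add_le _ _).trans ?_) (norm_nonneg _) hB0
  rw [add_mul]
  refine add_le_add ?_ ((h.eu_le n (one_mem_Om hw)).trans (mul_le_mul_of_nonneg_right b1 p0))
  rw [norm_mul, norm_mul]
  refine mul_le_mul (mul_le_mul_of_nonneg_left ((norm_sub_le _ _).trans ?_) (norm_nonneg _)) p1
    (norm_nonneg _) (by positivity)
  rw [norm_one]
  linarith

theorem cpv_ladder (ok : OKC ℓ Cb) {K : Set ℂ} (hK : IsCompact K) (hU : K ⊆ UH) (n : ℤ) :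
    ∃ C T : ℝ, ∀ (α : ℝ) (Ψ : ℤ → V → ℂ), VL ℓ Cb α Ψ → T ≤ α → ∀ z ∈ K,
      ‖ph Ψ (n + 1) z‖ ≤ C * ∫ a, kS a * (SN Ψ n (z + α⁻¹ • a, 1)
        + α⁻¹ * ‖ph Ψ (n + 1) (z + α⁻¹ • a)‖) := by
  obtain ⟨δ, hδ, hδU⟩ := hK.exists_cthickening_subset_open isOpen_UH hU
  have hK1 := hK.cthickening (r := δ)
  obtain ⟨θ, hθ, -, hθs, hθ1, -⟩ := exists_bump hK1 isOpen_UH hδU
  set g : ℂ → ℂ := fun w => (θ w : ℂ) * (2 * (w.im : ℂ) * (sV ℓ (w, 1) : ℂ)⁻¹) with hgd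
  have cg : ContDiff ℝ 1 g := contDiff_cut hθ hθs (cpv_cd_G ok.sm)
  obtain ⟨Y, hY⟩ := hK1.exists_bound_of_continuousOn cg.continuous.continuousOn
  obtain ⟨Y', hY'⟩ := hK1.exists_bound_of_continuousOn (continuous_dz cg).continuousOn
  obtain ⟨Z, hZ⟩ := hK1.exists_bound_of_continuousOn
    ((contOn_inv_im 1 2 two_ne_zero).mono hδU)
  obtain ⟨B, hB, hb⟩ := ok.bound_ph hK1 hδU n
  obtain ⟨M, hM0, hM1, hM2⟩ := exists_hk_bound
  have hc := cH_pos
  have hB0 : 0 ≤ B := by linarith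
  set C1 : ℝ := Z * (2 * B * (1 + ‖((n : ℂ) + 1)‖)) with hC1
  set C2 : ℝ := M * (B * (‖(n : ℂ)‖ * (2 * B) + B) + |Y'|) + M * |Y| with hC2
  refine ⟨cH⁻¹ * C1 + C2, δ⁻¹, fun α Ψ hL hT z hz => ?_⟩
  have hα0 := hL.m_pos
  have hdn := fun w hw => cpv_down (B := B) (Z := Z) hL n (w := w) hw hB
  have hup := fun w hw => cpv_up (B := B) hL n (w := w) hw hB
  set ε := α⁻¹ with hεd
  have hε : 0 < ε := inv_pos.2 hα0
  have hε1 : ε ≤ 1 := inv_le_one_of_one_le₀ hL.one_le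
  have hεδ : ε ≤ δ := inv_le_of_inv_le₀ hδ hT
  have hm : ∀ a : ℂ, ‖a‖ ≤ 1 → z + ε • a ∈ cthickening δ K := fun a ha =>
    mem_cthickening_of_dist_le _ z δ K hz (by
      rw [dist_self_add_left, norm_smul, Real.norm_of_nonneg hε.le]; nlinarith)
  set U : ℂ → ℂ := fun w => (θ w : ℂ) * ph Ψ (n + 1) w with hUd
  set U0 : ℂ → ℂ := fun w => (θ w : ℂ) * ph Ψ n w with hU0d
  have cU : ContDiff ℝ 1 U := contDiff_cut hθ hθs (hL.toPre.cd_ph _)
  have cU0 : ContDiff ℝ 1 U0 := contDiff_cut hθ hθs (hL.toPre.cd_ph _)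
  have ev : ∀ w ∈ cthickening δ K, ∀ F : ℂ → ℂ, (fun w => (θ w : ℂ) * F w) =ᶠ[𝓝 w] F := by
    intro w hw F
    filter_upwards [eventually_nhdsSet_iff_forall.1 hθ1 w hw] with u hu
    simp [hu]
  have cs : Continuous fun a : ℂ => z + ε • a := by fun_prop
  have cph : ContinuousOn (fun a : ℂ => ‖ph Ψ (n + 1) (z + ε • a)‖) (closedBall 0 1) :=
    ((hL.toPre.cd_ph _).continuousOn.comp cs.continuousOn
      fun a ha => hδU (hm a (by simpa using ha))).norm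
  have cSN : ContinuousOn (fun a : ℂ => SN Ψ n (z + ε • a, 1)) (closedBall 0 1) :=
    (hL.toPre.cont_SN n).comp (cs.prodMk continuous_const).continuousOn
      fun a ha => one_mem_Om (hδU (hm a (by simpa using ha)))
  have iG : Integrable fun a => kS a * (SN Ψ n (z + ε • a, 1) + ε * ‖ph Ψ (n + 1) (z + ε • a)‖) :=
    integrable_kS_mul (cSN.add (continuousOn_const.mul cph))
  have b1 : ‖U z - moll ε U z‖ ≤ cH⁻¹ * C1 *
      ∫ a, kS a * (SN Ψ n (z + ε • a, 1) + ε * ‖ph Ψ (n + 1) (z + ε • a)‖) := by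
    refine (cauchy_pompeiu cU z hε).trans ?_
    rw [div_eq_inv_mul, mul_assoc, mul_assoc]
    refine mul_le_mul_of_nonneg_left ?_ (by positivity)
    rw [← integral_const_mul, ← integral_const_mul]
    refine integral_mono_of_nonneg
      (Eventually.of_forall fun a => mul_nonneg hε.le (mul_nonneg (kS_nonneg a) (norm_nonneg _)))
      (iG.const_mul _) (Eventually.of_forall fun a => ?_)
    by_cases ha : ‖a‖ ≤ 1
    · have hw := hm a ha
      have e0 : dzb U (z + ε • a) = dzb (ph Ψ (n + 1)) (z + ε • a) := by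
        simp only [dzb, (ev _ hw _).fderiv_eq, hUd]
      obtain ⟨a1, a2, a3, -⟩ := hb _ hw
      have := mul_le_mul_of_nonneg_left (hdn _ (hδU hw) a1 a2 a3 (hZ _ hw)) (kS_nonneg a)
      simp only [e0]
      linarith
    · simp [kS_zero (not_le.1 ha)]
  have b2 : ‖moll ε U z‖ ≤ C2 *
      ∫ a, kS a * (SN Ψ n (z + ε • a, 1) + ε * ‖ph Ψ (n + 1) (z + ε • a)‖) := by
    rw [cpv_moll cU.continuous (cg.mul cU0) z ε, ← integral_const_mul]
    refine norm_integral_le_of_norm_le (iG.const_mul _) ?_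
    filter_upwards [(volume : Measure ℂ).ae_ne 0] with a ha0
    by_cases ha : ‖a‖ ≤ 1
    · have hw := hm a ha
      generalize z + ε • a = w at hw ⊢
      have e0 : U0 w = ph Ψ n w := (ev _ hw _).eq_of_nhds
      have e1 : U w = ph Ψ (n + 1) w := (ev _ hw _).eq_of_nhds
      have e2 : dz U0 w = dz (ph Ψ n) w := by simp only [dz, (ev _ hw _).fderiv_eq, hU0d]
      have e3 : g w = 2 * (w.im : ℂ) * (sV ℓ (w, 1) : ℂ)⁻¹ :=
        (ev _ hw fun w => 2 * (w.im : ℂ) * (sV ℓ (w, 1) : ℂ)⁻¹).eq_of_nhds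
      obtain ⟨a1, a2, -, a4⟩ := hb _ hw
      have u1 := hup _ (hδU hw) a1 a2 a4
      rw [← e3] at u1
      have p0 := SN_nonneg Ψ n (w, 1)
      have p1 : ‖ph Ψ n w‖ ≤ SN Ψ n (w, 1) := hL.toPre.norm_le_SN le_rfl _
      have p2 : 0 ≤ ε * ‖ph Ψ (n + 1) w‖ := by positivity
      have p3 := one_le_kS ha0 ha
      have u2 : ‖(ε : ℂ) * (dz g w * ph Ψ n w)‖ ≤ |Y'| * SN Ψ n (w, 1) := by
        rw [norm_mul, norm_mul, Complex.norm_real, Real.norm_of_nonneg hε.le]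
        exact (mul_le_of_le_one_left (by positivity) hε1).trans
          (mul_le_mul ((hY' _ hw).trans (le_abs_self _)) p1 (norm_nonneg _) (abs_nonneg _))
      have u3 : ‖U w - ε * dz (fun w => g w * U0 w) w‖
          ≤ (B * (‖(n : ℂ)‖ * (2 * B) + B) + |Y'|) * SN Ψ n (w, 1) := by
        rw [dz_mul (cg.differentiable one_ne_zero _) (cU0.differentiable one_ne_zero _), e0, e1, e2,
          add_mul, show ph Ψ (n + 1) w - ε * (dz g w * ph Ψ n w + g w * dz (ph Ψ n) w)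
            = (ph Ψ (n + 1) w - ε * (g w * dz (ph Ψ n) w)) - ε * (dz g w * ph Ψ n w) by ring]
        exact (norm_sub_le _ _).trans (add_le_add u1 u2)
      have u4 : ‖g w * U0 w‖ ≤ |Y| * SN Ψ n (w, 1) := by
        rw [norm_mul, e0]
        exact mul_le_mul ((hY _ hw).trans (le_abs_self _)) p1 (norm_nonneg _) (abs_nonneg _)
      have u5 : ‖(hk a : ℂ) * (U w - ε * dz (fun w => g w * U0 w) w)
          - dz (fun a => (hk a : ℂ)) a * (g w * U0 w)‖ ≤ C2 * SN Ψ n (w, 1) := by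
        refine (norm_sub_le _ _).trans ?_
        rw [norm_mul, norm_mul (dz _ a), hC2, add_mul, mul_assoc M, mul_assoc M]
        exact add_le_add (mul_le_mul (hM1 a) u3 (norm_nonneg _) hM0)
          (mul_le_mul (hM2 a) u4 (norm_nonneg _) hM0)
      refine u5.trans (mul_le_mul_of_nonneg_left ?_ (by positivity))
      nlinarith
    · rw [dz_hkC_zero (not_le.1 ha), hk_zero (not_le.1 ha), kS_zero (not_le.1 ha)]
      simp
  have e : ph Ψ (n + 1) z = (U z - moll ε U z) + moll ε U z := by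
    rw [sub_add_cancel]
    exact (ev z (self_subset_cthickening K hz) _).eq_of_nhds.symm
  rw [e, add_mul]
  exact (norm_add_le _ _).trans (add_le_add b1 b2)

theorem ladder_ptV (ok : OKC ℓ Cb) {K : Set ℂ} (hK : IsCompact K) (hU : K ⊆ UH) (n : ℕ) :
    ∃ C T : ℝ, ∀ (α : ℝ) (Ψ : ℤ → V → ℂ), VL ℓ Cb α Ψ → T ≤ α → ∀ z ∈ K,
      ‖ph Ψ (n + 1) z‖ ≤ C * ∫ a, kS a * (SN Ψ n (z + α⁻¹ • a, 1)
        + α⁻¹ * ‖ph Ψ (n + 1) (z + α⁻¹ • a)‖) :=
  cpv_ladder ok hK hU n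

lemma cpv_lh2 (h : FamV ℓ Cb l m Φ) (n : ℤ) : LH l fun j z => ‖ph (Φ j) n z‖ ^ 2 := by
  refine LB.lh ?_ (fun j z => by positivity)
    fun j => ((h.vl j).toPre.cd_ph n).continuousOn.norm.pow 2
  intro R
  obtain ⟨C, hC⟩ := h.two n R
  refine ⟨C, hC.mono fun j hj => le_of_eq_of_le ?_ hj⟩
  refine setIntegral_congr_fun (measurableSet_KB R) fun v hv => ?_
  simp only [(h.vl j).toPre.norm_ph n (KB_subset_Om R hv)]

lemma cpv_step (h : FamV ℓ Cb l m Φ) (n : ℕ) (h0 : UU l fun j z => SN (Φ j) n (z, 1) ^ 2) :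
    UU l fun j z => ‖ph (Φ j) (n + 1) z‖ ^ 2 := by
  have c : ∀ j n, ContinuousOn (fun z => ‖ph (Φ j) n z‖) UH := fun j n =>
    ((h.vl j).toPre.cd_ph n).continuousOn.norm
  have c' : ∀ j, ContinuousOn (fun z : ℂ => SN (Φ j) n (z, 1)) UH := fun j =>
    ((h.vl j).toPre.cont_SN n).comp (by fun_prop) fun z hz => one_mem_Om hz
  have t := h.tend.inv_tendsto_atTop
  have r0 : ∀ j, 0 ≤ (m j)⁻¹ := fun j => inv_nonneg.2 (h.vl j).m_pos.le
  have s1 : UU l fun j z => ((m j)⁻¹) ^ 2 * ‖ph (Φ j) (n + 1) z‖ ^ 2 := by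
    refine UU.of_small (fun j => continuousOn_const.mul ((c j _).pow 2))
      (fun j z => by positivity) fun K hK hU δ hδ => ?_
    obtain ⟨C, C0, hC⟩ := (cpv_lh2 h (n + 1)).vol (fun j => (c j _).pow 2)
      (fun j z => by positivity) hK hU
    have t2 : Tendsto (fun j => ((m j)⁻¹) ^ 2 * C) l (𝓝 0) := by
      simpa using (t.pow 2).mul_const C
    filter_upwards [hC, t2.eventually (ge_mem_nhds hδ)] with j h1 h2
    rw [integral_const_mul]
    exact (mul_le_mul_of_nonneg_left h1 (by positivity)).trans h2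
  refine UU.avg measurable_kS integrable_kS kS_nonneg (fun a => kS_zero) r0 t
    (g := fun j z => SN (Φ j) n (z, 1) + (m j)⁻¹ * ‖ph (Φ j) (n + 1) z‖)
    (fun j => (c' j).add (continuousOn_const.mul (c j _)))
    (fun j z => add_nonneg (SN_nonneg _ _ _) (mul_nonneg (r0 j) (norm_nonneg _))) ?_
    (fun j => c j _) (fun j z => norm_nonneg _) fun K hK hU => ?_
  · refine (h0.add s1).of_le (fun j => ((c' j).add (continuousOn_const.mul (c j _))).pow 2)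
      (fun j z => by positivity) fun K _ _ => ⟨2, Eventually.of_forall fun j z _ => ?_⟩
    nlinarith [sq_nonneg (SN (Φ j) n (z, 1) - (m j)⁻¹ * ‖ph (Φ j) (n + 1) z‖)]
  · obtain ⟨C, T, hC⟩ := ladder_ptV h.ok hK hU n
    exact ⟨C, (h.tend.eventually_ge_atTop T).mono fun j hj => hC _ _ (h.vl j) hj⟩

theorem FamV.uu (h : FamV ℓ Cb l m Φ) (h0 : UU l fun j z => ‖ph (Φ j) 0 z‖ ^ 2) (n : ℤ) :
    UU l fun j z => ‖ph (Φ j) n z‖ ^ 2 := by
  have key : ∀ n : ℕ, UU l fun j z => ‖ph (Φ j) n z‖ ^ 2 := by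
    intro n
    induction n using Nat.strong_induction_on with
    | _ n ih =>
      rcases n with _ | n
      · exact h0
      · exact_mod_cast cpv_step h n (UU_SN (fun j => (h.vl j).toPre) n fun k hk =>
          ih k (by simpa [Nat.lt_succ_iff] using hk))
  rcases Int.eq_nat_or_neg n with ⟨k, rfl | rfl⟩
  · exact key k
  · simpa only [ph, (h.vl _).toPre.norm_neg] using key k

end Pool.Agent.Lib.MP_a52643_an
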