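import Pool.Agent.Lib.MP_a52643_an.VC.TwoV

/-!
Infinitesimal invariance of the limit measure under the geodesic flow.
-/

open Complex MeasureTheory Set Filter Topology Asymptotics Metric
open scoped ComplexConjugate ContDiff ENNReal Laplacian

noncomputable section

namespace Pool.Agent.Lib.MP_a52643_an

variable {ℓ : ℂ → ℝ} {Cb : ℤ → V → ℝ} {J : Type} {U : Ultrafilter J} {m : J → ℝ}
  {Φ : J → ℤ → V → ℂ}

/-- derivative along the fibres -/
def infW (F : V → ℂ) (v : V) : ℂ := fderiv ℝ F v (I • v)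

lemma inf_cont_W {F : V → ℂ} (hF : ContDiffOn ℝ 1 F Om) : ContinuousOn (infW F) Om :=
  (contDiffOn_fderiv_lin (n := 0) (by simpa using hF) (smulL I)).continuousOn

lemma inf_cs_W {F : V → ℂ} (h : CS F) : CS (infW F) := h.fderiv_lin (smulL I)

lemma inf_cs_add {F G : V → ℂ} (h : CS F) (h' : CS G) : CS fun v => F v + G v := by
  obtain ⟨R, hR⟩ := h
  obtain ⟨R', hR'⟩ := h'
  exact ⟨max R R', fun v hv h => by
    simp [hR v hv ((le_max_left _ _).trans_lt h), hR' v hv ((le_max_right _ _).trans_lt h)]⟩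

lemma inf_W_mul {F G : V → ℂ} {v : V} (hF : DifferentiableAt ℝ F v)
    (hG : DifferentiableAt ℝ G v) :
    infW (fun w => F w * G w) v = infW F v * G v + F v * infW G v := by
  simp only [infW, fderiv_fun_mul hF hG]
  simp; ring

/-- integration by parts along the fibres against a homogeneous function -/
lemma inf_ibp {τ G : V → ℂ} {k : ℤ} (hτ : ContDiffOn ℝ 1 τ Om) (hc : CS τ)
    (hG : ContDiffOn ℝ 1 G Om) (hk : Hom k G) :
    ∫ v, infW τ v * G v ∂mV = 2 * I * k * ∫ v, τ v * G v ∂mV := by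
  have h := integral_mV_fderiv (hτ.mul hG) (hc.mul_right G) (smulL I)
    (by simp [c1, c2, c3, c4]) (fun v => by simp [fderiv_dt]; ring)
  have e : ∀ᵐ v ∂mV, fderiv ℝ (fun v => τ v * G v) v (smulL I v)
      = infW τ v * G v - 2 * I * k * (τ v * G v) :=
    ae_Om.mono fun v hv => by
      have d := diffAt_of_Om hG one_ne_zero hv
      have e1 := inf_W_mul (diffAt_of_Om hτ one_ne_zero hv) d
      have e2 : infW G v = _ := hk.fderiv_I hv d
      rw [e2] at e1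
      exact e1.trans (by ring)
  rw [integral_congr_ae e, integral_sub
    (((inf_cs_W hc).mul_right G).integrable ((inf_cont_W hτ).mul hG.continuousOn))
    (((hc.mul_right G).integrable (hτ.continuousOn.mul hG.continuousOn)).const_mul _),
    integral_const_mul] at h
  linear_combination h

def infP (ℓ : ℂ → ℝ) (τ : V → ℂ) (v : V) : ℂ :=
  Ep τ v + -(I / 2) * infW (fun w => τ w * AV ℓ w) v

def infQ (ℓ : ℂ → ℝ) (τ : V → ℂ) (v : V) : ℂ :=
  Em τ v + I / 2 * infW (fun w => τ w * conj (AV ℓ w)) v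

section PQ

variable {τ : V → ℂ}

lemma inf_cdA (hs : ContDiffOn ℝ ∞ ℓ UH) : ContDiffOn ℝ 1 (AV ℓ) Om :=
  (cd_AV hs).of_le (by simp)

lemma inf_cont_P (hs : ContDiffOn ℝ ∞ ℓ UH) (hτ : ContDiffOn ℝ 1 τ Om) :
    ContinuousOn (infP ℓ τ) Om :=
  (continuousOn_Ep hτ).add (continuousOn_const.mul (inf_cont_W (hτ.mul (inf_cdA hs))))

lemma inf_cont_Q (hs : ContDiffOn ℝ ∞ ℓ UH) (hτ : ContDiffOn ℝ 1 τ Om) :
    ContinuousOn (infQ ℓ τ) Om :=
  (continuousOn_Em hτ).add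
    (continuousOn_const.mul (inf_cont_W (hτ.mul (contDiffOn_conj' (inf_cdA hs)))))

lemma inf_cs_P (hc : CS τ) : CS (infP ℓ τ) :=
  inf_cs_add hc.Ep ((inf_cs_W (hc.mul_right _)).mul_left fun _ => -(I / 2))

lemma inf_cs_Q (hc : CS τ) : CS (infQ ℓ τ) :=
  inf_cs_add hc.Em ((inf_cs_W (hc.mul_right _)).mul_left fun _ => I / 2)

/-- the exact identity for one approximate ladder -/
lemma inf_XX {Ψ : ℤ → V → ℂ} (h : Pre Ψ) (hs : ContDiffOn ℝ ∞ ℓ UH) (r : ℝ) (hc : CS τ)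
    (hτ : ContDiffOn ℝ 1 τ Om) (a b : ℤ) :
    (∫ v, infP ℓ τ v * TT Ψ (a - 1) b v ∂mV) + ∫ v, infQ ℓ τ v * TT Ψ a (b - 1) v ∂mV
      = -((∫ v, τ v * (eU ℓ r Ψ (a - 1) v * conj (Ψ b v)) ∂mV)
        + (∫ v, τ v * (conj (eD ℓ r Ψ (b - 1) v) * Ψ (a - 1) v) ∂mV)
        + (∫ v, τ v * (eD ℓ r Ψ (a - 1) v * conj (Ψ (b - 1) v)) ∂mV)
        + ∫ v, τ v * (conj (eU ℓ r Ψ (b - 1) v) * Ψ a v) ∂mV) := by
  have cA := inf_cdA hs
  have cA' := contDiffOn_conj' cA
  have t1 := h.cd_TT (a - 1) b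
  have t2 := h.cd_TT a (b - 1)
  have e1 := ibp_Ep hτ hc t1
  have e2 := ibp_Em hτ hc t2
  have e3 := inf_ibp (hτ.mul cA) (hc.mul_right _) t1 (h.hom_TT _ _)
  have e4 := inf_ibp (hτ.mul cA') (hc.mul_right _) t2 (h.hom_TT _ _)
  have cj : ∀ {F : V → ℂ}, ContinuousOn F Om → ContinuousOn (fun v => conj (F v)) Om :=
    fun hF => continuous_conj.comp_continuousOn hF
  have ii : ∀ {F : V → ℂ}, ContinuousOn F Om → Integrable (fun v => τ v * F v) mV :=
    fun hF => (hc.mul_right _).integrable (hτ.continuousOn.mul hF)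
  have p1 : ∫ v, infP ℓ τ v * TT Ψ (a - 1) b v ∂mV = (∫ v, Ep τ v * TT Ψ (a - 1) b v ∂mV)
      + -(I / 2) * ∫ v, infW (fun w => τ w * AV ℓ w) v * TT Ψ (a - 1) b v ∂mV := by
    rw [← integral_const_mul, ← integral_add
      ((hc.Ep.mul_right _).integrable ((continuousOn_Ep hτ).mul t1.continuousOn))
      ((((inf_cs_W (hc.mul_right _)).mul_right _).integrable
        ((inf_cont_W (hτ.mul cA)).mul t1.continuousOn)).const_mul _)]
    congr 1; ext v; simp only [infP]; ring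
  have p2 : ∫ v, infQ ℓ τ v * TT Ψ a (b - 1) v ∂mV = (∫ v, Em τ v * TT Ψ a (b - 1) v ∂mV)
      + I / 2 * ∫ v, infW (fun w => τ w * conj (AV ℓ w)) v * TT Ψ a (b - 1) v ∂mV := by
    rw [← integral_const_mul, ← integral_add
      ((hc.Em.mul_right _).integrable ((continuousOn_Em hτ).mul t2.continuousOn))
      ((((inf_cs_W (hc.mul_right _)).mul_right _).integrable
        ((inf_cont_W (hτ.mul cA')).mul t2.continuousOn)).const_mul _)]
    congr 1; ext v; simp only [infQ]; ring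
  have i1 := ii (continuousOn_Ep t1)
  have i2 := ii (continuousOn_Em t2)
  have i3 : Integrable (fun v => τ v * AV ℓ v * TT Ψ (a - 1) b v) mV :=
    ((hc.mul_right _).mul_right _).integrable
      ((hτ.continuousOn.mul cA.continuousOn).mul t1.continuousOn)
  have i4 : Integrable (fun v => τ v * conj (AV ℓ v) * TT Ψ a (b - 1) v) mV :=
    ((hc.mul_right _).mul_right _).integrable
      ((hτ.continuousOn.mul cA'.continuousOn).mul t2.continuousOn)
  have j1 : Integrable (fun v => τ v * (eU ℓ r Ψ (a - 1) v * conj (Ψ b v))) mV :=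
    ii ((h.cont_eU hs r _).mul (cj (h.cont _)))
  have j2 : Integrable (fun v => τ v * (conj (eD ℓ r Ψ (b - 1) v) * Ψ (a - 1) v)) mV :=
    ii ((cj (h.cont_eD hs r _)).mul (h.cont _))
  have j3 : Integrable (fun v => τ v * (eD ℓ r Ψ (a - 1) v * conj (Ψ (b - 1) v))) mV :=
    ii ((h.cont_eD hs r _).mul (cj (h.cont _)))
  have j4 : Integrable (fun v => τ v * (conj (eU ℓ r Ψ (b - 1) v) * Ψ a v)) mV :=
    ii ((cj (h.cont_eU hs r _)).mul (h.cont _))
  have f : (∫ v, τ v * Ep (TT Ψ (a - 1) b) v ∂mV) + ∫ v, τ v * Em (TT Ψ a (b - 1)) v ∂mV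
      = ((a - 1 - b : ℤ) : ℂ) * (∫ v, τ v * AV ℓ v * TT Ψ (a - 1) b v ∂mV)
        - ((a - (b - 1) : ℤ) : ℂ) * (∫ v, τ v * conj (AV ℓ v) * TT Ψ a (b - 1) v ∂mV)
        + ((∫ v, τ v * (eU ℓ r Ψ (a - 1) v * conj (Ψ b v)) ∂mV)
        + (∫ v, τ v * (conj (eD ℓ r Ψ (b - 1) v) * Ψ (a - 1) v) ∂mV)
        + (∫ v, τ v * (eD ℓ r Ψ (a - 1) v * conj (Ψ (b - 1) v)) ∂mV)
        + ∫ v, τ v * (conj (eU ℓ r Ψ (b - 1) v) * Ψ a v) ∂mV) := by
    rw [← integral_add i1 i2, ← integral_const_mul, ← integral_const_mul,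
      ← integral_sub (i3.const_mul _) (i4.const_mul _), ← integral_add j1 j2,
      ← integral_add (by exact j1.add j2) j3, ← integral_add (by exact (j1.add j2).add j3) j4,
      ← integral_add (by exact (i3.const_mul _).sub (i4.const_mul _))
        (by exact ((j1.add j2).add j3).add j4)]
    refine integral_congr_ae (ae_Om.mono fun v hv => ?_)
    have g1 : Ep (TT Ψ (a - 1) b) v = _ :=
      ((h.hasE ℓ r (a - 1) hv).mul (h.hasE ℓ r b hv).conj).ep
    have g2 : Em (TT Ψ a (b - 1)) v = _ :=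
      ((h.hasE ℓ r a hv).mul (h.hasE ℓ r (b - 1) hv).conj).em
    simp only [g1, g2, TT, sub_add_cancel, map_mul, map_add, map_sub, conj_I, conj_ofReal,
      map_intCast, Complex.conj_conj]
    push_cast
    ring
  rw [p1, p2, e3, e4]
  linear_combination e1 + e2 - f
    + (((a - (b - 1) : ℤ) : ℂ) * (∫ v, τ v * conj (AV ℓ v) * TT Ψ a (b - 1) v ∂mV)
      - ((a - 1 - b : ℤ) : ℂ) * (∫ v, τ v * AV ℓ v * TT Ψ (a - 1) b v ∂mV)) * I_mul_I

lemma inf_key {l : Filter J} (h : FamV ℓ Cb l m Φ) (hc : CS τ) (hτ : ContDiffOn ℝ 1 τ Om)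
    (a b : ℤ) : Tendsto (fun j => (∫ v, infP ℓ τ v * TT (Φ j) (a - 1) b v ∂mV)
      + ∫ v, infQ ℓ τ v * TT (Φ j) a (b - 1) v ∂mV) l (𝓝 0) := by
  have hs := h.ok.sm
  have hP := fun j => (h.vl j).toPre
  have cj : ∀ {F : V → ℂ}, ContinuousOn F Om → ContinuousOn (fun v => conj (F v)) Om :=
    fun hF => continuous_conj.comp_continuousOn hF
  have t1 := h.err (fun j => (hP j).cont_eU hs (m j) (a - 1)) (fun j => (h.vl j).eu (a - 1))
    (G := fun j v => conj (Φ j b v)) (fun j => cj ((hP j).cont b)) (b := b)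
    (fun j v => by simp) hc hτ.continuousOn
  have t2 := h.err (E := fun j v => conj (eD ℓ (m j) (Φ j) (b - 1) v))
    (fun j => cj ((hP j).cont_eD hs (m j) (b - 1))) (n := b - 1)
    (fun j v hv => by simpa using (h.vl j).ed (b - 1) v hv)
    (G := fun j v => Φ j (a - 1) v) (fun j => (hP j).cont _) (b := a - 1)
    (fun j v => rfl) hc hτ.continuousOn
  have t3 := h.err (fun j => (hP j).cont_eD hs (m j) (a - 1)) (fun j => (h.vl j).ed (a - 1))
    (G := fun j v => conj (Φ j (b - 1) v)) (fun j => cj ((hP j).cont _)) (b := b - 1)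
    (fun j v => by simp) hc hτ.continuousOn
  have t4 := h.err (E := fun j v => conj (eU ℓ (m j) (Φ j) (b - 1) v))
    (fun j => cj ((hP j).cont_eU hs (m j) (b - 1))) (n := b - 1)
    (fun j v hv => by simpa using (h.vl j).eu (b - 1) v hv)
    (G := fun j v => Φ j a v) (fun j => (hP j).cont _) (b := a)
    (fun j v => rfl) hc hτ.continuousOn
  have := (((t1.add t2).add t3).add t4).neg
  simp only [add_zero, neg_zero] at this
  exact this.congr fun j => (inf_XX (hP j) hs (m j) hc hτ a b).symm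

end PQ

section approx

variable {l : Filter J} {P Q : V → ℂ}

lemma inf_XX_sum (h : FamA l Φ) (cP : CS P) (hP : ContinuousOn P Om) (cQ : CS Q)
    (hQ : ContinuousOn Q Om)
    (key : ∀ a b : ℤ, Tendsto (fun j => (∫ v, P v * TT (Φ j) (a - 1) b v ∂mV)
      + ∫ v, Q v * TT (Φ j) a (b - 1) v ∂mV) l (𝓝 0)) (N : ℕ) :
    Tendsto (fun j => (∫ v, P v * (SS (Φ j) (-1) N v * conj (SS (Φ j) 0 N v)) ∂mV)
      + ∫ v, Q v * (SS (Φ j) 0 N v * conj (SS (Φ j) (-1) N v)) ∂mV) l (𝓝 0) := by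
  have := tendsto_finsetSum (Finset.range N) fun (a : ℕ) _ =>
    tendsto_finsetSum (Finset.range N) fun (b : ℕ) _ => key a b
  simp only [Finset.sum_const_zero] at this
  refine this.congr fun j => ?_
  have i1 : ∀ a b, Integrable (fun v => P v * TT (Φ j) a b v) mV := fun a b =>
    (cP.mul_right _).integrable (hP.mul ((h.lad j).cd_TT a b).continuousOn)
  have i2 : ∀ a b, Integrable (fun v => Q v * TT (Φ j) a b v) mV := fun a b =>
    (cQ.mul_right _).integrable (hQ.mul ((h.lad j).cd_TT a b).continuousOn)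
  simp only [SS_mul_conj, Finset.mul_sum, Finset.sum_add_distrib, add_zero, ← sub_eq_add_neg]
  rw [integral_finsetSum _ fun a _ => integrable_finsetSum _ fun b _ => i1 _ _,
    integral_finsetSum _ fun a _ => integrable_finsetSum _ fun b _ => i2 _ _]
  congr 1 <;> refine Finset.sum_congr rfl fun a _ => ?_
  · rw [integral_finsetSum _ fun b _ => i1 _ _]
  · rw [integral_finsetSum _ fun b _ => i2 _ _]

lemma inf_approx (h : FamA l Φ) (cP : CS P) (hP : ContinuousOn P Om) (cQ : CS Q)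
    (hQ : ContinuousOn Q Om)
    (key : ∀ a b : ℤ, Tendsto (fun j => (∫ v, P v * TT (Φ j) (a - 1) b v ∂mV)
      + ∫ v, Q v * TT (Φ j) a (b - 1) v ∂mV) l (𝓝 0)) :
    ∃ C : ℝ, ∀ N : ℕ, 1 ≤ N → ∀ᶠ j in l,
      ‖∫ v, (P v + Q v) * (‖SS (Φ j) 0 N v‖ ^ 2 : ℝ) ∂mV‖ ≤ C * Real.sqrt N := by
  obtain ⟨R1, C1, hC1, hR1, hb1⟩ := cP.exists_bound hP
  obtain ⟨R2, C2, hC2, hR2, hb2⟩ := cQ.exists_bound hQ
  obtain ⟨C, hC0, hC, hS⟩ := h.SS_bound (max R1 R2)
  refine ⟨1 + (C1 + C2) * (3 * C), fun N hN => ?_⟩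
  have t := (inf_XX_sum h cP hP cQ hQ key N).norm.eventually
    (gt_mem_nhds (by simp : ‖(0 : ℂ)‖ < 1))
  filter_upwards [t, hC (N - 1), hC (-1), hS N] with j h1 h2 h3 h4
  have hL := h.lad j
  set D : V → ℂ := fun v => Φ j (N - 1) v - Φ j (-1) v with hD
  have cD : ContinuousOn D Om := (hL.cont _).sub (hL.cont _)
  have cS := hL.cont_SS 0 N
  have cS' := hL.cont_SS (-1) N
  have cj : ∀ {F : V → ℂ}, ContinuousOn F Om → ContinuousOn (fun v => conj (F v)) Om :=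
    fun hF => continuous_conj.comp_continuousOn hF
  have ip : ∀ {F : V → ℂ}, ContinuousOn F Om → Integrable (fun v => P v * F v) mV :=
    fun hF => (cP.mul_right _).integrable (hP.mul hF)
  have im : ∀ {F : V → ℂ}, ContinuousOn F Om → Integrable (fun v => Q v * F v) mV :=
    fun hF => (cQ.mul_right _).integrable (hQ.mul hF)
  have i1 : Integrable (fun v => P v * (SS (Φ j) (-1) N v * conj (SS (Φ j) 0 N v))) mV :=
    ip (cS'.mul (cj cS))
  have i2 : Integrable (fun v => Q v * (SS (Φ j) 0 N v * conj (SS (Φ j) (-1) N v))) mV :=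
    im (cS.mul (cj cS'))
  have i3 : Integrable (fun v => P v * (D v * conj (SS (Φ j) 0 N v))) mV := ip (cD.mul (cj cS))
  have i4 : Integrable (fun v => Q v * (SS (Φ j) 0 N v * conj (D v))) mV := im (cS.mul (cj cD))
  have e : ∫ v, (P v + Q v) * (‖SS (Φ j) 0 N v‖ ^ 2 : ℝ) ∂mV
      = ((∫ v, P v * (SS (Φ j) (-1) N v * conj (SS (Φ j) 0 N v)) ∂mV)
        + ∫ v, Q v * (SS (Φ j) 0 N v * conj (SS (Φ j) (-1) N v)) ∂mV)
        + (∫ v, P v * (D v * conj (SS (Φ j) 0 N v)) ∂mV)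
        + ∫ v, Q v * (SS (Φ j) 0 N v * conj (D v)) ∂mV := by
    rw [← integral_add i1 i2, ← integral_add (by exact i1.add i2) i3,
      ← integral_add (by exact (i1.add i2).add i3) i4]
    congr 1; ext v
    have e1 : SS (Φ j) (-1) N v = SS (Φ j) 0 N v - D v := by rw [SS_sub (Φ j) N v]; simp [hD]
    rw [← mul_conj_sq, e1, map_sub]; ring
  have hsq : 1 ≤ Real.sqrt N := Real.one_le_sqrt.2 (by exact_mod_cast hN)
  have hD2 : ∫ v in KB (max R1 R2), ‖D v‖ ^ 2 ∂mV ≤ 4 * C := by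
    have j1 : IntegrableOn (fun v => ‖Φ j (N - 1) v‖ ^ 2) (KB (max R1 R2)) mV :=
      integrableOn_KB ((hL.cont _).norm.pow 2) _
    have j2 : IntegrableOn (fun v => ‖Φ j (-1) v‖ ^ 2) (KB (max R1 R2)) mV :=
      integrableOn_KB ((hL.cont _).norm.pow 2) _
    calc _ ≤ ∫ v in KB (max R1 R2), 2 * (‖Φ j (N - 1) v‖ ^ 2 + ‖Φ j (-1) v‖ ^ 2) ∂mV := by
          refine integral_mono (integrableOn_KB (cD.norm.pow 2) _) ((j1.add j2).const_mul _)
            fun v => ?_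
          have := norm_sub_le (Φ j (N - 1) v) (Φ j (-1) v)
          have h0 := norm_nonneg (Φ j (N - 1) v - Φ j (-1) v)
          simp only [hD]
          nlinarith [sq_nonneg (‖Φ j (N - 1) v‖ - ‖Φ j (-1) v‖)]
      _ ≤ _ := by rw [integral_const_mul, integral_add j1 j2]; linarith
  have hm := int_norm_mul_le cD cS (max R1 R2) (t := Real.sqrt N) (by linarith)
  have hm2 : ∫ v in KB (max R1 R2), ‖D v‖ * ‖SS (Φ j) 0 N v‖ ∂mV ≤ 3 * C * Real.sqrt N := by
    have a1 : (Real.sqrt N)⁻¹ * ∫ v in KB (max R1 R2), ‖SS (Φ j) 0 N v‖ ^ 2 ∂mV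
        ≤ Real.sqrt N * C := by
      rw [inv_mul_le_iff₀ (by linarith), ← mul_assoc, Real.mul_self_sqrt (Nat.cast_nonneg N)]
      exact h4
    nlinarith [mul_le_mul_of_nonneg_left hD2 (by linarith : 0 ≤ Real.sqrt N)]
  have n1 := norm_integral_mul_le (R := max R1 R2)
    (fun v hv h' => hR1 v hv ((le_max_left _ _).trans_lt h')) hb1 (cD.mul (cj cS))
  have n2 := norm_integral_mul_le (R := max R1 R2)
    (fun v hv h' => hR2 v hv ((le_max_right _ _).trans_lt h')) hb2 (cS.mul (cj cD))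
  simp only [Pi.mul_apply, norm_mul, RCLike.norm_conj] at n1 n2
  simp only [mul_comm ‖SS _ _ _ _‖] at n2
  rw [e]
  refine norm_add₃_le.trans ?_
  nlinarith [mul_le_mul_of_nonneg_left hm2 hC1, mul_le_mul_of_nonneg_left hm2 hC2]

end approx

/-- the sum of the two test functions is the derivative along the geodesic field -/
lemma inf_P_add_Q (hs : ContDiffOn ℝ ∞ ℓ UH) {F : V → ℝ} (hF : ContDiff ℝ 1 F) {v : V}
    (hv : v ∈ Om) : infP ℓ (fun w => (sV ℓ w : ℂ) * (F w : ℂ)) v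
      + infQ ℓ (fun w => (sV ℓ w : ℂ) * (F w : ℂ)) v
      = ((sV ℓ v * fderiv ℝ F v (YV ℓ v) : ℝ) : ℂ) := by
  have hF' : ContDiff ℝ 1 fun v => (F v : ℂ) := ofRealCLM.contDiff.comp hF
  have dF : DifferentiableAt ℝ (fun v => (F v : ℂ)) v := hF'.differentiable one_ne_zero v
  have hS := hasE_sC hs hv
  have dA := diffAt_of_Om (inf_cdA hs) one_ne_zero hv
  have dA' := differentiableAt_conj' dA
  have dτ : DifferentiableAt ℝ (fun w => (sV ℓ w : ℂ) * (F w : ℂ)) v := hS.diff.mul dF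
  have w1 : infW (AV ℓ) v = _ := (hom_AV hs).fderiv_I hv dA
  have w2 : infW (fun w => conj (AV ℓ w)) v = _ := (hom_AV hs).conj.fderiv_I hv dA'
  have w3 : infW (fun w => (sV ℓ w : ℂ)) v = _ := hom_sC.fderiv_I hv hS.diff
  have e2 : fderiv ℝ (fun v => (F v : ℂ)) v = _ :=
    (ofRealCLM.hasFDerivAt.comp v (hF.differentiable one_ne_zero v).hasFDerivAt).fderiv
  have e3 := Ep_add_Em (fun v => (F v : ℂ)) v
  have e4 : infW (fun v => (F v : ℂ)) v = (fderiv ℝ F v (I • v) : ℝ) := by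
    simp [infW, e2]
  have e5 : fderiv ℝ (fun v => (F v : ℂ)) v (cj v) = (fderiv ℝ F v (cj v) : ℝ) := by
    rw [e2]; rfl
  have e6 : fderiv ℝ F v (YV ℓ v)
      = -fderiv ℝ F v (cj v) + (AV ℓ v).im * fderiv ℝ F v (I • v) := by
    rw [YV, map_add, map_neg, map_smul, smul_eq_mul]
  have e7 := Complex.sub_conj (AV ℓ v)
  rw [e5] at e3
  rw [infP, infQ, inf_W_mul dτ dA, inf_W_mul dτ dA', inf_W_mul hS.diff dF, Ep_mul hS.diff dF,
    Em_mul hS.diff dF, hS.ep, hS.em, w1, w2, w3, e4, e6]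
  push_cast at e7 ⊢
  linear_combination (sV ℓ v : ℂ) * e3
    - I / 2 * (sV ℓ v : ℂ) * (fderiv ℝ F v (I • v) : ℝ) * e7
    + ((sV ℓ v : ℂ) * (F v : ℂ) * (AV ℓ v + conj (AV ℓ v))
      - (sV ℓ v : ℂ) * (fderiv ℝ F v (I • v) : ℝ) * ((AV ℓ v).im : ℂ)) * I_mul_I

theorem IsLim.infV {μ : Measure V} (h : FamV ℓ Cb U m Φ) (hμ : IsLim U Φ μ) {F : V → ℝ}
    (hF : ContDiff ℝ 1 F) (hc : HasCompactSupport F) :
    ∫ v, sV ℓ v * fderiv ℝ F v (YV ℓ v) ∂μ = 0 := by
  have hs := h.ok.sm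
  have hF' : ContDiff ℝ 1 fun v => (F v : ℂ) := ofRealCLM.contDiff.comp hF
  have hτ : ContDiffOn ℝ 1 (fun w => (sV ℓ w : ℂ) * (F w : ℂ)) Om :=
    ((cd_sC hs).of_le (by simp)).mul hF'.contDiffOn
  have cτ : CS fun w => (sV ℓ w : ℂ) * (F w : ℂ) :=
    ((CS.of_hcs hc).comp (g := ofReal) (by simp)).mul_left _
  have c1 : ContinuousOn (fun v => ((sV ℓ v * fderiv ℝ F v (YV ℓ v) : ℝ) : ℂ)) Om :=
    ((inf_cont_P hs hτ).add (inf_cont_Q hs hτ)).congr fun v hv => (inf_P_add_Q hs hF hv).symm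
  have s1 : WCS fun v => ((sV ℓ v * fderiv ℝ F v (YV ℓ v) : ℝ) : ℂ) := by
    obtain ⟨R, hR⟩ := (hc.fderiv ℝ).isCompact.isBounded.subset_closedBall (0 : V)
    refine ⟨R, fun v _ _ hv => ?_⟩
    have : fderiv ℝ F v = 0 := image_eq_zero_of_notMem_tsupport fun h' => by
      have := hR h'
      simp only [mem_closedBall_zero_iff] at this
      linarith
    simp [this]
  apply Complex.ofReal_injective
  rw [← integral_complex_ofReal, ofReal_zero]
  refine tendsto_nhds_unique (hμ.tendWA h.famA s1 c1) ?_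
  obtain ⟨C, hC⟩ := inf_approx h.famA (inf_cs_P cτ) (inf_cont_P hs hτ) (inf_cs_Q cτ)
    (inf_cont_Q hs hτ) (inf_key h cτ hτ)
  rw [NormedAddGroup.tendsto_nhds_zero]
  intro ε hε
  apply eventually_UW
  have t : Tendsto (fun N : ℕ => C / Real.sqrt N) atTop (𝓝 0) :=
    (Real.tendsto_sqrt_atTop.comp tendsto_natCast_atTop_atTop).const_div_atTop C
  filter_upwards [eventually_ge_atTop 1, t.eventually (gt_mem_nhds hε)] with N hN hN'
  filter_upwards [hC N hN] with j hj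
  rw [integral_congr_ae (g := fun v => ((sV ℓ v * fderiv ℝ F v (YV ℓ v) : ℝ) : ℂ)
      * (‖SS (Φ j) 0 N v‖ ^ 2 : ℝ)) (Pool.Agent.Lib.MP_a52643_an.ae_Om.mono fun v hv => by
    simp only [inf_P_add_Q hs hF hv])] at hj
  have hN0 : (0 : ℝ) < N := by exact_mod_cast hN
  have hq : 0 < Real.sqrt N := Real.sqrt_pos.2 hN0
  simp only [dens, ofReal_div, ← mul_div_assoc, integral_div, norm_div, ofReal_natCast,
    Complex.norm_natCast]
  refine lt_of_le_of_lt ?_ hN'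
  rw [div_le_div_iff₀ hN0 hq]
  refine (mul_le_mul_of_nonneg_right hj hq.le).trans (le_of_eq ?_)
  rw [mul_assoc, Real.mul_self_sqrt hN0.le]

end Pool.Agent.Lib.MP_a52643_an
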