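import Pool.Agent.Lib.MP_a52643_an.VC.VLB

/-!
The asymptotic relation for truncated quartic products.
-/

open Complex MeasureTheory Set Filter Topology Asymptotics Metric
open scoped ComplexConjugate ContDiff ENNReal Laplacian

noncomputable section

namespace Pool.Agent.Lib.MP_a52643_an

lemma kv_core {φ : ℂ → ℂ} {z q p : ℂ} (hφ : DifferentiableAt ℝ φ z) {L M α s S B C : ℝ}
    (hL0 : 0 ≤ L) (hL : ∀ w, ‖fderiv ℝ (TM M) w‖ ≤ L) (hM : 0 < M) (hα : 1 ≤ α) (hs0 : 0 ≤ s)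
    (hs : s ≤ C) (hB : 0 ≤ B) (h0 : ‖φ z‖ ≤ S) (hq : ‖q‖ ≤ S)
    (d1 : ‖2 * I * z.im * dz φ z - I * α * s * q‖ ≤ B * S)
    (d2 : ‖2 * I * z.im * dzb φ z‖ ≤ α * C * S + B * S) (hp : ‖p‖ ^ 2 ≤ M ^ 3) :
    ‖(2 * I * z.im * dz (fun w => TM M (φ w)) z - I * α * s * TM M q) * p‖
      ≤ B * M ^ 2 + (L * (2 * (C + B)) + C) * α * (4 * (M * max (S ^ 2 - 1 / 4 * M) 0)) := by
  have S0 : 0 ≤ S := (norm_nonneg _).trans h0
  have C0 : 0 ≤ C := hs0.trans hs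
  have α0 : 0 ≤ α := by linarith
  have t0 : 0 ≤ max (S ^ 2 - 1 / 4 * M) 0 := le_max_right _ _
  rcases lt_or_ge (S ^ 2) (M / 2) with he | he
  · have k : S * ‖p‖ ≤ M ^ 2 :=
      kl_le_of_sq (by positivity) (by
        calc S ^ 2 * ‖p‖ ^ 2 ≤ M * M ^ 3 := mul_le_mul (by linarith) hp (by positivity) hM.le
          _ = (M ^ 2) ^ 2 := by ring)
    have ev : (fun w => TM M (φ w)) =ᶠ[𝓝 z] φ := by
      have c : ContinuousAt (fun w => ‖φ w‖ ^ 2) z := hφ.continuousAt.norm.pow 2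
      filter_upwards [c.eventually (gt_mem_nhds (show ‖φ z‖ ^ 2 < M / 2 from
        (pow_le_pow_left₀ (norm_nonneg _) h0 2).trans_lt he))] with w hw using TM_eq hM hw.le
    have e1 : dz (fun w => TM M (φ w)) z = dz φ z := by rw [dz, dz, ev.fderiv_eq]
    have e2 : TM M q = q := TM_eq hM ((pow_le_pow_left₀ (norm_nonneg _) hq 2).trans he.le)
    rw [e1, e2, norm_mul]
    calc _ ≤ B * S * ‖p‖ := mul_le_mul_of_nonneg_right d1 (norm_nonneg _)
      _ = B * (S * ‖p‖) := by ring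
      _ ≤ B * M ^ 2 := mul_le_mul_of_nonneg_left k hB
      _ ≤ _ := le_add_of_nonneg_right (by positivity)
  · set t := 4 * (M * max (S ^ 2 - 1 / 4 * M) 0) with ht
    have k : S * ‖p‖ ≤ t := by
      have : S * ‖p‖ ≤ 2 * M * S ^ 2 := kl_le_of_sq (by positivity) (by
        calc S ^ 2 * ‖p‖ ^ 2 ≤ S ^ 2 * M ^ 3 := mul_le_mul_of_nonneg_left hp (by positivity)
          _ = (S ^ 2 * M ^ 2) * M := by ring
          _ ≤ (S ^ 2 * M ^ 2) * (4 * S ^ 2) :=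
              mul_le_mul_of_nonneg_left (by linarith) (by positivity)
          _ = (2 * M * S ^ 2) ^ 2 := by ring)
      have h3 : S ^ 2 ≤ 2 * max (S ^ 2 - 1 / 4 * M) 0 := by
        have := le_max_left (S ^ 2 - 1 / 4 * M) 0
        linarith
      nlinarith
    have a1 : ∀ x : ℂ, ‖x‖ ≤ S → ‖I * α * s * x‖ ≤ α * C * S := fun x hx => by
      rw [norm_mul, norm_mul, norm_mul, norm_I, one_mul, Complex.norm_real, Complex.norm_real,
        Real.norm_of_nonneg α0, Real.norm_of_nonneg hs0]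
      gcongr
    have b1 : ‖2 * I * z.im * dz φ z‖ ≤ α * C * S + B * S := by
      have := norm_add_le (I * α * s * q) (2 * I * z.im * dz φ z - I * α * s * q)
      rw [add_sub_cancel] at this
      linarith [a1 q hq]
    have b3 : ‖dz (fun w => TM M (φ w)) z‖ ≤ L * (‖dz φ z‖ + ‖dzb φ z‖) :=
      (kl_dz_comp (T := TM M) ((contDiff_TM M).differentiable one_ne_zero _) hφ).trans
        (mul_le_mul_of_nonneg_right (hL _) (by positivity))
    have b4 : ‖2 * I * z.im * dz (fun w => TM M (φ w)) z‖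
        ≤ L * (‖2 * I * z.im * dz φ z‖ + ‖2 * I * z.im * dzb φ z‖) := by
      rw [norm_mul (2 * I * (z.im : ℂ)), norm_mul (2 * I * (z.im : ℂ)),
        norm_mul (2 * I * (z.im : ℂ))]
      calc _ ≤ ‖2 * I * (z.im : ℂ)‖ * (L * (‖dz φ z‖ + ‖dzb φ z‖)) :=
            mul_le_mul_of_nonneg_left b3 (norm_nonneg _)
        _ = _ := by ring
    have b5 : B * S ≤ α * (B * S) := le_mul_of_one_le_left (by positivity) hα
    have b6 : ‖2 * I * z.im * dz (fun w => TM M (φ w)) z - I * α * s * TM M q‖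
        ≤ L * (2 * (α * C * S + α * (B * S))) + α * C * S :=
      (norm_sub_le _ _).trans (add_le_add
        (b4.trans (mul_le_mul_of_nonneg_left (by linarith) hL0))
        (a1 _ ((norm_TM_le _ _).trans hq)))
    rw [norm_mul]
    calc _ ≤ (L * (2 * (α * C * S + α * (B * S))) + α * C * S) * ‖p‖ :=
          mul_le_mul_of_nonneg_right b6 (norm_nonneg _)
      _ = (L * (2 * (C + B)) + C) * α * (S * ‖p‖) := by ring
      _ ≤ (L * (2 * (C + B)) + C) * α * t := mul_le_mul_of_nonneg_left k (by positivity)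
      _ ≤ _ := le_add_of_nonneg_left (by positivity)

section one

variable {ℓ : ℂ → ℝ} {Cb : ℤ → V → ℝ} {α : ℝ} {Φ : ℤ → V → ℂ} {χ : ℂ → ℝ}

lemma VL.kv_D (h : VL ℓ Cb α Φ) {L M C : ℝ} (hL0 : 0 ≤ L)
    (hL : ∀ w, ‖fderiv ℝ (TM M) w‖ ≤ L) (hM : 0 < M) {n N : ℤ} (hN : n.natAbs + 1 ≤ N.natAbs)
    {z : ℂ} (hz : z ∈ UH) (c0 : |(n : ℝ)| ≤ C) (c1 : Cb n (z, 1) ≤ C) (c2 : Cb (n - 1) (z, 1) ≤ C)
    (c3 : ‖AV ℓ (z, 1)‖ ≤ C) (c4 : sV ℓ (z, 1) ≤ C) {p : ℂ} (hp : ‖p‖ ^ 2 ≤ M ^ 3) :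
    ‖(2 * I * z.im * dz (ph (trL M Φ) n) z
        - I * α * sV ℓ (z, 1) * ph (trL M Φ) (n + 1) z) * p‖
      ≤ (C * (C + 1) + C) * M ^ 2 + (L * (2 * (C + (C * (C + 1) + C))) + C) * α
        * (4 * (M * max (SN Φ N (z, 1) ^ 2 - 1 / 4 * M) 0)) := by
  have hv := one_mem_Om hz
  have C0 : 0 ≤ C := (abs_nonneg _).trans c0
  have S0 := SN_nonneg Φ N (z, 1)
  have hn : ‖(n : ℂ)‖ ≤ C := by simpa using c0
  have p0 : ‖ph Φ n z‖ ≤ SN Φ N (z, 1) := h.toPre.norm_le_SN (by omega) _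
  have p1 : ‖ph Φ (n + 1) z‖ ≤ SN Φ N (z, 1) := h.toPre.norm_le_SN (by omega) _
  have p2 : ‖ph Φ (n - 1) z‖ ≤ SN Φ N (z, 1) := h.toPre.norm_le_SN (by omega) _
  have e1 : ‖eU ℓ α Φ n (z, 1)‖ ≤ C * SN Φ N (z, 1) := (h.eu_le n hv).trans
    (mul_le_mul c1 (SN_mono Φ (by omega) _) (SN_nonneg _ _ _) C0)
  have e2 : ‖eD ℓ α Φ (n - 1) (z, 1)‖ ≤ C * SN Φ N (z, 1) := (h.ed_le _ hv).trans
    (mul_le_mul c2 (SN_mono Φ (by omega) _) (SN_nonneg _ _ _) C0)
  have k : ∀ x : ℂ, ‖x‖ ≤ C → ‖n * (x - 1) * ph Φ n z‖ ≤ C * (C + 1) * SN Φ N (z, 1) :=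
    fun x hx => by
      have : ‖x - 1‖ ≤ C + 1 := (norm_sub_le _ _).trans (by rw [norm_one]; linarith)
      rw [norm_mul, norm_mul]
      gcongr
  refine kv_core (q := ph Φ (n + 1) z) (h.toPre.diff_ph n hz) hL0 hL hM h.one_le (sV_pos _).le c4
    (by positivity) p0 p1 ?_ ?_ hp
  · rw [h.toPre.dz_ph ℓ α n hz, add_assoc, add_sub_cancel_left]
    linarith [norm_add_le (n * (AV ℓ (z, 1) - 1) * ph Φ n z) (eU ℓ α Φ n (z, 1)), k _ c3]
  · rw [h.toPre.dzb_ph ℓ α n hz]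
    have a1 : ‖-(I * α * sV ℓ (z, 1) * ph Φ (n - 1) z)‖ ≤ α * C * SN Φ N (z, 1) := by
      have := h.m_pos
      rw [_root_.norm_neg, norm_mul, norm_mul, norm_mul, norm_I, one_mul, Complex.norm_real,
        Complex.norm_real, Real.norm_of_nonneg this.le, Real.norm_of_nonneg (sV_pos _).le]
      gcongr
    have a2 := k (conj (AV ℓ (z, 1))) (by rwa [RCLike.norm_conj])
    refine (norm_sub_le _ _).trans ((add_le_add (norm_add_le _ _) e2).trans ?_)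
    linarith

/-- the weight used in the integration by parts -/
def kvW (ℓ χ : ℂ → ℝ) (z : ℂ) : ℂ := (cht χ z : ℂ) * (2 * I * z.im * (sV ℓ (z, 1) : ℂ)⁻¹)

lemma kv_cd (hs : ContDiffOn ℝ ∞ ℓ UH) :
    ContDiffOn ℝ 1 (fun z : ℂ => 2 * I * z.im * (sV ℓ (z, 1) : ℂ)⁻¹) UH :=
  (contDiff_const.mul (ofRealCLM.comp imCLM).contDiff).contDiffOn.mul
    (((cd_sC_inv hs).of_le (by simp)).comp (contDiff_id.prodMk contDiff_const).contDiffOn
      fun _ hz => one_mem_Om hz)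

lemma TF1.cd_kvW (hχ : TF1 χ) (hs : ContDiffOn ℝ ∞ ℓ UH) : ContDiff ℝ 1 (kvW ℓ χ) :=
  contDiff_cut (θ := cht χ) (reCLM.contDiff.comp hχ.cd_cht)
    ((tsupport_mul_subset_left (f := χ)).trans hχ.sub) (kv_cd hs)

lemma TF1.hcs_kvW (hχ : TF1 χ) : HasCompactSupport (kvW ℓ χ) :=
  (hχ.hcs_cht.comp_left (g := ofReal) (by simp)).mul_right

lemma VL.kv_one (h : VL ℓ Cb α Φ) (hs : ContDiffOn ℝ ∞ ℓ UH) (hχ : TF1 χ) {C L M : ℝ}
    (hC0 : ∀ z, ‖(cht χ z : ℂ)‖ ≤ C) (hC1 : ∀ z, ‖dz (kvW ℓ χ) z‖ ≤ C)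
    (hL0 : 0 ≤ L) (hL : ∀ w, ‖fderiv ℝ (TM M) w‖ ≤ L) (hM1 : 1 ≤ M) (a : Fin 4 → ℤ) {N : ℤ}
    (hN : ∀ i, (a i).natAbs + 1 ≤ N.natAbs) (hA : ∀ i, |(a i : ℝ)| ≤ C)
    (hb : ∀ z ∈ tsupport χ, (∀ i, Cb (a i) (z, 1) ≤ C ∧ Cb (a i - 1) (z, 1) ≤ C) ∧
      ‖AV ℓ (z, 1)‖ ≤ C ∧ sV ℓ (z, 1) ≤ C ∧ (sV ℓ (z, 1))⁻¹ ≤ C) :
    α * ‖∑ i, ∫ z, (χ z : ℂ) * psi (trL M Φ) (a + Pi.single i 1) z ∂hyp‖
      ≤ volume.real (tsupport χ) * ((C + C * C * (4 * (C * (C + 1) + C))) * M ^ 2)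
        + C * C * (4 * ((L * (2 * (C + (C * (C + 1) + C))) + C) * α * 4))
          * (M * ∫ z in tsupport χ, max (SN Φ N (z, 1) ^ 2 - 1 / 4 * M) 0) := by
  have hM : 0 < M := by linarith
  set K := tsupport χ with hKd
  have hK : IsCompact K := hχ.hcs.isCompact
  have hU : K ⊆ UH := hχ.sub
  set u := trL M Φ with hu
  have hP := h.toPre
  have C0 : 0 ≤ C := (norm_nonneg _).trans (hC0 0)
  have eX : ∀ b : Fin 4 → ℤ, ∫ z, (χ z : ℂ) * psi u b z ∂hyp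
      = ∫ z in K, (cht χ z : ℂ) * psi u b z := fun b => by
    have := integral_hyp_cht hχ.toTF (psi u b)
    simp only [real_smul] at this
    rw [this, setIntegral_eq_integral_of_forall_compl_eq_zero]
    intro z hz
    simp [cht_zero hz]
  have iX : ∀ b : Fin 4 → ℤ, IntegrableOn (fun z => (cht χ z : ℂ) * psi u b z) K := fun b =>
    ((hχ.cd_cht.continuous.continuousOn.mul (hP.cd_psi_trL M b).continuousOn).mono
      hU).integrableOn_compact hK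
  set G : ℂ → ℂ := fun z => kvW ℓ χ z * psi u a z with hG
  have sc : tsupport (cht χ) ⊆ K := tsupport_mul_subset_left
  have cG : ContDiff ℝ 1 G := by
    have c1 : ContDiff ℝ 1 (cht χ) := reCLM.contDiff.comp hχ.cd_cht
    have := contDiff_cut c1 (sc.trans hU)
      (F := fun z => (2 * I * z.im * (sV ℓ (z, 1) : ℂ)⁻¹) * psi u a z)
      ((kv_cd hs).mul (hP.cd_psi_trL M a))
    simpa only [hG, kvW, mul_assoc] using this
  have sG : tsupport G ⊆ K := closure_minimal (fun z hz => by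
    by_contra h'
    exact hz (by simp [hG, kvW, cht_zero h'])) (isClosed_tsupport _)
  have iG : ∫ z in K, dz G z = 0 := by
    rw [setIntegral_eq_integral_of_forall_compl_eq_zero, integral_dz cG hχ.hcs_kvW.mul_right]
    intro z hz
    have : G =ᶠ[𝓝 z] 0 := notMem_tsupport_iff_eventuallyEq.1 fun h' => hz (sG h')
    simp [dz, wp, this.fderiv_eq]
  have iG' : IntegrableOn (dz G) K := (continuous_dz cG).continuousOn.integrableOn_compact hK
  have iS : Integrable (fun z => ∑ i, (cht χ z : ℂ) * psi u (a + Pi.single i 1) z)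
      (volume.restrict K) := integrable_finsetSum _ fun i _ => iX _
  have e1 : I * α * ∑ i, ∫ z, (χ z : ℂ) * psi u (a + Pi.single i 1) z ∂hyp
      = ∫ z in K, (I * α * ∑ i, (cht χ z : ℂ) * psi u (a + Pi.single i 1) z - dz G z) := by
    rw [integral_sub (iS.const_mul _) iG', iG, sub_zero, integral_const_mul,
      integral_finsetSum _ fun i _ => iX _]
    simp only [eX]
  have cS : ContinuousOn (fun z : ℂ => SN Φ N (z, 1) ^ 2) UH :=
    ((hP.cont_SN N).comp (by fun_prop) fun z hz => one_mem_Om hz).pow 2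
  have iT : IntegrableOn (fun z => max (SN Φ N (z, 1) ^ 2 - 1 / 4 * M) 0) K :=
    (((cS.sub continuousOn_const).sup continuousOn_const).mono hU).integrableOn_compact hK
  have iC : IntegrableOn (fun _ : ℂ => (C + C * C * (4 * (C * (C + 1) + C))) * M ^ 2) K :=
    continuousOn_const.integrableOn_compact hK
  have pt : ∀ z ∈ K, ‖I * α * ∑ i, (cht χ z : ℂ) * psi u (a + Pi.single i 1) z - dz G z‖
      ≤ (C + C * C * (4 * (C * (C + 1) + C))) * M ^ 2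
        + C * C * (4 * ((L * (2 * (C + (C * (C + 1) + C))) + C) * α * 4))
          * (M * max (SN Φ N (z, 1) ^ 2 - 1 / 4 * M) 0) := fun z hz => by
    have du : ∀ n, DifferentiableAt ℝ (ph u n) z := fun n =>
      ((hP.cd_trL M n).contDiffAt (isOpen_UH.mem_nhds (hU hz))).differentiableAt one_ne_zero
    have dp : DifferentiableAt ℝ (psi u a) z :=
      ((hP.cd_psi_trL M a).contDiffAt (isOpen_UH.mem_nhds (hU hz))).differentiableAt one_ne_zero
    have e2 : dz (psi u a) z = _ := kl_dz_prod Finset.univ (F := fun i => ph u (a i)) fun i _ => du _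
    have s0 := sC_ne (ℓ := ℓ) (z, 1)
    have e3' : I * α * ∑ i, (cht χ z : ℂ) * psi u (a + Pi.single i 1) z - dz G z
        = -(dz (kvW ℓ χ) z * psi u a z + (cht χ z : ℂ) * (sV ℓ (z, 1) : ℂ)⁻¹ * ∑ i,
          (2 * I * z.im * dz (ph u (a i)) z - I * α * sV ℓ (z, 1) * ph u (a i + 1) z)
            * ∏ j ∈ Finset.univ.erase i, ph u (a j) z) := by
      rw [hG, dz_mul ((hχ.cd_kvW hs).differentiable one_ne_zero z) dp, e2]
      simp only [kl_psi_update, kvW, Finset.mul_sum]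
      rw [neg_add, ← Finset.sum_neg_distrib, sub_add_eq_sub_sub_swap, ← Finset.sum_sub_distrib,
        sub_eq_neg_add]
      congr 1
      refine Finset.sum_congr rfl fun i _ => ?_
      field_simp
      ring
    have b1 : ‖psi u a z‖ ≤ M ^ 2 := by
      have := kl_prod_le hM1 Φ a Finset.univ (k := 4) (by simp) z
      rw [show M ^ 4 = (M ^ 2) ^ 2 by ring] at this
      exact (abs_le_of_sq_le_sq' this (by positivity)).2
    obtain ⟨c1, c3, c4, c5⟩ := hb z hz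
    have b2 : ∀ i, ‖(2 * I * z.im * dz (ph u (a i)) z - I * α * sV ℓ (z, 1) * ph u (a i + 1) z)
        * ∏ j ∈ Finset.univ.erase i, ph u (a j) z‖ ≤ _ := fun i =>
      h.kv_D hL0 hL hM (hN i) (hU hz) (hA i) (c1 i).1 (c1 i).2 c3 c4
        (kl_prod_le hM1 Φ a (Finset.univ.erase i) (by
          rw [Finset.card_erase_of_mem (Finset.mem_univ i)]; simp) z)
    have b3 := (norm_sum_le _ _).trans (Finset.sum_le_sum (s := Finset.univ) fun i _ => b2 i)
    have b4 : ‖(cht χ z : ℂ) * (sV ℓ (z, 1) : ℂ)⁻¹‖ ≤ C * C := by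
      rw [norm_mul, norm_inv, Complex.norm_real (sV ℓ (z, 1)), Real.norm_of_nonneg (sV_pos _).le]
      exact mul_le_mul (hC0 z) c5 (inv_pos.2 (sV_pos _)).le C0
    rw [e3', _root_.norm_neg]
    refine (norm_add_le _ _).trans ?_
    rw [norm_mul, norm_mul (_ * _)]
    refine (add_le_add (mul_le_mul (hC1 z) b1 (norm_nonneg _) C0)
      (mul_le_mul b4 b3 (norm_nonneg _) (by positivity))).trans (le_of_eq ?_)
    rw [Finset.sum_const, Finset.card_univ, Fintype.card_fin, nsmul_eq_mul]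
    push_cast
    ring
  have b := norm_integral_le_of_norm_le (iC.add ((iT.const_mul M).const_mul _))
    ((ae_restrict_iff' hK.measurableSet).2 (Eventually.of_forall pt))
  rw [← e1, norm_mul, norm_mul, norm_I, one_mul, Complex.norm_real,
    Real.norm_of_nonneg h.m_pos.le] at b
  refine b.trans (le_of_eq ?_)
  simp only [Pi.add_apply]
  rw [integral_add iC ((iT.const_mul M).const_mul _), setIntegral_const, integral_const_mul,
    integral_const_mul, smul_eq_mul]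

lemma OKC.kv_bound (ok : OKC ℓ Cb) {K : Set ℂ} (hK : IsCompact K) (hU : K ⊆ UH) (a : Fin 4 → ℤ)
    (C0 : ℝ) : ∃ C : ℝ, C0 ≤ C ∧ (∀ i, |(a i : ℝ)| ≤ C) ∧
      ∀ z ∈ K, (∀ i, Cb (a i) (z, 1) ≤ C ∧ Cb (a i - 1) (z, 1) ≤ C) ∧
        ‖AV ℓ (z, 1)‖ ≤ C ∧ sV ℓ (z, 1) ≤ C ∧ (sV ℓ (z, 1))⁻¹ ≤ C := by
  choose c hc1 hc using ok.bound_ph hK hU
  obtain ⟨B, hB⟩ := (Set.finite_range fun i => max |(a i : ℝ)| (max (c (a i)) (c (a i - 1)))).bddAbove
  have h1 : ∀ i, |(a i : ℝ)| ≤ max B C0 ∧ c (a i) ≤ max B C0 ∧ c (a i - 1) ≤ max B C0 := fun i => by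
    have := (hB ⟨i, rfl⟩).trans (le_max_left B C0)
    simpa only [max_le_iff] using this
  refine ⟨max B C0, le_max_right _ _, fun i => (h1 i).1, fun z hz =>
    ⟨fun i => ⟨(hc _ z hz).1.trans (h1 i).2.1, (hc _ z hz).1.trans (h1 i).2.2⟩, ?_⟩⟩
  obtain ⟨-, a1, a2, a3⟩ := hc (a 0) z hz
  exact ⟨a1.trans (h1 0).2.1, a2.trans (h1 0).2.1, a3.trans (h1 0).2.1⟩

end one

variable {ℓ : ℂ → ℝ} {Cb : ℤ → V → ℝ} {J : Type} {U : Ultrafilter J} {m : J → ℝ}
  {Φ : J → ℤ → V → ℂ}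

theorem FamV.van (h : FamV ℓ Cb U m Φ) (huu : ∀ n, UU U fun j z => ‖ph (Φ j) n z‖ ^ 2)
    {χ : ℂ → ℝ} (hχ : TF1 χ) (a : Fin 4 → ℤ) :
    Tendsto (fun p => ∑ i, ∫ z, (χ z : ℂ) * psi (trF Φ p) (a + Pi.single i 1) z ∂hyp)
      (UW U) (𝓝 0) := by
  obtain ⟨L, hL0, hL⟩ := kl_lip_TM
  obtain ⟨C0, hC0⟩ := hχ.cd_cht.continuous.bounded_above_of_compact_support
    (hχ.hcs_cht.comp_left (g := ofReal) (by simp))
  obtain ⟨C1, hC1⟩ := (continuous_dz (hχ.cd_kvW h.ok.sm)).bounded_above_of_compact_support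
    (hcs_dz hχ.hcs_kvW)
  obtain ⟨C, hC, hA, hb⟩ := h.ok.kv_bound hχ.hcs.isCompact hχ.sub a (max C0 C1)
  set N : ℕ := ∑ i, (a i).natAbs + 1 with hNd
  have hN : ∀ i, (a i).natAbs + 1 ≤ (N : ℤ).natAbs := fun i => by
    rw [Int.natAbs_natCast]
    exact Nat.succ_le_succ (Finset.single_le_sum (f := fun i => (a i).natAbs)
      (fun i _ => Nat.zero_le _) (Finset.mem_univ i))
  have t1 : Tendsto (fun p : ℕ × J => ((p.1 : ℝ) + 1) ^ 2 / m p.2) (UW U) (𝓝 0) := by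
    rw [NormedAddGroup.tendsto_nhds_zero]
    intro η hη
    exact eventually_UW (Eventually.of_forall fun n => NormedAddGroup.tendsto_nhds_zero.1
      (h.tend.const_div_atTop (((n : ℝ) + 1) ^ 2)) η hη)
  have t2 : Tendsto (fun p : ℕ × J => ((p.1 : ℝ) + 1) * ∫ z in tsupport χ,
      max (SN (Φ p.2) N (z, 1) ^ 2 - 1 / 4 * (p.1 + 1)) 0) (UW U) (𝓝 0) :=
    (UU_SN (fun j => (h.vl j).toPre) N fun k _ => huu k).tail_UW hχ.hcs.isCompact hχ.sub
      (by norm_num)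
  have t3 := (t1.const_mul (volume.real (tsupport χ) * (C + C * C * (4 * (C * (C + 1) + C))))).add
    (t2.const_mul (C * C * (4 * ((L * (2 * (C + (C * (C + 1) + C))) + C) * 4))))
  simp only [mul_zero, add_zero] at t3
  refine squeeze_zero_norm (fun p => ?_) t3
  have hM : (0 : ℝ) < p.1 + 1 := by positivity
  have hM1 : (1 : ℝ) ≤ p.1 + 1 := le_add_of_nonneg_left (Nat.cast_nonneg _)
  have b := (h.vl p.2).kv_one h.ok.sm hχ (C := C)
    (fun z => (hC0 z).trans ((le_max_left _ _).trans hC))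
    (fun z => (hC1 z).trans ((le_max_right _ _).trans hC)) hL0 (hL _ hM) hM1 a hN hA hb
  have α0 := (h.vl p.2).m_pos
  refine le_of_mul_le_mul_left (b.trans (le_of_eq ?_)) α0
  field_simp

end Pool.Agent.Lib.MP_a52643_an
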