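import Pool.Agent.Lib.MP_a52643_an.VC.Tri

/-!
Non-concentration of nearly parallel pairs.
-/

open MeasureTheory Set Filter Topology Metric UpperHalfPlane
open scoped ENNReal MatrixGroups Pointwise NNReal

noncomputable section

namespace Pool.Agent.Lib.MP_a52643_an

variable {Γ : Type*} [Group Γ] [MulAction Γ ℍ] [Countable Γ] {l : Γ → SL2} {D : Set ℍ}
  {X : Type*} [MeasurableSpace X] {μ : Measure X} [SFinite μ] {τ : Γ → X → X} {P : X → ℍ}
  {f : ℍ → ℝ≥0∞} {g : ℝ → X → X} {ξ x J Θ : X × X → ℝ} {C a r0 : ℝ}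

lemma find_small {c η : ℝ≥0∞} (hc : c ≠ ⊤) (hη : η ≠ 0) :
    ∃ ε : ℝ≥0∞, ε ≠ 0 ∧ ε ≠ ⊤ ∧ ε * c ≤ η := by
  obtain ⟨n, hn, h⟩ := ENNReal.exists_nnreal_pos_mul_lt hc hη
  exact ⟨n, by simpa using hn.ne', ENNReal.coe_ne_top, h.le⟩

omit [Group Γ] [MulAction Γ ℍ] [Countable Γ] in
lemma find_mBP (hm : PM τ P ξ x J Θ C r0) (M e : ℝ) : MeasurableSet (BP ξ x J M e) :=
  (measurableSet_le hm.mξ measurable_const).inter
    ((measurableSet_le hm.mx.abs measurable_const).inter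
      ((measurableSet_le measurable_const hm.mJ).inter (measurableSet_le hm.mJ measurable_const)))

omit [Group Γ] [MulAction Γ ℍ] [Countable Γ] in
lemma find_iBP (hm : PM τ P ξ x J Θ C r0) (M e : ℝ) : InvS τ (BP ξ x J M e) := by
  intro γ v w
  simp only [BP, mem_ofPred_eq, hm.iξ, hm.ix, hm.iJ]

omit [Group Γ] [MulAction Γ ℍ] [Countable Γ] in
lemma find_neg (hm : PM τ P ξ x J Θ C r0) :
    PM τ P ξ x (fun p => -J p) (fun p => -Θ p) C r0 :=
  ⟨hm.mξ, hm.mx, hm.mJ.neg, hm.mΘ.neg, hm.iξ, hm.ix, fun γ v w => by rw [hm.iJ],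
    fun γ v w => by rw [hm.iΘ], fun p hp => by simpa only [abs_neg] using hm.pos p hp⟩

theorem DM.bp_small (h : DM l D μ τ P f g) (hg : PG g ξ x J Θ C a r0) (hm : PM τ P ξ x J Θ C r0)
    {M : ℝ} (hM : 0 < M) {η : ℝ≥0∞} (hη : η ≠ 0) :
    ∀ᶠ e in 𝓝[>] (0 : ℝ), pm μ P D (BP ξ x J M e) ≤ η * ENNReal.ofReal e ^ 2 := by
  have hC : 0 < C := lt_of_lt_of_le one_pos hg.C1
  obtain ⟨ε, ε0, εt, hε⟩ := find_small (c := 3) (by simp) hη
  set K : ℝ≥0∞ := ENNReal.ofReal (2 * C) ^ 2 with hK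
  have Kt : K ≠ ⊤ := ENNReal.pow_ne_top ENNReal.ofReal_ne_top
  obtain ⟨η1, η10, -, hη1⟩ := find_small (c := 2 * K) (ENNReal.mul_ne_top (by simp) Kt) ε0
  obtain ⟨L, Lt, hL⟩ := h.ui η10
  obtain ⟨η3, η30, η3t, hη3⟩ := find_small h.fin ε0
  have LK : 2 * L * K ≠ ⊤ := ENNReal.mul_ne_top (ENNReal.mul_ne_top (by simp) Lt) Kt
  obtain ⟨η2, η20, -, hη2⟩ := find_small LK (mul_ne_zero η30 ε0)
  obtain ⟨Λ, hΛ, hmin⟩ := h.min_small hg hm hM η20
  obtain ⟨n, hn⟩ := ENNReal.exists_nat_mul_gt η30 LK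
  have n0 : n ≠ 0 := by
    rintro rfl
    simp at hn
  have hall : ∀ᶠ e in 𝓝[>] (0 : ℝ), ∀ k ∈ Finset.range n, ∫⁻ v in P ⁻¹' D,
      min (sec μ (BP ξ x J M e) v) (sec μ (BP ξ x J M e) (g (2 * Λ * ((k : ℝ) + 1)) v)) ∂μ
        ≤ η2 * ENNReal.ofReal e ^ 2 := by
    rw [Filter.eventually_all_finset]
    intro k _
    refine hmin _ ?_
    have : (0 : ℝ) ≤ k := Nat.cast_nonneg k
    nlinarith
  have hr : (0 : ℝ) < min (r0 / M) (1 / (2 * C)) := lt_min (div_pos hg.r0pos hM) (by positivity)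
  filter_upwards [hall, Ioo_mem_nhdsGT hr] with e he ⟨e0, e1⟩
  have eM : M * e ≤ r0 := by
    have := (lt_min_iff.1 e1).1.le
    rwa [le_div_iff₀ hM, mul_comm] at this
  have eC : 2 * C * e ≤ 1 := by
    have := (lt_min_iff.1 e1).2.le
    rwa [le_div_iff₀ (by positivity), mul_comm] at this
  set B := BP ξ x J M e with hB
  have mB : MeasurableSet B := find_mBP hm M e
  have iB : InvS τ B := find_iBP hm M e
  set E : ℝ≥0∞ := ENNReal.ofReal e ^ 2 with hE
  have E0 : E ≠ 0 := pow_ne_zero _ (by simpa using e0)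
  have Et : E ≠ ⊤ := ENNReal.pow_ne_top ENNReal.ofReal_ne_top
  have hr2 : ENNReal.ofReal (2 * C * e) ^ 2 = K * E := by
    rw [ENNReal.ofReal_mul (by positivity), mul_pow]
  obtain ⟨R, mR, hR, iR⟩ := hL (2 * C * e) (by positivity) eC
  rw [hr2] at iR
  have hsub : B ⊆ NearS P (2 * C * e) := by
    rintro p ⟨h1, h2, h3, h4⟩
    have h5 := hm.pos p (h1.trans eM)
    rw [abs_of_nonneg h3] at h5
    change dist _ _ ≤ _
    nlinarith
  have hs : ∀ v, sec μ B v ≤ L * (K * E) + R v := fun v => by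
    rw [← hr2]
    exact le_trans (measure_mono fun w hw => hsub hw) (hR v)
  have ms : Measurable (sec μ B) := measurable_sec mB
  set m : ℝ≥0∞ := 2 * (L * (K * E)) with hmm
  have mt : m ≠ ⊤ :=
    ENNReal.mul_ne_top (by simp) (ENNReal.mul_ne_top Lt (ENNReal.mul_ne_top Kt Et))
  set Z : X → ℝ≥0∞ := fun v => min (sec μ B v) m with hZ
  have mZ : Measurable Z := ms.min measurable_const
  have iZ : ∀ γ v, Z (τ γ v) = Z v := fun γ v => by simp only [hZ, h.sec_inv mB iB]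
  set z : ℝ≥0∞ := ∫⁻ v in P ⁻¹' D, Z v ∂μ with hz
  have zt : z ≠ ⊤ := by
    refine ne_top_of_le_ne_top (ENNReal.mul_ne_top mt h.fin) ?_
    rw [← setLIntegral_const]
    exact lintegral_mono fun v => min_le_right _ _
  have h1 : pm μ P D B ≤ z + 2 * (η1 * (K * E)) := by
    rw [pm_apply mB]
    calc _ ≤ ∫⁻ v in P ⁻¹' D, (Z v + 2 * R v) ∂μ := by
          refine lintegral_mono fun v => ?_
          by_cases hv : sec μ B v ≤ m
          · simp only [hZ, min_eq_left hv]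
            exact le_self_add
          · exact (le_two_mul_enn (hs v) (not_le.1 hv)).trans le_add_self
      _ = z + 2 * ∫⁻ v in P ⁻¹' D, R v ∂μ := by
          rw [lintegral_add_left mZ, lintegral_const_mul _ mR]
      _ ≤ _ := by gcongr
  have t0 : η3 * E ≠ 0 := mul_ne_zero η30 E0
  have tt : η3 * E ≠ ⊤ := ENNReal.mul_ne_top η3t Et
  have h2 := pigeon (P := μ.restrict (P ⁻¹' D)) n0 (Z := fun i v => Z (g (2 * Λ * i) v))
    (fun i => mZ.comp (h.mg1 _)) (z := z) (m := m) (β := m * (η2 * E)) (t := η3 * E)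
    (fun i => h.shift mZ iZ _) (fun i v => min_le_right _ _) ?_ ?_ (ENNReal.mul_ne_top tt zt)
  · rw [Measure.restrict_apply_univ] at h2
    have h3 : η3 * E * z ≤ η3 * E * (ε * E + ε * E) := by
      calc _ ≤ _ := h2
        _ = η3 * E * (η3 * μ (P ⁻¹' D) * E) + η2 * (2 * L * K) * (E * E) := by
            rw [hmm]; ring
        _ ≤ η3 * E * (ε * E) + η3 * ε * (E * E) := by gcongr
        _ = _ := by ring
    rw [ENNReal.mul_le_mul_iff_right t0 tt] at h3
    calc _ ≤ _ := h1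
      _ = z + η1 * (2 * K) * E := by ring
      _ ≤ (ε * E + ε * E) + ε * E := by gcongr
      _ = ε * 3 * E := by ring
      _ ≤ _ := by gcongr
  · intro i j hij hj
    obtain ⟨k, rfl⟩ := Nat.exists_eq_add_of_lt hij
    set T : ℝ := 2 * Λ * ((k : ℝ) + 1) with hT
    have mF : Measurable fun v => min (sec μ B v) (sec μ B (g T v)) := ms.min (ms.comp (h.mg1 _))
    have iF : ∀ γ v, min (sec μ B (τ γ v)) (sec μ B (g T (τ γ v)))
        = min (sec μ B v) (sec μ B (g T v)) := fun γ v => by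
      rw [h.comm, h.sec_inv mB iB, h.sec_inv mB iB]
    have h4 := h.shift (F := fun v => min (sec μ B v) (sec μ B (g T v))) mF iF (2 * Λ * i)
    calc _ ≤ ∫⁻ v in P ⁻¹' D,
          m * min (sec μ B (g (2 * Λ * i) v)) (sec μ B (g T (g (2 * Λ * i) v))) ∂μ := by
          refine lintegral_mono fun v => ?_
          have e2 : g (2 * Λ * ((i + k + 1 : ℕ) : ℝ)) v = g T (g (2 * Λ * i) v) := by
            rw [← hg.gadd]
            congr 1
            rw [hT]; push_cast; ring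
          simp only [hZ, e2]
          rcases le_total (sec μ B (g (2 * Λ * i) v)) (sec μ B (g T (g (2 * Λ * i) v))) with
            h5 | h5
          · rw [min_eq_left h5, mul_comm m]
            exact mul_le_mul' (min_le_left _ _) (min_le_right _ _)
          · rw [min_eq_right h5]
            exact mul_le_mul' (min_le_right _ _) (min_le_left _ _)
      _ = m * ∫⁻ v in P ⁻¹' D, min (sec μ B v) (sec μ B (g T v)) ∂μ := by
          rw [lintegral_const_mul' _ _ mt, h4]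
      _ ≤ _ := by
          gcongr
          exact he k (Finset.mem_range.2 (by omega))
  · calc m = 2 * L * K * E := by rw [hmm]; ring
      _ ≤ n * η3 * E := by gcongr
      _ = _ := by ring

theorem DM.pos_small (h : DM l D μ τ P f g) (hg : PG g ξ x J Θ C a r0) (hm : PM τ P ξ x J Θ C r0)
    {η : ℝ≥0∞} (hη : η ≠ 0) : ∃ δ > (0 : ℝ), ∀ᶠ e in 𝓝[>] (0 : ℝ),
      pm μ P D (PosS ξ x J δ e) ≤ η * ENNReal.ofReal e ^ 2 := by
  have hC : 0 < C := lt_of_lt_of_le one_pos hg.C1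
  obtain ⟨ε, ε0, -, hε⟩ := find_small (c := 3) (by simp) hη
  obtain ⟨C0, hC0, hX⟩ := h.cross_small hg hm
  obtain ⟨δ, hδ, hX⟩ := hX ε ε0
  have hM : 0 < C * (2 + C0) := by positivity
  refine ⟨min δ r0, lt_min hδ hg.r0pos, ?_⟩
  filter_upwards [h.bp_small hg hm hM ε0, h.bp_small hg.neg (find_neg hm) hM ε0,
    self_mem_nhdsWithin] with e h1 h2 e0
  have h3 := hX e e0
  have hsub : PosS ξ x J (min δ r0) e ⊆ XS ξ x J Θ C0 δ e ∪ (BP ξ x J (C * (2 + C0)) e ∪
      BP ξ x (fun p => -J p) (C * (2 + C0)) e) := by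
    rintro p ⟨p1, p2, p3⟩
    by_cases hΘ : C0 * e ≤ |Θ p|
    · exact Or.inl ⟨p1.trans (min_le_left _ _), p2, p3, hΘ⟩
    · have p4 : ξ p ≤ C * (2 + C0) * e := by
        have := hg.lo p (p1.trans (min_le_right _ _))
        have h5 : |x p| + |J p| + |Θ p| ≤ (2 + C0) * e := by linarith [not_le.1 hΘ]
        calc _ ≤ _ := this
          _ ≤ C * ((2 + C0) * e) := by gcongr
          _ = _ := by ring
      obtain ⟨q1, q2⟩ := abs_le.1 p3
      rcases le_total 0 (J p) with h6 | h6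
      · exact Or.inr (Or.inl ⟨p4, p2, h6, q2⟩)
      · exact Or.inr (Or.inr ⟨p4, p2, neg_nonneg.2 h6, by linarith⟩)
  calc _ ≤ _ := measure_mono hsub
    _ ≤ _ := measure_union_le _ _
    _ ≤ _ := add_le_add h3 ((measure_union_le _ _).trans (add_le_add h1 h2))
    _ = ε * 3 * ENNReal.ofReal e ^ 2 := by ring
    _ ≤ _ := by gcongr

end Pool.Agent.Lib.MP_a52643_an
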