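import Pool.Agent.Lib.MP_a52643_an.VC.PgB

/-!
The remaining pair estimates.
-/

open Complex MeasureTheory Set Filter Topology Asymptotics Metric
open scoped ComplexConjugate ContDiff ENNReal Laplacian

noncomputable section

namespace Pool.Agent.Lib.MP_a52643_an

variable {Γ : Type*} {l : Γ → SL2} {ℓ : ℂ → ℝ} {φ : Flow ℝ V}

lemma pgc_mul {a b A B : ℝ} (ha : |a| ≤ A) (hb : |b| ≤ B) : |a * b| ≤ A * B := by
  rw [abs_mul]
  exact mul_le_mul ha hb (abs_nonneg _) ((abs_nonneg _).trans ha)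

lemma pgc_nn (p : SL2 × SL2) : 0 ≤ xiP p := add_nonneg (norm_nonneg _) (norm_nonneg _)

lemma pgc_na (p : SL2 × SL2) : ‖aa (iv p.1) (iv p.2) - 1‖ ≤ xiP p :=
  le_add_of_nonneg_right (norm_nonneg _)

lemma pgc_nb (p : SL2 × SL2) : ‖bb (iv p.1) (iv p.2)‖ ≤ xiP p :=
  le_add_of_nonneg_left (norm_nonneg _)

lemma pgc_ar (p : SL2 × SL2) : |(aa (iv p.1) (iv p.2)).re - 1| ≤ xiP p := by
  simpa using (abs_re_le_norm (aa (iv p.1) (iv p.2) - 1)).trans (pgc_na p)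

lemma pgc_ai (p : SL2 × SL2) : |(aa (iv p.1) (iv p.2)).im| ≤ xiP p := by
  simpa using (abs_im_le_norm (aa (iv p.1) (iv p.2) - 1)).trans (pgc_na p)

lemma pgc_br (p : SL2 × SL2) : |(bb (iv p.1) (iv p.2)).re| ≤ xiP p :=
  (abs_re_le_norm _).trans (pgc_nb p)

lemma pgc_bi (p : SL2 × SL2) : |(bb (iv p.1) (iv p.2)).im| ≤ xiP p :=
  (abs_im_le_norm _).trans (pgc_nb p)

lemma pgc_dt {v : V} (hv : dt v = 1) : v.1 * conj v.2 - v.2 * conj v.1 = 2 * I := by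
  rw [dt_eq] at hv
  apply Complex.ext <;> simp <;> linarith

lemma pgc_aa {v : V} (hv : dt v = 1) (α β α' β' : ℂ) :
    aa (α • v + β • cj v) (α' • v + β' • cj v) = α' * conj α - β' * conj β := by
  have h := pgc_dt hv
  have h2 : (2 * I : ℂ) ≠ 0 := mul_ne_zero two_ne_zero I_ne_zero
  rw [aa, div_eq_iff h2, ← h]
  simp only [cj_apply, Prod.fst_add, Prod.snd_add, Prod.smul_fst, Prod.smul_snd, smul_eq_mul,
    map_add, map_mul, Complex.conj_conj]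
  ring

lemma pgc_bb {v : V} (hv : dt v = 1) (α β α' β' : ℂ) :
    bb (α • v + β • cj v) (α' • v + β' • cj v) = β' * α - α' * β := by
  have h := pgc_dt hv
  have h2 : (2 * I : ℂ) ≠ 0 := mul_ne_zero two_ne_zero I_ne_zero
  rw [bb, div_eq_iff h2, ← h]
  simp only [cj_apply, Prod.fst_add, Prod.snd_add, Prod.smul_fst, Prod.smul_snd, smul_eq_mul]
  ring

lemma pgc_lip {k : ℤ} {c : ℂ} {f : V → ℂ} (h : CI l k c f) : ∃ L : ℝ, 0 ≤ L ∧
    ∀ p : SL2 × SL2, xiP p ≤ 1 / 10 → ‖f (iv p.2) - f (iv p.1)‖ ≤ L * xiP p := by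
  obtain ⟨L, hL, h1⟩ := h.lip
  refine ⟨L, hL, fun p hp => ?_⟩
  have h2 := h1 (iv p.1) (dt_iv _) _ _ hp
  rwa [← aa_bb_decomp (dt_iv p.1) (iv p.2)] at h2

lemma pgc_lip_s (h : CG l ℓ) : ∃ L : ℝ, 0 ≤ L ∧
    ∀ p : SL2 × SL2, xiP p ≤ 1 / 10 → |sV ℓ (iv p.2) - sV ℓ (iv p.1)| ≤ L * xiP p := by
  obtain ⟨L, hL, h1⟩ := pgc_lip h.ci_s
  refine ⟨L, hL, fun p hp => ?_⟩
  have h2 := h1 p hp
  rwa [← ofReal_sub, norm_real, Real.norm_eq_abs] at h2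

theorem CG.up_lo (h : CG l ℓ) : ∃ C : ℝ, 1 ≤ C ∧ ∀ p, xiP p ≤ 1 / 10 →
    (|xP ℓ p| ≤ C * xiP p ∧ |JP ℓ p| ≤ C * xiP p ∧ |TP ℓ p| ≤ C * xiP p) ∧
      xiP p ≤ C * (|xP ℓ p| + |JP ℓ p| + |TP ℓ p|) := by
  obtain ⟨C, hC, hb⟩ := h.s_bd
  refine ⟨4 * C ^ 2, by nlinarith, fun p hp => ?_⟩
  obtain ⟨hs, hsi, hA⟩ := hb _ (iv_mem p.1)
  have hs0 := sV_pos (ℓ := ℓ) (iv p.1)
  have hξ := pgc_nn p
  have hs' : |sV ℓ (iv p.1)| ≤ C := by rwa [abs_of_pos hs0]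
  have hCC : C * xiP p ≤ C ^ 2 * xiP p := mul_le_mul_of_nonneg_right (by nlinarith) hξ
  have hC1 : xiP p ≤ C * xiP p := le_mul_of_one_le_left hξ hC
  have hAb : |(AV ℓ (iv p.1) * bb (iv p.1) (iv p.2)).im| ≤ C * ‖bb (iv p.1) (iv p.2)‖ := by
    refine (abs_im_le_norm _).trans ?_
    rw [norm_mul]
    exact mul_le_mul_of_nonneg_right hA (norm_nonneg _)
  have hAb' : C * ‖bb (iv p.1) (iv p.2)‖ ≤ C * xiP p :=
    mul_le_mul_of_nonneg_left (pgc_nb p) (by linarith)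
  have hx : |xP ℓ p| = 2 * sV ℓ (iv p.1) * |(bb (iv p.1) (iv p.2)).re| := by
    rw [xP, abs_mul, abs_mul, abs_of_pos hs0, abs_neg, abs_two]
  have hJ : |JP ℓ p| = 2 * sV ℓ (iv p.1) * |(bb (iv p.1) (iv p.2)).im| := by
    rw [JP, abs_mul, abs_mul, abs_of_pos hs0, abs_two]
  refine ⟨⟨?_, ?_, ?_⟩, ?_⟩
  · have h1 := pgc_mul hs' (pgc_br p)
    rw [abs_mul, abs_of_pos hs0] at h1
    rw [hx]
    nlinarith
  · have h1 := pgc_mul hs' (pgc_bi p)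
    rw [abs_mul, abs_of_pos hs0] at h1
    rw [hJ]
    nlinarith
  · have h1 := abs_le.1 (pgc_ai p)
    have h2 := abs_le.1 hAb
    rw [TP, abs_le]
    constructor <;> nlinarith
  · have h1 : ‖bb (iv p.1) (iv p.2)‖ ≤ C * (|xP ℓ p| + |JP ℓ p|) / 2 := by
      have h2 := norm_le_abs_re_add_abs_im (bb (iv p.1) (iv p.2))
      have h3 : |(bb (iv p.1) (iv p.2)).re| + |(bb (iv p.1) (iv p.2)).im| =
          (sV ℓ (iv p.1))⁻¹ * (|xP ℓ p| + |JP ℓ p|) / 2 := by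
        rw [hx, hJ]
        field_simp
      have h4 : (sV ℓ (iv p.1))⁻¹ * (|xP ℓ p| + |JP ℓ p|) ≤ C * (|xP ℓ p| + |JP ℓ p|) :=
        mul_le_mul_of_nonneg_right hsi (by positivity)
      linarith
    have h2 : |(aa (iv p.1) (iv p.2)).im| ≤ |TP ℓ p| / 2 + C * ‖bb (iv p.1) (iv p.2)‖ := by
      have h3 := abs_le.1 hAb
      have h4 := le_abs_self (TP ℓ p)
      have h5 := neg_abs_le (TP ℓ p)
      have h6 : TP ℓ p = 2 * ((aa (iv p.1) (iv p.2)).im +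
        (AV ℓ (iv p.1) * bb (iv p.1) (iv p.2)).im) := rfl
      rw [abs_le]
      constructor <;> linarith
    have h3 : ‖aa (iv p.1) (iv p.2) - 1‖ ≤ xiP p / 10 + |(aa (iv p.1) (iv p.2)).im| := by
      have h4 := norm_le_abs_re_add_abs_im (aa (iv p.1) (iv p.2) - 1)
      have h5 := re_aa hp
      simp only [sub_re, one_re, sub_im, one_im, sub_zero] at h4
      nlinarith
    have h4 : xiP p = ‖aa (iv p.1) (iv p.2) - 1‖ + ‖bb (iv p.1) (iv p.2)‖ := rfl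
    have h5 : C * ‖bb (iv p.1) (iv p.2)‖ ≤ C * (C * (|xP ℓ p| + |JP ℓ p|) / 2) :=
      mul_le_mul_of_nonneg_left h1 (by linarith)
    have h6 : 0 ≤ |xP ℓ p| + |JP ℓ p| := by positivity
    have h7 : C * (|xP ℓ p| + |JP ℓ p|) ≤ C ^ 2 * (|xP ℓ p| + |JP ℓ p|) :=
      mul_le_mul_of_nonneg_right (by nlinarith) h6
    have h8 : |TP ℓ p| ≤ C ^ 2 * |TP ℓ p| := le_mul_of_one_le_left (abs_nonneg _) (by nlinarith)
    have h9 : 0 ≤ C ^ 2 * (|xP ℓ p| + |JP ℓ p|) := by positivity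
    have h10 : 0 ≤ C ^ 2 * |TP ℓ p| := by positivity
    nlinarith

theorem CG.tri (h : CG l ℓ) : ∃ C : ℝ, 1 ≤ C ∧ ∀ v w w', xiP (v, w) ≤ 1 / 10 →
    xiP (v, w') ≤ 1 / 10 → xiP (w, w') ≤ C * (xiP (v, w) + xiP (v, w')) ∧
      |JP ℓ (w, w') - (JP ℓ (v, w') - JP ℓ (v, w))| ≤ C * (xiP (v, w) + xiP (v, w')) ^ 2 := by
  obtain ⟨C, hC, hb⟩ := h.s_bd
  obtain ⟨L, hL, hlip⟩ := pgc_lip_s h
  refine ⟨4 * L + 2 * C, by linarith, fun v w w' hw hw' => ?_⟩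
  have hs := (hb _ (iv_mem v)).1
  have hs0 := sV_pos (ℓ := ℓ) (iv v)
  have hsl : |sV ℓ (iv w) - sV ℓ (iv v)| ≤ L * xiP (v, w) := hlip (v, w) hw
  have ea : aa (iv w) (iv w') = aa (iv v) (iv w') * conj (aa (iv v) (iv w))
      - bb (iv v) (iv w') * conj (bb (iv v) (iv w)) := by
    rw [← pgc_aa (dt_iv v), ← aa_bb_decomp (dt_iv v), ← aa_bb_decomp (dt_iv v)]
  have eb : bb (iv w) (iv w') = bb (iv v) (iv w') * aa (iv v) (iv w)
      - aa (iv v) (iv w') * bb (iv v) (iv w) := by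
    rw [← pgc_bb (dt_iv v), ← aa_bb_decomp (dt_iv v), ← aa_bb_decomp (dt_iv v)]
  simp only [xiP, JP] at hw hw' hsl ⊢
  rw [ea, eb]
  generalize aa (iv v) (iv w) = α at *
  generalize aa (iv v) (iv w') = α' at *
  generalize bb (iv v) (iv w) = β at *
  generalize bb (iv v) (iv w') = β' at *
  have na := norm_nonneg (α - 1)
  have na' := norm_nonneg (α' - 1)
  have nb := norm_nonneg β
  have nb' := norm_nonneg β'
  have hc : ‖conj α - 1‖ = ‖α - 1‖ := by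
    rw [← norm_conj (α - 1), map_sub, map_one]
  have h1 : ‖α' * conj α - β' * conj β - 1‖ ≤
      ‖α' - 1‖ * ‖α - 1‖ + ‖α' - 1‖ + ‖α - 1‖ + ‖β'‖ * ‖β‖ := by
    have e : α' * conj α - β' * conj β - 1 =
        (α' - 1) * (conj α - 1) + (α' - 1) + (conj α - 1) - β' * conj β := by ring
    rw [e]
    refine (norm_sub_le _ _).trans (add_le_add (norm_add₃_le.trans ?_) ?_)
    · rw [norm_mul, hc]
    · rw [norm_mul, norm_conj]
  have h2 : ‖β' * α - α' * β - (β' - β)‖ ≤ ‖β'‖ * ‖α - 1‖ + ‖α' - 1‖ * ‖β‖ := by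
    have e : β' * α - α' * β - (β' - β) = β' * (α - 1) - (α' - 1) * β := by ring
    rw [e]
    refine (norm_sub_le _ _).trans ?_
    rw [norm_mul, norm_mul]
  have h3 : ‖β' * α - α' * β‖ ≤ ‖β'‖ * ‖α - 1‖ + ‖α' - 1‖ * ‖β‖ + (‖β'‖ + ‖β‖) := by
    have e : β' * α - α' * β = (β' * α - α' * β - (β' - β)) + (β' - β) := by ring
    rw [e]
    exact (norm_add_le _ _).trans (add_le_add h2 (norm_sub_le _ _))
  have m1 : ‖α' - 1‖ * ‖α - 1‖ ≤ ‖α - 1‖ / 10 := by nlinarith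
  have m2 : ‖β'‖ * ‖β‖ ≤ ‖β‖ / 10 := by nlinarith
  have m3 : ‖β'‖ * ‖α - 1‖ ≤ ‖α - 1‖ / 10 := by nlinarith
  have m4 : ‖α' - 1‖ * ‖β‖ ≤ ‖β‖ / 10 := by nlinarith
  set S := ‖α - 1‖ + ‖β‖ + (‖α' - 1‖ + ‖β'‖) with hS
  have hS0 : 0 ≤ S := by positivity
  constructor
  · have : 2 * S ≤ (4 * L + 2 * C) * S := mul_le_mul_of_nonneg_right (by linarith) hS0
    linarith
  · have e : 2 * sV ℓ (iv w) * (β' * α - α' * β).im -
        (2 * sV ℓ (iv v) * β'.im - 2 * sV ℓ (iv v) * β.im) =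
        2 * ((sV ℓ (iv w) - sV ℓ (iv v)) * (β' * α - α' * β).im) +
          2 * (sV ℓ (iv v) * (β' * α - α' * β - (β' - β)).im) := by
      simp only [sub_im]
      ring
    have h4 : |sV ℓ (iv w) - sV ℓ (iv v)| ≤ L * S :=
      hsl.trans (mul_le_mul_of_nonneg_left (by linarith) hL)
    have h5 : |(β' * α - α' * β).im| ≤ 2 * S := (abs_im_le_norm _).trans (by linarith)
    have h6 : |(β' * α - α' * β - (β' - β)).im| ≤ S ^ 2 := by
      refine (abs_im_le_norm _).trans (h2.trans ?_)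
      rw [hS]
      nlinarith [mul_nonneg na nb, mul_nonneg na' nb', mul_nonneg na na', mul_nonneg nb nb']
    have h7 := abs_le.1 (pgc_mul h4 h5)
    have h8 := abs_le.1 (pgc_mul (show |sV ℓ (iv v)| ≤ C by rwa [abs_of_pos hs0]) h6)
    rw [e, abs_le]
    constructor <;> nlinarith

lemma pgc_re {f : ℝ → ℂ} {d : ℂ} (h : HasDerivAt f d 0) :
    HasDerivAt (fun u => (f u).re) d.re 0 :=
  reCLM.hasFDerivAt.comp_hasDerivAt 0 h

lemma pgc_im {f : ℝ → ℂ} {d : ℂ} (h : HasDerivAt f d 0) :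
    HasDerivAt (fun u => (f u).im) d.im 0 :=
  imCLM.hasFDerivAt.comp_hasDerivAt 0 h

theorem CG.rel (h : CG l ℓ) (hφ : IsFl (XV ℓ) φ) : ∃ C : ℝ, 1 ≤ C ∧
    ∀ p, xiP p ≤ 1 / 10 → ∃ x' J' Θ' : ℝ, HasDerivAt (fun u => xP ℓ (sl (gS φ) u p)) x' 0 ∧
      HasDerivAt (fun u => JP ℓ (sl (gS φ) u p)) J' 0 ∧
      HasDerivAt (fun u => TP ℓ (sl (gS φ) u p)) Θ' 0 ∧ |x' - 1| ≤ C * xiP p ∧
      |J'| ≤ C * xiP p ∧ |Θ'| ≤ C * xiP p := by
  obtain ⟨C, hC, hb⟩ := h.s_bd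
  obtain ⟨L, hL, hlip⟩ := pgc_lip_s h
  obtain ⟨M, hM, hlipA⟩ := pgc_lip h.ci_A
  have hC0 : 0 ≤ C := by linarith
  have hK1 : 0 ≤ C * L * (3 * C) + 1 + C := by positivity
  have hK2 : 0 ≤ C * C * (1 + C) := by positivity
  have hK3 : 0 ≤ C * (1 + 3 * C + M + 2 * (C * C)) := by positivity
  refine ⟨(C * L * (3 * C) + 1 + C) + C * C * (1 + C) + C * (1 + 3 * C + M + 2 * (C * C)),
    by nlinarith [mul_nonneg (mul_nonneg hC0 hL) hC0], fun p hp => ?_⟩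
  have da := hφ.deriv_aa_sl p.1 p.2
  have db := hφ.deriv_bb_sl p.1 p.2
  refine ⟨_, _, _, (pgc_re db).const_mul (-2 * sV ℓ (iv p.1)),
    (pgc_im db).const_mul (2 * sV ℓ (iv p.1)),
    ((pgc_im da).add (pgc_im (db.const_mul (AV ℓ (iv p.1))))).const_mul 2, ?_⟩
  obtain ⟨hs, -, hA⟩ := hb _ (iv_mem p.1)
  obtain ⟨-, hsi, hA2⟩ := hb _ (iv_mem p.2)
  have hs0 := sV_pos (ℓ := ℓ) (iv p.1)
  have hs2 := sV_pos (ℓ := ℓ) (iv p.2)
  have hξ := pgc_nn p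
  have har := pgc_ar p
  have hai := pgc_ai p
  have hbr := pgc_br p
  have hbi := pgc_bi p
  have hk : |kp ℓ p.2| ≤ C := (abs_im_le_norm _).trans hA2
  have hAr : |(AV ℓ (iv p.1)).re| ≤ C := (abs_re_le_norm _).trans hA
  have hAi : |(AV ℓ (iv p.1)).im| ≤ C := (abs_im_le_norm _).trans hA
  have hkA : |kp ℓ p.2 - (AV ℓ (iv p.1)).im| ≤ M * xiP p := by
    have h1 := (abs_im_le_norm _).trans (hlipA p hp)
    rwa [sub_im] at h1
  have hsg : sg ℓ p.2 = (sV ℓ (iv p.2))⁻¹ / 2 := by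
    rw [sg, mul_inv]
    ring
  have hτ : |(sV ℓ (iv p.2))⁻¹| ≤ C := by rwa [abs_of_pos (inv_pos.2 hs2)]
  have hs' : |sV ℓ (iv p.1)| ≤ C := by rwa [abs_of_pos hs0]
  have hst : |sV ℓ (iv p.1) * (sV ℓ (iv p.2))⁻¹ - 1| ≤ C * (L * xiP p) := by
    have e : sV ℓ (iv p.1) * (sV ℓ (iv p.2))⁻¹ - 1 =
        -((sV ℓ (iv p.2))⁻¹ * (sV ℓ (iv p.2) - sV ℓ (iv p.1))) := by
      field_simp
      ring
    rw [e, abs_neg]
    exact pgc_mul hτ (hlip p hp)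
  simp only [hsg, mul_re, mul_im, add_re, add_im, neg_re, neg_im, conj_re, conj_im, ofReal_re,
    ofReal_im, I_re, I_im]
  generalize (sV ℓ (iv p.2))⁻¹ = τ at *
  generalize sV ℓ (iv p.1) = s at *
  generalize kp ℓ p.2 = κ at *
  generalize (AV ℓ (iv p.1)).re = Ar at *
  generalize (AV ℓ (iv p.1)).im = Ai at *
  generalize (aa (iv p.1) (iv p.2)).re = ar at *
  generalize (aa (iv p.1) (iv p.2)).im = ai at *
  generalize (bb (iv p.1) (iv p.2)).re = br at *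
  generalize (bb (iv p.1) (iv p.2)).im = bi at *
  generalize xiP p = ξ at *
  have k1 := mul_nonneg hK1 hξ
  have k2 := mul_nonneg hK2 hξ
  have k3 := mul_nonneg hK3 hξ
  have kbi := abs_le.1 (pgc_mul hk hbi)
  have kbr := abs_le.1 (pgc_mul hk hbr)
  have hCξ : C * ξ ≤ C := by nlinarith
  refine ⟨?_, ?_, ?_⟩
  · have h1 : |ar + κ * bi| ≤ 3 * C := by
      have := abs_le.1 har
      rw [abs_le]
      constructor <;> linarith
    have h2 := abs_le.1 (pgc_mul hst h1)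
    have h3 := abs_le.1 har
    rw [abs_le]
    constructor <;> nlinarith
  · have h1 : |ai + κ * br| ≤ (1 + C) * ξ := by
      have := abs_le.1 hai
      rw [abs_le]
      constructor <;> linarith
    have h2 := abs_le.1 (pgc_mul (pgc_mul hs' hτ) h1)
    rw [abs_le]
    constructor <;> nlinarith
  · have h1 : |bi + κ * (ar - 1) + (κ - Ai) + Ar * ai - Ai * (ar - 1) + Ar * (κ * br)
        - Ai * (κ * bi)| ≤ (1 + 3 * C + M + 2 * (C * C)) * ξ := by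
      have t1 := abs_le.1 hbi
      have t2 := abs_le.1 (pgc_mul hk har)
      have t3 := abs_le.1 hkA
      have t4 := abs_le.1 (pgc_mul hAr hai)
      have t5 := abs_le.1 (pgc_mul hAi har)
      have t6 := abs_le.1 (pgc_mul hAr (pgc_mul hk hbr))
      have t7 := abs_le.1 (pgc_mul hAi (pgc_mul hk hbi))
      rw [abs_le]
      constructor <;> linarith
    have h2 := abs_le.1 (pgc_mul hτ h1)
    rw [abs_le]
    constructor <;> nlinarith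

theorem CG.pg (h : CG l ℓ) (hφ : IsFl (XV ℓ) φ) : ∃ C a : ℝ,
    PG (gS φ) xiP (xP ℓ) (JP ℓ) (TP ℓ) C a (1 / 10) ∧
      PM (fun γ g => l γ * g) bp xiP (xP ℓ) (JP ℓ) (TP ℓ) C (1 / 10) := by
  obtain ⟨C1, c1, h1⟩ := h.up_lo
  obtain ⟨C2, c2, h2⟩ := h.tri
  obtain ⟨C3, c3, h3⟩ := h.rel hφ
  obtain ⟨C4, a, c4, ha, h4⟩ := h.joint hφ
  obtain ⟨C5, c5, h5⟩ := h.pm
  set C := C1 + C2 + C3 + C4 + C5 with hC
  have up : ∀ {D x y : ℝ}, D ≤ C → 0 ≤ y → x ≤ D * y → x ≤ C * y := fun hD hy hx =>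
    hx.trans (mul_le_mul_of_nonneg_right hD hy)
  have e1 : C1 ≤ C := by linarith
  have e2 : C2 ≤ C := by linarith
  have e3 : C3 ≤ C := by linarith
  have e4 : C4 ≤ C := by linarith
  have e5 : C5 ≤ C := by linarith
  refine ⟨C, a, ⟨gS_zero φ, hφ.gS_add, by linarith, ha, by norm_num, pgc_nn, hφ.cont_jt,
    hφ.cont_sl, fun p hp => ?_, fun p hp => ?_, fun p hp => ?_, fun p hp => ?_,
    fun v w w' hw hw' => ?_⟩, { h5 with pos := fun p hp => ?_ }⟩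
  · obtain ⟨⟨t1, t2, t3⟩, -⟩ := h1 p hp
    exact ⟨up e1 (pgc_nn p) t1, up e1 (pgc_nn p) t2, up e1 (pgc_nn p) t3⟩
  · exact up e1 (by positivity) (h1 p hp).2
  · obtain ⟨x', J', Θ', k, d1, d2, d3, t1, t2, t3, t4, t5⟩ := h4 p hp
    exact ⟨x', J', Θ', k, d1, d2, d3, up e4 (sq_nonneg _) t1, up e4 (sq_nonneg _) t2,
      up e4 (sq_nonneg _) t3, t4, t5.trans e4⟩
  · obtain ⟨x', J', Θ', d1, d2, d3, t1, t2, t3⟩ := h3 p hp
    exact ⟨x', J', Θ', d1, d2, d3, up e3 (pgc_nn p) t1, up e3 (pgc_nn p) t2,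
      up e3 (pgc_nn p) t3⟩
  · obtain ⟨t1, t2⟩ := h2 v w w' hw hw'
    exact ⟨up e2 (add_nonneg (pgc_nn _) (pgc_nn _)) t1, up e2 (sq_nonneg _) t2⟩
  · exact up e5 (by positivity) (h5.pos p hp)

end Pool.Agent.Lib.MP_a52643_an
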