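import Pool.Agent.Lib.MP_a52643_an.VC.DMx
import Pool.Agent.Lib.MP_a52643_an.VC.PgC
import Pool.Agent.Lib.MP_a52643_an.VC.FinD

/-!
Non-concentration of the limit measure.
-/

open MeasureTheory Set Filter Topology Metric UpperHalfPlane
open scoped ENNReal MatrixGroups Pointwise NNReal ComplexConjugate ContDiff Laplacian

noncomputable section

namespace Pool.Agent.Lib.MP_a52643_an

variable {Γ : Type*} [Group Γ] [MulAction Γ ℍ] [Countable Γ] {l : Γ → SL2} {D : Set ℍ}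
  {ℓ : ℂ → ℝ} {φ : Flow ℝ V}

lemma ncv_xi {p : SL2 × SL2} {e δ : ℝ} (h : p.1⁻¹ * p.2 ∈ RR e δ) (h1 : e ≤ δ) (h2 : δ ≤ 1) :
    xiP p ≤ 5 * δ := by
  obtain ⟨⟨a1, a2⟩, ⟨a3, -⟩, ⟨a4, -⟩, a5⟩ := h
  have hd := det_eq (p.1⁻¹ * p.2)
  rw [xiP, aa_iv, bb_iv]
  generalize ea (p.1⁻¹ * p.2) = a, eb (p.1⁻¹ * p.2) = b, ec (p.1⁻¹ * p.2) = c,
    ed (p.1⁻¹ * p.2) = d at *
  have e0 : 0 ≤ e := (abs_nonneg _).trans a1
  have d0 : 0 ≤ δ := e0.trans h1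
  have b1 := abs_le.1 a1
  have b2 := abs_le.1 a2
  have b3 := abs_le.1 a5
  have hc : |c| ≤ 2 * δ := by rw [abs_le]; constructor <;> linarith
  have hbc : |b * c| ≤ 2 * δ := by
    rw [abs_mul]
    calc |b| * |c| ≤ 1 * (2 * δ) := mul_le_mul (a5.trans h2) hc (abs_nonneg _) zero_le_one
      _ = _ := one_mul _
  have b4 := abs_le.1 hbc
  have hs : (a - d) ^ 2 ≤ δ := by nlinarith
  have k : ((a + d) / 2 - 1) * ((a + d) / 2 + 1) = b * c + (a - d) ^ 2 / 4 := by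
    linear_combination hd
  have k1 : |(a + d) / 2 - 1| ≤ 9 / 4 * δ := by
    have := sq_nonneg (a - d)
    rw [abs_le]; constructor <;> nlinarith
  have n1 := Complex.norm_le_abs_re_add_abs_im
    ((((a + d) / 2 : ℝ) : ℂ) + (((c - b) / 2 : ℝ) : ℂ) * Complex.I - 1)
  have n2 := Complex.norm_le_abs_re_add_abs_im
    ((((d - a) / 2 : ℝ) : ℂ) + (((b + c) / 2 : ℝ) : ℂ) * Complex.I)
  simp only [Complex.sub_re, Complex.add_re, Complex.mul_re, Complex.ofReal_re, Complex.ofReal_im,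
    Complex.I_re, Complex.I_im, Complex.sub_im, Complex.add_im, Complex.mul_im, Complex.one_re,
    Complex.one_im, mul_zero, mul_one, sub_zero, add_zero, zero_add] at n1 n2
  have k2 : |(c - b) / 2| ≤ 3 / 2 * δ := by rw [abs_le]; constructor <;> linarith
  have k3 : |(d - a) / 2| ≤ δ / 2 := by rw [abs_le]; constructor <;> linarith
  have k4 : |(b + c) / 2| ≤ δ / 2 := by rw [abs_le]; constructor <;> linarith
  linarith

lemma ncv_xJ {C : ℝ} (hC : ∀ v ∈ Om, sV ℓ v ≤ C) {p : SL2 × SL2} {e : ℝ}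
    (h : p.1⁻¹ * p.2 ∈ EE e) : |xP ℓ p| ≤ C * e ∧ |JP ℓ p| ≤ C * e := by
  obtain ⟨a1, a2⟩ := h
  have s0 := sV_pos (ℓ := ℓ) (iv p.1)
  have s1 := hC _ (iv_mem p.1)
  have x1 : xP ℓ p = sV ℓ (iv p.1) * (ea (p.1⁻¹ * p.2) - ed (p.1⁻¹ * p.2)) := by
    rw [xP, bb_iv]
    simp only [Complex.add_re, Complex.mul_re, Complex.ofReal_re, Complex.ofReal_im,
      Complex.I_re, Complex.I_im]
    ring
  have x2 : JP ℓ p = sV ℓ (iv p.1) * (eb (p.1⁻¹ * p.2) + ec (p.1⁻¹ * p.2)) := by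
    rw [JP, bb_iv]
    simp only [Complex.add_im, Complex.mul_im, Complex.ofReal_re, Complex.ofReal_im,
      Complex.I_re, Complex.I_im]
    ring
  rw [x1, x2, abs_mul, abs_mul, abs_of_pos s0]
  exact ⟨mul_le_mul s1 a1 (abs_nonneg _) (s0.le.trans s1),
    mul_le_mul s1 a2 (abs_nonneg _) (s0.le.trans s1)⟩

theorem DM.rr_small (hG : CG l ℓ) (hφ : IsFl (XV ℓ) φ) {ν : Measure SL2} [SFinite ν]
    {f : ℍ → ℝ≥0∞} (h : DM l D ν (fun γ g => l γ * g) bp f (gS φ)) {η : ℝ≥0∞} (hη : η ≠ 0) :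
    ∃ δ > (0 : ℝ), ∀ᶠ e in 𝓝[>] (0 : ℝ), nu ν D (RR e δ) ≤ η * ENNReal.ofReal e ^ 2 := by
  obtain ⟨C, a, hg, hm⟩ := hG.pg hφ
  obtain ⟨C1, hC1, hs⟩ := hG.s_bd
  have C0 : 0 < C1 := by linarith
  obtain ⟨t, t0, -, ht⟩ := exists_mul_le_enn (c := ENNReal.ofReal C1 ^ 2) (by finiteness) hη
  obtain ⟨δ0, hδ0, s1⟩ := h.pos_small hg hm t0
  have hδ : 0 < min (δ0 / 5) 1 := by positivity
  refine ⟨min (δ0 / 5) 1, hδ, ?_⟩
  filter_upwards [(tendsto_mul_nhdsGT C0).eventually s1, Ioc_mem_nhdsGT hδ] with e s1 he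
  rw [nu, Measure.map_apply measurable_quot (measurableSet_RR _ _)]
  refine le_trans (measure_mono fun p hp => ?_) (s1.trans ?_)
  · have x := ncv_xi hp he.2 (min_le_right _ _)
    have := min_le_left (δ0 / 5) 1
    exact ⟨by linarith, ncv_xJ (fun v hv => (hs v hv).1) hp.1⟩
  · rw [ENNReal.ofReal_mul C0.le, mul_pow, ← mul_assoc, mul_comm t]
    gcongr

/-- right translations that normalise the flow and fix the base point -/
def ncv_N (φ : Flow ℝ V) (k : SL2) : Prop :=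
  bp k = I ∧ ∀ t, ∃ t', ∀ v, gS φ t (v * k) = gS φ t' v * k

lemma ncv_N_mul {h k : SL2} (hh : ncv_N φ h) (hk : ncv_N φ k) : ncv_N φ (h * k) :=
  ⟨by rw [bp_mul, hk.1]; exact hh.1, fun t => by
    obtain ⟨t', h1⟩ := hk.2 t
    obtain ⟨t'', h2⟩ := hh.2 t'
    exact ⟨t'', fun v => by rw [← mul_assoc, h1, h2, mul_assoc]⟩⟩

lemma ncv_pair_le {μ : Measure V} [SFinite μ] {f : ℍ → ℝ≥0∞}
    (h : DM l D (μ.map nG) (fun γ g => l γ * g) bp f (gS φ)) {k : SL2} (hk : ncv_N φ k)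
    {K : Set ℍ} (hK : MeasurableSet K)
    {c : ℝ≥0∞} (hc : ∀ z, ∑' δ : Γ, K.indicator (1 : ℍ → ℝ≥0∞) (δ • z) ≤ c) {S : Set SL2}
    (hS : MeasurableSet S) :
    μ.prod μ {p | bp (nG p.1) ∈ K ∧ (nG p.1)⁻¹ * nG p.2 * k ∈ S}
      ≤ c * nu (μ.map nG + (μ.map nG).map (· * k)) D S := by
  have h' := h.symm hk.1 hk.2
  set μ' := μ.map nG + (μ.map nG).map (· * k)
  have mk := measurable_mul_const k
  have m : MeasurableSet {p : SL2 × SL2 | bp p.1 ∈ K ∧ p.1⁻¹ * p.2 ∈ S} :=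
    (measurable_fst (measurable_bp hK)).inter (measurable_quot hS)
  have hi : ∀ (γ : Γ) v, NN μ' S (l γ * v) = NN μ' S v := fun γ v => by
    rw [NN, ← (h'.mp γ).measure_preimage (measurableSet_NN hS _).nullMeasurableSet, NN]
    congr 1; ext w; simp [mul_assoc]
  calc _ = (μ.map nG).prod ((μ.map nG).map (· * k)) {p | bp p.1 ∈ K ∧ p.1⁻¹ * p.2 ∈ S} := by
        rw [Measure.map_map mk measurable_nG, Measure.map_prod_map _ _ measurable_nG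
          (mk.comp measurable_nG), Measure.map_apply (measurable_nG.prodMap
          (mk.comp measurable_nG)) m]
        congr 1; ext p; simp only [mul_assoc]; rfl
    _ ≤ μ'.prod μ' {p | bp p.1 ∈ K ∧ p.1⁻¹ * p.2 ∈ S} :=
        Measure.prod_mono (Measure.le_add_right le_rfl) (Measure.le_add_left le_rfl) _
    _ = ∫⁻ v in bp ⁻¹' K, NN μ' S v ∂μ' := by
        rw [Measure.prod_apply m, ← lintegral_indicator (measurable_bp hK)]
        congr 1; ext v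
        by_cases hv : v ∈ bp ⁻¹' K
        · rw [indicator_of_mem hv, NN]; congr 1; ext w; exact and_iff_right hv
        · rw [indicator_of_notMem hv]
          exact measure_mono_null (fun w hw => hv hw.1) measure_empty
    _ ≤ _ := by
        rw [nu_apply hS]
        exact h'.toEqv.le_of_tsum h'.fd (measurable_NN hS) hi hK hc

lemma ncv_par (hG : CG l ℓ) (hφ : IsFl (XV ℓ) φ) {μ : Measure V} [SFinite μ] {f : ℍ → ℝ≥0∞}
    (h : DM l D (μ.map nG) (fun γ g => l γ * g) bp f (gS φ))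
    (hO : ∀ᵐ p ∂μ.prod μ, p.1 ∈ Om ∧ p.2 ∈ Om) {k : SL2}
    (hk : ncv_N φ k) {c0 : ℝ} (hc : ∀ e x, ∀ g ∈ EE e, |1 + 2 * (eb g * ec g) - c0| ≤ x →
      g * k ∈ EE e ∧ |eb (g * k) * ec (g * k)| ≤ x / 2) : NC μ c0 := by
  have hm : ncv_N φ (k * m1) :=
    ncv_N_mul hk ⟨nrm_m1.1, fun t => ⟨t, hφ.gS_m1 hG.sm t⟩⟩
  refine NC_of hO fun K hK η hη => ?_
  obtain ⟨c, hc1, hc2⟩ := h.fd.tsum_compact hK
  obtain ⟨t, t0, -, ht⟩ := exists_mul_le_enn (c := 2 * c) (by finiteness) hη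
  obtain ⟨δ1, hδ1, s1⟩ := (h.symm hk.1 hk.2).rr_small hG hφ t0
  obtain ⟨δ2, hδ2, s2⟩ := (h.symm hm.1 hm.2).rr_small hG hφ t0
  set δ := min (1 / 10) (min δ1 δ2)
  have hδ : 0 < δ := by positivity
  refine ⟨δ ^ 2, by positivity, ?_⟩
  filter_upwards [s1, s2, Ioc_mem_nhdsGT (half_pos hδ)] with e s1 s2 he
  have p1 := ncv_pair_le h hk hK.measurableSet hc2 (measurableSet_RR e δ1)
  have p2 := ncv_pair_le h hm hK.measurableSet hc2 (measurableSet_RR e δ2)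
  refine le_trans (measure_mono fun p hp => ?_) ((measure_union_le _ _).trans
    ((add_le_add p1 p2).trans ?_))
  · obtain ⟨b1, b2⟩ := hc _ _ _ hp.2.1 hp.2.2
    rcases mem_RR b1 b2 he.2 (min_le_left _ _) with b3 | b3
    · exact Or.inl ⟨hp.1, b3.1, b3.2.1, b3.2.2.1,
        b3.2.2.2.trans ((min_le_right _ _).trans (min_le_left _ _))⟩
    · rw [mul_assoc] at b3
      exact Or.inr ⟨hp.1, b3.1, b3.2.1, b3.2.2.1,
        b3.2.2.2.trans ((min_le_right _ _).trans (min_le_right _ _))⟩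
  · calc _ ≤ c * (t * ENNReal.ofReal e ^ 2) + c * (t * ENNReal.ofReal e ^ 2) := by gcongr
      _ = 2 * c * t * ENNReal.ofReal e ^ 2 := by ring
      _ ≤ _ := by gcongr

theorem DM.nc (hG : CG l ℓ) (hφ : IsFl (XV ℓ) φ) {μ : Measure V} [SFinite μ] {f : ℍ → ℝ≥0∞}
    (h : DM l D (μ.map nG) (fun γ g => l γ * g) bp f (gS φ)) (hO : ∀ᵐ v ∂μ, v ∈ Om) :
    NC μ 1 ∧ NC μ (-1) := by
  have hO' : ∀ᵐ p ∂μ.prod μ, p.1 ∈ Om ∧ p.2 ∈ Om :=
    (Measure.quasiMeasurePreserving_fst.ae hO).and (Measure.quasiMeasurePreserving_snd.ae hO)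
  have n1 : ncv_N φ 1 := ⟨nrm_one.1, fun t => ⟨t, fun v => by rw [mul_one, mul_one]⟩⟩
  have n2 : ncv_N φ w0 := ⟨nrm_w0.1, fun t => ⟨-t, hφ.gS_w0 hG.sm t⟩⟩
  refine ⟨ncv_par hG hφ h hO' n1 fun e x g hg hx => ?_,
    ncv_par hG hφ h hO' n2 fun e x g hg hx => ?_⟩
  · rw [mul_one]
    rw [abs_le] at hx ⊢
    exact ⟨hg, by linarith [hx.1], by linarith [hx.2]⟩
  · have hd := det_eq g
    rw [abs_le] at hx ⊢
    simp only [EE, mem_ofPred_eq, w0, ea_mul, eb_mul, ec_mul, ed_mul, ea_mkG,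
      eb_mkG, ec_mkG, ed_mkG, mul_zero, add_zero, zero_add, mul_neg_one, mul_one]
    refine ⟨⟨?_, ?_⟩, by linarith [hx.1, hx.2], by linarith [hx.1, hx.2]⟩
    · rw [← abs_neg]; convert hg.2 using 2; ring
    · convert hg.1 using 2; ring

theorem ncV (hG : CG l ℓ) (hD : FD l D) {μ : Measure V} [IsLocallyFiniteMeasure μ]
    (hs : ∀ᵐ v ∂μ, v ∈ cslab) (hL : ∀ γ, MeasurePreserving (LG (l γ)) μ μ)
    (hinf : ∀ F : V → ℝ, ContDiff ℝ 1 F → HasCompactSupport F →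
      ∫ v, sV ℓ v * fderiv ℝ F v (YV ℓ v) ∂μ = 0)
    {f : ℍ → ℝ≥0∞} (mf : Measurable f) (inv : ∀ (γ : Γ) z, f (γ • z) = f z)
    (dens : muH μ = volume.withDensity f) (sq : ∫⁻ z in D, f z ^ 2 ≠ ⊤) :
    NC μ 1 ∧ NC μ (-1) := by
  obtain ⟨φ, hφ⟩ := hG.exists_fl
  obtain ⟨f', h⟩ := exists_dm hG hD hφ hs hL hinf mf inv dens sq
  have : SFinite (mS ℓ μ) := by unfold mS; infer_instance
  have hO : ∀ᵐ v ∂μ, v ∈ Om := hs.mono fun v hv => lt_of_lt_of_le one_pos hv.1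
  have hO' : ∀ᵐ v ∂mS ℓ μ, v ∈ Om := (withDensity_absolutelyContinuous _ _).ae_le hO
  obtain ⟨h1, h2⟩ := h.nc hG hφ hO'
  exact ⟨NC_of_mS hG h1, NC_of_mS hG h2⟩

end Pool.Agent.Lib.MP_a52643_an
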