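import Pool.Agent.Lib.MP_a52643_an.VC.VLB

/-!
The conservation law for quadratic products.
-/

open Complex MeasureTheory Set Filter Topology Asymptotics Metric
open scoped ComplexConjugate ContDiff ENNReal Laplacian

noncomputable section

namespace Pool.Agent.Lib.MP_a52643_an

variable {ℓ : ℂ → ℝ} {Cb : ℤ → V → ℝ} {J : Type} {U : Ultrafilter J} {m : J → ℝ}
  {Φ : J → ℤ → V → ℂ}

lemma prv_eP {Ψ : ℤ → V → ℂ} (h : Pre Ψ) (ℓ : ℂ → ℝ) (μ : ℝ) (a b : ℤ) {z : ℂ} (hz : z ∈ UH) :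
    eP (psi Ψ ![a, b]) (psi Ψ ![a + 1, b + 1]) z = -I * (1 / (2 * (z.im : ℂ))) *
      (((a + b) * (AV ℓ (z, 1) - 1) * (ph Ψ a z * ph Ψ b z)
        + (a + b + 2) * (conj (AV ℓ (z, 1)) - 1) * (ph Ψ (a + 1) z * ph Ψ (b + 1) z))
        + (eU ℓ μ Ψ a (z, 1) * ph Ψ b z + eU ℓ μ Ψ b (z, 1) * ph Ψ a z)
        + -(eD ℓ μ Ψ a (z, 1) * ph Ψ (b + 1) z + eD ℓ μ Ψ b (z, 1) * ph Ψ (a + 1) z)) := by
  have hy : (z.im : ℂ) ≠ 0 := by exact_mod_cast (ne_of_gt hz)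
  simp only [eP, psi_two, dz_mul (h.diff_ph a hz) (h.diff_ph b hz),
    dzb_mul (h.diff_ph (a + 1) hz) (h.diff_ph (b + 1) hz)]
  have e1 := h.dz_ph ℓ μ a hz
  have e2 := h.dz_ph ℓ μ b hz
  have e3 := h.dzb_ph ℓ μ (a + 1) hz
  have e4 := h.dzb_ph ℓ μ (b + 1) hz
  rw [add_sub_cancel_right] at e3 e4
  push_cast at e3 e4
  refine mul_left_cancel₀ (show 2 * I * (z.im : ℂ) ≠ 0 by simp [hy]) ?_
  have e5 : 2 * I * (z.im : ℂ) * (-I * (1 / (2 * (z.im : ℂ)))) = 1 := by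
    field_simp
    linear_combination -I_mul_I
  rw [← mul_assoc, e5]
  linear_combination ph Ψ b z * e1 + ph Ψ a z * e2 + ph Ψ (b + 1) z * e3 + ph Ψ (a + 1) z * e4

lemma prv_bd (ok : OKC ℓ Cb) {K : Set ℂ} (hK : IsCompact K) (hU : K ⊆ UH) (a b n : ℤ)
    (ha : a.natAbs + 1 ≤ n.natAbs) (hb : b.natAbs + 1 ≤ n.natAbs) :
    ∃ C : ℝ, 0 ≤ C ∧ ∀ (μ : ℝ) (Ψ : ℤ → V → ℂ), VL ℓ Cb μ Ψ → ∀ z ∈ K,
      ‖eP (psi Ψ ![a, b]) (psi Ψ ![a + 1, b + 1]) z‖ ≤ C * SN Ψ n (z, 1) ^ 2 := by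
  obtain ⟨C3, b3⟩ := hK.exists_bound_of_continuousOn
    ((contOn_inv_im 1 2 two_ne_zero).mono hU)
  obtain ⟨Ca, ca, ba⟩ := ok.bound_ph hK hU a
  obtain ⟨Cb', cb, bb⟩ := ok.bound_ph hK hU b
  refine ⟨|C3| * ((‖(a + b : ℂ)‖ + ‖(a + b + 2 : ℂ)‖) * (Ca + 1) + 2 * (Ca + Cb')),
    by positivity, fun μ Ψ h z hz => ?_⟩
  have hz' := hU hz
  have hv := one_mem_Om hz'
  set s := SN Ψ n (z, 1) with hs
  have s0 : 0 ≤ s := SN_nonneg _ _ _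
  have p : ∀ k : ℤ, k.natAbs ≤ n.natAbs → ‖ph Ψ k z‖ ≤ s := fun k hk =>
    h.toPre.norm_le_SN hk (z, 1)
  have pa := p a (by omega)
  have pb := p b (by omega)
  have pa' := p (a + 1) (by omega)
  have pb' := p (b + 1) (by omega)
  have sa : Cb a (z, 1) * SN Ψ a (z, 1) ≤ Ca * s :=
    mul_le_mul (ba z hz).1 (SN_mono Ψ (by omega) _) (SN_nonneg _ _ _) (by linarith)
  have sb : Cb b (z, 1) * SN Ψ b (z, 1) ≤ Cb' * s :=
    mul_le_mul (bb z hz).1 (SN_mono Ψ (by omega) _) (SN_nonneg _ _ _) (by linarith)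
  have mm : ∀ {x y : ℂ} {c : ℝ}, 0 ≤ c → ‖x‖ ≤ c * s → ‖y‖ ≤ s → ‖x * y‖ ≤ c * s ^ 2 := by
    intro x y c hc hx hy
    rw [norm_mul]
    exact (mul_le_mul hx hy (norm_nonneg _) (by positivity)).trans (le_of_eq (by ring))
  have t1 := mm (by linarith) ((h.eu_le a hv).trans sa) pb
  have t2 := mm (by linarith) ((h.eu_le b hv).trans sb) pa
  have t3 := mm (by linarith) ((h.ed_le a hv).trans sa) pb'
  have t4 := mm (by linarith) ((h.ed_le b hv).trans sb) pa'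
  have t5 := mm zero_le_one (by rw [one_mul]; exact pa) pb
  have t6 := mm zero_le_one (by rw [one_mul]; exact pa') pb'
  have u1 : ‖AV ℓ (z, 1) - 1‖ ≤ Ca + 1 :=
    (norm_sub_le _ _).trans (by rw [norm_one]; linarith [(ba z hz).2.1])
  have u2 : ‖conj (AV ℓ (z, 1)) - 1‖ ≤ Ca + 1 :=
    (norm_sub_le _ _).trans (by rw [norm_one, Complex.norm_conj]; linarith [(ba z hz).2.1])
  have m3 : ∀ {c x y : ℂ}, ‖x‖ ≤ Ca + 1 → ‖y‖ ≤ 1 * s ^ 2 →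
      ‖c * x * y‖ ≤ ‖c‖ * (Ca + 1) * s ^ 2 := by
    intro c x y hx hy
    rw [norm_mul, norm_mul]
    rw [one_mul] at hy
    exact mul_le_mul (mul_le_mul_of_nonneg_left hx (norm_nonneg _)) hy (norm_nonneg _)
      (by positivity)
  have k : ‖-I * (1 / (2 * (z.im : ℂ)))‖ ≤ |C3| := by
    rw [norm_mul, norm_neg, norm_I, one_mul]
    exact (b3 z hz).trans (le_abs_self _)
  rw [prv_eP h.toPre ℓ μ a b hz', norm_mul, mul_assoc |C3|]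
  refine mul_le_mul k (norm_add₃_le.trans ?_) (norm_nonneg _) (abs_nonneg _)
  rw [norm_neg]
  have v1 := (norm_add_le _ _).trans
    (add_le_add (m3 (c := a + b) u1 t5) (m3 (c := a + b + 2) u2 t6))
  have v2 := (norm_add_le _ _).trans (add_le_add t1 t2)
  have v3 := (norm_add_le _ _).trans (add_le_add t3 t4)
  linarith

lemma prv_gen {θ : ℂ → ℝ} (hθ : TF1 θ) (h1 : ∀ z, θ z ≤ 1) {R : ℝ}
    (hR : tsupport θ ⊆ closedBall 0 R) {K : Set ℂ} (hK : ∀ z ∈ K, θ z = 1) (a b : ℤ) {C4 : ℝ}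
    (c4 : 0 ≤ C4) : ∃ C : ℝ, 0 ≤ C ∧ ∀ (Ψ : ℤ → V → ℂ) (E0 : ℂ → ℝ), Pre Ψ →
      (∀ z, ‖ph Ψ a z‖ ^ 2 + ‖ph Ψ b z‖ ^ 2 ≤ E0 z) →
      (∀ z, ‖ph Ψ (a + 1) z‖ ^ 2 + ‖ph Ψ (b + 1) z‖ ^ 2 ≤ E0 z) →
      (∀ z ∈ tsupport θ, ‖eP (psi Ψ ![a, b]) (psi Ψ ![a + 1, b + 1]) z‖ ≤ C4 * E0 z) →
      ∀ M : ℝ, 0 < M → ∀ e : ℂ → ℝ, (∀ z, 0 ≤ e z) → (∀ z ∈ tsupport θ, C * E0 z ≤ e z) →
      Pr R (M / 4) e K (fun z => θ z * psi Ψ ![a, b] z) (fun z => θ z * psi Ψ ![a + 1, b + 1] z)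
        (psi (trL M Ψ) ![a, b]) (psi (trL M Ψ) ![a + 1, b + 1]) := by
  have hd : ContDiff ℝ 1 fun z => (θ z : ℂ) := ofRealCLM.contDiff.comp hθ.cd
  have hc : HasCompactSupport fun z => (θ z : ℂ) := hθ.toTF.ofReal.hcs
  obtain ⟨C1, b1⟩ := (continuous_dz hd).bounded_above_of_compact_support (hcs_dz hc)
  obtain ⟨C2, b2⟩ := (continuous_dzb hd).bounded_above_of_compact_support (hcs_dzb hc)
  have c1 : 0 ≤ C1 := (norm_nonneg _).trans (b1 0)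
  have c2 : 0 ≤ C2 := (norm_nonneg _).trans (b2 0)
  have KU : K ⊆ tsupport θ := fun z hz => subset_tsupport _ (by simp [hK z hz])
  refine ⟨1 + C1 + C2 + C4, by positivity, fun Ψ E0 hL g1 g2 k2 M hM e e0 he => ?_⟩
  have E00 : ∀ z, 0 ≤ E0 z := fun z => le_trans (by positivity) (g1 z)
  have n1 : ∀ z, ‖psi Ψ ![a, b] z‖ ≤ E0 z := fun z => (norm_psi_two_le Ψ a b z).trans (g1 z)
  have n2 : ∀ z, ‖psi Ψ ![a + 1, b + 1] z‖ ≤ E0 z := fun z =>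
    (norm_psi_two_le Ψ _ _ z).trans (g2 z)
  have E : ∀ z ∈ tsupport θ, E0 z ≤ e z := fun z hz =>
    le_trans (by nlinarith [E00 z]) (he z hz)
  have nθ : ∀ z, ‖(θ z : ℂ)‖ ≤ 1 := fun z => by
    rw [Complex.norm_real, Real.norm_of_nonneg (hθ.nn z)]; exact h1 z
  have cut : ∀ {F : ℂ → ℂ}, (∀ z, ‖F z‖ ≤ E0 z) → ∀ z, ‖θ z * F z‖ ≤ e z := by
    intro F hF z
    by_cases hz : z ∈ tsupport θ
    · rw [norm_mul]
      exact (mul_le_of_le_one_left (norm_nonneg _) (nθ z)).trans ((hF z).trans (E z hz))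
    · simp [image_eq_zero_of_notMem_tsupport hz, e0]
  have bu : ∀ a b z, ‖psi (trL M Ψ) ![a, b] z‖ ≤ 4 * (M / 4) := fun a b z => by
    simp only [psi_two, norm_mul, ph_trL]
    nlinarith [norm_TM_sq_le hM (ph Ψ a z), norm_TM_sq_le hM (ph Ψ b z),
      sq_nonneg (‖TM M (ph Ψ a z)‖ - ‖TM M (ph Ψ b z)‖)]
  have du : ∀ a b, ∀ z ∈ K, ‖ph Ψ a z‖ ^ 2 + ‖ph Ψ b z‖ ^ 2 ≤ e z →
      ‖psi (trL M Ψ) ![a, b] z - θ z * psi Ψ ![a, b] z‖ ≤ 4 * max (e z - M / 4) 0 := by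
    intro a b z hz h
    simp only [psi_two, ph_trL, hK z hz, ofReal_one, one_mul]
    have := le_max_right (e z - M / 4) 0
    linarith [TM_mul_sub hM _ _ h]
  refine ⟨contDiff_cut hθ.cd hθ.sub (hL.cd_psi _), contDiff_cut hθ.cd hθ.sub (hL.cd_psi _),
    fun z hz => ?_, fun z => ⟨cut n1 z, cut n2 z, ?_⟩,
    (hL.cd_psi_trL M _).continuousOn.mono (KU.trans hθ.sub),
    (hL.cd_psi_trL M _).continuousOn.mono (KU.trans hθ.sub),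
    fun z _ => ⟨bu _ _ z, bu _ _ z⟩, fun z hz => ⟨du _ _ z hz ((g1 z).trans (E z (KU hz))),
      du _ _ z hz ((g2 z).trans (E z (KU hz)))⟩⟩
  · have : θ z = 0 := image_eq_zero_of_notMem_tsupport fun h => by
      have := hR h
      rw [mem_closedBall_zero_iff] at this
      linarith
    simp [this]
  · by_cases hz : z ∈ tsupport θ
    · have hz' := hθ.sub hz
      have d0 := hd.differentiable one_ne_zero z
      have d : ∀ a b, DifferentiableAt ℝ (psi Ψ ![a, b]) z := fun a b =>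
        ((hL.cd_psi _).contDiffAt (isOpen_UH.mem_nhds hz')).differentiableAt one_ne_zero
      have e1 : eP (fun z => θ z * psi Ψ ![a, b] z) (fun z => θ z * psi Ψ ![a + 1, b + 1] z) z
          = θ z * eP (psi Ψ ![a, b]) (psi Ψ ![a + 1, b + 1]) z
            + dz (fun z => (θ z : ℂ)) z * psi Ψ ![a, b] z
            + dzb (fun z => (θ z : ℂ)) z * psi Ψ ![a + 1, b + 1] z := by
        simp only [eP, dz_mul d0 (d _ _), dzb_mul d0 (d _ _)]; ring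
      rw [e1]
      refine norm_add₃_le.trans (le_trans ?_ (he z hz))
      simp only [norm_mul]
      have a1 := mul_le_mul (nθ z) (k2 z hz) (norm_nonneg _) zero_le_one
      have a2 := mul_le_mul (b1 z) (n1 z) (norm_nonneg _) c1
      have a3 := mul_le_mul (b2 z) (n2 z) (norm_nonneg _) c2
      nlinarith [E00 z]
    · have h0 : θ =ᶠ[𝓝 z] 0 := notMem_tsupport_iff_eventuallyEq.1 hz
      have z0 : ∀ F : ℂ → ℂ, (fun z => θ z * F z) =ᶠ[𝓝 z] fun _ => 0 := fun F => by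
        filter_upwards [h0] with w hw
        simp [hw]
      simp [eP, dz, dzb, wp, wm, (z0 _).fderiv_eq, e0]

theorem FamV.prr (h : FamV ℓ Cb U m Φ) (huu : ∀ n, UU U fun j z => ‖ph (Φ j) n z‖ ^ 2)
    {θ : ℂ → ℝ} (hθ : TF1 θ) (h1 : ∀ z, θ z ≤ 1) {R : ℝ} (hR : tsupport θ ⊆ closedBall 0 R)
    {K : Set ℂ} (hK : ∀ z ∈ K, θ z = 1) (a b : ℤ) : ∃ E : J → ℂ → ℝ, UU U E ∧
      ∀ᶠ j in (U : Filter J), ∀ M : ℝ, 0 < M → ∀ e : ℂ → ℝ, (∀ z, 0 ≤ e z) →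
        (∀ z ∈ tsupport θ, E j z ≤ e z) →
        Pr R (M / 4) e K (fun z => θ z * psi (Φ j) ![a, b] z)
          (fun z => θ z * psi (Φ j) ![a + 1, b + 1] z)
          (psi (trL M (Φ j)) ![a, b]) (psi (trL M (Φ j)) ![a + 1, b + 1]) := by
  obtain ⟨n, ha, hb⟩ : ∃ n : ℤ, a.natAbs + 1 ≤ n.natAbs ∧ b.natAbs + 1 ≤ n.natAbs :=
    ⟨(a.natAbs + b.natAbs + 1 : ℕ), by omega, by omega⟩
  obtain ⟨C4, c4, b4⟩ := prv_bd h.ok hθ.hcs.isCompact hθ.sub a b n ha hb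
  obtain ⟨C, c0, hC⟩ := prv_gen hθ h1 hR hK a b c4
  have u := UU_SN (fun j => (h.vl j).toPre) n fun k _ => huu k
  have sq : ∀ j (k k' : ℤ) z, k.natAbs ≤ n.natAbs → k'.natAbs ≤ n.natAbs →
      ‖ph (Φ j) k z‖ ^ 2 + ‖ph (Φ j) k' z‖ ^ 2 ≤ 2 * SN (Φ j) n (z, 1) ^ 2 := by
    intro j k k' z hk hk'
    have e1 : ‖ph (Φ j) k z‖ ^ 2 ≤ SN (Φ j) n (z, 1) ^ 2 :=
      pow_le_pow_left₀ (norm_nonneg _) ((h.vl j).toPre.norm_le_SN hk (z, 1)) 2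
    have e2 : ‖ph (Φ j) k' z‖ ^ 2 ≤ SN (Φ j) n (z, 1) ^ 2 :=
      pow_le_pow_left₀ (norm_nonneg _) ((h.vl j).toPre.norm_le_SN hk' (z, 1)) 2
    linarith
  refine ⟨fun j z => C * (2 * SN (Φ j) n (z, 1) ^ 2),
    u.of_le (fun j => continuousOn_const.mul (continuousOn_const.mul (u.cont j)))
      (fun j z => by positivity)
      fun _ _ _ => ⟨C * 2, Eventually.of_forall fun j z _ => le_of_eq (by ring)⟩,
    Eventually.of_forall fun j => hC (Φ j) (fun z => 2 * SN (Φ j) n (z, 1) ^ 2) (h.vl j).toPre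
      (fun z => sq j _ _ z (by omega) (by omega)) (fun z => sq j _ _ z (by omega) (by omega))
      fun z hz => (b4 _ _ (h.vl j) z hz).trans ?_⟩
  nlinarith [mul_nonneg c4 (sq_nonneg (SN (Φ j) n (z, 1)))]

end Pool.Agent.Lib.MP_a52643_an
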