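import Pool.Agent.Lib.MP_a52643_an.VC.TwoA

/-!
The truncated quartic functional of an abstract family.
-/

open Complex MeasureTheory Set Filter Topology Asymptotics Metric Polynomial
open scoped ComplexConjugate ContDiff ENNReal CompactlySupported

noncomputable section

namespace Pool.Agent.Lib.MP_a52643_an

variable {J : Type} {U : Ultrafilter J} {Φ : J → ℤ → V → ℂ} {μ : Measure V}
  {χ : ℂ → ℝ}

lemma UFA.cont_tr (h : UFA U Φ) {ι : Type} [Fintype ι] (p : ℕ × J) (a : ι → ℤ) :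
    ContinuousOn (psi (trF Φ p) a) UH := ((h.lad p.2).cd_psi_trL _ a).continuousOn

lemma UFA.isBigO_tr (h : UFA U Φ) {ι : Type} [Fintype ι] (hι : Fintype.card ι ≤ 4)
    {τ : ℂ → ℂ} (hτ : TF τ) (a : ι → ℤ) :
    (fun p => ∫ z, τ z * psi (trF Φ p) a z ∂hyp) =O[UW U] fun _ => (1 : ℝ) := by
  classical
  have hK := hτ.hcs.isCompact
  obtain ⟨C, C0, hC⟩ := hτ.norm_integral_le
  choose B hB using fun i => (h.uu (a i)).sq_UW hK hτ.sub
  refine IsBigO.of_bound (C * (volume.real (tsupport τ) + ∑ i, B i)) ?_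
  filter_upwards [eventually_all.2 fun i => hB i 1 one_pos] with p hp
  simp only [norm_one, mul_one, one_mul] at hp ⊢
  refine (hC _ (h.cont_tr p a)).trans (mul_le_mul_of_nonneg_left ?_ C0)
  have i1 : ∀ i, IntegrableOn (fun z => min (‖ph (Φ p.2) (a i) z‖ ^ 2) (p.1 + 1) ^ 2)
      (tsupport τ) := fun i =>
    (((((h.uu (a i)).cont p.2).inf continuousOn_const).pow 2).mono hτ.sub).integrableOn_compact hK
  have i2 : IntegrableOn (fun _ => (1 : ℝ)) (tsupport τ) := integrableOn_const hK.measure_ne_top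
  have i3 := integrable_finsetSum Finset.univ fun i _ => i1 i
  calc _ ≤ ∫ z in tsupport τ, (1 + ∑ i, min (‖ph (Φ p.2) (a i) z‖ ^ 2) (p.1 + 1) ^ 2) := by
        refine integral_mono (((h.cont_tr p a).mono hτ.sub).norm.integrableOn_compact hK)
          (i2.add i3) fun z => ?_
        simp only [psi, norm_prod]
        refine (prod_le_one_add_sum hι _ fun i => norm_nonneg _).trans ?_
        gcongr with i
        exact norm_TM_four (level_pos p) _
    _ = volume.real (tsupport τ) + ∑ i, ∫ z in tsupport τ,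
          min (‖ph (Φ p.2) (a i) z‖ ^ 2) (p.1 + 1) ^ 2 := by
        rw [integral_add i2 i3, integral_finsetSum _ fun i _ => i1 i]; simp
    _ ≤ _ := by gcongr with i; exact hp i

lemma UFA.tendsto_QQ_tr (h : UFA U Φ) {ι : Type} [Fintype ι] (hι : Fintype.card ι ≤ 4)
    {τ : ℂ → ℂ} (hτ : TF τ) (P : LA ι) :
    Tendsto (fun p => ∫ z, τ z * GG (trF Φ p) P z ∂hyp) (UW U) (𝓝 (QQ (UW U) (trF Φ) τ P)) :=
  tendsto_QQ_of h.cont_tr hτ (h.isBigO_tr hι hτ) P

lemma UFA.kills (h : UFA U Φ) (hχ : TF1 χ) :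
    Kills (QQ (ι := Fin 4) (UW U) (trF Φ) fun z => χ z) := by
  have T := fun a : Fin 4 → ℤ => tendsto_ul (h.isBigO_tr (by simp) hχ.toTF.ofReal a)
  refine kills_lin (fun a => ?_) fun a => ?_
  · exact tendsto_nhds_unique (tendsto_finsetSum _ fun i _ => T _) (h.van hχ a)
  · refine tendsto_nhds_unique (tendsto_finsetSum _ fun i _ => T _) ?_
    have := ((continuous_conj.tendsto _).comp (h.van hχ (-a))).const_mul
      ((-1 : ℂ) ^ (∑ i, a i - 1))
    simp only [map_zero, mul_zero] at this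
    refine this.congr fun p => ?_
    simp only [Function.comp, map_sum, ← integral_conj, map_mul, conj_ofReal,
      trF, conj_psi_of ((h.lad p.2).cnj_trL _), Finset.mul_sum, ← integral_const_mul]
    refine Finset.sum_congr rfl fun i _ => ?_
    congr 1; ext z
    have e1 : -(-a + Pi.single i 1) = a - Pi.single i 1 := by ring
    have e2 : ∑ k, (-a + Pi.single i 1 : Fin 4 → ℤ) k = -(∑ i, a i - 1) := by
      simp [Finset.sum_add_distrib, Finset.sum_pi_single']; ring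
    have e3 : (-1 : ℂ) ^ (∑ i, a i - 1) * (-1) ^ (-(∑ i, a i - 1)) = 1 := by
      rw [← zpow_add₀ (by norm_num)]; simp
    rw [e1, e2]
    linear_combination (χ z * psi (trL (p.1 + 1) (Φ p.2)) (a - Pi.single i 1) z) * e3

lemma UFA.two_diff (h : UFA U Φ) {τ : ℂ → ℂ} (hτ : TF τ) (P : LA (Fin 2)) :
    Tendsto (fun p => (∫ z, τ z * GG (trF Φ p) P z ∂hyp) - ∫ z, τ z * GG (Φ p.2) P z ∂hyp)
      (UW U) (𝓝 0) := by
  induction P using AddMonoidAlgebra.induction_linear with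
  | zero => simp
  | add f g hf hg =>
    have := hf.add hg
    rw [add_zero] at this
    refine this.congr fun p => ?_
    simp only [GG_add, mul_add]
    rw [integral_add (hτ.integrable_mul (cont_GG_of (h.cont_tr p) f))
      (hτ.integrable_mul (cont_GG_of (h.cont_tr p) g)),
      integral_add (hτ.integrable_mul ((h.lad _).cont_GG f))
      (hτ.integrable_mul ((h.lad _).cont_GG g))]
    ring
  | single a c =>
    have hK := hτ.hcs.isCompact
    obtain ⟨C, C0, hC⟩ := hτ.norm_integral_le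
    have hu := (h.uu (a 0)).add (h.uu (a 1))
    have t := ((hu.tail_UW hK hτ.sub (c := 1 / 4) (by norm_num)).const_mul (C * (2 * |c|)))
    rw [mul_zero] at t
    refine squeeze_zero_norm (fun p => ?_) t
    have c1 := cont_GG_of (h.cont_tr p) (AddMonoidAlgebra.single a c)
    have c2 := (h.lad p.2).cont_GG (AddMonoidAlgebra.single a c)
    rw [← integral_sub (hτ.integrable_mul c1) (hτ.integrable_mul c2)]
    simp only [← mul_sub]
    refine (hC _ (c1.sub c2)).trans ?_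
    rw [mul_assoc, ← mul_assoc (2 * |c|), ← integral_const_mul (2 * |c| * _)]
    have i2 : IntegrableOn (fun z => max (‖ph (Φ p.2) (a 0) z‖ ^ 2 + ‖ph (Φ p.2) (a 1) z‖ ^ 2
        - 1 / 4 * (p.1 + 1)) 0) (tsupport τ) := ((((hu.cont p.2).sub continuousOn_const).sup
      continuousOn_const).mono hτ.sub).integrableOn_compact hK
    refine mul_le_mul_of_nonneg_left (integral_mono
      (((c1.sub c2).mono hτ.sub).norm.integrableOn_compact hK) (i2.const_mul _) fun z => ?_) C0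
    simp only [Pi.sub_apply, GG_single, ← mul_sub, norm_mul, Complex.norm_real, Real.norm_eq_abs,
      psi, Fin.prod_univ_two, trF, ph_trL]
    have h1 := TM_mul_sub (level_pos p) (ph (Φ p.2) (a 0) z) (ph (Φ p.2) (a 1) z) le_rfl
    rw [show ((p.1 : ℝ) + 1) / 4 = 1 / 4 * (p.1 + 1) by ring] at h1
    have h2 : (1 : ℝ) ≤ p.1 + 1 := by simp
    have h3 := le_max_right (‖ph (Φ p.2) (a 0) z‖ ^ 2 + ‖ph (Φ p.2) (a 1) z‖ ^ 2
      - 1 / 4 * (p.1 + 1)) 0
    have h4 := abs_nonneg c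
    nlinarith [mul_le_mul_of_nonneg_left h1 h4, mul_nonneg h4 (mul_nonneg (sub_nonneg.2 h2) h3)]

lemma UFA.tendsto_GR_tr (h : UFA U Φ) (hμ : IsLim U Φ μ) {τ : ℂ → ℝ} (hτ : TF τ) (q : ℝ[X]) :
    Tendsto (fun p => ∫ z, τ z * GR (trF Φ p) q z ∂hyp) (UW U)
      (𝓝 (q.eval (-1) * ∫ v, τ (pr v) ∂μ)) := by
  have t1 := (h.toFamA.tendsto_GR hμ hτ q).comp tendsto_snd_UW
  have t2 := (continuous_re.tendsto _).comp (h.two_diff hτ.ofReal (aeval (cc 0 1) q))
  have := t2.add t1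
  rw [zero_re, zero_add] at this
  refine this.congr fun p => ?_
  simp only [Function.comp, trF, GR_eq_of ((h.lad p.2).cnj_trL _), (h.lad _).GR_eq, ← ofReal_mul,
    integral_complex_ofReal, sub_re, ofReal_re]
  ring

lemma UFA.tendsto_GR_sq_tr (h : UFA U Φ) (hχ : TF1 χ) (q : ℝ[X]) :
    Tendsto (fun p => ∫ z, χ z * GR (trF Φ p) q z ^ 2 ∂hyp) (UW U)
      (𝓝 (QQ (ι := Fin 4) (UW U) (trF Φ) (fun z => χ z)
        (aeval (cc 0 1) q * aeval (cc 2 3) q)).re) := by
  have e1 : (aeval (cc 0 1) q : LA (Fin 4)) = rel (![0, 1] : Fin 2 → Fin 4) (aeval (cc 0 1) q) := by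
    rw [← aeval_algHom_apply, rel_cc]; rfl
  have e2 : (aeval (cc 2 3) q : LA (Fin 4)) = rel (![2, 3] : Fin 2 → Fin 4) (aeval (cc 0 1) q) := by
    rw [← aeval_algHom_apply, rel_cc]; rfl
  have := (continuous_re.tendsto _).comp (h.tendsto_QQ_tr (ι := Fin 4) (by simp) hχ.toTF.ofReal
    (aeval (cc 0 1) q * aeval (cc 2 3) q))
  refine this.congr fun p => ?_
  simp only [Function.comp, e1, e2, GG_four, trF, GR_eq_of ((h.lad p.2).cnj_trL _), ← ofReal_mul,
    integral_complex_ofReal, ofReal_re, sq]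

lemma UFA.pos (h : UFA U Φ) (hμ : IsLim U Φ μ) (hχ : TF1 χ) (q : ℝ[X]) (ψ : ℂ → ℝ)
    (hψ : Continuous ψ) :
    2 * (q.eval (-1) * ∫ v, χ (pr v) * ψ (pr v) ∂μ) - ∫ z, χ z * ψ z ^ 2 ∂hyp
      ≤ (QQ (ι := Fin 4) (UW U) (trF Φ) (fun z => χ z)
        (aeval (cc 0 1) q * aeval (cc 2 3) q)).re := by
  have t := ((h.tendsto_GR_tr hμ (hχ.toTF.mul_real hψ) q).const_mul 2).sub_const
    (∫ z, χ z * ψ z ^ 2 ∂hyp)
  refine le_of_tendsto_of_tendsto' t (h.tendsto_GR_sq_tr hχ _) fun p => ?_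
  have c : ContinuousOn (GR (trF Φ p) q) UH :=
    continuous_re.comp_continuousOn (cont_GG_of (h.cont_tr p) _)
  have i1 := (hχ.toTF.mul_real hψ).integrable_real c
  have i2 : Integrable (fun z => χ z * ψ z ^ 2) hyp :=
    hχ.toTF.integrable_real (hψ.pow 2).continuousOn
  rw [← integral_const_mul, ← integral_sub (i1.const_mul _) i2]
  refine integral_mono ((i1.const_mul _).sub i2) (hχ.toTF.integrable_real (c.pow 2)) fun x => ?_
  have := mul_nonneg (hχ.nn x) (sq_nonneg (GR (trF Φ p) q x - ψ x))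
  simp only
  nlinarith

lemma UFA.dc (h : UFA U Φ) (hμ : IsLim U Φ μ) (hχ : TF1 χ) (a b c d : ℤ) :
    ∃ δ > 0, ∃ C : ℝ, ∀ ε, 0 < ε → ε ≤ δ →
      ‖((∫ x, (cht χ x : ℂ) * mm μ ε c d x * mm μ ε (a + 1) (b + 1) x)
        - ∫ x, (cht χ x : ℂ) * mm μ ε (c + 1) (d + 1) x * mm μ ε a b x)
        - (QQ (UW U) (trF Φ) (fun z => χ z) (AddMonoidAlgebra.single ![a + 1, b + 1, c, d] 1)
          - QQ (UW U) (trF Φ) (fun z => χ z)
            (AddMonoidAlgebra.single ![a, b, c + 1, d + 1] 1))‖ ≤ C * ε := by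
  set K := tsupport χ
  have hK : IsCompact K := hχ.hcs.isCompact
  obtain ⟨δ, hδ, hU⟩ := hK.exists_cthickening_subset_open isOpen_UH hχ.sub
  obtain ⟨θ, θ1, θ2, θ3, θ4, θ5⟩ := exists_bump (hK.cthickening (r := δ)) isOpen_UH hU
  obtain ⟨ρ, ρ1, ρ2, ρ3, ρ4, ρ5⟩ := exists_bump θ2.isCompact isOpen_UH θ3
  have hθ : TF1 θ := ⟨⟨θ1.continuous, θ2, θ3⟩, θ1, fun z => (θ5 z).1⟩
  have θ6 : ∀ z ∈ cthickening δ K, θ z = 1 := θ4.self_of_nhdsSet
  obtain ⟨R, hR0, hR⟩ := θ2.isCompact.isBounded.subset_closedBall_lt 0 (0 : ℂ)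
  obtain ⟨C0, hC0⟩ := hχ.cutC
  obtain ⟨E1, c1, p1⟩ := h.prr hθ (fun z => (θ5 z).2) hR
    (fun z hz => θ6 z (self_subset_cthickening K hz)) a b
  obtain ⟨E2, c2, p2⟩ := h.prr hθ (fun z => (θ5 z).2) hR
    (fun z hz => θ6 z (self_subset_cthickening K hz)) c d
  set ut : J → ℤ → ℤ → ℂ → ℂ := fun j a b z => (θ z : ℂ) * psi (Φ j) ![a, b] z with hut
  set e : J → ℂ → ℝ := fun j z => ρ z * (E1 j z + E2 j z) with he
  have hE := c1.add c2
  have ce : ∀ j, Continuous (e j) := fun j =>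
    continuous_cut ρ1.continuous ρ3 (hE.cont j)
  have e0 : ∀ j z, 0 ≤ e j z := fun j z =>
    mul_nonneg (ρ5 z).1 (hE.nn j z)
  have ez : ∀ j, ∀ z ∉ tsupport ρ, e j z = 0 := fun j z hz => by
    simp [he, image_eq_zero_of_notMem_tsupport hz]
  have ue : UU U e := hE.of_le (fun j => (ce j).continuousOn) e0 fun _ _ _ =>
    ⟨1, Eventually.of_forall fun j z _ => by
      rw [one_mul]; exact mul_le_of_le_one_left (hE.nn j z) (ρ5 z).2⟩
  obtain ⟨B, hB⟩ := ue.sq_UW ρ2.isCompact ρ3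
  obtain ⟨C, hC⟩ := bite (l := UW U) (B := B) hC0 hδ hR0
    (fun z hz => hR (subset_tsupport θ (by simp [θ6 z hz])))
    (U := fun p => ut p.2 a b) (U' := fun p => ut p.2 (a + 1) (b + 1))
    (u := fun p => psi (trF Φ p) ![a, b]) (u' := fun p => psi (trF Φ p) ![a + 1, b + 1])
    (W := fun p => ut p.2 c d) (W' := fun p => ut p.2 (c + 1) (d + 1))
    (w := fun p => psi (trF Φ p) ![c, d]) (w' := fun p => psi (trF Φ p) ![c + 1, d + 1])
    (e := fun p => e p.2) (Λ := fun p => ((p.1 : ℝ) + 1) / 4) (fun p => ce p.2)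
    (fun p => ρ2.mul_right)
    ((tendsto_level.eventually_ge_atTop 4).mono fun p hp => by linarith)
    ((tendsto_snd_UW.eventually p1).mono fun p hp => hp _ (level_pos p) _ (e0 _) fun z hz => by
      simp only [he, ρ4.self_of_nhdsSet z hz, one_mul]
      linarith [c2.nn p.2 z])
    ((tendsto_snd_UW.eventually p2).mono fun p hp => hp _ (level_pos p) _ (e0 _) fun z hz => by
      simp only [he, ρ4.self_of_nhdsSet z hz, one_mul]
      linarith [c1.nn p.2 z])
    (by
      have := (ue.tail_UW ρ2.isCompact ρ3 (c := 1 / 4) (by norm_num)).div_const 4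
      rw [zero_div] at this
      refine this.congr fun p => ?_
      rw [setIntegral_eq_integral_of_forall_compl_eq_zero fun z hz => by
        rw [ez _ z hz, max_eq_right (by linarith [level_pos p])]]
      rw [show 1 / 4 * ((p.1 : ℝ) + 1) = (p.1 + 1) / 4 by ring]
      ring)
    (fun k hk => (hB (k / 4) (by positivity)).mono fun p hp => by
      rw [setIntegral_eq_integral_of_forall_compl_eq_zero fun z hz => by
        rw [ez _ z hz, min_eq_left (by positivity)]; simp] at hp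
      rwa [show k * (((p.1 : ℝ) + 1) / 4) = k / 4 * (p.1 + 1) by ring])
  refine ⟨δ, hδ, C, fun ε hε hεδ => ?_⟩
  have cdu : ∀ j a b, ContDiff ℝ 1 (ut j a b) := fun j a b =>
    contDiff_cut θ1 θ3 ((h.lad j).cd_psi _)
  have eq0 : ∀ j a b, ∀ z ∈ cthickening δ K, ut j a b z = psi (Φ j) ![a, b] z :=
    fun j a b z hz => by simp [hut, θ6 z hz]
  have hU' : cthickening ε K ⊆ UH := (cthickening_mono hεδ K).trans hU
  have b1 : ∀ x ∈ K, closedBall x ε ⊆ cthickening ε K := fun x hx =>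
    closedBall_subset_cthickening hx ε
  have un : ∀ a b, TendstoUniformlyOn (fun j => moll ε (ut j a b)) (mm μ ε a b) U K := by
    intro a b
    have := tendstoUniformlyOn_of_equi (g0 := mm μ ε a b) hK
      (fun x hx => hμ.modeA h.toFamA (tf_kern hε ((b1 x hx).trans hU')).ofReal a b)
      (LH.equi (fun j => ((h.lad j).cd_psi _).continuousOn) (h.toFamA.lh_psi a b) hK hε hU')
    refine this.congr (Eventually.of_forall fun j x hx => ?_)
    exact (moll_eq_kern hε ((b1 x hx).trans hU') fun y hy =>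
      eq0 j a b y (cthickening_mono hεδ K (b1 x hx hy))).symm
  have tm : ∀ a b c d, Tendsto (fun p : ℕ × J => ∫ x, (cht χ x : ℂ) * moll ε (ut p.2 c d) x
      * moll ε (ut p.2 a b) x) (UW U) (𝓝 (∫ x, (cht χ x : ℂ) * mm μ ε c d x * mm μ ε a b x)) :=
    fun a b c d => (tendsto_integral_mul_mul hK hχ.cd_cht.continuous
      (fun x hx => by simp [cht_zero hx]) (fun j => continuous_moll (cdu j _ _).continuous ε)
      (fun j => continuous_moll (cdu j _ _).continuous ε) (un c d) (un a b)).comp tendsto_snd_UW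
  have tq : ∀ a b c d, Tendsto (fun p => ∫ x, (cht χ x : ℂ) * psi (trF Φ p) ![c, d] x
      * psi (trF Φ p) ![a, b] x) (UW U)
      (𝓝 (QQ (UW U) (trF Φ) (fun z => χ z) (AddMonoidAlgebra.single ![a, b, c, d] 1))) := by
    intro a b c d
    refine (h.tendsto_QQ_tr (by simp) hχ.toTF.ofReal _).congr fun p => ?_
    have := integral_hyp_cht hχ.toTF (psi (trF Φ p) ![a, b, c, d])
    simp only [real_smul] at this
    simp only [GG_single, ofReal_one, one_mul, this]
    simp only [psi_four, mul_assoc]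
  refine le_of_forall_pos_le_add fun η hη => ?_
  exact le_of_tendsto (((tm _ _ _ _).sub (tm _ _ _ _)).sub ((tq _ _ _ _).sub (tq _ _ _ _))).norm
    (hC ε hε hεδ η hη)

theorem UFA.qf (h : UFA U Φ) (hμ : IsLim U Φ μ) (hχ : TF1 χ) :
    QF μ χ (QQ (UW U) (trF Φ) fun z => χ z) :=
  ⟨h.kills hχ, QQ_rel _ _ _, h.pos hμ hχ, h.dc hμ hχ⟩

end Pool.Agent.Lib.MP_a52643_an
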