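import Pool.Agent.Lib.MP_a52643_an.VC.Lad
import Pool.Agent.Lib.MP_a52643_an.VC.InfV
import Pool.Agent.Lib.MP_a52643_an.VC.CPV
import Pool.Agent.Lib.MP_a52643_an.VC.KillV
import Pool.Agent.Lib.MP_a52643_an.VC.PrV
import Pool.Agent.Lib.MP_a52643_an.VC.TFunA
import Pool.Agent.Lib.MP_a52643_an.VC.NCV

/-!
The global inequality along an ultrafilter.
-/

open MeasureTheory Set Filter Topology Metric UpperHalfPlane
open scoped ENNReal MatrixGroups Pointwise NNReal ComplexConjugate ContDiff Laplacian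

noncomputable section

namespace Pool.Agent.Lib.MP_a52643_an

variable {Γ : Type*} [Group Γ] [MulAction Γ ℍ] [Countable Γ] {l : Γ → SL2} {D : Set ℍ}
  {ℓ : ℂ → ℝ}

lemma corev_pos (ℓ : ℂ → ℝ) (z : ℂ) : 0 < rh ℓ z := Real.exp_pos _

lemma corev_cd (hs : ContDiffOn ℝ ∞ ℓ UH) : ContDiffOn ℝ 1 (rh ℓ) UH :=
  ((contDiffOn_const.mul hs).exp).of_le (by simp)

lemma corev_cont (hs : ContDiffOn ℝ ∞ ℓ UH) : Continuous fun z : ℍ => rh ℓ z :=
  (corev_cd hs).continuousOn.comp_continuous continuous_coe fun z => z.im_pos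

omit [Countable Γ] in
lemma corev_inv (hG : CG l ℓ) (hD : FD l D) (γ : Γ) (z : ℍ) :
    rh ℓ ((γ • z : ℍ) : ℂ) = rh ℓ z := by
  rw [hD.act, rh, hG.inv, rh]

lemma corev_tf1 (hs : ContDiffOn ℝ ∞ ℓ UH) {χ : ℂ → ℝ} (hχ : TF1 χ) :
    TF1 fun z => χ z * rh ℓ z := by
  have h1 := contDiff_cut hχ.cd hχ.sub (F := fun z => (rh ℓ z : ℂ))
    (Complex.ofRealCLM.contDiff.comp_contDiffOn (corev_cd hs))
  have h2 : ContDiff ℝ 1 fun z => χ z * rh ℓ z := by
    simpa [Function.comp_def] using Complex.reCLM.contDiff.comp h1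
  exact ⟨⟨h2.continuous, hχ.hcs.mul_right,
    (tsupport_mul_subset_left (f := χ) (g := rh ℓ)).trans hχ.sub⟩, h2,
    fun z => mul_nonneg (hχ.nn z) (corev_pos ℓ z).le⟩

omit [Countable Γ] in
lemma corev_iw (hG : CG l ℓ) (hD : FD l D) {w : ℍ → ℝ} (h : IW Γ D w) :
    IW Γ D fun z => w z * rh ℓ z := by
  obtain ⟨C, -, hC⟩ := hG.rh_bd
  refine ⟨h.meas.mul (corev_cont hG.sm).measurable,
    fun z => mul_nonneg (h.nn z) (corev_pos ℓ z).le,
    fun γ z => by simp only [h.inv, corev_inv hG hD], ?_⟩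
  exact h.int.mul_bdd (c := C) (corev_cont hG.sm).aestronglyMeasurable
    (Eventually.of_forall fun z => by
      rw [Real.norm_of_nonneg (corev_pos ℓ z).le]; exact (hC z z.im_pos).1)

omit [Countable Γ] in
lemma corev_le (hG : CG l ℓ) (hD : FD l D) {C : ℝ} (hC : ∀ z : ℍ, 1 ≤ C * rh ℓ z) {w : ℍ → ℝ}
    (h : IW Γ D w) : ∫ z in D, w z ≤ C * ∫ z in D, w z * rh ℓ z := by
  rw [← integral_const_mul]
  refine integral_mono h.int ((corev_iw hG hD h).int.const_mul C) fun z => ?_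
  have := mul_le_mul_of_nonneg_left (hC z) (h.nn z)
  simp only
  linarith

omit [Countable Γ] in
lemma corev_econt {φ : ℍ → ℝ} {lam : ℝ} (h : EigV Γ ℓ D φ lam) : Continuous φ := by
  have := h.sm.continuousOn.comp_continuous continuous_coe fun z => z.im_pos
  simpa only [Function.comp_def, ofComplex_apply] using this

omit [Countable Γ] in
lemma corev_eiw (hD : FD l D) {φ : ℍ → ℝ} {lam : ℝ} (h : EigV Γ ℓ D φ lam) {g : ℝ → ℝ}
    (hg : Continuous g) (g0 : ∀ t, 0 ≤ g t) {a b : ℝ} (hb : ∀ t, g t ≤ a + b * t ^ 2) :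
    IW Γ D fun z => g (φ z) := by
  have : IsFiniteMeasure (volume.restrict D) := isFiniteMeasure_restrict.2 hD.fin
  refine ⟨(hg.comp (corev_econt h)).measurable, fun z => g0 _,
    fun γ z => by simp only [h.inv], ?_⟩
  exact ((integrable_const a).add (h.int.const_mul b)).mono'
    (hg.comp (corev_econt h)).aestronglyMeasurable (Eventually.of_forall fun z => by
      rw [Real.norm_of_nonneg (g0 _)]; exact hb _)

omit [Countable Γ] in
lemma corev_ladder (hG : CG l ℓ) (hD : FD l D) : ∃ Cb, OKC ℓ Cb ∧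
    ∀ (φ : ℍ → ℝ) (lam : ℝ), 1 ≤ lam → EigV Γ ℓ D φ lam →
      ∃ Φ : ℤ → V → ℂ, VL ℓ Cb (√lam) Φ ∧ (∀ z : ℍ, ph Φ 0 z = φ z) ∧
        ∀ γ n, Inv (ea (l γ)) (eb (l γ)) (ec (l γ)) (ed (l γ)) (Φ n) := by
  obtain ⟨Cb, ok, hCb⟩ := exists_vl hG.sm
  refine ⟨Cb, ok, fun φ lam hl h => ?_⟩
  obtain ⟨Φ, h1, h2, h3⟩ := hCb lam _ hl h.sm h.eig
  refine ⟨Φ, h1, fun z => by simp [ph, h2, pr],
    fun γ => h3 _ _ _ _ (det_eq _) (fun z hz => ?_) fun z hz => ?_⟩
  · have := coe_act (l γ) ⟨z, hz⟩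
    rw [← hD.act] at this
    rw [← show ((γ • (⟨z, hz⟩ : ℍ) : ℍ) : ℂ) = _ from this, ofComplex_apply, h.inv,
      ofComplex_apply_of_im_pos hz]
  · have := coe_act (l γ) ⟨z, hz⟩
    rw [← show ((l γ • (⟨z, hz⟩ : ℍ) : ℍ) : ℂ) = _ from this, hG.inv]

section lim

variable {J : Type} {U : Ultrafilter J} {Φ : J → ℤ → V → ℂ} {μ : Measure V}

lemma corev_dens (h : FamA U Φ) (hμ : IsLim U Φ μ) (hD : FD l D)
    (hi : ∀ γ j n, Inv (ea (l γ)) (eb (l γ)) (ec (l γ)) (ed (l γ)) (Φ j n))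
    (h1 : ∀ χ, TF1 χ → ∃ C, WB μ χ C) :
    ∃ f : ℍ → ℝ≥0∞, Measurable f ∧ (∀ (γ : Γ) z, f (γ • z) = f z) ∧
      muH μ = volume.withDensity f := by
  have := hμ.lf_muH
  have left : ∀ γ, MeasurePreserving (fun g => l γ * g) (μ.map nG) (μ.map nG) := fun γ =>
    mp_map measurable_nG (hμ.mp_LgA h (det_eq _) (hi γ)) (measurable_const_mul _)
      (hμ.ae_Om.mono fun v hv => (nG_Lg _ hv).symm)
  have mH : ∀ γ : Γ, MeasurePreserving (fun z : ℍ => γ • z) (muH μ) (muH μ) := fun γ =>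
    mp_map measurable_bp (left γ) (hD.mp γ).measurable
      (Eventually.of_forall fun g => by rw [bp_mul, hD.act])
  have ai : ∀ γ : Γ, ∀ᵐ z : ℍ, (muH μ).rnDeriv volume (γ • z) = (muH μ).rnDeriv volume z := by
    intro γ
    have me : MeasurableEmbedding fun z : ℍ => γ • z := by
      simp only [hD.act]; exact measurableEmbedding_const_smul _
    have := me.rnDeriv_map (muH μ) volume
    rwa [(mH γ).map_eq, (hD.mp γ).map_eq] at this
  have mf : Measurable fun z : ℍ => ⨅ γ : Γ, (muH μ).rnDeriv volume (γ • z) :=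
    Measurable.iInf fun γ => (Measure.measurable_rnDeriv _ _).comp (hD.mp γ).measurable
  refine ⟨_, mf, fun γ z => ?_, ?_⟩
  · simp only [smul_smul]
    exact (Equiv.mulRight γ).iInf_comp (g := fun δ : Γ => (muH μ).rnDeriv volume (δ • z))
  · rw [withDensity_congr_ae (g := (muH μ).rnDeriv volume),
      Measure.withDensity_rnDeriv_eq _ _ (hμ.ac h1)]
    filter_upwards [ae_all_iff.2 ai] with z hz
    simp [hz]

lemma corev_sq_le (hG : CG l ℓ) (hμ : IsLim U Φ μ) (hD : FD l D) {f : ℍ → ℝ≥0∞}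
    (hf : Measurable f) (e : muH μ = volume.withDensity f) {C : ℝ}
    (h : ∀ χ, FC Γ χ → WB μ (fun z => χ z * rh ℓ z) C) :
    ∫⁻ z in D, ENNReal.ofReal (rh ℓ z) * f z ^ 2 ≤ ENNReal.ofReal C := by
  have := hμ.lf_muH
  obtain ⟨R, -, hR⟩ := hG.rh_bd
  have mr : Measurable fun z : ℍ => ENNReal.ofReal (rh ℓ z) :=
    (corev_cont hG.sm).measurable.ennreal_ofReal
  have e0 : ∀ {g : ℍ → ℝ≥0∞}, Measurable g → ∫⁻ z in D, ENNReal.ofReal (rh ℓ z) * g z
      = ∫⁻ z, g z ∂((volume.restrict D).withDensity fun z : ℍ => ENNReal.ofReal (rh ℓ z)) :=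
    fun hg => (lintegral_withDensity_eq_lintegral_mul _ mr hg).symm
  rw [e0 (hf.pow_const 2)]
  refine lintegral_sq_le_of_min hf fun n => ENNReal.le_of_forall_pos_le_add fun ε hε _ => ?_
  rw [← e0 ((hf.min measurable_const).pow_const 2)]
  obtain ⟨t, t0, -, ht⟩ := exists_mul_le_enn (c := ENNReal.ofReal R * (n : ℝ≥0∞) ^ 2) (η := ε)
    (ENNReal.mul_ne_top ENNReal.ofReal_ne_top (by simp)) (by simpa using hε.ne')
  obtain ⟨K, O, hK, hKD, hO, hKO, hF, h1, -⟩ := hD.exists_free t0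
  obtain ⟨χ, hχ, h2, h3, h4⟩ := exists_bumpH hK hO hKO
  have hχ' := corev_tf1 hG.sm hχ
  have := hχ'.fin (muH μ)
  have := hχ'.fin volume
  have h5 := dual_sq ((h χ ⟨hχ, h3, O, hO.measurableSet, hF, h4⟩).dual hμ hχ') hf (by
    rw [e, ← withDensity_mul _ hf hχ'.measE, ← withDensity_mul _ hχ'.measE hf, mul_comm])
  rw [lintegral_withDensity_eq_lintegral_mul _ hχ'.measE (hf.pow_const 2)] at h5
  rw [← lintegral_inter_add_sdiff _ _ hK.measurableSet, inter_eq_right.2 hKD]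
  refine add_le_add (le_trans ?_ ((setLIntegral_le_lintegral K _).trans h5)) (le_trans ?_ ht)
  · refine setLIntegral_mono' hK.measurableSet fun z hz => ?_
    simp only [Pi.mul_apply, h2 z hz, one_mul]
    gcongr; exact min_le_left _ _
  · calc _ ≤ ∫⁻ _ in D \ K, ENNReal.ofReal R * (n : ℝ≥0∞) ^ 2 := by
          gcongr with z
          · exact (hR z z.im_pos).1
          · exact min_le_right _ _
      _ ≤ _ := by rw [setLIntegral_const]; gcongr

end lim

theorem coreV {J : Type} {U : Ultrafilter J} (hG : CG l ℓ) (hD : FD l D) {φ : J → ℍ → ℝ}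
    {lam : J → ℝ} (hl : ∀ j, 1 ≤ lam j) (ht : Tendsto lam U atTop)
    (h : ∀ j, EigV Γ ℓ D (φ j) (lam j)) (hn : ∀ j, ∫ z in D, φ j z ^ 2 * rh ℓ z ≤ 1)
    (hH : ∀ η > 0, ∃ A ≥ 0, ∀ Λ > 0, ∀ᶠ j in (U : Filter J),
      ∫ z in D, hub A Λ (φ j z ^ 2) * rh ℓ z ≤ η)
    {M : ℝ} (hM : ∀ N > 0, ∀ η > 0, ∀ᶠ j in (U : Filter J),
      ∫ z in D, min (φ j z ^ 2) N ^ 2 * rh ℓ z ≤ M + η) :
    ∃ f : ℍ → ℝ, Measurable f ∧ IntegrableOn (fun z => f z ^ 2) D ∧
      3 * ∫ z in D, f z ^ 2 * rh ℓ z ≤ M ∧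
      ∀ (ψ : ℍ → ℝ) (B : ℝ), Measurable ψ → (∀ z, |ψ z| ≤ B) →
        Tendsto (fun j => ∫ z in D, ψ z * φ j z ^ 2) U (𝓝 (∫ z in D, ψ z * f z)) := by
  obtain ⟨Cb, ok, hCb⟩ := corev_ladder hG hD
  choose Φ hL h0 hi using fun j => hCb _ _ (hl j) (h j)
  obtain ⟨R, R1, hR⟩ := hG.rh_bd
  have R0 : 0 < R := one_pos.trans_le R1
  have hR' : ∀ z : ℍ, 1 ≤ R * rh ℓ z := fun z => by
    have := (hR z z.im_pos).2
    rwa [inv_le_iff_one_le_mul₀ (corev_pos ℓ z)] at this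
  have M0 : 0 ≤ M := le_of_forall_pos_le_add fun η hη => by
    obtain ⟨j, hj⟩ := (hM 1 one_pos η hη).exists
    exact le_trans (integral_nonneg fun z : ℍ => mul_nonneg (sq_nonneg _) (corev_pos ℓ z).le) hj
  have c0 : ∀ j, ContinuousOn (fun z => ‖ph (Φ j) 0 z‖ ^ 2) UH := fun j =>
    ((hL j).cd_ph 0).continuousOn.norm.pow 2
  have e0 : ∀ j (z : ℍ), ‖ph (Φ j) 0 z‖ ^ 2 = φ j z ^ 2 := fun j z => by simp [h0]
  have iw2 : ∀ j, IW Γ D fun z => φ j z ^ 2 := fun j =>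
    corev_eiw hD (h j) (g := fun t => t ^ 2) (by fun_prop) (fun t => sq_nonneg t) (a := 0) (b := 1)
      fun t => by simp
  have iwH : ∀ j {A Λ : ℝ}, 0 ≤ A → 0 ≤ Λ → IW Γ D fun z => hub A Λ (φ j z ^ 2) :=
    fun j A Λ hA hΛ => corev_eiw hD (h j) (g := fun t => hub A Λ (t ^ 2))
      ((continuous_hub A Λ).comp (by fun_prop)) (fun t => hub_nonneg hΛ) (a := 0) (b := 2 * Λ)
      fun t => by simpa using hub_le_lin hΛ hA (sq_nonneg t)
  have iwM : ∀ j {N : ℝ}, 0 < N → IW Γ D fun z => min (φ j z ^ 2) N ^ 2 := fun j N hN =>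
    corev_eiw hD (h j) (g := fun t => min (t ^ 2) N ^ 2) (by fun_prop) (fun t => sq_nonneg _)
      (min_sq_le hN)
  have hn' : ∀ j, ∫ z in D, φ j z ^ 2 ≤ R := fun j =>
    (corev_le hG hD hR' (iw2 j)).trans (mul_le_of_le_one_right R0.le (hn j))
  have hH' : ∀ η > 0, ∃ A ≥ 0, ∀ Λ > 0, ∀ᶠ j in (U : Filter J),
      ∫ z in D, hub A Λ (φ j z ^ 2) ≤ η := by
    intro η hη
    obtain ⟨A, hA, h1⟩ := hH (η / R) (by positivity)
    refine ⟨A, hA, fun Λ hΛ => (h1 Λ hΛ).mono fun j hj => ?_⟩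
    refine (corev_le hG hD hR' (iwH j hA hΛ.le)).trans ?_
    rwa [← le_div_iff₀' R0]
  have ht' : Tendsto (fun j => √(lam j)) U atTop := Real.tendsto_sqrt_atTop.comp ht
  have hF2 : FamV ℓ Cb U (fun j => √(lam j)) Φ := by
    refine ⟨ok, hL, ht', LB_twoV ok hL ht' ?_⟩
    have : LH U fun j z => ‖ph (Φ j) 0 z‖ ^ 2 := by
      intro K hK hU
      obtain ⟨C, C0, hC⟩ := hD.local_le hK hU
      refine ⟨C * R, Eventually.of_forall fun j => ?_⟩
      refine (hC _ _ (iw2 j) (c0 j) (fun z => by positivity) (e0 j)).1.trans ?_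
      exact mul_le_mul_of_nonneg_left (hn' j) C0.le
    intro R
    obtain ⟨C, hC⟩ := this.lb (fun j z => by positivity) c0 R
    refine ⟨C, hC.mono fun j hj => le_of_eq_of_le ?_ hj⟩
    refine setIntegral_congr_fun (measurableSet_KB R) fun v hv => ?_
    simp only [(hL j).norm_ph 0 (KB_subset_Om R hv)]
  have uu : ∀ n, UU U fun j z => ‖ph (Φ j) n z‖ ^ 2 := by
    refine hF2.uu ⟨c0, fun j z => by positivity, fun K hK hU η hη => ?_⟩
    obtain ⟨C, C0, hC⟩ := hD.local_le hK hU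
    obtain ⟨A, hA, h1⟩ := hH' (η / C) (by positivity)
    refine ⟨A, hA, fun Λ hΛ => (h1 Λ hΛ).mono fun j hj => ?_⟩
    refine (hC _ _ (iwH j hA hΛ.le) ((continuous_hub A Λ).comp_continuousOn (c0 j))
      (fun z => hub_nonneg hΛ.le) fun z => by simp only [Function.comp, e0]).2.trans ?_
    rwa [← le_div_iff₀' C0]
  have hA : FamA U Φ := hF2.famA
  have hF : UFA U Φ := ⟨hA, uu, fun hχ a => hF2.van uu hχ a,
    fun hθ h1 _ hR _ hK a b => hF2.prr uu hθ h1 hR hK a b⟩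
  obtain ⟨μ, hμ⟩ := hA.exists_isLim
  have := hμ.lf
  have pw : ∀ {τ : ℂ → ℝ}, TF τ →
      Tendsto (fun p : ℕ × J => ∫ z : ℍ, τ z * TR (p.1 + 1) (φ p.2 z) ^ 4) (UW U)
        (𝓝 (QQ (ι := Fin 4) (UW U) (trF Φ) (fun z => τ z) 1).re) := by
    intro τ hτ
    refine ((Complex.continuous_re.tendsto _).comp
      (hF.tendsto_QQ_tr (ι := Fin 4) (by simp) hτ.ofReal 1)).congr fun j => ?_
    simp only [Function.comp, GG_one, integral_hyp_coe, trF, ph_trL, h0, TM_ofReal,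
      ← Complex.ofReal_pow, ← Complex.ofReal_mul, integral_complex_ofReal, Complex.ofReal_re,
      Fintype.card_fin]
  have p2 : ∀ {τ : ℂ → ℝ}, TF τ →
      Tendsto (fun j => ∫ z : ℍ, τ z * φ j z ^ 2) U (𝓝 (∫ v, τ (pr v) ∂μ)) := by
    intro τ hτ
    have := hA.tendsto_GR hμ hτ 1
    simp only [Polynomial.eval_one, one_mul, GR, map_one, GG_one, integral_hyp_coe, h0,
      ← Complex.ofReal_pow, Complex.ofReal_re, Fintype.card_fin] at this
    exact this
  have hM' : ∀ η > 0, ∀ᶠ p : ℕ × J in UW U,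
      ∫ z in D, min (φ p.2 z ^ 2) (p.1 + 1) ^ 2 * rh ℓ z ≤ M + η := fun η hη =>
    eventually_UW (Eventually.of_forall fun N => hM (N + 1) (by positivity) η hη)
  have w2 : ∀ χ, FC Γ χ →
      (QQ (ι := Fin 4) (UW U) (trF Φ) (fun z => (χ z * rh ℓ z : ℝ)) 1).re ≤ M := by
    rintro χ ⟨hχ, c1, O, hO, hfr, c2⟩
    refine le_of_forall_pos_le_add fun η hη => ?_
    refine le_of_tendsto (pw (corev_tf1 hG.sm hχ).toTF) ((hM' η hη).mono fun p hj => ?_)
    obtain ⟨i1, b1⟩ := (corev_iw hG hD (iwM p.2 (level_pos p))).le_free hD hO hfr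
    refine le_trans ?_ (b1.trans hj)
    rw [← setIntegral_eq_integral_of_forall_compl_eq_zero (s := O) fun z hz => by
      rw [image_eq_zero_of_notMem_tsupport fun h' => hz (c2 z h'), zero_mul, zero_mul]]
    refine integral_mono_of_nonneg
      (Eventually.of_forall fun z => mul_nonneg (mul_nonneg (hχ.nn _) (corev_pos ℓ z).le)
        (by positivity)) i1 (Eventually.of_forall fun z => ?_)
    have a1 : χ z * TR (p.1 + 1) (φ p.2 z) ^ 4 ≤ min (φ p.2 z ^ 2) (p.1 + 1) ^ 2 :=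
      (mul_le_of_le_one_left (by positivity) (c1 _)).trans (TR_four_le (level_pos p) _)
    have a2 := mul_le_mul_of_nonneg_right a1 (corev_pos ℓ z).le
    simp only
    linarith
  obtain ⟨f, hf, finv, dens⟩ := corev_dens hA hμ hD (fun γ j n => hi j γ n)
    (fun χ hχ => ⟨_, (hF.qf hμ hχ).wb⟩)
  have mr : Measurable fun z : ℍ => ENNReal.ofReal (rh ℓ z) * f z ^ 2 :=
    (corev_cont hG.sm).measurable.ennreal_ofReal.mul (hf.pow_const 2)
  have fsq : ∫⁻ z in D, f z ^ 2 ≠ ⊤ := by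
    have s1 := corev_sq_le hG hμ hD hf dens (C := M) fun χ hχ ψ hψ =>
      ((hF.qf hμ (corev_tf1 hG.sm hχ.1)).wb ψ hψ).trans (w2 χ hχ)
    refine ne_top_of_le_ne_top (ENNReal.mul_ne_top (a := ENNReal.ofReal R) ENNReal.ofReal_ne_top
      (ne_top_of_le_ne_top ENNReal.ofReal_ne_top s1)) ?_
    rw [← lintegral_const_mul _ mr]
    refine lintegral_mono fun z => ?_
    rw [← mul_assoc, ← ENNReal.ofReal_mul R0.le]
    exact le_mul_of_one_le_left' (ENNReal.one_le_ofReal.2 (hR' z))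
  obtain ⟨n1, n2⟩ := ncV hG hD hμ.ae_cslab (fun γ => hμ.mp_LgA hA (det_eq _) fun j n => hi j γ n)
    (fun F h1 h2 => hμ.infV hF2 h1 h2) hf finv dens fsq
  have sq := corev_sq_le hG hμ hD hf dens (C := M / 3) fun χ hχ ψ hψ => by
    have hχ' := corev_tf1 hG.sm hχ.1
    linarith [(hF.qf hμ hχ').local_four hμ hχ' n1 n2 hψ, w2 χ hχ]
  have mf := hf.ennreal_toReal
  have iw : IW Γ D fun z => (f z).toReal ^ 2 := ⟨mf.pow_const 2, fun z => by positivity,
    fun γ z => by simp only [finv], by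
      simpa only [ENNReal.toReal_pow, IntegrableOn] using
        integrable_toReal_of_lintegral_ne_top (hf.pow_const 2).aemeasurable fsq⟩
  have fl : ∀ᵐ z : ℍ, f z < ⊤ := by
    have := hμ.lf_muH
    have e := Measure.rnDeriv_withDensity volume hf
    rw [← dens] at e
    filter_upwards [e, Measure.rnDeriv_lt_top (muH μ) volume] with z h1 h2
    exact h1 ▸ h2
  have b3 : 3 * ∫ z in D, (f z).toReal ^ 2 * rh ℓ z ≤ M := by
    have e : ∀ z : ℍ, (f z).toReal ^ 2 * rh ℓ z = (ENNReal.ofReal (rh ℓ z) * f z ^ 2).toReal :=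
      fun z => by
        rw [ENNReal.toReal_mul, ENNReal.toReal_pow, ENNReal.toReal_ofReal (corev_pos ℓ z).le,
          mul_comm]
    simp only [e]
    rw [integral_toReal mr.aemeasurable (ae_restrict_of_ae
      (fl.mono fun z hz => ENNReal.mul_lt_top ENNReal.ofReal_lt_top (ENNReal.pow_lt_top hz)))]
    linarith [ENNReal.toReal_le_of_le_ofReal (by positivity) sq]
  have b4 : ∫ z in D, (f z).toReal ^ 2 ≤ R * M + 1 := by
    have a1 := corev_le hG hD hR' iw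
    have a2 : ∫ z in D, (f z).toReal ^ 2 * rh ℓ z ≤ M := by linarith
    linarith [mul_le_mul_of_nonneg_left a2 R0.le]
  refine ⟨fun z => (f z).toReal, mf, iw.int, b3, fun ψ B hψ hB => ?_⟩
  refine tendsto_of_tau' hD (u := fun j z => φ j z ^ 2)
    (fun j => ((corev_econt (h j)).pow 2).measurable) mf (fun s hs => ?_) (fun τ hτ => ?_) hψ hB
  · obtain ⟨A, A0, h1⟩ := hH' s hs
    set r := s / (R * M + 1) with hr
    have r0 : 0 < r := by positivity
    refine ⟨2 * (A + 1) + 1 / r, by positivity, fun j z => hub A (A + 1) (φ j z ^ 2),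
      fun z => r * (f z).toReal ^ 2, fun j => iwH j A0 (by positivity),
      ⟨(mf.pow_const 2).const_mul _, fun z => by positivity, fun γ z => by simp only [finv],
        iw.int.const_mul _⟩, fun j z => ?_, fun z => ?_, h1 _ (by positivity), ?_⟩
    · have a1 := pos_le_hub (A := A) (Λ := A + 1) (s := φ j z ^ 2) (by linarith) (by linarith)
      have a2 := le_max_left (φ j z ^ 2 - 2 * (A + 1)) 0
      have a3 := le_max_right (φ j z ^ 2 - 2 * (A + 1)) 0
      have : 0 < 1 / r := by positivity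
      rw [abs_of_nonneg (sq_nonneg _)]
      nlinarith
    · beta_reduce
      set x := (f z).toReal
      have e : 1 / r + r * |x| ^ 2 - 2 * |x| = (1 - r * |x|) ^ 2 / r := by field_simp; ring
      have : 0 ≤ (1 - r * |x|) ^ 2 / r := by positivity
      rw [← sq_abs x]; linarith [abs_nonneg x]
    · rw [integral_const_mul, hr, div_mul_eq_mul_div, div_le_iff₀ (by positivity)]
      exact mul_le_mul_of_nonneg_left b4 hs.le
  · convert p2 hτ using 2
    rw [← hμ.integral_muH hτ.cont.measurable, dens,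
      integral_withDensity_eq_integral_toReal_smul hf fl]
    simp only [smul_eq_mul, mul_comm]

end Pool.Agent.Lib.MP_a52643_an
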