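import Pool.Agent.Lib.MP_a52643_an.VC.Cur

/-!
Convexity of the transversal displacement and robust crossings.
-/

open MeasureTheory Set Filter Topology Metric
open scoped ENNReal

noncomputable section

namespace Pool.Agent.Lib.MP_a52643_an

variable {X : Type*} {g : ℝ → X → X} {ξ x J Θ : X × X → ℝ} {C a r0 : ℝ}

lemma cvx_ev (K : ℝ) {c : ℝ} (hc : 0 < c) : ∀ᶠ e in 𝓝[>] (0 : ℝ), K * e ≤ c := by
  have h : Tendsto (fun e : ℝ => K * e) (𝓝 0) (𝓝 (K * 0)) :=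
    (continuous_const.mul continuous_id).tendsto 0
  rw [mul_zero] at h
  exact nhdsWithin_le_nhds (h.eventually (ge_mem_nhds hc))

lemma cvx_ex {P : ℝ → Prop} (h : ∀ᶠ e in 𝓝[>] (0 : ℝ), P e) :
    ∃ e0 > 0, ∀ e, 0 < e → e ≤ e0 → P e := by
  obtain ⟨u, hu, h'⟩ := mem_nhdsGT_iff_exists_Ioc_subset.1 h
  exact ⟨u, hu, fun e h1 h2 => h' ⟨h1, h2⟩⟩

lemma cvx_low {f f' : ℝ → ℝ} {s t c : ℝ} (hst : s ≤ t)
    (hd : ∀ u ∈ Icc s t, HasDerivAt f (f' u) u) (hc : ∀ u ∈ Ioo s t, c ≤ f' u) :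
    c * (t - s) ≤ f t - f s := by
  rcases hst.eq_or_lt with rfl | hlt
  · simp
  · obtain ⟨u, hu, he⟩ := exists_hasDerivAt_eq_slope f f' hlt
      (fun u hu => (hd u hu).continuousAt.continuousWithinAt)
      fun u hu => hd u (Ioo_subset_Icc_self hu)
    have := hc u hu
    rwa [he, le_div_iff₀ (sub_pos.2 hlt)] at this

/-- a perturbed Jacobi equation on `[s, T]` -/
def cvx_Sys (j θ : ℝ → ℝ) (s T δ a C : ℝ) : Prop :=
  ∀ t ∈ Icc s T, ∃ j' θ' k : ℝ, HasDerivAt j j' t ∧ HasDerivAt θ θ' t ∧ |j' - θ t| ≤ δ ∧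
    |θ' - k * j t| ≤ δ ∧ a ≤ k ∧ k ≤ C

lemma cvx_mono {j θ : ℝ → ℝ} {s T s' T' δ : ℝ} (h : cvx_Sys j θ s T δ a C) (h1 : s ≤ s')
    (h2 : T' ≤ T) : cvx_Sys j θ s' T' δ a C := fun t ht => h t (Icc_subset_Icc h1 h2 ht)

lemma cvx_neg {j θ : ℝ → ℝ} {s T δ : ℝ} (h : cvx_Sys j θ s T δ a C) :
    cvx_Sys (fun t => -j t) (fun t => -θ t) s T δ a C := by
  intro t ht
  obtain ⟨j', θ', k, h1, h2, h3, h4, h5⟩ := h t ht
  refine ⟨-j', -θ', k, h1.neg, h2.neg, ?_, ?_, h5⟩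
  · rwa [show -j' - -θ t = -(j' - θ t) by ring, abs_neg]
  · rwa [show -θ' - k * -j t = -(θ' - k * j t) by ring, abs_neg]

lemma cvx_rev {j θ : ℝ → ℝ} {s T δ : ℝ} (h : cvx_Sys j θ s T δ a C) :
    cvx_Sys (fun t => j (-t)) (fun t => -θ (-t)) (-T) (-s) δ a C := by
  intro t ht
  obtain ⟨j', θ', k, h1, h2, h3, h4, h5⟩ := h (-t) ⟨by linarith [ht.2], by linarith [ht.1]⟩
  refine ⟨j' * -1, -(θ' * -1), k, h1.comp t (hasDerivAt_neg t),
    (h2.comp t (hasDerivAt_neg t)).neg, ?_, ?_, h5⟩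
  · rwa [show j' * -1 - -θ (-t) = -(j' - θ (-t)) by ring, abs_neg]
  · rwa [show -(θ' * -1) - k * j (-t) = θ' - k * j (-t) by ring]

lemma cvx_fwd {j θ : ℝ → ℝ} {s T δ y L : ℝ} (h : cvx_Sys j θ s T δ a C) (ha : 0 < a)
    (hy : 0 < y) (hj : y ≤ j s) (hθ : 0 ≤ θ s) (hL : 0 ≤ L) (hT : s + L ≤ T) (hδ : 0 ≤ δ)
    (h1 : δ ≤ a * y / 4) (h2 : δ * (T - s) ≤ y / 4) : a * y * L ^ 2 / 16 ≤ j T := by
  choose! j' θ' k hj' hθ' e1 e2 k1 k2 using h
  have hay : 0 < a * y := mul_pos ha hy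
  have key : ∀ t ∈ Icc s T, (∀ u ∈ Ioo s t, y / 2 ≤ j u) →
      (∀ u ∈ Icc s t, a * y / 4 * (u - s) ≤ θ u) ∧ y / 2 < j t := by
    intro t ht hb
    have hs : ∀ u ∈ Icc s t, u ∈ Icc s T := fun u hu => ⟨hu.1, hu.2.trans ht.2⟩
    have A : ∀ u ∈ Icc s t, a * y / 4 * (u - s) ≤ θ u := by
      intro u hu
      have := cvx_low (f := θ) (f' := θ') (c := a * y / 4) hu.1
        (fun v hv => hθ' v (hs v ⟨hv.1, hv.2.trans hu.2⟩)) fun v hv => by
          have hv' := hs v ⟨hv.1.le, hv.2.le.trans hu.2⟩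
          have b1 := hb v ⟨hv.1, hv.2.trans_le hu.2⟩
          have b2 := (abs_le.1 (e2 v hv')).1
          have b3 : a * (y / 2) ≤ k v * j v :=
            mul_le_mul (k1 v hv') b1 (by linarith) (ha.le.trans (k1 v hv'))
          linarith
      linarith
    refine ⟨A, ?_⟩
    have B := cvx_low (f := j) (f' := j') (c := -δ) ht.1 (fun v hv => hj' v (hs v hv))
      fun v hv => by
        have hv' := Ioo_subset_Icc_self hv
        have b1 := A v hv'
        have b2 := (abs_le.1 (e1 v (hs v hv'))).1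
        have b3 : 0 ≤ a * y / 4 * (v - s) := mul_nonneg (by linarith) (by linarith [hv.1])
        linarith
    have b4 : δ * (t - s) ≤ δ * (T - s) := mul_le_mul_of_nonneg_left (by linarith [ht.2]) hδ
    linarith
  have hc : ContinuousOn j (Icc s T) := fun u hu => (hj' u hu).continuousAt.continuousWithinAt
  have all : ∀ t ∈ Icc s T, y / 2 < j t := by
    by_contra hn
    push Not at hn
    have hK : IsCompact (Icc s T ∩ j ⁻¹' Iic (y / 2)) :=
      isCompact_Icc.of_isClosed_subset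
        (hc.preimage_isClosed_of_isClosed isClosed_Icc isClosed_Iic) inter_subset_left
    obtain ⟨t, ht, hm⟩ := hK.exists_isLeast (by
      obtain ⟨t, ht, h'⟩ := hn
      exact ⟨t, ht, h'⟩)
    have := (key t ht.1 fun u hu => by
      by_contra hu'
      have : t ≤ u := hm ⟨⟨hu.1.le, hu.2.le.trans ht.1.2⟩, (not_le.1 hu').le⟩
      linarith [hu.2]).2
    exact absurd ht.2 (not_le.2 this)
  have hsT : s ≤ T := by linarith
  have A := (key T ⟨hsT, le_rfl⟩ fun u hu => (all u (Ioo_subset_Icc_self hu)).le).1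
  have hm : s + L / 2 ≤ T := by linarith
  have B := cvx_low (f := j) (f' := j') (c := a * y / 4 * (L / 2) - δ) hm
    (fun v hv => hj' v ⟨by linarith [hv.1], hv.2⟩) fun v hv => by
      have hv' : v ∈ Icc s T := ⟨by linarith [hv.1], hv.2.le⟩
      have b1 := A v hv'
      have b2 := (abs_le.1 (e1 v hv')).1
      have b3 : a * y / 4 * (L / 2) ≤ a * y / 4 * (v - s) :=
        mul_le_mul_of_nonneg_left (by linarith [hv.1]) (by linarith)
      linarith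
  have b1 := all (s + L / 2) ⟨by linarith, hm⟩
  have b2 : a * y / 4 * (L / 2) * (L / 2) ≤ a * y / 4 * (L / 2) * (T - (s + L / 2)) :=
    mul_le_mul_of_nonneg_left (by linarith) (by positivity)
  have b3 : δ * (T - (s + L / 2)) ≤ δ * (T - s) := mul_le_mul_of_nonneg_left (by linarith) hδ
  have b4 : a * y * L ^ 2 / 16 = a * y / 4 * (L / 2) * (L / 2) := by ring
  rw [sub_mul] at B
  linarith

lemma cvx_both {j θ : ℝ → ℝ} {T δ y L : ℝ} (h : cvx_Sys j θ 0 T δ a C) (ha : 0 < a)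
    (hy : 0 < y) (hj : y ≤ j L) (hL : 0 ≤ L) (hT : 2 * L ≤ T) (hδ : 0 ≤ δ)
    (h1 : δ ≤ a * y / 4) (h2 : δ * T ≤ y / 4) :
    a * y * L ^ 2 / 16 ≤ j T ∨ a * y * L ^ 2 / 16 ≤ j 0 := by
  have h3 := mul_nonneg hδ hL
  rcases le_total 0 (θ L) with h0 | h0
  · exact Or.inl (cvx_fwd (cvx_mono h hL le_rfl) ha hy hj h0 hL (by linarith) hδ h1
      (by rw [mul_sub]; linarith))
  · have h4 : δ * L ≤ δ * T := mul_le_mul_of_nonneg_left (by linarith) hδ
    have := cvx_fwd (L := L) (cvx_rev (cvx_mono h le_rfl (by linarith : L ≤ T))) ha hy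
      (by simpa using hj) (by simpa using h0) hL (by simp) hδ h1 (by
        rw [neg_zero, zero_sub, neg_neg]
        linarith)
    exact Or.inr (by simpa using this)

lemma cvx_gron {j θ : ℝ → ℝ} {s T δ : ℝ} (h : cvx_Sys j θ s T δ a C) (ha : 0 < a) (hC : 1 ≤ C)
    (hδ : 0 ≤ δ) (hsT : s ≤ T) (hj : j s = 0) :
    |j T| ≤ (|θ s| + δ) * Real.exp (C * (T - s)) := by
  choose! j' θ' k hj' hθ' e1 e2 k1 k2 using h
  have hd : ∀ t ∈ Icc s T, HasDerivAt (fun t => (j t, θ t)) (j' t, θ' t) t :=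
    fun t ht => (hj' t ht).prodMk (hθ' t ht)
  have hg := norm_le_gronwallBound_of_norm_deriv_right_le (f := fun t => (j t, θ t))
    (f' := fun t => (j' t, θ' t)) (δ := |θ s|) (K := C) (ε := δ) (a := s) (b := T)
    (fun t ht => (hd t ht).continuousAt.continuousWithinAt)
    (fun t ht => (hd t (Ico_subset_Icc_self ht)).hasDerivWithinAt) (by simp [hj])
    (fun t ht => by
      have ht' := Ico_subset_Icc_self ht
      have n1 : |j t| ≤ ‖(j t, θ t)‖ := norm_fst_le (j t, θ t)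
      have n2 : |θ t| ≤ ‖(j t, θ t)‖ := norm_snd_le (j t, θ t)
      have n0 := norm_nonneg (j t, θ t)
      have k0 := ha.le.trans (k1 t ht')
      refine max_le ?_ ?_
      · have b1 := abs_sub_abs_le_abs_sub (j' t) (θ t)
        have b2 := e1 t ht'
        have b3 := le_mul_of_one_le_left n0 hC
        rw [Real.norm_eq_abs]
        linarith
      · have b1 := abs_sub_abs_le_abs_sub (θ' t) (k t * j t)
        have b2 := e2 t ht'
        have b3 : k t * |j t| ≤ C * ‖(j t, θ t)‖ :=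
          mul_le_mul (k2 t ht') n1 (abs_nonneg _) (by linarith)
        rw [abs_mul, abs_of_nonneg k0] at b1
        rw [Real.norm_eq_abs]
        linarith) T ⟨hsT, le_rfl⟩
  rw [gronwallBound_of_K_ne_0 (by linarith)] at hg
  have n1 : |j T| ≤ ‖(j T, θ T)‖ := norm_fst_le (j T, θ T)
  have b1 : δ / C ≤ δ := div_le_self hδ hC
  have b2 : 0 ≤ δ / C := div_nonneg hδ (by linarith)
  have b3 := Real.exp_pos (C * (T - s))
  have b4 := mul_le_mul_of_nonneg_right b1 b3.le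
  simp only at hg
  rw [mul_sub (δ / C)] at hg
  rw [add_mul]
  linarith

lemma PG.cvx_sys (h : PG g ξ x J Θ C a r0) {p : X × X} {T ρ : ℝ} (hρ : ρ ≤ r0)
    (hp : ∀ t ∈ Icc 0 T, ξ (jt g t p) ≤ ρ) :
    cvx_Sys (fun t => J (jt g t p)) (fun t => Θ (jt g t p)) 0 T (C * ρ ^ 2) a C := by
  intro t ht
  obtain ⟨x', J', Θ', k, -, h1, h2, -, h3, h4, h5⟩ := h.derJ p t ((hp t ht).trans hρ)
  have b : C * ξ (jt g t p) ^ 2 ≤ C * ρ ^ 2 :=
    mul_le_mul_of_nonneg_left (pow_le_pow_left₀ (h.nn _) (hp t ht) 2) (by linarith [h.C1])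
  exact ⟨J', Θ', k, h1, h2, h3.trans b, h4.trans b, h5⟩

theorem PG.convex (h : PG g ξ x J Θ C a r0) {κ : ℝ} (hκ : 0 < κ) : ∃ Λ > 0, ∀ T, 2 * Λ ≤ T →
    ∀ M > 0, ∃ e0 > 0, ∀ e, 0 < e → e ≤ e0 → ∀ p, (∀ t ∈ Icc 0 T, ξ (jt g t p) ≤ M * e) →
      |J p| ≤ 3 * e → |J (jt g T p)| ≤ 3 * e → |J (jt g Λ p)| ≤ κ * e := by
  have ha := h.a0
  have hC := h.C1
  obtain ⟨Λ, hΛ1, hΛ⟩ : ∃ Λ : ℝ, 1 ≤ Λ ∧ 64 ≤ a * κ * Λ :=
    ⟨max 1 (64 / (a * κ)), le_max_left _ _, by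
      have := le_max_right 1 (64 / (a * κ))
      rwa [div_le_iff₀' (mul_pos ha hκ)] at this⟩
  refine ⟨Λ, by linarith, fun T hT M hM => cvx_ex ?_⟩
  filter_upwards [cvx_ev M h.r0pos, cvx_ev (C * M ^ 2) (c := a * κ / 4) (by positivity),
    cvx_ev (C * M ^ 2 * T) (c := κ / 4) (by positivity), self_mem_nhdsWithin]
    with e e1 e2 e3 he p hp h0 h1
  have he0 : 0 < e := he
  have hS := h.cvx_sys e1 hp
  have hδ : 0 ≤ C * (M * e) ^ 2 := by positivity
  have d1 : C * (M * e) ^ 2 ≤ a * (κ * e) / 4 := by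
    have := mul_le_mul_of_nonneg_right e2 he0.le
    linarith
  have d2 : C * (M * e) ^ 2 * T ≤ κ * e / 4 := by
    have := mul_le_mul_of_nonneg_right e3 he0.le
    linarith
  have d3 : 4 * e ≤ a * (κ * e) * Λ ^ 2 / 16 := by
    have b1 : 64 * 1 ≤ a * κ * Λ * Λ := mul_le_mul hΛ hΛ1 zero_le_one (by linarith)
    have := mul_le_mul_of_nonneg_right b1 he0.le
    linarith
  have hy := mul_pos hκ he0
  rw [abs_le] at h0 h1 ⊢
  constructor
  · by_contra hn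
    rcases cvx_both (L := Λ) (cvx_neg hS) ha hy (by linarith [not_le.1 hn]) (by linarith) hT hδ
      d1 d2 with b | b
    · linarith [h1.1]
    · rw [h.jt_zero] at b
      linarith [h0.1]
  · by_contra hn
    rcases cvx_both (L := Λ) hS ha hy (not_le.1 hn).le (by linarith) hT hδ d1 d2 with b | b
    · linarith [h1.2]
    · rw [h.jt_zero] at b
      linarith [h0.2]

theorem PG.cross_time (h : PG g ξ x J Θ C a r0) {T M : ℝ} (hT : 0 < T) (hM : 0 < M) :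
    ∃ c > 0, ∃ M' > 0, ∃ e0 > 0, ∀ e, 0 < e → e ≤ e0 → ∀ p ∈ CrS g ξ J M T e,
      ∃ t ∈ Icc 0 T, J (jt g t p) = 0 ∧ c * e ≤ |Θ (jt g t p)| ∧ ξ (jt g t p) ≤ M' * e := by
  have ha := h.a0
  have hC := h.C1
  obtain ⟨N, r, hN, hr, hNr, hg⟩ := h.grow T
  have hE := Real.exp_pos (C * T)
  refine ⟨1 / (4 * Real.exp (C * T)), by positivity, N * M, by positivity, cvx_ex ?_⟩
  filter_upwards [cvx_ev M hr,
    cvx_ev (C * (N * M) ^ 2) (c := 1 / (4 * Real.exp (C * T))) (by positivity),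
    self_mem_nhdsWithin] with e e1 e2 he p hp
  have he0 : 0 < e := he
  obtain ⟨p1, p2, p3⟩ := hp
  have hb : ∀ t ∈ Icc 0 T, ξ (jt g t p) ≤ N * M * e := fun t ht => by
    have b1 := (hg p (p1.trans e1) t (abs_le.2 ⟨by linarith [ht.1], ht.2⟩)).1
    have b2 := mul_le_mul_of_nonneg_left p1 (by linarith : 0 ≤ N)
    linarith
  have hS := h.cvx_sys (by
    have := mul_le_mul_of_nonneg_left e1 (by linarith : 0 ≤ N)
    linarith) hb
  have hc : ContinuousOn (fun t => J (jt g t p)) (Icc 0 T) := fun t ht => by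
    obtain ⟨_, _, _, h1, -⟩ := hS t ht
    exact h1.continuousAt.continuousWithinAt
  obtain ⟨t, ht, h0⟩ : ∃ t ∈ Icc 0 T, J (jt g t p) = 0 := by
    rcases mul_nonpos_iff.1 p3 with b | b
    · exact intermediate_value_Icc' hT.le hc ⟨b.2, by simpa only [h.jt_zero] using b.1⟩
    · exact intermediate_value_Icc hT.le hc ⟨by simpa only [h.jt_zero] using b.1, b.2⟩
  refine ⟨t, ht, h0, ?_, hb t ht⟩
  have hδ : 0 ≤ C * (N * M * e) ^ 2 := by positivity
  have g1 := cvx_gron (cvx_mono hS ht.1 le_rfl) ha hC hδ ht.2 h0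
  have g2 := cvx_gron (cvx_rev (cvx_mono hS le_rfl ht.2)) ha hC hδ (by linarith [ht.1])
    (by simpa using h0)
  simp only [neg_zero, neg_neg, abs_neg, h.jt_zero, zero_sub] at g1 g2
  have hn : 0 ≤ |Θ (jt g t p)| + C * (N * M * e) ^ 2 := by positivity
  have x1 : Real.exp (C * (T - t)) ≤ Real.exp (C * T) :=
    Real.exp_le_exp.2 (mul_le_mul_of_nonneg_left (by linarith [ht.1]) (by linarith))
  have x2 : Real.exp (C * t) ≤ Real.exp (C * T) :=
    Real.exp_le_exp.2 (mul_le_mul_of_nonneg_left ht.2 (by linarith))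
  have g3 : e ≤ 2 * ((|Θ (jt g t p)| + C * (N * M * e) ^ 2) * Real.exp (C * T)) := by
    have b1 := mul_le_mul_of_nonneg_left x1 hn
    have b2 := mul_le_mul_of_nonneg_left x2 hn
    linarith
  have g4 : 2 * (1 / (4 * Real.exp (C * T)) * e) ≤ |Θ (jt g t p)| + C * (N * M * e) ^ 2 := by
    rw [show 2 * (1 / (4 * Real.exp (C * T)) * e) = e / (2 * Real.exp (C * T)) by
      field_simp; norm_num, div_le_iff₀ (by positivity)]
    linarith
  have g5 := mul_le_mul_of_nonneg_right e2 he0.le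
  linarith

theorem PG.len_thin (h : PG g ξ x J Θ C a r0) {M κ : ℝ} (hM : 0 < M) (hκ : 0 < κ) (hκ1 : κ ≤ 1) :
    ∃ e0 > 0, ∀ e, 0 < e → e ≤ e0 → ∀ p ∈ ThS ξ x J M κ e, ENNReal.ofReal (κ * e)
      ≤ volume {u ∈ Icc (-(5 * e)) (5 * e) | sl g u p ∈ PosS ξ x J r0 (2 * κ * e)} := by
  obtain ⟨N, r, hN, hr, hNr, hs⟩ := h.slide
  refine cvx_ex ?_
  filter_upwards [cvx_ev (M + 5) hr, cvx_ev (N * (M + 5) * 5) hκ, self_mem_nhdsWithin]
    with e e1 e2 he p hp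
  have he0 : 0 < e := he
  obtain ⟨p1, p2, p3⟩ := hp
  have hMe := mul_pos hM he0
  have hκe : κ * e ≤ e := mul_le_of_le_one_left he0.le hκ1
  have hκ0 := mul_pos hκ he0
  have hv : ENNReal.ofReal (κ * e) = volume (Icc (-x p - κ * e / 2) (-x p + κ * e / 2)) := by
    rw [Real.volume_Icc]
    congr 1
    ring
  rw [hv]
  refine measure_mono fun u hu => ?_
  have p4 := abs_le.1 p2
  have u1 : |u| ≤ 5 * e := abs_le.2 ⟨by linarith [hu.1], by linarith [hu.2]⟩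
  obtain ⟨s1, s2⟩ := hs p ((M + 5) * e) (by linarith) e1 u (by linarith)
  obtain ⟨s3, s4, -⟩ := s2 0 (by rw [abs_zero]; linarith)
  rw [h.sl_zero, sub_zero] at s3 s4
  have b1 : N * ((M + 5) * e) * |u| ≤ κ * e := by
    have b2 := mul_le_mul_of_nonneg_left u1 (by positivity : 0 ≤ N * ((M + 5) * e))
    have b3 := mul_le_mul_of_nonneg_right e2 he0.le
    linarith
  have s5 := abs_le.1 (s3.trans b1)
  have s6 := abs_le.1 (s4.trans b1)
  have p5 := abs_le.1 p3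
  refine ⟨abs_le.1 u1, ?_, abs_le.2 ⟨?_, ?_⟩, abs_le.2 ⟨?_, ?_⟩⟩
  · have := mul_le_mul_of_nonneg_left e1 (by linarith : 0 ≤ N)
    linarith
  · linarith [hu.1]
  · linarith [hu.2]
  · linarith
  · linarith

theorem PG.area_robust (h : PG g ξ x J Θ C a r0) {C0 T M : ℝ} (hC0 : 0 < C0) (hT : 0 < T)
    (hM : 0 < M) : ∃ c > 0, ∃ τ > 0, ∃ W > 0, ∃ M' > 0, ∃ e0 > 0, ∀ e, 0 < e → e ≤ e0 →
      ∀ p ∈ CrS g ξ J M T e, ENNReal.ofReal (τ * e)
        ≤ volume {q ∈ Icc (-1) (T + 1) ×ˢ Icc (-(W * e)) (W * e) |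
          Tp g q p ∈ XS ξ x J Θ C0 (M' * e) (c * e)} := by
  have hC := h.C1
  obtain ⟨c1, hc1, M1, hM1, e1, he1, hx⟩ := h.cross_time hT hM
  obtain ⟨G, rg, hG, hrg, -, hg⟩ := h.grow 1
  obtain ⟨N, r, hN, hr, -, hs⟩ := h.slide
  obtain ⟨c, hc, hcc⟩ : ∃ c > 0, C0 * c = c1 / 2 :=
    ⟨c1 / (2 * C0), by positivity, by field_simp⟩
  obtain ⟨b, hb, b1, b2⟩ : ∃ b > 0, b ≤ c / 4 ∧ b ≤ c1 / 4 :=
    ⟨min (c / 4) (c1 / 4), by positivity, min_le_left _ _, min_le_right _ _⟩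
  obtain ⟨σ, hσ, hσ'⟩ := cvx_ex ((cvx_ev 1 one_pos).and (cvx_ev (G * M1) hb))
  obtain ⟨σ1, σ2⟩ := hσ' σ hσ le_rfl
  rw [one_mul] at σ1
  obtain ⟨W, hW, W1, W2⟩ : ∃ W > 0, G * M1 ≤ W ∧ C * M1 + c ≤ W :=
    ⟨G * M1 + (C * M1 + c), by positivity, le_add_of_nonneg_right (by positivity),
      le_add_of_nonneg_left (by positivity)⟩
  refine ⟨c, hc, σ * c, by positivity, W, hW, N * W, by positivity, cvx_ex ?_⟩
  filter_upwards [cvx_ev 1 he1, cvx_ev M1 hrg, cvx_ev M1 h.r0pos, cvx_ev W hr,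
    cvx_ev (G * M1 ^ 2) hb, cvx_ev (N * W * W) hb, self_mem_nhdsWithin]
    with e a1 a2 a3 a4 a5 a6 he p hp
  have he0 : 0 < e := he
  obtain ⟨t0, ht0, z1, z2, z3⟩ := hx e he0 (by linarith) p hp
  have hce := mul_pos hc he0
  have hv : ENNReal.ofReal (σ * c * e) = volume (Icc t0 (t0 + σ) ×ˢ
      Icc (-x (jt g t0 p) - c * e / 2) (-x (jt g t0 p) + c * e / 2)) := by
    rw [Measure.volume_eq_prod, Measure.prod_prod, Real.volume_Icc, Real.volume_Icc,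
      ← ENNReal.ofReal_mul (by linarith)]
    congr 1
    ring
  rw [hv]
  refine measure_mono ?_
  rintro ⟨t, u⟩ ⟨ht, hu⟩
  have hj : jt g t p = jt g (t - t0) (jt g t0 p) := by rw [← h.jt_add, sub_add_cancel]
  have hTp : Tp g (t, u) p = sl g u (jt g (t - t0) (jt g t0 p)) := by rw [← hj]; rfl
  have t1 : |t - t0| ≤ σ := abs_le.2 ⟨by linarith [ht.1], by linarith [ht.2]⟩
  simp only [mem_Icc] at ht hu
  simp only [mem_ofPred_eq, hTp]
  generalize jt g t0 p = p0 at z1 z2 z3 hu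
  have n0 := h.nn p0
  have x0 : |x p0| ≤ C * M1 * e := by
    have c1 := (h.up p0 (z3.trans a3)).1
    have c2 := mul_le_mul_of_nonneg_left z3 (by linarith : 0 ≤ C)
    linarith
  obtain ⟨g1, g2⟩ := hg p0 (z3.trans a2) (t - t0) (t1.trans σ1)
  obtain ⟨g3, g4, g5⟩ := g2 0 (by simp)
  rw [h.jt_zero, sub_zero] at g3 g4 g5
  have hbe := mul_pos hb he0
  have l1 : G * ξ p0 ≤ G * (M1 * e) := mul_le_mul_of_nonneg_left z3 (by linarith)
  have l2 : G * ξ p0 * |t - t0| ≤ b * e := by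
    have c1 : G * ξ p0 * |t - t0| ≤ G * (M1 * e) * σ :=
      mul_le_mul l1 t1 (abs_nonneg _) (by positivity)
    have c2 := mul_le_mul_of_nonneg_right σ2 he0.le
    linarith
  have l3 : G * ξ p0 ^ 2 * |t - t0| ≤ b * e := by
    have c1 : G * ξ p0 ^ 2 * |t - t0| ≤ G * (M1 * e) ^ 2 * 1 :=
      mul_le_mul (mul_le_mul_of_nonneg_left (pow_le_pow_left₀ n0 z3 2) (by linarith))
        (t1.trans σ1) (abs_nonneg _) (by positivity)
    have c2 := mul_le_mul_of_nonneg_right a5 he0.le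
    linarith
  have w1 := mul_le_mul_of_nonneg_right W1 he0.le
  have w2 := mul_le_mul_of_nonneg_right W2 he0.le
  have x1 := abs_le.1 x0
  have u1 : |u| ≤ W * e := abs_le.2 ⟨by linarith [hu.1], by linarith [hu.2]⟩
  generalize jt g (t - t0) p0 = q at g1 g3 g4 g5
  obtain ⟨s1, s2⟩ := hs q (W * e) (by linarith) a4 u u1
  obtain ⟨s3, s4, s5⟩ := s2 0 (by rw [abs_zero]; positivity)
  rw [h.sl_zero, sub_zero] at s3 s4 s5
  have l4 : N * (W * e) * |u| ≤ b * e := by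
    have c1 := mul_le_mul_of_nonneg_left u1 (by positivity : 0 ≤ N * (W * e))
    have c2 := mul_le_mul_of_nonneg_right a6 he0.le
    linarith
  have y1 := abs_le.1 (g3.trans l3)
  have y2 := abs_le.1 (g4.trans l2)
  have y3 := abs_le.1 (s3.trans l4)
  have y4 := abs_le.1 (s4.trans l4)
  have y5 := (abs_sub_abs_le_abs_sub _ _).trans ((abs_sub_comm _ _).trans_le (g5.trans l2))
  have y6 := (abs_sub_abs_le_abs_sub _ _).trans ((abs_sub_comm _ _).trans_le (s5.trans l4))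
  have v1 := mul_le_mul_of_nonneg_right b1 he0.le
  have v2 := mul_le_mul_of_nonneg_right b2 he0.le
  rw [z1] at y2
  refine ⟨⟨⟨by linarith [ht.1, ht0.1], by linarith [ht.2, ht0.2]⟩, abs_le.1 u1⟩, by linarith,
    abs_le.2 ⟨by linarith [hu.1], by linarith [hu.2]⟩, abs_le.2 ⟨by linarith, by linarith⟩, ?_⟩
  rw [← mul_assoc, hcc]
  linarith

end Pool.Agent.Lib.MP_a52643_an
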