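import Pool.Agent.Lib.MP_a52643_an.VC.Mea
import Pool.Agent.Lib.MP_a52643_an.VC.Cvx
import Pool.Agent.Lib.MP_a52643_an.VC.Area

/-!
Crossing pairs at small angle carry little mass.
-/

open MeasureTheory Set Filter Topology Metric UpperHalfPlane
open scoped ENNReal MatrixGroups Pointwise NNReal

noncomputable section

namespace Pool.Agent.Lib.MP_a52643_an

variable {Γ : Type*} [Group Γ] [MulAction Γ ℍ] [Countable Γ] {l : Γ → SL2} {D : Set ℍ}
  {X : Type*} [MeasurableSpace X] {μ : Measure X} [SFinite μ] {τ : Γ → X → X} {P : X → ℍ}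
  {f : ℍ → ℝ≥0∞} {g : ℝ → X → X} {ξ x J Θ : X × X → ℝ} {C a r0 : ℝ}

omit [Group Γ] [MulAction Γ ℍ] [Countable Γ] in
lemma cross_mPos (hm : PM τ P ξ x J Θ C r0) (δ e : ℝ) : MeasurableSet (PosS ξ x J δ e) :=
  (measurableSet_le hm.mξ measurable_const).inter
    ((measurableSet_le hm.mx.abs measurable_const).inter
      (measurableSet_le hm.mJ.abs measurable_const))

omit [Group Γ] [MulAction Γ ℍ] [Countable Γ] in
lemma cross_mXS (hm : PM τ P ξ x J Θ C r0) (C0 δ e : ℝ) : MeasurableSet (XS ξ x J Θ C0 δ e) :=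
  (measurableSet_le hm.mξ measurable_const).inter
    ((measurableSet_le hm.mx.abs measurable_const).inter
      ((measurableSet_le hm.mJ.abs measurable_const).inter
        (measurableSet_le measurable_const hm.mΘ.abs)))

omit [Group Γ] [MulAction Γ ℍ] [Countable Γ] in
lemma cross_mK (hm : PM τ P ξ x J Θ C r0) (s t : ℝ) :
    MeasurableSet {p | s ≤ |Θ p| ∧ |Θ p| ≤ t} :=
  (measurableSet_le measurable_const hm.mΘ.abs).inter
    (measurableSet_le hm.mΘ.abs measurable_const)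

lemma cross_cancel {b : ℝ} (hb : 0 < b) {u v : ℝ≥0∞}
    (h : ENNReal.ofReal b * u ≤ ENNReal.ofReal b * v) : u ≤ v :=
  (ENNReal.mul_le_mul_iff_right (ENNReal.ofReal_pos.2 hb).ne' ENNReal.ofReal_ne_top).1 h

lemma cross_vol (s t u v : ℝ) :
    volume (Icc s t ×ˢ Icc u v) = ENNReal.ofReal (t - s) * ENNReal.ofReal (v - u) := by
  rw [Measure.volume_eq_prod, Measure.prod_prod, Real.volume_Icc, Real.volume_Icc]

theorem DM.pos_le (h : DM l D μ τ P f g) (hg : PG g ξ x J Θ C a r0) (hm : PM τ P ξ x J Θ C r0) :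
    ∃ c : ℝ≥0∞, c ≠ ⊤ ∧ ∀ e, 0 < e → e ≤ 1 →
      pm μ P D (PosS ξ x J r0 e) ≤ c * ENNReal.ofReal e ^ 2 := by
  have hC : 0 < C := one_pos.trans_le hg.C1
  obtain ⟨c, hc, H⟩ := h.near_le (2 * C)
  refine ⟨c * ENNReal.ofReal (2 * C) ^ 2,
    ENNReal.mul_ne_top hc (ENNReal.pow_ne_top ENNReal.ofReal_ne_top), fun e he he1 => ?_⟩
  have h1 := H (2 * C * e) (by positivity) (by nlinarith)
  rw [ENNReal.ofReal_mul (by positivity), mul_pow, ← mul_assoc] at h1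
  refine (measure_mono fun p hp => ?_).trans h1
  refine (hm.pos p hp.1).trans ?_
  nlinarith [hp.2.1, hp.2.2]

theorem DM.thin_le (h : DM l D μ τ P f g) (hg : PG g ξ x J Θ C a r0) (hm : PM τ P ξ x J Θ C r0) :
    ∃ c : ℝ≥0∞, c ≠ ⊤ ∧ ∀ M κ : ℝ, 0 < M → 0 < κ → κ ≤ 1 → ∀ᶠ e in 𝓝[>] (0 : ℝ),
      pm μ P D (ThS ξ x J M κ e) ≤ c * ENNReal.ofReal κ * ENNReal.ofReal e ^ 2 := by
  obtain ⟨c, hc, H⟩ := h.pos_le hg hm
  refine ⟨ENNReal.ofReal 40 * c, ENNReal.mul_ne_top ENNReal.ofReal_ne_top hc,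
    fun M κ hM hκ hκ1 => ?_⟩
  obtain ⟨e0, he0, H0⟩ := hg.len_thin hM hκ hκ1
  filter_upwards [Ioc_mem_nhdsGT he0, Ioc_mem_nhdsGT (show (0 : ℝ) < 1 / 2 by norm_num)]
    with e h1 h2
  have he := h1.1
  have hT : MeasurableSet (ThS ξ x J M κ e) :=
    (measurableSet_le hm.mξ measurable_const).inter
      ((measurableSet_le hm.mx.abs measurable_const).inter
        (measurableSet_le hm.mJ.abs measurable_const))
  have h3 := h.avg1 (cross_mPos hm r0 (2 * κ * e)) hT measurableSet_Icc (H0 e he h1.2)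
  have h4 := H (2 * κ * e) (by positivity) (by nlinarith [h2.2])
  refine cross_cancel (mul_pos hκ he) (h3.trans ((mul_le_mul_right h4 _).trans (le_of_eq ?_)))
  have e1 : ENNReal.ofReal (5 * e - -(5 * e)) * ENNReal.ofReal (2 * κ * e) ^ 2 =
      ENNReal.ofReal (κ * e) * (ENNReal.ofReal 40 * ENNReal.ofReal κ * ENNReal.ofReal e ^ 2) := by
    rw [← ENNReal.ofReal_pow (by positivity), ← ENNReal.ofReal_pow he.le,
      ← ENNReal.ofReal_mul (by linarith), ← ENNReal.ofReal_mul (by norm_num),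
      ← ENNReal.ofReal_mul (by positivity), ← ENNReal.ofReal_mul (by positivity)]
    congr 1
    ring
  rw [Real.volume_Icc, mul_left_comm, e1]
  ring

omit [Group Γ] [MulAction Γ ℍ] [Countable Γ] in
lemma cross_overlap (hm : PM τ P ξ x J Θ C r0) (ν : Measure (X × X)) {S : Set (X × X)}
    (hS : MeasurableSet S) :
    ∑' k : ℕ, ν (S ∩ {p | (1 / 2 : ℝ) ^ k / 2 ≤ |Θ p| ∧ |Θ p| ≤ 4 * (1 / 2 : ℝ) ^ k}) ≤
      4 * ν S := by
  set H : ℕ → Set (X × X) := fun j =>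
    S ∩ {p | 4 * (1 / 2 : ℝ) ^ (j + 1) < |Θ p| ∧ |Θ p| ≤ 4 * (1 / 2 : ℝ) ^ j} with hH
  have mH : ∀ j, MeasurableSet (H j) := fun j => hS.inter
    ((measurableSet_lt measurable_const hm.mΘ.abs).inter
      (measurableSet_le hm.mΘ.abs measurable_const))
  have dH : Pairwise (Function.onFun Disjoint H) := by
    refine (pairwise_disjoint_on H).2 fun i j hij => Set.disjoint_left.2 fun p hi hj => ?_
    have h1 : (1 / 2 : ℝ) ^ j ≤ (1 / 2) ^ (i + 1) :=
      pow_le_pow_of_le_one (by norm_num) (by norm_num) hij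
    linarith [hi.2.1, hj.2.2]
  have h1 : ∑' j, ν (H j) ≤ ν S := by
    rw [← measure_iUnion dH mH]
    exact measure_mono (iUnion_subset fun j => inter_subset_left)
  have h2 : ∀ i : ℕ, ∑' k, ν (H (k + i)) ≤ ν S := fun i =>
    (ENNReal.tsum_comp_le_tsum_of_injective (add_left_injective i) fun j => ν (H j)).trans h1
  have h3 : ∀ k : ℕ, ν (S ∩ {p | (1 / 2 : ℝ) ^ k / 2 ≤ |Θ p| ∧ |Θ p| ≤ 4 * (1 / 2 : ℝ) ^ k}) ≤
      ν (H (k + 0)) + ν (H (k + 1)) + ν (H (k + 2)) + ν (H (k + 3)) := fun k => by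
    refine (measure_mono (t := H (k + 0) ∪ H (k + 1) ∪ H (k + 2) ∪ H (k + 3)) ?_).trans ?_
    · rintro p ⟨hp, h4, h5⟩
      have h6 : (0 : ℝ) < (1 / 2) ^ k := by positivity
      simp only [hH, mem_union, mem_inter_iff, mem_ofPred_eq, hp, true_and, pow_succ, add_zero]
      by_cases a1 : 2 * (1 / 2 : ℝ) ^ k < |Θ p|
      · exact Or.inl (Or.inl (Or.inl ⟨by linarith, h5⟩))
      by_cases a2 : (1 / 2 : ℝ) ^ k < |Θ p|
      · exact Or.inl (Or.inl (Or.inr ⟨by linarith, by linarith⟩))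
      by_cases a3 : (1 / 2 : ℝ) ^ k / 2 < |Θ p|
      · exact Or.inl (Or.inr ⟨by linarith, by linarith⟩)
      · exact Or.inr ⟨by linarith, by linarith⟩
    · refine (measure_union_le _ _).trans (add_le_add_left ?_ _)
      exact (measure_union_le _ _).trans (add_le_add_left (measure_union_le _ _) _)
  refine (ENNReal.tsum_le_tsum h3).trans ?_
  rw [ENNReal.tsum_add, ENNReal.tsum_add, ENNReal.tsum_add]
  refine (add_le_add (add_le_add (add_le_add (h2 0) (h2 1)) (h2 2)) (h2 3)).trans (le_of_eq ?_)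
  ring

lemma cross_fatou {β : ℕ → ℕ → ℝ≥0∞} {c : ℝ≥0∞} (h : ∀ n, ∑' k, β n k ≤ c) :
    ∑' k, liminf (fun n => β n k) atTop ≤ c := by
  have h1 := lintegral_liminf_le (μ := (Measure.count : Measure ℕ)) (f := β) (u := atTop)
    fun n => measurable_from_top
  simp only [lintegral_count] at h1
  exact h1.trans (liminf_le_of_frequently_le' (Frequently.of_forall h))

theorem DM.cross_small (h : DM l D μ τ P f g) (hg : PG g ξ x J Θ C a r0)
    (hm : PM τ P ξ x J Θ C r0) : ∃ C0 : ℝ, 1 ≤ C0 ∧ ∀ η : ℝ≥0∞, η ≠ 0 → ∃ δ > (0 : ℝ),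
      ∀ e, 0 < e → pm μ P D (XS ξ x J Θ C0 δ e) ≤ η * ENNReal.ofReal e ^ 2 := by
  have hC : 0 < C := one_pos.trans_le hg.C1
  obtain ⟨c1, hc1, H1⟩ := h.pos_le hg hm
  obtain ⟨C0, c, W, δ0, hC0, hc, hW, hδ0, hδr, H⟩ := hg.area_cross
  refine ⟨C0, hC0, fun η hη => ?_⟩
  set K : ℕ → Set (X × X) := fun k =>
    {p | (1 / 2 : ℝ) ^ k / 2 ≤ |Θ p| ∧ |Θ p| ≤ 4 * (1 / 2 : ℝ) ^ k} with hK
  set β : ℕ → ℕ → ℝ≥0∞ := fun n k => ENNReal.ofReal (((n : ℝ) + 1) ^ 2) *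
    pm μ P D (PosS ξ x J r0 (1 / ((n : ℝ) + 1)) ∩ K k) with hβ
  have hsum : ∀ n, ∑' k, β n k ≤ 4 * c1 := fun n => by
    have hn : (0 : ℝ) < (n : ℝ) + 1 := by positivity
    have a1 := cross_overlap hm (pm μ P D) (cross_mPos hm r0 (1 / ((n : ℝ) + 1)))
    have a2 := H1 (1 / ((n : ℝ) + 1)) (by positivity)
      ((div_le_one hn).2 (by linarith [Nat.cast_nonneg (α := ℝ) n]))
    have a3 : ENNReal.ofReal (((n : ℝ) + 1) ^ 2) * ENNReal.ofReal (1 / ((n : ℝ) + 1)) ^ 2 = 1 := by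
      rw [← ENNReal.ofReal_pow (by positivity), ← ENNReal.ofReal_mul (by positivity),
        ← mul_pow, mul_one_div_cancel hn.ne', one_pow, ENNReal.ofReal_one]
    rw [hβ, ENNReal.tsum_mul_left]
    refine (mul_le_mul_right (a1.trans (mul_le_mul_right a2 _)) _).trans (le_of_eq ?_)
    calc _ = 4 * c1 * (ENNReal.ofReal (((n : ℝ) + 1) ^ 2) *
          ENNReal.ofReal (1 / ((n : ℝ) + 1)) ^ 2) := by ring
      _ = _ := by rw [a3, mul_one]
  set b : ℕ → ℝ≥0∞ := fun k => liminf (fun n => β n k) atTop with hb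
  have hfin : ∑' k, b k ≠ ⊤ :=
    ne_top_of_le_ne_top (ENNReal.mul_ne_top (by norm_num) hc1) (cross_fatou hsum)
  have hA : 0 < 4 * W ^ 2 / c := by positivity
  have hA0 : ENNReal.ofReal (4 * W ^ 2 / c) ≠ 0 := (ENNReal.ofReal_pos.2 hA).ne'
  obtain ⟨m, hmm⟩ := ((ENNReal.tendsto_sum_nat_add b hfin).eventually (ge_mem_nhds
    (ENNReal.div_pos hη (ENNReal.ofReal_ne_top (r := 4 * W ^ 2 / c))))).exists
  refine ⟨min δ0 (2 * (1 / 2) ^ m / C), by positivity, fun e he => ?_⟩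
  have cls : ∀ k : ℕ, pm μ P D (XS ξ x J Θ C0 δ0 e ∩
      {p | (1 / 2 : ℝ) ^ k ≤ |Θ p| ∧ |Θ p| ≤ 2 * (1 / 2 : ℝ) ^ k}) ≤
        ENNReal.ofReal (4 * W ^ 2 / c * e ^ 2) * b k := fun k => by
    have hθ : (0 : ℝ) < (1 / 2) ^ k := by positivity
    have hB : 0 < 4 * W ^ 2 / c * e ^ 2 := by positivity
    rw [mul_comm _ (b k), ← ENNReal.div_le_iff (ENNReal.ofReal_pos.2 hB).ne' ENNReal.ofReal_ne_top]
    refine le_liminf_of_le (h := ?_)
    filter_upwards [(tendsto_one_div_add_atTop_nhds_zero_nat (𝕜 := ℝ)).eventually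
      (ge_mem_nhds he)] with n hn
    have hn0 : (0 : ℝ) < (n : ℝ) + 1 := by positivity
    rw [ENNReal.div_le_iff (ENNReal.ofReal_pos.2 hB).ne' ENNReal.ofReal_ne_top]
    have a1 := h.avg2 ((cross_mPos hm r0 (1 / ((n : ℝ) + 1))).inter (cross_mK hm _ _))
      (fun γ v w => by simp only [PosS, mem_inter_iff, mem_ofPred_eq, hm.iξ, hm.ix, hm.iJ, hm.iΘ])
      ((cross_mXS hm C0 δ0 e).inter (cross_mK hm _ _)) (measurableSet_Icc.prod measurableSet_Icc)
      fun p hp => H _ e _ hθ (by positivity) hn p hp.1 hp.2.1 hp.2.2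
    refine cross_cancel (by positivity) (a1.trans (le_of_eq ?_))
    have e1 : ENNReal.ofReal (W * e / (1 / 2) ^ k - -(W * e / (1 / 2) ^ k)) *
        ENNReal.ofReal (W * e - -(W * e)) = ENNReal.ofReal (c * (1 / ((n : ℝ) + 1)) ^ 2 / (1 / 2) ^ k) *
          (ENNReal.ofReal (((n : ℝ) + 1) ^ 2) * ENNReal.ofReal (4 * W ^ 2 / c * e ^ 2)) := by
      rw [sub_neg_eq_add, ← ENNReal.ofReal_mul (by positivity), ← ENNReal.ofReal_mul (by positivity),
        ← ENNReal.ofReal_mul (by positivity)]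
      congr 1
      field_simp
      ring
    rw [cross_vol, e1, hβ]
    ring
  have cov : XS ξ x J Θ C0 (min δ0 (2 * (1 / 2) ^ m / C)) e ⊆ ⋃ k : ℕ, XS ξ x J Θ C0 δ0 e ∩
      {p | (1 / 2 : ℝ) ^ (k + m) ≤ |Θ p| ∧ |Θ p| ≤ 2 * (1 / 2 : ℝ) ^ (k + m)} := by
    rintro p ⟨p1, p2, p3, p4⟩
    have a1 : ξ p ≤ δ0 := p1.trans (min_le_left _ _)
    have a2 : ξ p ≤ 2 * (1 / 2) ^ m / C := p1.trans (min_le_right _ _)
    have a3 := (hg.up p (a1.trans hδr)).2.2
    have hθ : (0 : ℝ) < 2 * (1 / 2) ^ m := by positivity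
    have a4 : 0 < |Θ p| := lt_of_lt_of_le (by positivity) p4
    rw [le_div_iff₀ hC] at a2
    obtain ⟨k, k1, k2⟩ := exists_nat_pow_near_of_lt_one (div_pos a4 hθ)
      ((div_le_one hθ).2 (by linarith)) (show (0 : ℝ) < 1 / 2 by norm_num) (by norm_num)
    rw [lt_div_iff₀ hθ, pow_succ] at k1
    rw [div_le_iff₀ hθ] at k2
    refine mem_iUnion.2 ⟨k, ⟨a1, p2, p3, p4⟩, ?_, ?_⟩ <;> rw [pow_add] <;> linarith
  refine (measure_mono cov).trans ((measure_iUnion_le _).trans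
    ((ENNReal.tsum_le_tsum fun k => cls (k + m)).trans ?_))
  rw [ENNReal.tsum_mul_left, ENNReal.ofReal_mul hA.le, ENNReal.ofReal_pow he.le]
  refine (mul_le_mul_right hmm _).trans (le_of_eq ?_)
  rw [mul_right_comm, ENNReal.mul_div_cancel hA0 ENNReal.ofReal_ne_top]

theorem DM.robust_small (h : DM l D μ τ P f g) (hg : PG g ξ x J Θ C a r0)
    (hm : PM τ P ξ x J Θ C r0) {T M : ℝ} (hT : 0 < T) (hM : 0 < M) {η : ℝ≥0∞} (hη : η ≠ 0) :
    ∀ᶠ e in 𝓝[>] (0 : ℝ), pm μ P D (CrS g ξ J M T e) ≤ η * ENNReal.ofReal e ^ 2 := by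
  obtain ⟨C0, hC0, H1⟩ := h.cross_small hg hm
  obtain ⟨c, hc, t, ht, W, hW, M', hM', e0, he0, H⟩ :=
    hg.area_robust (one_pos.trans_le hC0) hT hM
  have hA : 0 < (T + 2) * (2 * W) * c ^ 2 / t := by positivity
  have hA0 : ENNReal.ofReal ((T + 2) * (2 * W) * c ^ 2 / t) ≠ 0 := (ENNReal.ofReal_pos.2 hA).ne'
  obtain ⟨δ, hδ, H2⟩ := H1 _
    (ENNReal.div_pos hη (ENNReal.ofReal_ne_top (r := (T + 2) * (2 * W) * c ^ 2 / t))).ne'
  filter_upwards [Ioc_mem_nhdsGT he0, Ioc_mem_nhdsGT (div_pos hδ hM')] with e h1 h2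
  have he := h1.1
  have mJ := hm.mJ.comp (h.m_jt T)
  have hS : MeasurableSet (CrS g ξ J M T e) :=
    (measurableSet_le hm.mξ measurable_const).inter
      ((measurableSet_le measurable_const (hm.mJ.abs.add mJ.abs)).inter
        (measurableSet_le (hm.mJ.mul mJ) measurable_const))
  have a1 := h.avg2 (cross_mXS hm C0 (M' * e) (c * e))
    (fun γ v w => by simp only [XS, mem_ofPred_eq, hm.iξ, hm.ix, hm.iJ, hm.iΘ])
    hS (measurableSet_Icc.prod measurableSet_Icc) (H e he h1.2)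
  have a0 : XS ξ x J Θ C0 (M' * e) (c * e) ⊆ XS ξ x J Θ C0 δ (c * e) := fun p hp =>
    ⟨hp.1.trans (by linarith [(le_div_iff₀ hM').1 h2.2]), hp.2⟩
  have a2 := (measure_mono (μ := pm μ P D) a0).trans (H2 (c * e) (by positivity))
  refine cross_cancel (mul_pos ht he) (a1.trans ((mul_le_mul_right a2 _).trans (le_of_eq ?_)))
  have e1 : ENNReal.ofReal (T + 1 - -1) * ENNReal.ofReal (W * e - -(W * e)) *
      ENNReal.ofReal (c * e) ^ 2 = ENNReal.ofReal (t * e) *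
        (ENNReal.ofReal ((T + 2) * (2 * W) * c ^ 2 / t) * ENNReal.ofReal e ^ 2) := by
    rw [sub_neg_eq_add, sub_neg_eq_add, ← ENNReal.ofReal_pow (by positivity),
      ← ENNReal.ofReal_pow he.le, ← ENNReal.ofReal_mul (by positivity),
      ← ENNReal.ofReal_mul (by positivity), ← ENNReal.ofReal_mul (by positivity),
      ← ENNReal.ofReal_mul (by positivity)]
    congr 1
    field_simp
    ring
  rw [cross_vol, mul_left_comm, e1, mul_left_comm, ← mul_assoc (η / _),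
    ENNReal.div_mul_cancel hA0 ENNReal.ofReal_ne_top]

end Pool.Agent.Lib.MP_a52643_an
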