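import Pool.Agent.Lib.MP_a52643_an.VC.Defs

/-!
Growth estimates along the joint and the relative flow.
-/

open MeasureTheory Set Filter Topology Metric
open scoped ENNReal

noncomputable section

namespace Pool.Agent.Lib.MP_a52643_an

lemma cur_boot1 {E : Type*} [NormedAddCommGroup E] [NormedSpace ℝ E] {ξ : ℝ → ℝ} {f : ℝ → E}
    {r0 D δ K ε T B : ℝ} (hξ : Continuous ξ) (h0 : ξ 0 ≤ r0) (hδ : ‖f 0‖ ≤ δ)
    (hd : ∀ t, ξ t ≤ r0 → ∃ f', HasDerivAt f f' t ∧ ‖f'‖ ≤ K * ‖f t‖ + ε)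
    (hlo : ∀ t, ξ t ≤ r0 → ξ t ≤ D * ‖f t‖) (hD : 0 ≤ D)
    (hB : ∀ t ∈ Icc 0 T, gronwallBound δ K ε t ≤ B) (hr : D * B < r0) :
    ∀ t ∈ Icc 0 T, ξ t ≤ D * B := by
  have key : ∀ t ∈ Icc 0 T, Icc 0 t ⊆ {s | ξ s ≤ r0} → ξ t ≤ D * B := by
    intro t ht hs
    have h1 := norm_le_gronwallBound_of_norm_deriv_right_le (f := f) (f' := deriv f) (a := 0)
      (b := t) (δ := δ) (K := K) (ε := ε)
      (fun s hs' => by
        obtain ⟨f', h1, -⟩ := hd s (hs hs')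
        exact h1.continuousAt.continuousWithinAt)
      (fun s hs' => by
        obtain ⟨f', h1, -⟩ := hd s (hs (Ico_subset_Icc_self hs'))
        exact h1.differentiableAt.hasDerivAt.hasDerivWithinAt) hδ
      (fun s hs' => by
        obtain ⟨f', h1, h2⟩ := hd s (hs (Ico_subset_Icc_self hs'))
        rwa [h1.deriv]) t ⟨ht.1, le_rfl⟩
    rw [sub_zero] at h1
    exact (hlo t (hs ⟨ht.1, le_rfl⟩)).trans (mul_le_mul_of_nonneg_left (h1.trans (hB t ht)) hD)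
  have hs : Icc 0 T ⊆ {s | ξ s ≤ r0} :=
    IsClosed.Icc_subset_of_forall_mem_nhdsGT_of_Icc_subset
      ((isClosed_le hξ continuous_const).inter isClosed_Icc) h0 fun t ht hs =>
        mem_nhdsWithin_of_mem_nhds (mem_of_superset ((isOpen_lt hξ continuous_const).mem_nhds
          ((key t (Ico_subset_Icc_self ht) hs).trans_lt hr)) fun u (h : ξ u < r0) => h.le)
  exact fun t ht => key t ht ((Icc_subset_Icc_right ht.2).trans hs)

lemma cur_boot {E : Type*} [NormedAddCommGroup E] [NormedSpace ℝ E] {ξ : ℝ → ℝ} {f : ℝ → E}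
    {r0 D δ K ε T B : ℝ} (hξ : Continuous ξ) (h0 : ξ 0 ≤ r0) (hδ : ‖f 0‖ ≤ δ)
    (hd : ∀ t, ξ t ≤ r0 → ∃ f', HasDerivAt f f' t ∧ ‖f'‖ ≤ K * ‖f t‖ + ε)
    (hlo : ∀ t, ξ t ≤ r0 → ξ t ≤ D * ‖f t‖) (hD : 0 ≤ D)
    (hB : ∀ t ∈ Icc 0 T, gronwallBound δ K ε t ≤ B) (hr : D * B < r0) (t : ℝ) (ht : |t| ≤ T) :
    ξ t ≤ D * B := by
  rcases le_total 0 t with h | h
  · exact cur_boot1 hξ h0 hδ hd hlo hD hB hr t ⟨h, (le_abs_self t).trans ht⟩
  · have := cur_boot1 (ξ := fun s => ξ (-s)) (f := fun s => f (-s)) (hξ.comp continuous_neg)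
      (by simpa using h0) (by simpa using hδ) (fun s hs => by
        obtain ⟨f', h1, h2⟩ := hd (-s) hs
        exact ⟨-f', by simpa [Function.comp_def] using h1.scomp s (hasDerivAt_neg s),
          by simpa using h2⟩)
      (fun s hs => hlo (-s) hs) hD hB hr (-t) ⟨by linarith, (neg_le_abs t).trans ht⟩
    simpa using this

lemma cur_lip {f : ℝ → ℝ} {T B c : ℝ}
    (hd : ∀ t, |t| ≤ T → ∃ f', HasDerivAt f f' t ∧ |f' - c| ≤ B) {t t' : ℝ} (ht : |t| ≤ T)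
    (ht' : |t'| ≤ T) : |f t - f t' - c * (t - t')| ≤ B * |t - t'| := by
  have h1 := (convex_Icc (-T) T).norm_image_sub_le_of_norm_hasDerivWithin_le
    (f := fun s => f s - c * s) (f' := fun s => deriv f s - c) (C := B)
    (fun s hs => by
      obtain ⟨f', h1, -⟩ := hd s (abs_le.2 hs)
      have := (h1.differentiableAt.hasDerivAt.fun_sub ((hasDerivAt_id s).const_mul c))
      simpa using this.hasDerivWithinAt)
    (fun s hs => by
      obtain ⟨f', h1, h2⟩ := hd s (abs_le.2 hs)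
      rwa [h1.deriv]) (abs_le.1 ht') (abs_le.1 ht)
  rw [Real.norm_eq_abs, Real.norm_eq_abs] at h1
  rwa [show f t - f t' - c * (t - t') = f t - c * t - (f t' - c * t') by ring]

lemma cur_sum (x y z : ℝ) : |x| + |y| + |z| ≤ 3 * ‖(x, y, z)‖ := by
  have h1 : ‖x‖ ≤ ‖(x, y, z)‖ := norm_fst_le (x, y, z)
  have h2 : ‖(y, z)‖ ≤ ‖(x, y, z)‖ := norm_snd_le (x, y, z)
  have h3 : ‖y‖ ≤ ‖(y, z)‖ := norm_fst_le (y, z)
  have h4 : ‖z‖ ≤ ‖(y, z)‖ := norm_snd_le (y, z)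
  simp only [Real.norm_eq_abs] at h1 h3 h4
  linarith

lemma cur_le {x y z B : ℝ} (hx : |x| ≤ B) (hy : |y| ≤ B) (hz : |z| ≤ B) : ‖(x, y, z)‖ ≤ B :=
  norm_prod_le_iff.2 ⟨hx, norm_prod_le_iff.2 ⟨hy, hz⟩⟩

lemma cur_shift {f : ℝ → ℝ} {F : ℝ → ℝ} {f' t : ℝ} (h : HasDerivAt f f' 0)
    (e : ∀ s, F s = f (s - t)) : HasDerivAt F f' t := by
  rw [funext e]
  exact HasDerivAt.comp_sub_const t t (by rwa [sub_self])

variable {X : Type*} {g : ℝ → X → X} {ξ x J Θ : X × X → ℝ} {C a r0 : ℝ}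

lemma PG.jt_zero (h : PG g ξ x J Θ C a r0) (p : X × X) : jt g 0 p = p := by
  simp [jt, h.g0]

lemma PG.sl_zero (h : PG g ξ x J Θ C a r0) (p : X × X) : sl g 0 p = p := by
  simp [sl, h.g0]

lemma PG.jt_add (h : PG g ξ x J Θ C a r0) (s t : ℝ) (p : X × X) :
    jt g (s + t) p = jt g s (jt g t p) := by
  simp [jt, h.gadd]

lemma PG.sl_add (h : PG g ξ x J Θ C a r0) (s t : ℝ) (p : X × X) :
    sl g (s + t) p = sl g s (sl g t p) := by
  simp [sl, h.gadd]

lemma PG.jt_sl (h : PG g ξ x J Θ C a r0) (s u : ℝ) (p : X × X) :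
    jt g s (sl g u p) = sl g u (jt g s p) := by
  simp only [jt, sl]
  rw [← h.gadd, ← h.gadd, add_comm]

lemma PG.derJ (h : PG g ξ x J Θ C a r0) (p : X × X) (t : ℝ) (ht : ξ (jt g t p) ≤ r0) :
    ∃ x' J' Θ' k : ℝ, HasDerivAt (fun t => x (jt g t p)) x' t ∧
      HasDerivAt (fun t => J (jt g t p)) J' t ∧ HasDerivAt (fun t => Θ (jt g t p)) Θ' t ∧
      |x'| ≤ C * ξ (jt g t p) ^ 2 ∧ |J' - Θ (jt g t p)| ≤ C * ξ (jt g t p) ^ 2 ∧
      |Θ' - k * J (jt g t p)| ≤ C * ξ (jt g t p) ^ 2 ∧ a ≤ k ∧ k ≤ C := by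
  obtain ⟨x', J', Θ', k, h1, h2, h3, h4⟩ := h.joint _ ht
  have e : ∀ s, jt g s p = jt g (s - t) (jt g t p) := fun s => by rw [← h.jt_add, sub_add_cancel]
  exact ⟨x', J', Θ', k, cur_shift h1 fun s => congrArg x (e s), cur_shift h2 fun s => congrArg J (e s),
    cur_shift h3 fun s => congrArg Θ (e s), h4⟩

lemma PG.derS (h : PG g ξ x J Θ C a r0) (p : X × X) (u : ℝ) (hu : ξ (sl g u p) ≤ r0) :
    ∃ x' J' Θ' : ℝ, HasDerivAt (fun u => x (sl g u p)) x' u ∧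
      HasDerivAt (fun u => J (sl g u p)) J' u ∧ HasDerivAt (fun u => Θ (sl g u p)) Θ' u ∧
      |x' - 1| ≤ C * ξ (sl g u p) ∧ |J'| ≤ C * ξ (sl g u p) ∧ |Θ'| ≤ C * ξ (sl g u p) := by
  obtain ⟨x', J', Θ', h1, h2, h3, h4⟩ := h.rel _ hu
  have e : ∀ s, sl g s p = sl g (s - u) (sl g u p) := fun s => by rw [← h.sl_add, sub_add_cancel]
  exact ⟨x', J', Θ', cur_shift h1 fun s => congrArg x (e s), cur_shift h2 fun s => congrArg J (e s),
    cur_shift h3 fun s => congrArg Θ (e s), h4⟩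

theorem PG.grow (h : PG g ξ x J Θ C a r0) (T : ℝ) : ∃ M r : ℝ, 1 ≤ M ∧ 0 < r ∧ M * r ≤ r0 ∧
    ∀ p, ξ p ≤ r → ∀ t, |t| ≤ T → ξ (jt g t p) ≤ M * ξ p ∧ ∀ t', |t'| ≤ T →
      |x (jt g t p) - x (jt g t' p)| ≤ M * ξ p ^ 2 * |t - t'| ∧
      |J (jt g t p) - J (jt g t' p)| ≤ M * ξ p * |t - t'| ∧
      |Θ (jt g t p) - Θ (jt g t' p)| ≤ M * ξ p * |t - t'| := by
  have hC := h.C1
  have hr0 := h.r0pos
  have hC0 : 0 < C := by linarith
  obtain ⟨A, hA⟩ : ∃ A, A = C * C + C * r0 := ⟨_, rfl⟩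
  have hA0 : 0 < A := by rw [hA]; positivity
  have lin : ∀ p t, ξ (jt g t p) ≤ r0 → ∃ x' J' Θ' : ℝ, HasDerivAt (fun t => x (jt g t p)) x' t ∧
      HasDerivAt (fun t => J (jt g t p)) J' t ∧ HasDerivAt (fun t => Θ (jt g t p)) Θ' t ∧
      |x'| ≤ C * ξ (jt g t p) ^ 2 ∧ |x'| ≤ A * ξ (jt g t p) ∧ |J'| ≤ A * ξ (jt g t p) ∧
      |Θ'| ≤ A * ξ (jt g t p) := fun p t ht => by
    obtain ⟨x', J', Θ', k, h1, h2, h3, h4, h5, h6, h7, h8⟩ := h.derJ p t ht
    obtain ⟨-, u2, u3⟩ := h.up _ ht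
    have n0 := h.nn (jt g t p)
    have q1 : C * ξ (jt g t p) ^ 2 ≤ C * r0 * ξ (jt g t p) := by
      rw [sq, mul_assoc]
      exact mul_le_mul_of_nonneg_left (mul_le_mul_of_nonneg_right ht n0) hC0.le
    have q2 : C * ξ (jt g t p) ≤ C * C * ξ (jt g t p) := by nlinarith [mul_nonneg hC0.le n0]
    have q3 : |k * J (jt g t p)| ≤ C * C * ξ (jt g t p) := by
      rw [abs_mul, abs_of_pos (h.a0.trans_le h7), mul_assoc]
      exact mul_le_mul h8 u2 (abs_nonneg _) hC0.le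
    have q4 := abs_sub_abs_le_abs_sub J' (Θ (jt g t p))
    have q5 := abs_sub_abs_le_abs_sub Θ' (k * J (jt g t p))
    have q6 := mul_nonneg hC0.le n0
    refine ⟨x', J', Θ', h1, h2, h3, h4, ?_, ?_, ?_⟩ <;> rw [hA, add_mul] <;> linarith
  obtain ⟨M₁, hM₁⟩ : ∃ M₁, M₁ = 3 * C * (C * Real.exp (A * (3 * C) * |T|)) := ⟨_, rfl⟩
  have hM1 : 1 ≤ M₁ := by
    have := Real.one_le_exp (show 0 ≤ A * (3 * C) * |T| by positivity)
    rw [hM₁]
    nlinarith [mul_nonneg (sub_nonneg.2 hC) (sub_nonneg.2 this), mul_le_mul hC hC zero_le_one hC0.le,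
      mul_nonneg (mul_nonneg hC0.le hC0.le) (sub_nonneg.2 this)]
  have p1 : 0 ≤ C * M₁ ^ 2 := by positivity
  have p2 : 0 ≤ A * M₁ := by positivity
  have hM : 0 < 2 * M₁ + C * M₁ ^ 2 + A * M₁ := by positivity
  refine ⟨2 * M₁ + C * M₁ ^ 2 + A * M₁, r0 / (2 * M₁ + C * M₁ ^ 2 + A * M₁), by linarith,
    by positivity, by rw [mul_div_cancel₀ _ hM.ne'], fun p hp => ?_⟩
  have n0 := h.nn p
  have hp' := (le_div_iff₀ hM).1 hp
  have p3 : 0 ≤ ξ p * (C * M₁ ^ 2) := by positivity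
  have p4 : 0 ≤ ξ p * (A * M₁) := by positivity
  have p5 : ξ p ≤ ξ p * M₁ := le_mul_of_one_le_right n0 hM1
  have hp0 : ξ p ≤ r0 := by nlinarith
  have main : ∀ t, |t| ≤ T → ξ (jt g t p) ≤ M₁ * ξ p := fun t ht => by
    have := cur_boot (ξ := fun t => ξ (jt g t p))
      (f := fun t => (x (jt g t p), J (jt g t p), Θ (jt g t p))) (r0 := r0) (D := 3 * C)
      (δ := C * ξ p) (K := A * (3 * C)) (ε := 0) (T := T)
      (B := C * ξ p * Real.exp (A * (3 * C) * |T|)) (h.cj p) (by simpa [h.jt_zero] using hp0)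
      (by
        obtain ⟨u1, u2, u3⟩ := h.up p hp0
        simpa only [h.jt_zero] using cur_le u1 u2 u3)
      (fun s hs => by
        obtain ⟨x', J', Θ', h1, h2, h3, -, h5, h6, h7⟩ := lin p s hs
        refine ⟨(x', J', Θ'), h1.prodMk (h2.prodMk h3), (cur_le h5 h6 h7).trans ?_⟩
        have := (h.lo _ hs).trans (mul_le_mul_of_nonneg_left (cur_sum _ _ _) hC0.le)
        rw [add_zero, mul_assoc]
        exact mul_le_mul_of_nonneg_left (by linarith) hA0.le)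
      (fun s hs => ((h.lo _ hs).trans
        (mul_le_mul_of_nonneg_left (cur_sum _ _ _) hC0.le)).trans (le_of_eq (by ring)))
      (by positivity) (fun s hs => by
        rw [gronwallBound_ε0]
        exact mul_le_mul_of_nonneg_left (Real.exp_le_exp.2 (mul_le_mul_of_nonneg_left
          (hs.2.trans (le_abs_self T)) (by positivity))) (by positivity))
      (by
        rw [show 3 * C * (C * ξ p * Real.exp (A * (3 * C) * |T|)) = ξ p * M₁ by rw [hM₁]; ring]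
        nlinarith) t ht
    exact this.trans (le_of_eq (by rw [hM₁]; ring))
  have mr : ∀ t, |t| ≤ T → ξ (jt g t p) ≤ r0 := fun t ht => (main t ht).trans (by nlinarith)
  intro t ht
  refine ⟨(main t ht).trans (by nlinarith), fun t' ht' => ⟨?_, ?_, ?_⟩⟩
  · have := cur_lip (f := fun t => x (jt g t p)) (c := 0) (B := C * M₁ ^ 2 * ξ p ^ 2)
      (fun s hs => by
        obtain ⟨x', J', Θ', h1, -, -, h4, -⟩ := lin p s (mr s hs)
        refine ⟨x', h1, ?_⟩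
        rw [sub_zero, mul_assoc, ← mul_pow]
        exact h4.trans (mul_le_mul_of_nonneg_left (pow_le_pow_left₀ (h.nn _) (main s hs) 2) hC0.le))
      ht ht'
    rw [zero_mul, sub_zero] at this
    refine this.trans (mul_le_mul_of_nonneg_right ?_ (abs_nonneg _))
    exact mul_le_mul_of_nonneg_right (by linarith) (sq_nonneg _)
  · have := cur_lip (f := fun t => J (jt g t p)) (c := 0) (B := A * M₁ * ξ p)
      (fun s hs => by
        obtain ⟨x', J', Θ', -, h2, -, -, -, h6, -⟩ := lin p s (mr s hs)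
        refine ⟨J', h2, ?_⟩
        rw [sub_zero, mul_assoc]
        exact h6.trans (mul_le_mul_of_nonneg_left (main s hs) hA0.le)) ht ht'
    rw [zero_mul, sub_zero] at this
    refine this.trans (mul_le_mul_of_nonneg_right ?_ (abs_nonneg _))
    exact mul_le_mul_of_nonneg_right (by linarith) n0
  · have := cur_lip (f := fun t => Θ (jt g t p)) (c := 0) (B := A * M₁ * ξ p)
      (fun s hs => by
        obtain ⟨x', J', Θ', -, -, h3, -, -, -, h7⟩ := lin p s (mr s hs)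
        refine ⟨Θ', h3, ?_⟩
        rw [sub_zero, mul_assoc]
        exact h7.trans (mul_le_mul_of_nonneg_left (main s hs) hA0.le)) ht ht'
    rw [zero_mul, sub_zero] at this
    refine this.trans (mul_le_mul_of_nonneg_right ?_ (abs_nonneg _))
    exact mul_le_mul_of_nonneg_right (by linarith) n0

theorem PG.slide (h : PG g ξ x J Θ C a r0) : ∃ M r : ℝ, 1 ≤ M ∧ 0 < r ∧ M * r ≤ r0 ∧
    ∀ p ρ, ξ p ≤ ρ → ρ ≤ r → ∀ u, |u| ≤ ρ → ξ (sl g u p) ≤ M * ρ ∧ ∀ u', |u'| ≤ ρ →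
      |x (sl g u p) - x (sl g u' p) - (u - u')| ≤ M * ρ * |u - u'| ∧
      |J (sl g u p) - J (sl g u' p)| ≤ M * ρ * |u - u'| ∧
      |Θ (sl g u p) - Θ (sl g u' p)| ≤ M * ρ * |u - u'| := by
  have hC := h.C1
  have hr0 := h.r0pos
  have hC0 : 0 < C := by linarith
  obtain ⟨M₁, hM₁⟩ : ∃ M₁, M₁ = 3 * C * (C + (1 + C * r0)) := ⟨_, rfl⟩
  have hM1 : 1 ≤ M₁ := by
    rw [hM₁]
    nlinarith [mul_pos hC0 hr0, mul_pos hC0 (mul_pos hC0 hr0), mul_pos hC0 hC0]
  have p1 : 0 ≤ C * M₁ := by positivity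
  have hM : 0 < 2 * M₁ + C * M₁ := by positivity
  refine ⟨2 * M₁ + C * M₁, r0 / (2 * M₁ + C * M₁), by linarith, by positivity,
    by rw [mul_div_cancel₀ _ hM.ne'], fun p ρ hp hρ => ?_⟩
  have n0 : 0 ≤ ρ := (h.nn p).trans hp
  have hp' := (le_div_iff₀ hM).1 hρ
  have p3 : 0 ≤ ρ * (C * M₁) := by positivity
  have p5 : ρ ≤ ρ * M₁ := le_mul_of_one_le_right n0 hM1
  have hp0 : ξ p ≤ r0 := by nlinarith
  have main : ∀ u, |u| ≤ ρ → ξ (sl g u p) ≤ M₁ * ρ := fun u hu => by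
    have := cur_boot (ξ := fun t => ξ (sl g t p))
      (f := fun t => (x (sl g t p), J (sl g t p), Θ (sl g t p))) (r0 := r0) (D := 3 * C)
      (δ := C * ρ) (K := 0) (ε := 1 + C * r0) (T := ρ)
      (B := C * ρ + (1 + C * r0) * ρ) (h.cs p) (by simpa [h.sl_zero] using hp0)
      (by
        obtain ⟨u1, u2, u3⟩ := h.up p hp0
        simpa only [h.sl_zero] using (cur_le u1 u2 u3).trans
          (mul_le_mul_of_nonneg_left hp hC0.le))
      (fun s hs => by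
        obtain ⟨x', J', Θ', h1, h2, h3, h4, h5, h6⟩ := h.derS p s hs
        have q1 := mul_le_mul_of_nonneg_left hs hC0.le
        have q2 := abs_sub_abs_le_abs_sub x' 1
        rw [abs_one] at q2
        refine ⟨(x', J', Θ'), h1.prodMk (h2.prodMk h3), ?_⟩
        rw [zero_mul, zero_add]
        exact cur_le (by linarith) (by linarith) (by linarith))
      (fun s hs => ((h.lo _ hs).trans
        (mul_le_mul_of_nonneg_left (cur_sum _ _ _) hC0.le)).trans (le_of_eq (by ring)))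
      (by positivity) (fun s hs => by
        rw [gronwallBound_K0]
        have := mul_le_mul_of_nonneg_left hs.2 (show 0 ≤ 1 + C * r0 by positivity)
        linarith)
      (by
        rw [show 3 * C * (C * ρ + (1 + C * r0) * ρ) = ρ * M₁ by rw [hM₁]; ring]
        nlinarith) u hu
    exact this.trans (le_of_eq (by rw [hM₁]; ring))
  have mr : ∀ u, |u| ≤ ρ → ξ (sl g u p) ≤ r0 := fun t ht => (main t ht).trans (by nlinarith)
  have bd : ∀ u, |u| ≤ ρ → C * ξ (sl g u p) ≤ (2 * M₁ + C * M₁) * ρ := fun u hu =>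
    (mul_le_mul_of_nonneg_left (main u hu) hC0.le).trans (by nlinarith)
  intro u hu
  refine ⟨(main u hu).trans (by nlinarith), fun u' hu' => ⟨?_, ?_, ?_⟩⟩
  · simpa only [one_mul] using cur_lip (f := fun t => x (sl g t p)) (c := 1) (fun s hs => by
      obtain ⟨x', J', Θ', h1, -, -, h4, -⟩ := h.derS p s (mr s hs)
      exact ⟨x', h1, h4.trans (bd s hs)⟩) hu hu'
  · simpa only [zero_mul, sub_zero] using cur_lip (f := fun t => J (sl g t p)) (c := 0)
      (fun s hs => by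
        obtain ⟨x', J', Θ', -, h2, -, -, h5, -⟩ := h.derS p s (mr s hs)
        exact ⟨J', h2, by rw [sub_zero]; exact h5.trans (bd s hs)⟩) hu hu'
  · simpa only [zero_mul, sub_zero] using cur_lip (f := fun t => Θ (sl g t p)) (c := 0)
      (fun s hs => by
        obtain ⟨x', J', Θ', -, -, h3, -, -, h6⟩ := h.derS p s (mr s hs)
        exact ⟨Θ', h3, by rw [sub_zero]; exact h6.trans (bd s hs)⟩) hu hu'

lemma PG.neg (h : PG g ξ x J Θ C a r0) : PG g ξ x (fun p => -J p) (fun p => -Θ p) C a r0 := by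
  refine { h with up := fun p hp => ?_, lo := fun p hp => ?_, joint := fun p hp => ?_,
                  rel := fun p hp => ?_, tri := fun v w w' h1 h2 => ?_ }
  · simpa only [abs_neg] using h.up p hp
  · simpa only [abs_neg] using h.lo p hp
  · obtain ⟨x', J', Θ', k, h1, h2, h3, h4, h5, h6, h7⟩ := h.joint p hp
    refine ⟨x', -J', -Θ', k, h1, h2.fun_neg, h3.fun_neg, h4, ?_, ?_, h7⟩
    · rwa [show -J' - -Θ p = -(J' - Θ p) by ring, abs_neg]
    · rwa [show -Θ' - k * -J p = -(Θ' - k * J p) by ring, abs_neg]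
  · obtain ⟨x', J', Θ', h1, h2, h3, h4, h5, h6⟩ := h.rel p hp
    exact ⟨x', -J', -Θ', h1, h2.fun_neg, h3.fun_neg, h4, by rwa [abs_neg], by rwa [abs_neg]⟩
  · obtain ⟨h3, h4⟩ := h.tri v w w' h1 h2
    refine ⟨h3, ?_⟩
    rwa [show -J (w, w') - (-J (v, w') - -J (v, w)) = -(J (w, w') - (J (v, w') - J (v, w))) by ring,
      abs_neg]

end Pool.Agent.Lib.MP_a52643_an
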