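import Pool.Agent.Lib.MP_a52643_an.VC.Defs

/-!
Infinitesimal invariance implies invariance.
-/

open MeasureTheory Set Filter Topology Metric
open scoped ContDiff NNReal

noncomputable section

namespace Pool.Agent.Lib.MP_a52643_an

section
variable {E : Type*} [NormedAddCommGroup E] [NormedSpace ℝ E] [FiniteDimensional ℝ E]
  [MeasurableSpace E] [BorelSpace E] {Y : E → E} {φ : Flow ℝ E}

omit [MeasurableSpace E] [BorelSpace E] in
theorem fl2_bound (φ : Flow ℝ E) (T R : ℝ) :
    ∃ R', ∀ s ∈ Icc (-T) T, ∀ x ∈ closedBall (0 : E) R, φ s x ∈ closedBall (0 : E) R' := by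
  have hK : IsCompact ((fun p : ℝ × E => φ p.1 p.2) '' (Icc (-T) T ×ˢ closedBall 0 R)) :=
    (isCompact_Icc.prod (isCompact_closedBall _ _)).image
      (φ.continuous continuous_fst continuous_snd)
  obtain ⟨R', hR'⟩ := hK.isBounded.subset_closedBall 0
  exact ⟨R', fun s hs x hx => hR' ⟨(s, x), ⟨hs, hx⟩, rfl⟩⟩

omit [MeasurableSpace E] [BorelSpace E] in
theorem fl2_lip (h : IsFl Y φ) (hY : ContDiff ℝ 1 Y) {T : ℝ} (hT : 0 ≤ T) (R : ℝ) :
    ∃ L C : ℝ, 0 ≤ L ∧ 0 ≤ C ∧ ∀ s ∈ Icc 0 T, ∀ x ∈ closedBall (0 : E) R,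
      ∀ z ∈ closedBall (0 : E) R, ‖φ s x - φ s z‖ ≤ L * ‖x - z‖ ∧
        ‖φ s x - φ s z - (x - z)‖ ≤ C * ‖x - z‖ * s := by
  obtain ⟨R', hR'⟩ := fl2_bound φ T R
  obtain ⟨K, hK⟩ := (hY.locallyLipschitz.locallyLipschitzOn
    (s := closedBall (0 : E) R')).exists_lipschitzOnWith_of_compact (isCompact_closedBall _ _)
  have hm : ∀ s ∈ Icc 0 T, ∀ x ∈ closedBall (0 : E) R, φ s x ∈ closedBall (0 : E) R' :=
    fun s hs x hx => hR' s ⟨by linarith [hs.1], hs.2⟩ x hx
  have h1 : ∀ s ∈ Icc 0 T, ∀ x ∈ closedBall (0 : E) R, ∀ z ∈ closedBall (0 : E) R,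
      ‖φ s x - φ s z‖ ≤ Real.exp (K * T) * ‖x - z‖ := by
    intro s hs x hx z hz
    have hc : ∀ p : E, ContinuousOn (fun t => φ t p) (Icc 0 T) := fun p =>
      (φ.continuous continuous_id continuous_const).continuousOn
    have := dist_le_of_trajectories_ODE_of_mem (v := fun _ => Y) (s := fun _ => closedBall 0 R')
      (K := K) (f := fun t => φ t x) (g := fun t => φ t z) (a := 0) (b := T) (δ := ‖x - z‖)
      (fun _ _ => hK) (hc x) (fun t _ => (h x t).hasDerivWithinAt)
      (fun t ht => hm t (Ico_subset_Icc_self ht) x hx) (hc z)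
      (fun t _ => (h z t).hasDerivWithinAt) (fun t ht => hm t (Ico_subset_Icc_self ht) z hz)
      (by simp [dist_eq_norm]) s hs
    rw [dist_eq_norm] at this
    refine this.trans ?_
    rw [mul_comm]
    refine mul_le_mul_of_nonneg_right (Real.exp_le_exp.2 ?_) (norm_nonneg _)
    exact mul_le_mul_of_nonneg_left (by linarith [hs.2]) K.coe_nonneg
  refine ⟨Real.exp (K * T), K * Real.exp (K * T), (Real.exp_pos _).le, by positivity,
    fun s hs x hx z hz => ⟨h1 s hs x hx z hz, ?_⟩⟩
  have h2 := norm_image_sub_le_of_norm_deriv_le_segment' (a := 0) (b := T)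
    (f := fun t => φ t x - φ t z) (f' := fun t => Y (φ t x) - Y (φ t z))
    (C := K * Real.exp (K * T) * ‖x - z‖)
    (fun t _ => ((h x t).sub (h z t)).hasDerivWithinAt) (fun t ht => by
      have ht' := Ico_subset_Icc_self ht
      have := hK.dist_le_mul _ (hm t ht' x hx) _ (hm t ht' z hz)
      rw [dist_eq_norm, dist_eq_norm] at this
      refine this.trans ?_
      rw [mul_assoc]
      exact mul_le_mul_of_nonneg_left (h1 t ht' x hx z hz) K.coe_nonneg) s hs
  simpa using h2

omit [FiniteDimensional ℝ E] [MeasurableSpace E] [BorelSpace E] in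
theorem fl2_rev (h : IsFl Y φ) : IsFl (fun x => -Y x) φ.reverse := by
  intro x t
  have := (h x (-t)).scomp t (hasDerivAt_neg t)
  simpa [Function.comp_def] using this

omit [MeasurableSpace E] [BorelSpace E] in
theorem fl2_lipT (h : IsFl Y φ) (hY : ContDiff ℝ 1 Y) (t R : ℝ) :
    ∃ L : ℝ, 0 ≤ L ∧ ∀ x ∈ closedBall (0 : E) R, ∀ z ∈ closedBall (0 : E) R,
      ‖φ t x - φ t z‖ ≤ L * ‖x - z‖ := by
  rcases le_total 0 t with ht | ht
  · obtain ⟨L, C, hL, -, h1⟩ := fl2_lip h hY ht R
    exact ⟨L, hL, fun x hx z hz => (h1 t ⟨ht, le_rfl⟩ x hx z hz).1⟩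
  · obtain ⟨L, C, hL, -, h1⟩ := fl2_lip (fl2_rev h) hY.neg (neg_nonneg.2 ht) R
    refine ⟨L, hL, fun x hx z hz => ?_⟩
    simpa using (h1 (-t) ⟨neg_nonneg.2 ht, le_rfl⟩ x hx z hz).1

theorem fl2_avg (f : ContDiffBump (0 : E)) {D : E → ℝ} {B : ℝ}
    (hD : ∀ y ∈ ball (0 : E) f.rOut, ‖D y‖ ≤ B) :
    ‖∫ y, f.normed Measure.addHaar y * D y ∂Measure.addHaar‖ ≤ B := by
  have h1 := norm_integral_le_of_norm_le (μ := Measure.addHaar)
    (f := fun y => f.normed Measure.addHaar y * D y)
    (g := fun y => f.normed Measure.addHaar y * B) (f.integrable_normed.mul_const B)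
    (Eventually.of_forall fun y => by
      by_cases hy : y ∈ ball (0 : E) f.rOut
      · rw [norm_mul, Real.norm_of_nonneg (f.nonneg_normed y)]
        exact mul_le_mul_of_nonneg_left (hD y hy) (f.nonneg_normed y)
      · rw [← f.support_normed_eq (μ := Measure.addHaar), Function.notMem_support] at hy
        simp [hy])
  rwa [integral_mul_const, f.integral_normed, one_mul] at h1

theorem fl2_core (h : IsFl Y φ) (hY : ContDiff ℝ 1 Y) {m : Measure E}
    [IsLocallyFiniteMeasure m] (hinf : ∀ F : E → ℝ, ContDiff ℝ 1 F → HasCompactSupport F →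
      ∫ x, fderiv ℝ F x (Y x) ∂m = 0) {u w : E → ℝ} (hu : Continuous u)
    (huc : HasCompactSupport u) (hw : Continuous w) (hwc : HasCompactSupport w)
    (hlip : ∀ R, ∃ L : ℝ, 0 ≤ L ∧ ∀ x ∈ closedBall (0 : E) R, ∀ z ∈ closedBall (0 : E) R,
      ‖u x - u z‖ ≤ L * ‖x - z‖)
    (hd : ∀ z s, HasDerivAt (fun s => u (φ s z)) (w (φ s z)) s) : ∫ x, w x ∂m = 0 := by
  obtain ⟨R0, hR0⟩ := (huc.isCompact.union hwc.isCompact).isBounded.subset_closedBall (0 : E)
  obtain ⟨L1, C, hL1, hC, hf⟩ := fl2_lip h hY zero_le_one (R0 + 2)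
  obtain ⟨R', hR'⟩ := fl2_bound φ 1 (R0 + 2)
  obtain ⟨L, hL, hl⟩ := hlip (R' + 1)
  have key : ∀ ε > 0, ‖∫ x, w x ∂m‖ ≤ ε * m.real (closedBall (0 : E) (R0 + 1)) := by
    intro ε hε
    obtain ⟨δ, hδ, hδw⟩ := Metric.uniformContinuous_iff.1
      (hwc.uniformContinuous_of_continuous hw) (ε / 2) (by positivity)
    obtain ⟨r, hr, hr1, hr2, hr3⟩ : ∃ r : ℝ, 0 < r ∧ r ≤ 1 ∧ L1 * r ≤ δ / 2 ∧
        L * C * r ≤ ε / 2 := by
      refine ⟨min 1 (min (δ / 2 / (L1 + 1)) (ε / 2 / (L * C + 1))), by positivity,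
        min_le_left _ _, ?_, ?_⟩
      · have h1 : min 1 (min (δ / 2 / (L1 + 1)) (ε / 2 / (L * C + 1))) ≤ δ / 2 / (L1 + 1) :=
          (min_le_right _ _).trans (min_le_left _ _)
        refine (mul_le_mul_of_nonneg_left h1 hL1).trans ?_
        rw [← mul_div_assoc, div_le_iff₀ (by positivity)]
        nlinarith
      · have h1 : min 1 (min (δ / 2 / (L1 + 1)) (ε / 2 / (L * C + 1))) ≤ ε / 2 / (L * C + 1) :=
          (min_le_right _ _).trans (min_le_right _ _)
        refine (mul_le_mul_of_nonneg_left h1 (by positivity)).trans ?_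
        rw [← mul_div_assoc, div_le_iff₀ (by positivity)]
        nlinarith [mul_nonneg hL hC]
    let f : ContDiffBump (0 : E) := ⟨r / 2, r, by positivity, by linarith⟩
    let ρ : E → ℝ := f.normed Measure.addHaar
    let G : E → ℝ := convolution ρ u (ContinuousLinearMap.lsmul ℝ ℝ) Measure.addHaar
    have hG : ContDiff ℝ 1 G :=
      HasCompactSupport.contDiff_convolution_left (n := 1) _ f.hasCompactSupport_normed
        f.contDiff_normed hu.locallyIntegrable
    have hGc : HasCompactSupport G :=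
      HasCompactSupport.convolution _ f.hasCompactSupport_normed huc
    have hGv : ∀ p, G p = ∫ y, ρ y * u (p - y) ∂Measure.addHaar := fun p => rfl
    have hint : ∀ p, Integrable (fun y => ρ y * u (p - y)) Measure.addHaar := fun p =>
      (f.continuous_normed.mul (hu.comp (continuous_const.sub continuous_id))
        ).integrable_of_hasCompactSupport f.hasCompactSupport_normed.mul_right
    have hGs : tsupport G ⊆ closedBall (0 : E) (R0 + 1) := by
      refine closure_minimal ((support_convolution_subset _).trans ?_) isClosed_closedBall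
      rintro _ ⟨y, hy, z, hz, rfl⟩
      rw [f.support_normed_eq, mem_ball_zero_iff] at hy
      have hz' := mem_closedBall_zero_iff.1 (hR0 (Or.inl (subset_closure hz)))
      have hy' : ‖y‖ < r := hy
      rw [mem_closedBall_zero_iff]
      linarith [norm_add_le y z]
    have hpt : ∀ x ∈ closedBall (0 : E) (R0 + 1), ‖w x - fderiv ℝ G x (Y x)‖ ≤ ε := by
      intro x hx
      have hx2 : x ∈ closedBall (0 : E) (R0 + 2) := closedBall_subset_closedBall (by linarith) hx
      have hg : HasDerivAt (fun s => G (φ s x) - s * w x) (fderiv ℝ G x (Y x) - w x) 0 := by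
        have h1 := ((hG.differentiable one_ne_zero) (φ 0 x)).hasFDerivAt.comp_hasDerivAt 0 (h x 0)
        have h2 := (hasDerivAt_id (0 : ℝ)).mul_const (w x)
        simpa [Function.comp_def] using h1.fun_sub h2
      obtain ⟨s0, hs0, hs⟩ := Metric.continuousAt_iff.1
        ((φ.continuous continuous_id (continuous_const (y := x))).continuousAt (x := (0 : ℝ)))
        (δ / 2) (by positivity)
      rw [norm_sub_rev]
      refine le_of_tendsto hg.tendsto_slope_zero_right.norm ?_
      filter_upwards [Ioo_mem_nhdsGT (lt_min hs0 one_pos)] with s hs'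
      have hs1 : 0 < s := hs'.1
      have hs2 : s < s0 := hs'.2.trans_le (min_le_left _ _)
      have hs3 : s ≤ 1 := (hs'.2.trans_le (min_le_right _ _)).le
      have e : G (φ (0 + s) x) - (0 + s) * w x - (G (φ 0 x) - 0 * w x) =
          ∫ y, ρ y * (u (φ s x - y) - u (x - y) - s * w x) ∂Measure.addHaar := by
        have i1 : Integrable (fun y => ρ y * u (φ s x - y) - ρ y * u (x - y)) Measure.addHaar :=
          (hint _).sub (hint _)
        have i2 : Integrable (fun y => ρ y * (s * w x)) Measure.addHaar :=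
          f.integrable_normed.mul_const _
        have i3 : ∫ y, ρ y ∂Measure.addHaar = 1 := f.integral_normed
        simp only [mul_sub]
        rw [integral_sub i1 i2, integral_sub (hint _) (hint _), integral_mul_const, i3, hGv, hGv]
        simp only [zero_add, Flow.map_zero_apply]
        ring
      have hb : ‖∫ y, ρ y * (u (φ s x - y) - u (x - y) - s * w x) ∂Measure.addHaar‖ ≤ ε * s := by
        refine fl2_avg f fun y hy => ?_
        have hy' : ‖y‖ < r := mem_ball_zero_iff.1 hy
        have hz : x - y ∈ closedBall (0 : E) (R0 + 2) := by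
          rw [mem_closedBall_zero_iff] at hx ⊢
          linarith [norm_sub_le x y]
        have hxy : ‖x - (x - y)‖ = ‖y‖ := by rw [sub_sub_cancel]
        have h1 : ‖u (φ s x - y) - u (φ s (x - y))‖ ≤ ε / 2 * s := by
          have a1 := mem_closedBall_zero_iff.1 (hR' s ⟨by linarith, hs3⟩ x hx2)
          have a2 := hR' s ⟨by linarith, hs3⟩ _ hz
          have a3 := (hf s ⟨hs1.le, hs3⟩ x hx2 _ hz).2
          have a4 := hl (φ s x - y) (by
            rw [mem_closedBall_zero_iff]
            linarith [norm_sub_le (φ s x) y]) _ (closedBall_subset_closedBall (by linarith) a2)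
          rw [sub_sub_cancel, sub_right_comm] at a3
          refine a4.trans ((mul_le_mul_of_nonneg_left a3 hL).trans ?_)
          have a5 : L * C * ‖y‖ ≤ ε / 2 :=
            (mul_le_mul_of_nonneg_left hy'.le (by positivity)).trans hr3
          calc L * (C * ‖y‖ * s) = L * C * ‖y‖ * s := by ring
            _ ≤ ε / 2 * s := mul_le_mul_of_nonneg_right a5 hs1.le
        have h2 := norm_image_sub_le_of_norm_deriv_le_segment' (a := 0) (b := s)
          (f := fun σ => u (φ σ (x - y)) - σ * w x) (f' := fun σ => w (φ σ (x - y)) - w x)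
          (C := ε / 2) (fun σ _ => by
            have := (hd (x - y) σ).fun_sub ((hasDerivAt_id σ).mul_const (w x))
            simpa using this.hasDerivWithinAt) (fun σ hσ => by
            rw [← dist_eq_norm]
            refine (hδw ?_).le
            have a1 := (hf σ ⟨hσ.1, by linarith [hσ.2]⟩ x hx2 _ hz).1
            have a2 := hs (x := σ) (by
              rw [Real.dist_eq, sub_zero, abs_of_nonneg hσ.1]
              linarith [hσ.2])
            simp only [id, Flow.map_zero_apply] at a2
            rw [hxy, ← dist_eq_norm, dist_comm] at a1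
            have a3 : L1 * ‖y‖ ≤ δ / 2 := (mul_le_mul_of_nonneg_left hy'.le hL1).trans hr2
            linarith [dist_triangle (φ σ (x - y)) (φ σ x) x]) s ⟨hs1.le, le_rfl⟩
        simp only [Flow.map_zero_apply, zero_mul, sub_zero] at h2
        have e2 : u (φ s x - y) - u (x - y) - s * w x = (u (φ s x - y) - u (φ s (x - y))) +
            (u (φ s (x - y)) - s * w x - u (x - y)) := by ring
        rw [e2]
        linarith [norm_add_le (u (φ s x - y) - u (φ s (x - y)))
          (u (φ s (x - y)) - s * w x - u (x - y))]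
      rw [e, norm_smul, norm_inv, Real.norm_of_nonneg hs1.le, inv_mul_le_iff₀ hs1, mul_comm s ε]
      exact hb
    have hcD : Continuous fun x => fderiv ℝ G x (Y x) :=
      (hG.continuous_fderiv one_ne_zero).clm_apply hY.continuous
    have hz : ∀ x ∉ closedBall (0 : E) (R0 + 1), fderiv ℝ G x (Y x) = 0 := fun x hx => by
      rw [fderiv_of_notMem_tsupport ℝ fun h' => hx (hGs h')]
      rfl
    have hI : ∫ x, w x ∂m = ∫ x, (w x - fderiv ℝ G x (Y x)) ∂m := by
      rw [integral_sub (hw.integrable_of_hasCompactSupport hwc)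
        (hcD.integrable_of_hasCompactSupport
          (HasCompactSupport.intro (isCompact_closedBall _ _) hz)), hinf G hG hGc, sub_zero]
    rw [hI, ← setIntegral_eq_integral_of_forall_compl_eq_zero
      (s := closedBall (0 : E) (R0 + 1)) fun x hx => by
        rw [hz x hx, image_eq_zero_of_notMem_tsupport fun h' =>
          hx (closedBall_subset_closedBall (by linarith) (hR0 (Or.inr h'))), sub_zero]]
    exact norm_setIntegral_le_of_norm_le_const (isCompact_closedBall _ _).measure_lt_top hpt
  refine norm_le_zero_iff.1 (le_of_forall_pos_le_add fun ε hε => ?_)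
  have hM : 0 ≤ m.real (closedBall (0 : E) (R0 + 1)) := measureReal_nonneg
  refine (key (ε / (m.real (closedBall (0 : E) (R0 + 1)) + 1)) (by positivity)).trans ?_
  rw [zero_add, div_mul_eq_mul_div, div_le_iff₀ (by positivity)]
  nlinarith

theorem IsFl.integral_eq (h : IsFl Y φ) (hY : ContDiff ℝ 1 Y) {m : Measure E}
    [IsLocallyFiniteMeasure m] (hinf : ∀ F : E → ℝ, ContDiff ℝ 1 F → HasCompactSupport F →
      ∫ x, fderiv ℝ F x (Y x) ∂m = 0) (t : ℝ) {F : E → ℝ} (hF : ContDiff ℝ 1 F)
    (hc : HasCompactSupport F) : ∫ x, F (φ t x) ∂m = ∫ x, F x ∂m := by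
  let W : E → ℝ := fun p => fderiv ℝ F p (Y p)
  have hW : Continuous W := (hF.continuous_fderiv one_ne_zero).clm_apply hY.continuous
  have hW0 : ∀ p ∉ tsupport F, W p = 0 := fun p hp => by
    simp only [W]
    rw [fderiv_of_notMem_tsupport ℝ hp]
    rfl
  have hWc : HasCompactSupport W := HasCompactSupport.intro hc.isCompact hW0
  have hD : ∀ x s, HasDerivAt (fun s => F (φ s x)) (W (φ s x)) s := fun x s =>
    ((hF.differentiable one_ne_zero) (φ s x)).hasFDerivAt.comp_hasDerivAt s (h x s)
  obtain ⟨K, hK⟩ := hF.lipschitzWith_of_hasCompactSupport hc one_ne_zero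
  have hct : ∀ s, Continuous (φ s) := fun s => φ.continuous continuous_const continuous_id
  have h0 : ∀ s, ∫ x, W (φ s x) ∂m = 0 := fun s => by
    refine fl2_core h hY hinf (u := fun x => F (φ s x)) (hF.continuous.comp (hct s))
      (hc.comp_homeomorph (φ.toHomeomorph s)) (hW.comp (hct s))
      (hWc.comp_homeomorph (φ.toHomeomorph s)) (fun R => ?_) fun z σ => ?_
    · obtain ⟨L, hL, hl⟩ := fl2_lipT h hY s R
      refine ⟨K * L, by positivity, fun x hx z hz => ?_⟩
      have := hK.dist_le_mul (φ s x) (φ s z)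
      rw [dist_eq_norm, dist_eq_norm] at this
      rw [mul_assoc]
      exact this.trans (mul_le_mul_of_nonneg_left (hl x hx z hz) K.coe_nonneg)
    · have := (hD z (s + σ)).scomp σ ((hasDerivAt_id σ).const_add s)
      simpa [Function.comp_def, φ.map_add] using this
  obtain ⟨M, hM⟩ := hWc.exists_bound_of_continuous hW
  obtain ⟨R0, hR0⟩ := hc.isCompact.isBounded.subset_closedBall (0 : E)
  have hder : ∀ s, HasDerivAt (fun s => ∫ x, F (φ s x) ∂m) 0 s := fun s => by
    obtain ⟨R', hR'⟩ := fl2_bound φ (|s| + 1) R0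
    have := (hasDerivAt_integral_of_dominated_loc_of_deriv_le (μ := m)
      (F := fun s x => F (φ s x)) (F' := fun s x => W (φ s x)) (x₀ := s)
      (bound := (closedBall (0 : E) R').indicator fun _ => M) (ball_mem_nhds s one_pos)
      (Eventually.of_forall fun σ => (hF.continuous.comp (hct σ)).aestronglyMeasurable)
      ((hF.continuous.comp (hct s)).integrable_of_hasCompactSupport
        (hc.comp_homeomorph (φ.toHomeomorph s)))
      (hW.comp (hct s)).aestronglyMeasurable (Eventually.of_forall fun x σ hσ => by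
        by_cases hx : x ∈ closedBall (0 : E) R'
        · rw [indicator_of_mem hx]
          exact hM _
        · rw [indicator_of_notMem hx, hW0 _ fun h' => hx ?_, norm_zero]
          rw [mem_ball, Real.dist_eq, abs_lt] at hσ
          have := hR' (-σ) ⟨by linarith [le_abs_self s], by linarith [neg_abs_le s]⟩ _ (hR0 h')
          rwa [← φ.map_add, neg_add_cancel, Flow.map_zero_apply] at this)
      ((integrable_indicator_iff measurableSet_closedBall).2
        (integrableOn_const (isCompact_closedBall _ _).measure_lt_top.ne))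
      (Eventually.of_forall fun x σ _ => hD x σ)).2
    rwa [h0] at this
  have := is_const_of_deriv_eq_zero (fun s => (hder s).differentiableAt)
    (fun s => (hder s).deriv) t 0
  simpa using this

end

theorem IsFl.mp {Y : V → V} {φ : Flow ℝ V} (h : IsFl Y φ) (hY : ContDiff ℝ 1 Y) {m : Measure V}
    [IsLocallyFiniteMeasure m] (hinf : ∀ F : V → ℝ, ContDiff ℝ 1 F → HasCompactSupport F →
      ∫ x, fderiv ℝ F x (Y x) ∂m = 0) (t : ℝ) : MeasurePreserving (φ t) m m :=
  measurePreserving_of_smooth (φ.toHomeomorph t) fun _ hF hc => h.integral_eq hY hinf t hF hc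

end Pool.Agent.Lib.MP_a52643_an
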