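import Pool.Agent.Lib.MP_a52643_an.VC.Fld
import Pool.Agent.Lib.MP_a52643_an.VC.Flow2

/-!
The invariant measure of the geodesic flow in group coordinates.
-/

open MeasureTheory Set Filter Topology Metric UpperHalfPlane
open scoped ENNReal MatrixGroups Pointwise NNReal ComplexConjugate ContDiff Laplacian

noncomputable section

namespace Pool.Agent.Lib.MP_a52643_an

variable {Γ : Type*} [Group Γ] [MulAction Γ ℍ] [Countable Γ] {l : Γ → SL2} {D : Set ℍ}
  {ℓ : ℂ → ℝ} {φ : Flow ℝ V}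

/-- the limit measure multiplied by the area density -/
def mS (ℓ : ℂ → ℝ) (μ : Measure V) : Measure V :=
  μ.withDensity fun v => ENNReal.ofReal (rh ℓ (bp (nG v)))

lemma dmx_map {X Y : Type*} [MeasurableSpace X] [MeasurableSpace Y] (m : Measure X) {p : X → Y}
    (hp : Measurable p) {h : Y → ℝ≥0∞} (hh : Measurable h) :
    (m.withDensity fun x => h (p x)).map p = (m.map p).withDensity h := by
  ext s hs
  rw [Measure.map_apply hp hs, withDensity_apply _ (hp hs), withDensity_apply _ hs,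
    setLIntegral_map hs hh hp]

lemma dmx_meas (hs : ContDiffOn ℝ ∞ ℓ UH) : Measurable fun z : ℍ => ENNReal.ofReal (rh ℓ z) := by
  have h : Continuous fun z : ℍ => ℓ z :=
    hs.continuousOn.comp_continuous continuous_coe fun z => z.im_pos
  unfold rh
  exact (Real.continuous_exp.comp (continuous_const.mul h)).measurable.ennreal_ofReal

lemma dmx_bd {Γ : Type*} {l : Γ → SL2} (hG : CG l ℓ) : ∃ C : ℝ≥0, C ≠ 0 ∧ ∀ z : ℍ,
    ENNReal.ofReal (rh ℓ z) ≤ C ∧ 1 ≤ C * ENNReal.ofReal (rh ℓ z) := by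
  obtain ⟨C, h1, h2⟩ := hG.rh_bd
  have h0 : 0 ≤ C := by linarith
  refine ⟨C.toNNReal, by simp; linarith, fun z => ⟨ENNReal.ofReal_le_ofReal (h2 z z.im_pos).1, ?_⟩⟩
  have h3 : 0 < rh ℓ z := Real.exp_pos _
  have h4 := (h2 z z.im_pos).2
  rw [inv_le_iff_one_le_mul₀ h3] at h4
  change 1 ≤ ENNReal.ofReal C * _
  rw [← ENNReal.ofReal_mul h0]
  exact ENNReal.one_le_ofReal.2 h4

lemma dmx_lf {Γ : Type*} {l : Γ → SL2} (hG : CG l ℓ) (μ : Measure V) [IsLocallyFiniteMeasure μ] :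
    IsLocallyFiniteMeasure (mS ℓ μ) := by
  obtain ⟨C, -, h⟩ := dmx_bd hG
  refine Measure.isLocallyFiniteMeasure_of_le (μ := C • μ) ?_
  calc mS ℓ μ ≤ μ.withDensity fun _ => (C : ℝ≥0∞) :=
        withDensity_mono (Eventually.of_forall fun v => (h _).1)
    _ = C • μ := by rw [withDensity_const]; rfl

lemma dmx_eq (hs : ContDiffOn ℝ ∞ ℓ UH) (μ : Measure V) :
    (mS ℓ μ).map nG = (μ.map nG).withDensity fun g => ENNReal.ofReal (rh ℓ (bp g)) :=
  dmx_map μ (h := fun g => ENNReal.ofReal (rh ℓ (bp g))) measurable_nG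
    ((dmx_meas hs).comp measurable_bp)

lemma dmx_inv {Γ : Type*} {l : Γ → SL2} (hG : CG l ℓ) (γ : Γ) (z : ℍ) :
    rh ℓ ((l γ • z : ℍ) : ℂ) = rh ℓ z := by
  rw [rh, rh, hG.inv]

lemma dmx_left {Γ : Type*} {l : Γ → SL2} (hG : CG l ℓ) {μ : Measure V} (hs : ∀ᵐ v ∂μ, v ∈ cslab)
    {γ : Γ} (hL : MeasurePreserving (LG (l γ)) μ μ) :
    MeasurePreserving (fun g => l γ * g) ((mS ℓ μ).map nG) ((mS ℓ μ).map nG) := by
  have left : MeasurePreserving (fun g => l γ * g) (μ.map nG) (μ.map nG) :=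
    mp_map measurable_nG hL (measurable_const_mul _)
      (hs.mono fun v hv => (nG_Lg _ (cslab_subset_Om hv)).symm)
  refine ⟨measurable_const_mul _, ?_⟩
  have h := dmx_map (μ.map nG) (h := fun g => ENNReal.ofReal (rh ℓ (bp g))) left.measurable
    ((dmx_meas hG.sm).comp measurable_bp)
  rw [left.map_eq] at h
  simp only [bp_mul, dmx_inv hG] at h
  rw [dmx_eq hG.sm]; exact h

lemma dmx_inf (hm : ContDiffOn ℝ ∞ ℓ UH) {μ : Measure V} (hs : ∀ᵐ v ∂μ, v ∈ cslab) (F : V → ℝ) :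
    ∫ v, fderiv ℝ F v (XV ℓ v) ∂mS ℓ μ = 1 / 2 * ∫ v, sV ℓ v * fderiv ℝ F v (YV ℓ v) ∂μ := by
  have m : Measurable fun v => ENNReal.ofReal (rh ℓ (bp (nG v))) :=
    ((dmx_meas hm).comp measurable_bp).comp measurable_nG
  rw [mS, integral_withDensity_eq_integral_toReal_smul m (by simp), ← integral_const_mul]
  refine integral_congr_ae (hs.mono fun v hv => ?_)
  have h0 := (sV_pos (ℓ := ℓ) v).ne'
  have h1 : rh ℓ (bp (nG v)) = sV ℓ v ^ 2 := by
    rw [coe_bp_nG (cslab_subset_Om hv), rh, sV, ← Real.exp_nat_mul]; rfl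
  simp only
  rw [h1, ENNReal.toReal_ofReal (sq_nonneg _), XV_eq (by linarith [hv.1]), map_smul, smul_eq_mul,
    smul_eq_mul]
  field_simp

theorem exists_dm (hG : CG l ℓ) (hD : FD l D) (hφ : IsFl (XV ℓ) φ) {μ : Measure V}
    [IsLocallyFiniteMeasure μ] (hs : ∀ᵐ v ∂μ, v ∈ cslab)
    (hL : ∀ γ, MeasurePreserving (LG (l γ)) μ μ)
    (hinf : ∀ F : V → ℝ, ContDiff ℝ 1 F → HasCompactSupport F →
      ∫ v, sV ℓ v * fderiv ℝ F v (YV ℓ v) ∂μ = 0)
    {f : ℍ → ℝ≥0∞} (mf : Measurable f) (inv : ∀ (γ : Γ) z, f (γ • z) = f z)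
    (dens : muH μ = volume.withDensity f) (sq : ∫⁻ z in D, f z ^ 2 ≠ ⊤) :
    ∃ f', DM l D ((mS ℓ μ).map nG) (fun γ g => l γ * g) bp f' (gS φ) := by
  have mρ := dmx_meas hG.sm
  have := dmx_lf hG μ
  obtain ⟨C, -, hC⟩ := dmx_bd hG
  refine ⟨f * fun z : ℍ => ENNReal.ofReal (rh ℓ z), hD, fun γ => dmx_left hG hs (hL γ),
    fun γ g => by rw [bp_mul, hD.act], measurable_bp, measurable_gS φ, fun t => ?_,
    fun γ t g => hφ.gS_left hG γ t g, mf.mul mρ, fun γ z => ?_, ?_, ?_⟩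
  · have h1 : MeasurePreserving (φ t) (mS ℓ μ) (mS ℓ μ) :=
      hφ.mp (cd_XV hG.sm) (fun F hF hc => by rw [dmx_inf hG.sm hs, hinf F hF hc, mul_zero]) t
    have h2 : Measurable (gS φ t) :=
      (measurable_gS φ).comp (f := fun g => (t, g)) measurable_prodMk_left
    have h3 : ∀ᵐ v ∂mS ℓ μ, v ∈ cslab := (withDensity_absolutelyContinuous _ _).ae_le hs
    exact mp_map measurable_nG h1 h2 (h3.mono fun v hv => (hφ.nG_fl hG.sm t hv).symm)
  · rw [Pi.mul_apply, Pi.mul_apply, inv, hD.act, dmx_inv hG]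
  · rw [dmx_eq hG.sm, dmx_map _ measurable_bp mρ, withDensity_mul _ mf mρ, ← dens, muH]
  · refine ne_top_of_le_ne_top (ENNReal.mul_ne_top (a := (C : ℝ≥0∞) ^ 2) (by simp) sq) ?_
    rw [← lintegral_const_mul _ (mf.pow_const 2)]
    refine lintegral_mono fun z => ?_
    rw [Pi.mul_apply, ← mul_pow, mul_comm]
    gcongr
    exact (hC z).1

lemma DM.symm {ν : Measure SL2} {f : ℍ → ℝ≥0∞} {g : ℝ → SL2 → SL2}
    (h : DM l D ν (fun γ g => l γ * g) bp f g) {k : SL2} (hb : bp k = I)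
    (hk : ∀ t, ∃ t', ∀ v, g t (v * k) = g t' v * k) :
    DM l D (ν + ν.map (· * k)) (fun γ g => l γ * g) bp (f + f) g := by
  have mk := measurable_mul_const k
  refine ⟨h.fd, fun γ => (h.mp γ).add_measure (mp_map mk (h.mp γ) (measurable_const_mul _)
    (Eventually.of_forall fun g => (mul_assoc _ _ _).symm)), h.eqv, h.mP, h.mg, fun t => ?_,
    h.comm, h.mf.add h.mf, fun γ z => by simp [h.inv], ?_, ?_⟩
  · obtain ⟨t', h1⟩ := hk t
    exact (h.fl t).add_measure (mp_map mk (h.fl t') (h.fl t).measurable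
      (Eventually.of_forall h1))
  · have : bp ∘ (· * k) = bp := by ext1 g; simp only [Function.comp, bp_mul, hb]; rfl
    rw [Measure.map_add _ _ measurable_bp, Measure.map_map measurable_bp mk, this, h.dens,
      withDensity_add_left h.mf]
  · simp only [Pi.add_apply, ← two_mul, mul_pow]
    rw [lintegral_const_mul _ (h.mf.pow_const 2)]
    exact ENNReal.mul_ne_top (by simp) h.sq

lemma NC_of_mS (hG : CG l ℓ) {μ : Measure V} [SFinite μ] {c : ℝ} (h : NC (mS ℓ μ) c) :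
    NC μ c := by
  obtain ⟨C, h0, hC⟩ := dmx_bd hG
  have mρ := ((dmx_meas hG.sm).comp measurable_bp).comp measurable_nG
  have : SFinite (mS ℓ μ) := by unfold mS; infer_instance
  have le : μ ≤ (C : ℝ≥0∞) • mS ℓ μ := by
    calc μ = μ.withDensity 1 := withDensity_one.symm
      _ ≤ μ.withDensity ((C : ℝ≥0∞) • fun v => ENNReal.ofReal (rh ℓ (bp (nG v)))) :=
        withDensity_mono (Eventually.of_forall fun v => (hC _).2)
      _ = _ := withDensity_smul _ mρ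
  have hp : (0 : ℝ) < C := by positivity
  intro K hK hU η hη
  obtain ⟨δ, hδ, h1⟩ := h K hK hU (η / C ^ 2) (by positivity)
  refine ⟨δ, hδ, h1.mono fun ε h2 => ?_⟩
  calc _ ≤ (((C : ℝ≥0∞) • mS ℓ μ).prod ((C : ℝ≥0∞) • mS ℓ μ)) (NS K ε δ c) :=
        Measure.prod_mono le le _
    _ = (C : ℝ≥0∞) * (C * ((mS ℓ μ).prod (mS ℓ μ)) (NS K ε δ c)) := by
        rw [Measure.prod_smul_left, Measure.prod_smul_right]; rfl
    _ ≤ (C : ℝ≥0∞) * (C * ENNReal.ofReal (η / C ^ 2 * ε ^ 2)) := by gcongr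
    _ = _ := by
        rw [← ENNReal.ofReal_coe_nnreal, ← ENNReal.ofReal_mul hp.le, ← ENNReal.ofReal_mul hp.le]
        congr 1; field_simp

end Pool.Agent.Lib.MP_a52643_an
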