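import Pool.Agent.Lib.MP_a52643_an.Law.Unif

/-!
Variable curvature: definitions.  The metric is `exp (2 ℓ)` times the hyperbolic metric.
-/

open Complex MeasureTheory Set Filter Topology Metric
open scoped ComplexConjugate ContDiff ENNReal Laplacian

noncomputable section

namespace Pool.Agent.Lib.MP_a52643_an

/-! ### the conformal factor on the cone -/

def lV (ℓ : ℂ → ℝ) (v : V) : ℂ := (ℓ (pr v) : ℂ)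

def sV (ℓ : ℂ → ℝ) (v : V) : ℝ := Real.exp (ℓ (pr v))

def AV (ℓ : ℂ → ℝ) : V → ℂ := Ep (lV ℓ)

def qV (ℓ : ℂ → ℝ) (v : V) : ℝ := (pr v).im ^ 2 * Δ ℓ (pr v)

lemma Hom.Em {k : ℤ} {F : V → ℂ} (h : Hom k F) (hF : ContDiffOn ℝ 1 F Om) :
    Hom (k - 1) (Em F) := by
  have h1 := (h.conj.Ep (contDiffOn_conj' hF)).conj
  have e : -(-k + 1) = k - 1 := by ring
  simpa only [Ep_conj, Complex.conj_conj, e] using h1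

lemma Inv.Em {a b c d : ℝ} (hd : a * d - b * c = 1) {F : V → ℂ} (h : Inv a b c d F)
    (hF : ContDiffOn ℝ 1 F Om) : Inv a b c d (Em F) := by
  have h0 : Inv a b c d fun v => conj (F v) := fun v hv => by simp only [h v hv]
  intro v hv
  have := h0.Ep hd (contDiffOn_conj' hF) v hv
  simp only [Ep_conj] at this
  simpa using congrArg conj this

section basic

variable {ℓ : ℂ → ℝ}

lemma sV_pos (v : V) : 0 < sV ℓ v := Real.exp_pos _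

lemma sC_ne (v : V) : (sV ℓ v : ℂ) ≠ 0 := by exact_mod_cast (sV_pos v).ne'

lemma sV_smul {c : ℂ} (hc : c ≠ 0) (v : V) : sV ℓ (c • v) = sV ℓ v := by simp [sV, pr_smul hc]

lemma sC_eq (v : V) : (sV ℓ v : ℂ) = cexp (lV ℓ v) := by simp [sV, lV]

lemma hom_lV : Hom 0 (lV ℓ) := fun c hc v _ => by simp [lV, pr_smul hc]

lemma hom_sC : Hom 0 fun v => (sV ℓ v : ℂ) := fun c hc v _ => by simp [sV_smul hc]

lemma cd_lR (hs : ContDiffOn ℝ ∞ ℓ UH) : ContDiffOn ℝ ∞ (fun v => ℓ (pr v)) Om :=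
  hs.comp contDiffOn_pr fun _ hv => pr_mem hv

lemma cd_lV (hs : ContDiffOn ℝ ∞ ℓ UH) : ContDiffOn ℝ ∞ (lV ℓ) Om :=
  ofRealCLM.contDiff.comp_contDiffOn (cd_lR hs)

lemma cd_sV (hs : ContDiffOn ℝ ∞ ℓ UH) : ContDiffOn ℝ ∞ (sV ℓ) Om := (cd_lR hs).exp

lemma cd_sC (hs : ContDiffOn ℝ ∞ ℓ UH) : ContDiffOn ℝ ∞ (fun v => (sV ℓ v : ℂ)) Om :=
  ofRealCLM.contDiff.comp_contDiffOn (cd_sV hs)

lemma cd_sC_inv (hs : ContDiffOn ℝ ∞ ℓ UH) : ContDiffOn ℝ ∞ (fun v => (sV ℓ v : ℂ)⁻¹) Om :=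
  (cd_sC hs).inv fun v _ => sC_ne v

lemma cd_AV (hs : ContDiffOn ℝ ∞ ℓ UH) : ContDiffOn ℝ ∞ (AV ℓ) Om :=
  contDiffOn_Ep (n := ∞) (cd_lV hs)

lemma hom_AV (hs : ContDiffOn ℝ ∞ ℓ UH) : Hom 1 (AV ℓ) := by
  simpa [AV] using hom_lV.Ep ((cd_lV hs).of_le (by simp))

lemma Em_lV (v : V) : Em (lV ℓ) v = conj (AV ℓ v) := by
  rw [AV, ← Em_conj]; simp only [lV, conj_ofReal]; rfl

lemma Em_AV (hs : ContDiffOn ℝ ∞ ℓ UH) {v : V} (hv : v ∈ Om) : Em (AV ℓ) v = qV ℓ v :=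
  Em_Ep_comp_pr (hs.of_le two_le_infty) hv

lemma Ep_conj_AV (hs : ContDiffOn ℝ ∞ ℓ UH) {v : V} (hv : v ∈ Om) :
    Ep (fun w => conj (AV ℓ w)) v = qV ℓ v := by rw [Ep_conj, Em_AV hs hv, conj_ofReal]

lemma HasE.comp_deriv {F : V → ℂ} {v : V} {a b d : ℂ} (h : HasE F v a b) {g : ℂ → ℂ}
    (hg : HasDerivAt g d (F v)) : HasE (fun w => g (F w)) v (d * a) (d * b) := by
  have e := (hg.hasFDerivAt.restrictScalars ℝ).comp v h.diff.hasFDerivAt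
  have e' : fderiv ℝ (fun w => g (F w)) v = _ := e.fderiv
  refine ⟨e.differentiableAt, ?_, ?_⟩
  · rw [← h.ep]; simp [Ep, wp, e']; ring
  · rw [← h.em]; simp [Em, wm, e']; ring

lemma hasE_lV (hs : ContDiffOn ℝ ∞ ℓ UH) {v : V} (hv : v ∈ Om) :
    HasE (lV ℓ) v (AV ℓ v) (conj (AV ℓ v)) :=
  ⟨diffAt_of_Om (cd_lV hs) (by simp) hv, rfl, Em_lV v⟩

lemma hasE_sC (hs : ContDiffOn ℝ ∞ ℓ UH) {v : V} (hv : v ∈ Om) :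
    HasE (fun w => (sV ℓ w : ℂ)) v (sV ℓ v * AV ℓ v) (sV ℓ v * conj (AV ℓ v)) := by
  simpa only [← sC_eq] using (hasE_lV hs hv).comp_deriv (Complex.hasDerivAt_exp _)

lemma hasE_sC_inv (hs : ContDiffOn ℝ ∞ ℓ UH) {v : V} (hv : v ∈ Om) :
    HasE (fun w => (sV ℓ w : ℂ)⁻¹) v (-((sV ℓ v : ℂ)⁻¹ * AV ℓ v))
      (-((sV ℓ v : ℂ)⁻¹ * conj (AV ℓ v))) := by
  have h0 := sC_ne (ℓ := ℓ) v
  convert (hasE_sC hs hv).comp_deriv (hasDerivAt_inv h0) using 1 <;> field_simp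

end basic

/-! ### approximate ladders -/

structure Pre (Φ : ℤ → V → ℂ) : Prop where
  smooth : ∀ n, ContDiffOn ℝ 1 (Φ n) Om
  hom : ∀ n, Hom n (Φ n)
  cnj : ∀ n, ∀ v, conj (Φ n v) = (-1) ^ n * Φ (-n) v

/-- error in the raising relation -/
def eU (ℓ : ℂ → ℝ) (m : ℝ) (Φ : ℤ → V → ℂ) (n : ℤ) (v : V) : ℂ :=
  Ep (Φ n) v - I * m * sV ℓ v * Φ (n + 1) v - n * AV ℓ v * Φ n v

/-- error in the lowering relation -/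
def eD (ℓ : ℂ → ℝ) (m : ℝ) (Φ : ℤ → V → ℂ) (n : ℤ) (v : V) : ℂ :=
  Em (Φ (n + 1)) v - I * m * sV ℓ v * Φ n v + (n + 1) * conj (AV ℓ v) * Φ (n + 1) v

def SN (Φ : ℤ → V → ℂ) (n : ℤ) (v : V) : ℝ := ∑ k ∈ Finset.range (n.natAbs + 1), ‖Φ k v‖

structure VL (ℓ : ℂ → ℝ) (Cb : ℤ → V → ℝ) (m : ℝ) (Φ : ℤ → V → ℂ) : Prop extends Pre Φ where
  one_le : 1 ≤ m
  eu : ∀ n, ∀ v ∈ Om, m * ‖eU ℓ m Φ n v‖ ≤ Cb n v * SN Φ n v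
  ed : ∀ n, ∀ v ∈ Om, m * ‖eD ℓ m Φ n v‖ ≤ Cb n v * SN Φ n v

/-- admissible data -/
structure OKC (ℓ : ℂ → ℝ) (Cb : ℤ → V → ℝ) : Prop where
  sm : ContDiffOn ℝ ∞ ℓ UH
  cont : ∀ n, ContinuousOn (Cb n) Om
  nn : ∀ n v, 0 ≤ Cb n v

structure FamA {J : Type} (l : Filter J) (Φ : J → ℤ → V → ℂ) : Prop where
  lad : ∀ j, Pre (Φ j)
  two : ∀ n, LB l fun j v => ‖Φ j n v‖ ^ 2
  succ : ∀ {τ : V → ℂ}, CS τ → ContDiffOn ℝ 1 τ Om → ∀ a b : ℤ,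
    Tendsto (fun j => (∫ v, τ v * TT (Φ j) (a + 1) (b + 1) v ∂mV)
      - ∫ v, τ v * TT (Φ j) a b v ∂mV) l (𝓝 0)

structure FamV (ℓ : ℂ → ℝ) (Cb : ℤ → V → ℝ) {J : Type} (l : Filter J) (m : J → ℝ)
    (Φ : J → ℤ → V → ℂ) : Prop where
  ok : OKC ℓ Cb
  vl : ∀ j, VL ℓ Cb (m j) (Φ j)
  tend : Tendsto m l atTop
  two : ∀ n, LB l fun j v => ‖Φ j n v‖ ^ 2

structure UFA {J : Type} (U : Ultrafilter J) (Φ : J → ℤ → V → ℂ) : Prop extends FamA U Φ where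
  uu : ∀ n, UU U fun j z => ‖ph (Φ j) n z‖ ^ 2
  van : ∀ {χ : ℂ → ℝ}, TF1 χ → ∀ a : Fin 4 → ℤ,
    Tendsto (fun p => ∑ i, ∫ z, (χ z : ℂ) * psi (trF Φ p) (a + Pi.single i 1) z ∂hyp)
      (UW U) (𝓝 0)
  prr : ∀ {θ : ℂ → ℝ}, TF1 θ → (∀ z, θ z ≤ 1) → ∀ {R : ℝ}, tsupport θ ⊆ closedBall 0 R →
    ∀ {K : Set ℂ}, (∀ z ∈ K, θ z = 1) → ∀ a b : ℤ, ∃ E : J → ℂ → ℝ, UU U E ∧
      ∀ᶠ j in (U : Filter J), ∀ M : ℝ, 0 < M → ∀ e : ℂ → ℝ, (∀ z, 0 ≤ e z) →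
        (∀ z ∈ tsupport θ, E j z ≤ e z) →
        Pr R (M / 4) e K (fun z => θ z * psi (Φ j) ![a, b] z)
          (fun z => θ z * psi (Φ j) ![a + 1, b + 1] z)
          (psi (trL M (Φ j)) ![a, b]) (psi (trL M (Φ j)) ![a + 1, b + 1])

/-! ### the geodesic vector field -/

def YV (ℓ : ℂ → ℝ) (v : V) : V := -cj v + (AV ℓ v).im • I • v

def XV (ℓ : ℂ → ℝ) (v : V) : V :=
  (Real.smoothTransition (4 * dt v - 1) * (2 * sV ℓ v)⁻¹) • YV ℓ v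

def IsFl {E : Type*} [NormedAddCommGroup E] [NormedSpace ℝ E] (Y : E → E) (φ : Flow ℝ E) : Prop :=
  ∀ x t, HasDerivAt (fun t => φ t x) (Y (φ t x)) t

def LG (g : SL2) : V →L[ℝ] V := Lg (ea g) (eb g) (ec g) (ed g)

def iv (g : SL2) : V := (eb g + ea g * I, ed g + ec g * I)

/-- the flow in group coordinates -/
def gS (φ : Flow ℝ V) (t : ℝ) (h : SL2) : SL2 := nG (φ t (iv h))

/-! ### pair coordinates -/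

def aa (v w : V) : ℂ := (w.1 * conj v.2 - w.2 * conj v.1) / (2 * I)

def bb (v w : V) : ℂ := (w.2 * v.1 - w.1 * v.2) / (2 * I)

def xiP (p : SL2 × SL2) : ℝ := ‖aa (iv p.1) (iv p.2) - 1‖ + ‖bb (iv p.1) (iv p.2)‖

def xP (ℓ : ℂ → ℝ) (p : SL2 × SL2) : ℝ := -2 * sV ℓ (iv p.1) * (bb (iv p.1) (iv p.2)).re

def JP (ℓ : ℂ → ℝ) (p : SL2 × SL2) : ℝ := 2 * sV ℓ (iv p.1) * (bb (iv p.1) (iv p.2)).im

def TP (ℓ : ℂ → ℝ) (p : SL2 × SL2) : ℝ :=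
  2 * ((aa (iv p.1) (iv p.2)).im + (AV ℓ (iv p.1) * bb (iv p.1) (iv p.2)).im)

section geo

open UpperHalfPlane hiding I

variable {Γ : Type*}

/-- smooth invariant functions of weight `k` that are constant outside a cocompact set -/
structure CI (l : Γ → SL2) (k : ℤ) (c : ℂ) (f : V → ℂ) : Prop where
  sm : ContDiffOn ℝ ∞ f Om
  hom : Hom k f
  inv : ∀ γ, ∀ v ∈ Om, f (LG (l γ) v) = f v
  cpt : ∃ K : Set ℍ, IsCompact K ∧ ∀ v ∈ Om, f v ≠ c → ∃ γ, l γ • bp (nG v) ∈ K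

/-- negatively curved conformal factor -/
structure CG (l : Γ → SL2) (ℓ : ℂ → ℝ) : Prop where
  sm : ContDiffOn ℝ ∞ ℓ UH
  inv : ∀ (γ : Γ) (z : ℍ), ℓ ((l γ • z : ℍ) : ℂ) = ℓ z
  cpt : ∃ K : Set ℍ, IsCompact K ∧ ∀ z : ℍ, ℓ z ≠ 0 → ∃ γ, l γ • z ∈ K
  curv : ∀ z ∈ UH, 0 < 1 + z.im ^ 2 * Δ ℓ z

/-- the area density -/
def rh (ℓ : ℂ → ℝ) (z : ℂ) : ℝ := Real.exp (2 * ℓ z)

structure EigV (Γ : Type*) [Group Γ] [MulAction Γ ℍ] (ℓ : ℂ → ℝ) (D : Set ℍ) (φ : ℍ → ℝ)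
    (lam : ℝ) : Prop where
  inv : ∀ (γ : Γ) z, φ (γ • z) = φ z
  sm : ContDiffOn ℝ ∞ (fun z => φ (ofComplex z)) UH
  eig : ∀ z ∈ UH, z.im ^ 2 * Δ (fun z => φ (ofComplex z)) z = -lam * rh ℓ z * φ (ofComplex z)
  int : IntegrableOn (fun z => φ z ^ 2) D

end geo

/-! ### abstract pair dynamics -/

section pair

variable {X : Type*}

/-- joint flow -/
def jt (g : ℝ → X → X) (t : ℝ) (p : X × X) : X × X := (g t p.1, g t p.2)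

/-- relative flow -/
def sl (g : ℝ → X → X) (u : ℝ) (p : X × X) : X × X := (p.1, g u p.2)

def Tp (g : ℝ → X → X) (q : ℝ × ℝ) (p : X × X) : X × X := sl g q.2 (jt g q.1 p)

structure PG (g : ℝ → X → X) (ξ x J Θ : X × X → ℝ) (C a r0 : ℝ) : Prop where
  g0 : ∀ v, g 0 v = v
  gadd : ∀ s t v, g (s + t) v = g s (g t v)
  C1 : 1 ≤ C
  a0 : 0 < a
  r0pos : 0 < r0
  nn : ∀ p, 0 ≤ ξ p
  cj : ∀ p, Continuous fun t => ξ (jt g t p)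
  cs : ∀ p, Continuous fun u => ξ (sl g u p)
  up : ∀ p, ξ p ≤ r0 → |x p| ≤ C * ξ p ∧ |J p| ≤ C * ξ p ∧ |Θ p| ≤ C * ξ p
  lo : ∀ p, ξ p ≤ r0 → ξ p ≤ C * (|x p| + |J p| + |Θ p|)
  joint : ∀ p, ξ p ≤ r0 → ∃ x' J' Θ' k : ℝ, HasDerivAt (fun t => x (jt g t p)) x' 0 ∧
    HasDerivAt (fun t => J (jt g t p)) J' 0 ∧ HasDerivAt (fun t => Θ (jt g t p)) Θ' 0 ∧
    |x'| ≤ C * ξ p ^ 2 ∧ |J' - Θ p| ≤ C * ξ p ^ 2 ∧ |Θ' - k * J p| ≤ C * ξ p ^ 2 ∧ a ≤ k ∧ k ≤ C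
  rel : ∀ p, ξ p ≤ r0 → ∃ x' J' Θ' : ℝ, HasDerivAt (fun u => x (sl g u p)) x' 0 ∧
    HasDerivAt (fun u => J (sl g u p)) J' 0 ∧ HasDerivAt (fun u => Θ (sl g u p)) Θ' 0 ∧
    |x' - 1| ≤ C * ξ p ∧ |J'| ≤ C * ξ p ∧ |Θ'| ≤ C * ξ p
  tri : ∀ v w w', ξ (v, w) ≤ r0 → ξ (v, w') ≤ r0 → ξ (w, w') ≤ C * (ξ (v, w) + ξ (v, w')) ∧
    |J (w, w') - (J (v, w') - J (v, w))| ≤ C * (ξ (v, w) + ξ (v, w')) ^ 2

def PosS (ξ x J : X × X → ℝ) (δ e : ℝ) : Set (X × X) := {p | ξ p ≤ δ ∧ |x p| ≤ e ∧ |J p| ≤ e}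

def XS (ξ x J Θ : X × X → ℝ) (C0 δ e : ℝ) : Set (X × X) :=
  {p | ξ p ≤ δ ∧ |x p| ≤ e ∧ |J p| ≤ e ∧ C0 * e ≤ |Θ p|}

def CrS (g : ℝ → X → X) (ξ J : X × X → ℝ) (M T e : ℝ) : Set (X × X) :=
  {p | ξ p ≤ M * e ∧ e ≤ |J p| + |J (jt g T p)| ∧ J p * J (jt g T p) ≤ 0}

def ThS (ξ x J : X × X → ℝ) (M κ e : ℝ) : Set (X × X) :=
  {p | ξ p ≤ M * e ∧ |x p| ≤ 2 * e ∧ |J p| ≤ κ * e}

def BP (ξ x J : X × X → ℝ) (M e : ℝ) : Set (X × X) :=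
  {p | ξ p ≤ M * e ∧ |x p| ≤ e ∧ 0 ≤ J p ∧ J p ≤ e}

open UpperHalfPlane hiding I

variable {Γ : Type*}

def InvS (τ : Γ → X → X) (S : Set (X × X)) : Prop := ∀ γ v w, (τ γ v, τ γ w) ∈ S ↔ (v, w) ∈ S

def NearS (P : X → ℍ) (r : ℝ) : Set (X × X) := {p | dist (P p.2) (P p.1) ≤ r}

variable [MeasurableSpace X]

def pm (μ : Measure X) (P : X → ℍ) (D : Set ℍ) : Measure (X × X) := (μ.restrict (P ⁻¹' D)).prod μ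

def sec (μ : Measure X) (S : Set (X × X)) (v : X) : ℝ≥0∞ := μ {w | (v, w) ∈ S}

structure PM (τ : Γ → X → X) (P : X → ℍ) (ξ x J Θ : X × X → ℝ) (C r0 : ℝ) : Prop where
  mξ : Measurable ξ
  mx : Measurable x
  mJ : Measurable J
  mΘ : Measurable Θ
  iξ : ∀ γ v w, ξ (τ γ v, τ γ w) = ξ (v, w)
  ix : ∀ γ v w, x (τ γ v, τ γ w) = x (v, w)
  iJ : ∀ γ v w, J (τ γ v, τ γ w) = J (v, w)
  iΘ : ∀ γ v w, Θ (τ γ v, τ γ w) = Θ (v, w)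
  pos : ∀ p, ξ p ≤ r0 → dist (P p.2) (P p.1) ≤ C * (|x p| + |J p|)

variable [Group Γ] [MulAction Γ ℍ]

structure DM (l : Γ → SL2) (D : Set ℍ) (μ : Measure X) (τ : Γ → X → X) (P : X → ℍ)
    (f : ℍ → ℝ≥0∞) (g : ℝ → X → X) : Prop where
  fd : FD l D
  mp : ∀ γ, MeasurePreserving (τ γ) μ μ
  eqv : ∀ γ v, P (τ γ v) = γ • P v
  mP : Measurable P
  mg : Measurable fun p : ℝ × X => g p.1 p.2
  fl : ∀ t, MeasurePreserving (g t) μ μ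
  comm : ∀ γ t v, g t (τ γ v) = τ γ (g t v)
  mf : Measurable f
  inv : ∀ (γ : Γ) z, f (γ • z) = f z
  dens : μ.map P = volume.withDensity f
  sq : ∫⁻ z in D, f z ^ 2 ≠ ⊤

end pair

end Pool.Agent.Lib.MP_a52643_an
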