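import Pool.Agent.Lib.MP_a52643_an.VC.Defs

/-!
Global flows of vector fields of linear growth.
-/

open MeasureTheory Set Filter Topology Metric
open scoped ContDiff NNReal

noncomputable section

namespace Pool.Agent.Lib.MP_a52643_an

variable {E : Type*} [NormedAddCommGroup E] [NormedSpace ℝ E] [FiniteDimensional ℝ E] {Y : E → E}

theorem fl1_lip (hY : ContDiff ℝ 1 Y) (R : ℝ) :
    ∃ K, LipschitzOnWith K Y (closedBall (0 : E) R) :=
  haveI : ProperSpace E := FiniteDimensional.proper_real E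
  (hY.locallyLipschitz.locallyLipschitzOn).exists_lipschitzOnWith_of_compact
    (isCompact_closedBall 0 R)

theorem fl1_uniq (hY : ContDiff ℝ 1 Y) {T : ℝ} {γ γ' : ℝ → E}
    (h : ∀ t ∈ Ioo (-T) T, HasDerivAt γ (Y (γ t)) t)
    (h' : ∀ t ∈ Ioo (-T) T, HasDerivAt γ' (Y (γ' t)) t) (h0 : γ 0 = γ' 0) :
    EqOn γ γ' (Ioo (-T) T) := by
  intro t ht
  have hlt : |t| < T := abs_lt.2 ht
  obtain ⟨S, hS1, hS2⟩ := exists_between hlt
  have hS0 : 0 < S := lt_of_le_of_lt (abs_nonneg t) hS1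
  have hsub : Icc (-S) S ⊆ Ioo (-T) T := fun u hu => ⟨by linarith [hu.1], by linarith [hu.2]⟩
  have hc : ContinuousOn γ (Icc (-S) S) := fun u hu =>
    (h u (hsub hu)).continuousAt.continuousWithinAt
  have hc' : ContinuousOn γ' (Icc (-S) S) := fun u hu =>
    (h' u (hsub hu)).continuousAt.continuousWithinAt
  obtain ⟨R, hR⟩ := isCompact_Icc.exists_bound_of_continuousOn hc
  obtain ⟨R', hR'⟩ := isCompact_Icc.exists_bound_of_continuousOn hc'
  obtain ⟨K, hK⟩ := fl1_lip hY (max R R')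
  have key : EqOn γ γ' (Ioo (-S) S) :=
    ODE_solution_unique_of_mem_Ioo (v := fun _ => Y) (s := fun _ => closedBall (0 : E) (max R R'))
      (K := K) (t₀ := 0) (fun _ _ => hK) ⟨by linarith, hS0⟩
      (fun u hu => ⟨h u (hsub (Ioo_subset_Icc_self hu)),
        mem_closedBall_zero_iff.2 ((hR u (Ioo_subset_Icc_self hu)).trans (le_max_left _ _))⟩)
      (fun u hu => ⟨h' u (hsub (Ioo_subset_Icc_self hu)),
        mem_closedBall_zero_iff.2 ((hR' u (Ioo_subset_Icc_self hu)).trans (le_max_right _ _))⟩)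
      h0
  exact key (abs_lt.1 hS1)

theorem ode_unique (hY : ContDiff ℝ 1 Y) {γ γ' : ℝ → E} (h : ∀ t, HasDerivAt γ (Y (γ t)) t)
    (h' : ∀ t, HasDerivAt γ' (Y (γ' t)) t) (h0 : γ 0 = γ' 0) : γ = γ' := by
  funext t
  exact fl1_uniq hY (T := |t| + 1) (fun u _ => h u) (fun u _ => h' u) h0
    (abs_lt.1 (lt_add_one _))

omit [FiniteDimensional ℝ E] in
theorem fl1_gron0 {C T : ℝ} (hC : 0 ≤ C) {γ v : ℝ → E}
    (h : ∀ t ∈ Ioo (-T) T, HasDerivAt γ (v t) t)
    (hv : ∀ t ∈ Ioo (-T) T, ‖v t‖ ≤ C * (‖γ t‖ + 1)) {r : ℝ} (hr : ‖γ 0‖ ≤ r) {t : ℝ}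
    (h0 : 0 ≤ t) (ht : t < T) : ‖γ t‖ ≤ gronwallBound r C C T := by
  have hsub : Icc 0 t ⊆ Ioo (-T) T := fun u hu => ⟨by linarith [hu.1], by linarith [hu.2]⟩
  have := norm_le_gronwallBound_of_norm_deriv_right_le (f := γ) (f' := v) (δ := r) (K := C)
    (ε := C) (a := 0) (b := t)
    (fun u hu => (h u (hsub hu)).continuousAt.continuousWithinAt)
    (fun u hu => (h u (hsub (Ico_subset_Icc_self hu))).hasDerivWithinAt) hr
    (fun u hu => by have := hv u (hsub (Ico_subset_Icc_self hu)); linarith) t ⟨h0, le_rfl⟩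
  refine this.trans (gronwallBound_mono ((norm_nonneg _).trans hr) hC hC ?_)
  linarith

omit [FiniteDimensional ℝ E] in
theorem fl1_gron {C T : ℝ} (hC : 0 ≤ C) {γ v : ℝ → E}
    (h : ∀ t ∈ Ioo (-T) T, HasDerivAt γ (v t) t)
    (hv : ∀ t ∈ Ioo (-T) T, ‖v t‖ ≤ C * (‖γ t‖ + 1)) {r : ℝ} (hr : ‖γ 0‖ ≤ r) {t : ℝ}
    (ht : t ∈ Ioo (-T) T) : ‖γ t‖ ≤ gronwallBound r C C T := by
  rcases le_total 0 t with h0 | h0
  · exact fl1_gron0 hC h hv hr h0 ht.2
  · have hm : ∀ u ∈ Ioo (-T) T, -u ∈ Ioo (-T) T := fun u hu =>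
      ⟨by linarith [hu.2], by linarith [hu.1]⟩
    have := fl1_gron0 (γ := fun u => γ (-u)) (v := fun u => -v (-u)) (T := T) (r := r) hC
      (fun u hu => by
        have := (h (-u) (hm u hu)).scomp u (hasDerivAt_neg u)
        simpa [Function.comp_def] using this)
      (fun u hu => by simpa using hv (-u) (hm u hu)) (by simpa using hr) (t := -t)
      (by linarith) (by linarith [ht.1])
    simpa using this

theorem fl1_local (hY : ContDiff ℝ 1 Y) {C : ℝ} (hC : ∀ x, ‖Y x‖ ≤ C * (‖x‖ + 1)) (r : ℝ≥0)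
    {T : ℝ} (hT : 0 < T) :
    ∃ α : E × ℝ → E, (∀ x ∈ closedBall (0 : E) r, α (x, 0) = x ∧
      ∀ t ∈ Ioo (-T) T, HasDerivAt (fun t => α (x, t)) (Y (α (x, t))) t) ∧
      ContinuousOn α (closedBall (0 : E) r ×ˢ Icc (-T) T) := by
  have : CompleteSpace E := FiniteDimensional.complete ℝ E
  have hC0 : 0 ≤ C := by
    have := hC 0
    simp only [norm_zero, zero_add, mul_one] at this
    exact (norm_nonneg _).trans this
  set R := max (gronwallBound r C C T) 1 with hR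
  have hR0 : 0 < R := lt_of_lt_of_le one_pos (le_max_right _ _)
  let χ : ContDiffBump (0 : E) := ⟨R, R + 1, hR0, lt_add_one R⟩
  let Z : E → E := fun x => χ x • Y x
  have hZc : HasCompactSupport Z := χ.hasCompactSupport.smul_right
  have hZd : ContDiff ℝ 1 Z := χ.contDiff.smul hY
  obtain ⟨K, hK⟩ := ContDiff.lipschitzWith_of_hasCompactSupport hZc hZd one_ne_zero
  obtain ⟨L, hL⟩ := hZc.exists_bound_of_continuous hZd.continuous
  have hL0 : 0 ≤ L := (norm_nonneg _).trans (hL 0)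
  have hZle : ∀ x, ‖Z x‖ ≤ C * (‖x‖ + 1) := fun x => by
    have h1 : ‖Z x‖ = χ x * ‖Y x‖ := by
      simp only [Z, norm_smul, Real.norm_eq_abs, abs_of_nonneg χ.nonneg]
    rw [h1]
    exact (mul_le_of_le_one_left (norm_nonneg _) χ.le_one).trans (hC x)
  have hZeq : ∀ x, ‖x‖ ≤ R → Z x = Y x := fun x hx => by
    have : χ x = 1 := χ.one_of_mem_closedBall (mem_closedBall_zero_iff.2 hx)
    simp only [Z, this, one_smul]
  have h0 : (0 : ℝ) ∈ Icc (-T) T := ⟨by linarith, hT.le⟩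
  have hpl : IsPicardLindelof (fun _ => Z) (⟨0, h0⟩ : Icc (-T) T) (0 : E)
      (r + ⟨L * T, mul_nonneg hL0 hT.le⟩) r ⟨L, hL0⟩ K :=
    { lipschitzOnWith := fun _ _ => hK.lipschitzOnWith
      continuousOn := fun _ _ => continuousOn_const
      norm_le := fun _ _ x _ => hL x
      mul_max_le := by
        show L * max (T - 0) (0 - -T) ≤ (r : ℝ) + L * T - r
        simp }
  obtain ⟨α, hα, hαc⟩ := hpl.exists_forall_mem_closedBall_eq_hasDerivWithinAt_continuousOn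
  refine ⟨α, fun x hx => ⟨(hα x hx).1, ?_⟩, hαc⟩
  have hd : ∀ t ∈ Ioo (-T) T, HasDerivAt (fun t => α (x, t)) (Z (α (x, t))) t := fun t ht =>
    ((hα x hx).2 t (Ioo_subset_Icc_self ht)).hasDerivAt (Icc_mem_nhds ht.1 ht.2)
  intro t ht
  have hb : ‖α (x, t)‖ ≤ gronwallBound r C C T :=
    fl1_gron (γ := fun t => α (x, t)) (v := fun t => Z (α (x, t))) hC0 hd
      (fun u _ => hZle _)
      (by
        have h1 : α (x, 0) = x := (hα x hx).1
        simp only [h1]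
        exact mem_closedBall_zero_iff.1 hx) ht
  have := hd t ht
  rwa [hZeq _ (hb.trans (le_max_left _ _))] at this

theorem exists_isFl (hY : ContDiff ℝ 1 Y) {C : ℝ} (hC : ∀ x, ‖Y x‖ ≤ C * (‖x‖ + 1)) :
    ∃ φ : Flow ℝ E, IsFl Y φ := by
  have H := fun n : ℕ => fl1_local hY hC (n : ℝ≥0) (T := (n : ℝ) + 1) (by positivity)
  choose α hα hαc using H
  let ψ : ℝ → E → E := fun t x => α ⌈‖x‖ + |t|⌉₊ (x, t)
  have hmem : ∀ (n : ℕ) (x : E), ‖x‖ ≤ n → x ∈ closedBall (0 : E) ((n : ℝ≥0) : ℝ) :=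
    fun n x hx => mem_closedBall_zero_iff.2 (by simpa using hx)
  have hag : ∀ (m n : ℕ) (x : E) (t : ℝ), m ≤ n → ‖x‖ ≤ m → |t| < m + 1 →
      α m (x, t) = α n (x, t) := by
    intro m n x t hmn hx ht
    have hmn' : (m : ℝ) ≤ n := by exact_mod_cast hmn
    have h1 := hα m x (hmem m x hx)
    have h2 := hα n x (hmem n x (hx.trans hmn'))
    exact fl1_uniq hY (T := (m : ℝ) + 1) (γ := fun t => α m (x, t)) (γ' := fun t => α n (x, t))
      h1.2 (fun u hu => h2.2 u ⟨by linarith [hu.1], by linarith [hu.2]⟩)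
      (h1.1.trans h2.1.symm) (abs_lt.1 ht)
  have hψ : ∀ (n : ℕ) (x : E) (t : ℝ), ‖x‖ + |t| ≤ n → ψ t x = α n (x, t) := by
    intro n x t h
    have h1 : ‖x‖ + |t| ≤ (⌈‖x‖ + |t|⌉₊ : ℝ) := Nat.le_ceil _
    exact hag _ n x t (Nat.ceil_le.2 h) (by linarith [abs_nonneg t])
      (by linarith [norm_nonneg x])
  have hψ0 : ∀ x, ψ 0 x = x := fun x => by
    have h1 : ‖x‖ + |(0 : ℝ)| ≤ (⌈‖x‖ + |(0 : ℝ)|⌉₊ : ℝ) := Nat.le_ceil _
    exact (hα _ x (hmem _ x (by linarith [abs_nonneg (0 : ℝ)]))).1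
  have hψd : ∀ x t, HasDerivAt (fun t => ψ t x) (Y (ψ t x)) t := by
    intro x t
    obtain ⟨n, hn⟩ := exists_nat_gt (‖x‖ + |t|)
    have hev : (fun u => ψ u x) =ᶠ[𝓝 t] fun u => α n (x, u) := by
      have : ∀ᶠ u in 𝓝 t, ‖x‖ + |u| < n :=
        (by fun_prop : Continuous fun u : ℝ => ‖x‖ + |u|).continuousAt.eventually_lt
          continuousAt_const hn
      exact this.mono fun u hu => hψ n x u hu.le
    rw [hψ n x t hn.le]
    refine HasDerivAt.congr_of_eventuallyEq ?_ hev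
    exact (hα n x (hmem n x (by linarith [abs_nonneg t]))).2 t
      (abs_lt.1 (by linarith [norm_nonneg x]))
  have hψc : Continuous (Function.uncurry ψ) := by
    rw [continuous_iff_continuousAt]
    rintro ⟨t, x⟩
    obtain ⟨n, hn⟩ := exists_nat_gt (‖x‖ + |t|)
    have hU : ∀ᶠ p : ℝ × E in 𝓝 (t, x), ‖p.2‖ + |p.1| < n :=
      (by fun_prop : Continuous fun p : ℝ × E => ‖p.2‖ + |p.1|).continuousAt.eventually_lt
        continuousAt_const hn
    have hev : Function.uncurry ψ =ᶠ[𝓝 (t, x)] fun p => α n (p.2, p.1) :=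
      hU.mono fun p hp => hψ n p.2 p.1 hp.le
    refine ContinuousAt.congr ?_ hev.symm
    have hn1 : closedBall (0 : E) ((n : ℝ≥0) : ℝ) ×ˢ Icc (-((n : ℝ) + 1)) ((n : ℝ) + 1) ∈
        𝓝 (x, t) := by
      have h1 : |t| < (n : ℝ) + 1 := by linarith [norm_nonneg x]
      refine prod_mem_nhds (closedBall_mem_nhds_of_mem ?_)
        (Icc_mem_nhds (abs_lt.1 h1).1 (abs_lt.1 h1).2)
      rw [mem_ball_zero_iff]
      have : ‖x‖ < n := by linarith [abs_nonneg t]
      simpa using this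
    exact ContinuousAt.comp (f := fun p : ℝ × E => (p.2, p.1)) (x := (t, x))
      ((hαc n).continuousAt hn1) (by fun_prop)
  have hadd : ∀ t₁ t₂ x, ψ (t₁ + t₂) x = ψ t₁ (ψ t₂ x) := by
    intro t₁ t₂ x
    have := ode_unique hY (γ := fun t => ψ (t + t₂) x) (γ' := fun t => ψ t (ψ t₂ x))
      (fun t => (hψd x (t + t₂)).comp_add_const t t₂) (fun t => hψd _ t)
      (by simp only [zero_add, hψ0])
    exact congrFun this t₁
  exact ⟨⟨ψ, hψc, hadd, hψ0⟩, hψd⟩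

end Pool.Agent.Lib.MP_a52643_an
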