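import Pool.Agent.Lib.MP_a52643_an.VC.CIb
import Pool.Agent.Lib.MP_a52643_an.VC.Flow1

/-!
The geodesic flow of the conformal metric and its symmetries.
-/

open Complex MeasureTheory Set Filter Topology Asymptotics Metric
open scoped ComplexConjugate ContDiff ENNReal Laplacian

noncomputable section

namespace Pool.Agent.Lib.MP_a52643_an

variable {Γ : Type*} {l : Γ → SL2} {ℓ : ℂ → ℝ} {φ : Flow ℝ V}

lemma dt_iv (g : SL2) : dt (iv g) = 1 := by
  have h := det_eq g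
  simp [dt_eq, iv]
  linarith

lemma iv_mem (g : SL2) : iv g ∈ Om := by
  change 0 < dt (iv g)
  rw [dt_iv]
  exact one_pos

lemma nG_iv (g : SL2) : nG (iv g) = g := by
  obtain ⟨f1, f2, f3, f4⟩ := nG_ent (iv_mem g)
  rw [dt_iv, Real.sqrt_one, div_one] at f1 f2 f3 f4
  apply SL2_ext
  · rw [f1]; simp [iv]
  · rw [f2]; simp [iv]
  · rw [f3]; simp [iv]
  · rw [f4]; simp [iv]

lemma iv_nG {v : V} (hv : v ∈ Om) : iv (nG v) = (√(dt v))⁻¹ • v := by
  obtain ⟨f1, f2, f3, f4⟩ := nG_ent hv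
  rw [iv, f1, f2, f3, f4]
  generalize √(dt v) = r
  refine Prod.ext (Complex.ext ?_ ?_) (Complex.ext ?_ ?_) <;>
    simp only [Prod.smul_fst, Prod.smul_snd, add_re, add_im, mul_re, mul_im, ofReal_re, ofReal_im,
      I_re, I_im, smul_re, smul_im, smul_eq_mul] <;> ring

lemma iv_mul (g h : SL2) : iv (g * h) = LG g (iv h) := by
  refine Prod.ext ?_ ?_ <;> simp [iv, LG] <;> ring

lemma iv_m1 (h : SL2) : iv (h * m1) = -iv h := by
  refine Prod.ext ?_ ?_ <;> simp [iv, m1] <;> ring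

lemma iv_w0 (h : SL2) : iv (h * w0) = (-I) • iv h := by
  refine Prod.ext (Complex.ext ?_ ?_) (Complex.ext ?_ ?_) <;> simp [iv, w0]

lemma measurable_iv : Measurable iv := by
  unfold iv
  fun_prop

lemma pr_iv (g : SL2) : pr (iv g) = bp g := by
  rw [← coe_bp_nG (iv_mem g), nG_iv]

lemma measurable_comp_iv {E : Type*} [TopologicalSpace E] [MeasurableSpace E] [BorelSpace E]
    {f : V → E} (hf : ContinuousOn f Om) : Measurable fun g => f (iv g) := by
  have h1 : Measurable (Om.domRestrict f) :=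
    (continuousOn_iff_continuous_domRestrict.1 hf).measurable
  exact h1.comp (measurable_iv.subtype_mk (h := iv_mem))

lemma fld_zero {v : V} (hv : dt v ≤ 1 / 4) : XV ℓ v = 0 := by
  rw [XV, Real.smoothTransition.zero_of_nonpos (by linarith), zero_mul, zero_smul]

lemma fld_out {v : V} (hv : v ∉ Om) : XV ℓ v = 0 :=
  fld_zero ((not_lt.1 hv).trans (by norm_num))

lemma cd_XV (hs : ContDiffOn ℝ ∞ ℓ UH) : ContDiff ℝ 1 (XV ℓ) := by
  refine contDiff_iff_contDiffAt.2 fun v => ?_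
  by_cases hv : v ∈ Om
  · refine ContDiffOn.contDiffAt (s := Om) ?_ (isOpen_Om.mem_nhds hv)
    have h1 : ContDiff ℝ 1 fun v : V => Real.smoothTransition (4 * dt v - 1) :=
      Real.smoothTransition.contDiff.comp ((contDiff_const.mul contDiff_dt).sub contDiff_const)
    have h2 : ContDiffOn ℝ 1 (fun v => (2 * sV ℓ v)⁻¹) Om :=
      (contDiffOn_const.mul ((cd_sV hs).of_le (by simp))).inv fun v _ =>
        (mul_pos two_pos (sV_pos v)).ne'
    have h3 : ContDiffOn ℝ 1 (fun v => (AV ℓ v).im) Om :=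
      imCLM.contDiff.comp_contDiffOn ((cd_AV hs).of_le (by simp))
    have h4 : ContDiffOn ℝ 1 (YV ℓ) Om :=
      cj.contDiff.neg.contDiffOn.add (h3.smul (contDiff_id.const_smul I).contDiffOn)
    exact (h1.contDiffOn.mul h2).smul h4
  · have h1 : dt v < 1 / 4 := lt_of_le_of_lt (not_lt.1 hv) (by norm_num)
    refine (contDiffAt_const (c := (0 : V))).congr_of_eventuallyEq ?_
    filter_upwards [(isOpen_lt continuous_dt continuous_const).mem_nhds h1] with w hw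
    exact fld_zero (le_of_lt hw)

lemma XV_eq {v : V} (hv : 1 / 2 ≤ dt v) : XV ℓ v = (2 * sV ℓ v)⁻¹ • YV ℓ v := by
  rw [XV, Real.smoothTransition.one_of_one_le (by linarith), one_mul]

theorem CG.exists_fl (h : CG l ℓ) : ∃ φ : Flow ℝ V, IsFl (XV ℓ) φ := by
  obtain ⟨C, hC, hb⟩ := h.s_bd
  refine exists_isFl (cd_XV h.sm) (C := C * (1 + C)) fun v => ?_
  by_cases hv : v ∈ Om
  · obtain ⟨-, h1, h2⟩ := hb v hv
    have h3 : ‖cj v‖ = ‖v‖ := by simp [Prod.norm_def]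
    have h4 : ‖YV ℓ v‖ ≤ (1 + C) * ‖v‖ := by
      refine (norm_add_le _ _).trans ?_
      rw [norm_neg, h3, norm_smul, norm_smul, norm_I, one_mul, add_mul, one_mul]
      have h5 : ‖(AV ℓ v).im‖ ≤ C := (abs_im_le_norm _).trans h2
      gcongr
    have h5 := sV_pos (ℓ := ℓ) v
    have h6 : ‖Real.smoothTransition (4 * dt v - 1) * (2 * sV ℓ v)⁻¹‖ ≤ C := by
      have h7 := Real.smoothTransition.nonneg (4 * dt v - 1)
      have h8 := Real.smoothTransition.le_one (4 * dt v - 1)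
      have h9 : (2 * sV ℓ v)⁻¹ ≤ (sV ℓ v)⁻¹ := inv_anti₀ h5 (by linarith)
      rw [Real.norm_of_nonneg (by positivity)]
      exact (mul_le_of_le_one_left (by positivity) h8).trans (h9.trans h1)
    rw [XV, norm_smul, mul_assoc]
    refine mul_le_mul h6 (h4.trans ?_) (norm_nonneg _) (by linarith)
    gcongr
    linarith
  · rw [fld_out hv, norm_zero]
    positivity

lemma IsFl.dt_eq (hφ : IsFl (XV ℓ) φ) (t : ℝ) (v : V) : dt (φ t v) = dt v := by
  have h1 : ∀ t, HasDerivAt (fun t => dt (φ t v)) 0 t := by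
    intro t
    have h := hφ v t
    have a1 := (imCLM.comp (ContinuousLinearMap.fst ℝ ℂ ℂ)).hasFDerivAt.comp_hasDerivAt t h
    have a2 := (reCLM.comp (ContinuousLinearMap.snd ℝ ℂ ℂ)).hasFDerivAt.comp_hasDerivAt t h
    have a3 := (reCLM.comp (ContinuousLinearMap.fst ℝ ℂ ℂ)).hasFDerivAt.comp_hasDerivAt t h
    have a4 := (imCLM.comp (ContinuousLinearMap.snd ℝ ℂ ℂ)).hasFDerivAt.comp_hasDerivAt t h
    have a5 := (a1.mul a2).sub (a3.mul a4)
    have e : (fun t => dt (φ t v)) =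
        fun t => (φ t v).1.im * (φ t v).2.re - (φ t v).1.re * (φ t v).2.im :=
      funext fun t => MP_a52643_an.dt_eq _
    rw [e]
    refine a5.congr_deriv ?_
    simp [XV, YV]
    ring
  have h2 := is_const_of_deriv_eq_zero (fun t => (h1 t).differentiableAt) (fun t => (h1 t).deriv) t 0
  rwa [φ.map_zero_apply] at h2

lemma IsFl.fld_mem (hφ : IsFl (XV ℓ) φ) (t : ℝ) (h : SL2) : φ t (iv h) ∈ Om := by
  change 0 < dt _
  rw [hφ.dt_eq, dt_iv]
  exact one_pos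

lemma IsFl.fld_sym (hφ : IsFl (XV ℓ) φ) (hs : ContDiffOn ℝ ∞ ℓ UH) (L : V →L[ℝ] V) (ε : ℝ) (v : V)
    (h : ∀ w, dt w = dt v → XV ℓ (L w) = ε • L (XV ℓ w)) (t : ℝ) :
    φ t (L v) = L (φ (ε * t) v) := by
  have h1 : ∀ t, HasDerivAt (fun t => L (φ (ε * t) v)) (XV ℓ (L (φ (ε * t) v))) t := by
    intro t
    have h2 := (hφ v (ε * t)).scomp t ((hasDerivAt_id t).const_mul ε)
    have h3 := L.hasFDerivAt.comp_hasDerivAt t h2
    rw [h _ (hφ.dt_eq _ v)]
    refine h3.congr_deriv ?_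
    rw [mul_one, map_smul]
  exact congrFun (ode_unique (cd_XV hs) (hφ (L v)) h1
    (by simp only [mul_zero, φ.map_zero_apply])) t

lemma IsFl.iv_gS (hφ : IsFl (XV ℓ) φ) (t : ℝ) (h : SL2) : iv (gS φ t h) = φ t (iv h) := by
  rw [gS, iv_nG (hφ.fld_mem t h), hφ.dt_eq, dt_iv, Real.sqrt_one, inv_one, one_smul]

lemma gS_zero (φ : Flow ℝ V) (h : SL2) : gS φ 0 h = h := by
  rw [gS, φ.map_zero_apply, nG_iv]

lemma IsFl.gS_add (hφ : IsFl (XV ℓ) φ) (s t : ℝ) (h : SL2) :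
    gS φ (s + t) h = gS φ s (gS φ t h) := by
  rw [gS, gS, hφ.iv_gS, φ.map_add]

lemma measurable_gS (φ : Flow ℝ V) : Measurable fun p : ℝ × SL2 => gS φ p.1 p.2 := by
  exact measurable_nG.comp (φ.cont'.measurable.comp
    (measurable_fst.prodMk (measurable_iv.comp measurable_snd)))

lemma IsFl.gS_left (hφ : IsFl (XV ℓ) φ) (hG : CG l ℓ) (γ : Γ) (t : ℝ) (h : SL2) :
    gS φ t (l γ * h) = l γ * gS φ t h := by
  have h1 := hφ.fld_sym hG.sm (LG (l γ)) 1 (iv h) (fun w hw => ?_) t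
  · rw [gS, iv_mul, h1, one_mul]
    exact nG_Lg _ (hφ.fld_mem t h)
  · have hw' : w ∈ Om := by
      change 0 < dt w
      rw [hw, dt_iv]
      exact one_pos
    have e1 : dt (LG (l γ) w) = dt w := by rw [LG, dt_Lg, det_eq, one_mul]
    have e2 : sV ℓ (LG (l γ) w) = sV ℓ w := by exact_mod_cast hG.ci_s.inv γ w hw'
    have e3 : AV ℓ (LG (l γ) w) = AV ℓ w := hG.ci_A.inv γ w hw'
    have e4 : cj (LG (l γ) w) = LG (l γ) (cj w) := by ext <;> simp [LG]
    have e5 : I • LG (l γ) w = LG (l γ) (I • w) := by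
      rw [LG]
      ext <;> simp only [Lg_apply, Prod.smul_fst, Prod.smul_snd, smul_eq_mul] <;> ring
    rw [one_smul, XV, XV, YV, YV, e1, e2, e3, e4, e5, (LG (l γ)).map_smul, map_add, map_neg,
      (LG (l γ)).map_smul]

/-- Complex scalar multiplication as a real linear map. -/
def fld_sm (c : ℂ) : V →L[ℝ] V := c • ContinuousLinearMap.id ℝ V

lemma fld_sm_apply (c : ℂ) (w : V) : fld_sm c w = c • w := rfl

lemma fld_Y (hs : ContDiffOn ℝ ∞ ℓ UH) {c : ℂ} (hc : c ≠ 0) {w : V} (hw : w ∈ Om) :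
    YV ℓ (c • w) = -(conj c • cj w) + (conj c / c * AV ℓ w).im • I • c • w := by
  have e : cj (c • w) = conj c • cj w := by ext <;> simp
  rw [YV, hom_AV hs c hc w hw, zpow_one, e]

lemma fld_smul (hs : ContDiffOn ℝ ∞ ℓ UH) {c : ℂ} (hc : c ≠ 0) {w : V} (hw : w ∈ Om)
    (h1 : normSq c = 1) : XV ℓ (c • w) = (Real.smoothTransition (4 * dt w - 1) * (2 * sV ℓ w)⁻¹) •
      (-(conj c • cj w) + (conj c / c * AV ℓ w).im • I • c • w) := by
  rw [XV, fld_Y hs hc hw, dt_smul, h1, one_mul, sV_smul hc]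

lemma IsFl.gS_m1 (hφ : IsFl (XV ℓ) φ) (hs : ContDiffOn ℝ ∞ ℓ UH) (t : ℝ) (h : SL2) :
    gS φ t (h * m1) = gS φ t h * m1 := by
  have h1 := hφ.fld_sym hs (fld_sm (-1)) 1 (iv h) (fun w hw => ?_) t
  · have e : ∀ w : V, fld_sm (-1) w = -w := fun w => neg_one_smul ℂ w
    rw [e, e, one_mul, ← hφ.iv_gS, ← iv_m1, ← iv_m1] at h1
    rw [gS, h1, nG_iv]
  · have hw' : w ∈ Om := by
      change 0 < dt w
      rw [hw, dt_iv]
      exact one_pos
    rw [fld_sm_apply, fld_sm_apply, fld_smul hs (by simp) hw' (by simp), XV, YV]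
    ext <;> simp

lemma IsFl.gS_w0 (hφ : IsFl (XV ℓ) φ) (hs : ContDiffOn ℝ ∞ ℓ UH) (t : ℝ) (h : SL2) :
    gS φ t (h * w0) = gS φ (-t) h * w0 := by
  have h1 := hφ.fld_sym hs (fld_sm (-I)) (-1) (iv h) (fun w hw => ?_) t
  · rw [fld_sm_apply, fld_sm_apply, neg_one_mul, ← hφ.iv_gS (-t), ← iv_w0, ← iv_w0] at h1
    rw [gS, h1, nG_iv]
  · have hw' : w ∈ Om := by
      change 0 < dt w
      rw [hw, dt_iv]
      exact one_pos
    have e : conj (-I) / (-I) = -1 := by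
      rw [map_neg, conj_I, neg_neg, div_neg, div_self I_ne_zero]
    rw [fld_sm_apply, fld_sm_apply, fld_smul hs (by simp) hw' (by simp), XV, YV, e]
    ext <;> simp <;> ring

lemma IsFl.nG_fl (hφ : IsFl (XV ℓ) φ) (hs : ContDiffOn ℝ ∞ ℓ UH) (t : ℝ) {v : V}
    (hv : v ∈ cslab) : nG (φ t v) = gS φ t (nG v) := by
  have h0 : 0 < dt v := lt_of_lt_of_le one_pos hv.1
  have hr : 0 < (√(dt v))⁻¹ := inv_pos.2 (Real.sqrt_pos.2 h0)
  have hc : (((√(dt v))⁻¹ : ℝ) : ℂ) ≠ 0 := ofReal_ne_zero.2 hr.ne'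
  have e : ∀ w : V, fld_sm (((√(dt v))⁻¹ : ℝ) : ℂ) w = (√(dt v))⁻¹ • w := fun w => coe_smul _ w
  have h1 := hφ.fld_sym hs (fld_sm (((√(dt v))⁻¹ : ℝ) : ℂ)) 1 v (fun w hw => ?_) t
  · have h2 : φ t v ∈ Om := by
      change 0 < dt _
      rwa [hφ.dt_eq]
    rw [e, e, one_mul] at h1
    rw [gS, iv_nG h0, h1, ← hφ.dt_eq t v, ← iv_nG h2, nG_iv]
  · have hw' : w ∈ Om := by
      change 0 < dt w
      rwa [hw]
    have h2 : dt ((((√(dt v))⁻¹ : ℝ) : ℂ) • w) = 1 := by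
      rw [dt_smul, normSq_ofReal, hw, ← mul_inv, Real.mul_self_sqrt h0.le, inv_mul_cancel₀ h0.ne']
    have h3 : 1 / 2 ≤ dt w := by
      rw [hw]
      linarith [hv.1]
    rw [fld_sm_apply, fld_sm_apply, XV_eq h3, XV_eq (by rw [h2]; norm_num), fld_Y hs hc hw',
      sV_smul hc, conj_ofReal, div_self hc, one_mul, YV]
    generalize (((√(dt v))⁻¹ : ℝ) : ℂ) = c
    ext <;> simp <;> ring

lemma IsFl.hasDeriv_iv (hφ : IsFl (XV ℓ) φ) (h : SL2) :
    HasDerivAt (fun t => iv (gS φ t h)) ((2 * sV ℓ (iv h))⁻¹ • YV ℓ (iv h)) 0 := by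
  have h1 := hφ (iv h) 0
  rw [φ.map_zero_apply, XV_eq (by rw [dt_iv]; norm_num)] at h1
  simpa only [hφ.iv_gS] using h1

lemma IsFl.cont_iv (hφ : IsFl (XV ℓ) φ) (h : SL2) : Continuous fun t => iv (gS φ t h) := by
  simp only [hφ.iv_gS]
  exact φ.continuous continuous_id continuous_const

end Pool.Agent.Lib.MP_a52643_an
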