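import Pool.Agent.Lib.MP_a52643_an.VC.PreL

/-!
Construction of the approximate ladder of an eigenfunction.
-/

open Complex MeasureTheory Set Filter Topology Asymptotics Metric
open scoped ComplexConjugate ContDiff ENNReal Laplacian

noncomputable section

namespace Pool.Agent.Lib.MP_a52643_an

variable {ℓ : ℂ → ℝ}

lemma lad_add {F G : V → ℂ} {v : V} {a b c d : ℂ} (h : HasE F v a b) (h' : HasE G v c d) :
    HasE (fun w => F w + G w) v (a + c) (b + d) :=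
  ⟨h.diff.add h'.diff, by rw [Ep_add h.diff h'.diff, h.ep, h'.ep],
    by rw [Em_add h.diff h'.diff, h.em, h'.em]⟩

lemma lad_cmul (k : ℂ) {F : V → ℂ} {v : V} {a b : ℂ} (h : HasE F v a b) :
    HasE (fun w => k * F w) v (k * a) (k * b) :=
  ⟨h.diff.const_mul k, by rw [Ep_const_mul _ h.diff, h.ep], by rw [Em_const_mul _ h.diff, h.em]⟩

lemma lad_sub {F G : V → ℂ} {v : V} {a b c d : ℂ} (h : HasE F v a b) (h' : HasE G v c d) :
    HasE (fun w => F w - G w) v (a - c) (b - d) := by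
  simpa only [neg_one_mul, ← sub_eq_add_neg] using lad_add h (lad_cmul (-1) h')

lemma lad_has {F : V → ℂ} (hF : ContDiffOn ℝ ∞ F Om) {v : V} (hv : v ∈ Om) :
    HasE F v (Ep F v) (Em F v) := .of_diff (diffAt_of_Om hF (by simp) hv)

/-- the upper half of the ladder -/
def ladU (ℓ : ℂ → ℝ) (m : ℝ) (F : V → ℂ) : ℕ → V → ℂ
  | 0 => F
  | n + 1 => fun v => (I * m)⁻¹ * ((sV ℓ v : ℂ)⁻¹ *
      (Ep (ladU ℓ m F n) v - n * (AV ℓ v * ladU ℓ m F n v)))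

variable {m : ℝ} {F : V → ℂ}

lemma ladU_smooth (hs : ContDiffOn ℝ ∞ ℓ UH) (hF : ContDiffOn ℝ ∞ F Om) (n : ℕ) :
    ContDiffOn ℝ ∞ (ladU ℓ m F n) Om := by
  induction n with
  | zero => exact hF
  | succ n ih =>
    exact contDiffOn_const.mul ((cd_sC_inv hs).mul ((contDiffOn_Ep (n := ∞) ih).sub
      (contDiffOn_const.mul ((cd_AV hs).mul ih))))

lemma ladU_hom (hs : ContDiffOn ℝ ∞ ℓ UH) (hF : ContDiffOn ℝ ∞ F Om) (h : Hom 0 F) (n : ℕ) :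
    Hom n (ladU ℓ m F n) := by
  induction n with
  | zero => exact h
  | succ n ih =>
    have h1 := ih.Ep ((ladU_smooth hs hF n).of_le (by simp))
    have h2 := (hom_AV hs).mul ih
    intro c hc v hv
    have h3 := h2 c hc v hv
    simp only [ladU, h1 c hc v hv, sV_smul hc] at h3 ⊢
    rw [h3, add_comm (1 : ℤ)]; push_cast; ring

lemma ladU_inv (hs : ContDiffOn ℝ ∞ ℓ UH) (hF : ContDiffOn ℝ ∞ F Om) {a b c d : ℝ}
    (hd : a * d - b * c = 1) (hl : Inv a b c d (lV ℓ)) (h : Inv a b c d F) (n : ℕ) :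
    Inv a b c d (ladU ℓ m F n) := by
  induction n with
  | zero => exact h
  | succ n ih =>
    intro v hv
    have hA : AV ℓ (Lg a b c d v) = AV ℓ v := hl.Ep hd ((cd_lV hs).of_le (by simp)) v hv
    simp only [ladU, ih.Ep hd ((ladU_smooth hs hF n).of_le (by simp)) v hv, ih v hv, hA, sC_eq,
      hl v hv]

lemma lad_Im (hm : m ≠ 0) : I * m ≠ 0 := mul_ne_zero I_ne_zero (by exact_mod_cast hm)

lemma ladU_up (hm : m ≠ 0) (n : ℕ) (v : V) : Ep (ladU ℓ m F n) v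
    = I * m * sV ℓ v * ladU ℓ m F (n + 1) v + n * AV ℓ v * ladU ℓ m F n v := by
  have h1 := mul_inv_cancel₀ (lad_Im hm)
  have h2 := mul_inv_cancel₀ (sC_ne (ℓ := ℓ) v)
  simp only [ladU]
  linear_combination (-(Ep (ladU ℓ m F n) v - n * (AV ℓ v * ladU ℓ m F n v))) * h2
    - sV ℓ v * (sV ℓ v : ℂ)⁻¹ * (Ep (ladU ℓ m F n) v - n * (AV ℓ v * ladU ℓ m F n v)) * h1

/-- normalised error of the lowering relation -/
def ladR (ℓ : ℂ → ℝ) (m : ℝ) (F : V → ℂ) (n : ℕ) (v : V) : ℂ :=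
  (sV ℓ v : ℂ)⁻¹ * (Em (ladU ℓ m F (n + 1)) v + (n + 1) * (conj (AV ℓ v) * ladU ℓ m F (n + 1) v))
    - I * m * ladU ℓ m F n v

lemma ladR_zero (hs : ContDiffOn ℝ ∞ ℓ UH) (hm : m ≠ 0) (hF : ContDiffOn ℝ ∞ F Om)
    (hC : ∀ v ∈ Om, Em (Ep F) v = -(m ^ 2 * sV ℓ v ^ 2) * F v) {v : V} (hv : v ∈ Om) :
    ladR ℓ m F 0 v = 0 := by
  have h1 := lad_Im hm
  have h2 := sC_ne (ℓ := ℓ) v
  have e := (lad_cmul (I * m)⁻¹ ((hasE_sC_inv hs hv).mul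
    (lad_has (contDiffOn_Ep (n := ∞) hF) hv))).em
  have e0 : ladU ℓ m F 1 = fun w => (I * m)⁻¹ * ((sV ℓ w : ℂ)⁻¹ * Ep F w) := by
    ext w; simp [ladU]
  have h0 : (m : ℂ) ≠ 0 := by exact_mod_cast hm
  rw [ladR, zero_add, e0, e, hC v hv]
  simp only [ladU, Nat.cast_zero]
  field_simp
  linear_combination (-(m : ℂ) ^ 2 * sV ℓ v ^ 2 * F v) * I_mul_I

lemma ladR_succ (hs : ContDiffOn ℝ ∞ ℓ UH) (hm : m ≠ 0) (hF : ContDiffOn ℝ ∞ F Om) (h : Hom 0 F)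
    (n : ℕ) {v : V} (hv : v ∈ Om) : ladR ℓ m F (n + 1) v
      = (I * m)⁻¹ * ((sV ℓ v : ℂ)⁻¹ * (Ep (ladR ℓ m F n) v - n * (AV ℓ v * ladR ℓ m F n v)))
        + (I * m)⁻¹ * (-2 * (n + 1) * (1 + Em (AV ℓ) v) * (sV ℓ v : ℂ)⁻¹ ^ 2
          * ladU ℓ m F (n + 1) v) := by
  have h1 := lad_Im hm
  have h2 := sC_ne (ℓ := ℓ) v
  have sG := ladU_smooth (m := m) hs hF (n + 1)
  have hG := lad_has sG hv
  have hA := lad_has (cd_AV hs) hv
  have c2 : ContDiffAt ℝ 2 (ladU ℓ m F (n + 1)) v :=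
    (sG.contDiffAt (isOpen_Om.mem_nhds hv)).of_le two_le_infty
  have e := Ep_Em_sub c2
  rw [(ladU_hom hs hF h (n + 1)).fderiv_I hv hG.diff] at e
  have e1 : Em (ladU ℓ m F (n + 1 + 1)) v = _ := (lad_cmul (I * m)⁻¹ ((hasE_sC_inv hs hv).mul
    (lad_sub (lad_has (contDiffOn_Ep (n := ∞) sG) hv) (lad_cmul ((n + 1 : ℕ) : ℂ) (hA.mul hG))))).em
  have e2 : Ep (ladR ℓ m F n) v = _ := (lad_sub ((hasE_sC_inv hs hv).mul
    (lad_add (lad_has (contDiffOn_Em (n := ∞) sG) hv) (lad_cmul ((n : ℂ) + 1) (hA.conj.mul hG))))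
    (lad_cmul (I * m) (lad_has (ladU_smooth hs hF n) hv))).ep
  have e3 : conj (Em (AV ℓ) v) = Em (AV ℓ) v := by rw [Em_AV hs hv, conj_ofReal]
  have e4 : ladU ℓ m F (n + 1 + 1) v = (I * m)⁻¹ * ((sV ℓ v : ℂ)⁻¹ * (Ep (ladU ℓ m F (n + 1)) v
    - (n + 1 : ℕ) * (AV ℓ v * ladU ℓ m F (n + 1) v))) := rfl
  have e5 : Ep (Em (ladU ℓ m F (n + 1))) v = Em (Ep (ladU ℓ m F (n + 1))) v
      + 2 * (n + 1) * ladU ℓ m F (n + 1) v := by
    push_cast at e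
    linear_combination e - (2 * (n + 1) * ladU ℓ m F (n + 1) v) * I_mul_I
  rw [e2, ladR, ladR, e1, e4, e3, e5, ladU_up hm n]
  push_cast
  field_simp
  ring

/-- sums of lower order terms -/
inductive LadSp (ℓ : ℂ → ℝ) (n : ℕ) : (ℝ → (V → ℂ) → V → ℂ) → Prop
  | term (k j : ℕ) (c : V → ℂ) (hj : j ≤ n) (hc : ContDiffOn ℝ ∞ c Om) :
      LadSp ℓ n fun m F v => (I * m)⁻¹ ^ (k + 1) * (c v * ladU ℓ m F j v)
  | add {R R' : ℝ → (V → ℂ) → V → ℂ} (h : LadSp ℓ n R) (h' : LadSp ℓ n R') :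
      LadSp ℓ n fun m F v => R m F v + R' m F v

lemma LadSp.smooth {n : ℕ} {R : ℝ → (V → ℂ) → V → ℂ} (h : LadSp ℓ n R)
    (hs : ContDiffOn ℝ ∞ ℓ UH) (hF : ContDiffOn ℝ ∞ F Om) : ContDiffOn ℝ ∞ (R m F) Om := by
  induction h with
  | term k j c hj hc => exact contDiffOn_const.mul (hc.mul (ladU_smooth hs hF j))
  | add _ _ ih ih' => exact ih.add ih'

lemma LadSp.bound {n : ℕ} {R : ℝ → (V → ℂ) → V → ℂ} (h : LadSp ℓ n R) : ∃ C : V → ℝ,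
    ContinuousOn C Om ∧ (∀ v, 0 ≤ C v) ∧ ∀ m : ℝ, 1 ≤ m → ∀ F v,
      m * ‖R m F v‖ ≤ C v * ∑ k ∈ Finset.range (n + 1), ‖ladU ℓ m F k v‖ := by
  induction h with
  | term k j c hj hc =>
    refine ⟨fun v => ‖c v‖, hc.continuousOn.norm, fun v => norm_nonneg _, fun m hm F v => ?_⟩
    have h0 : 0 < m := by linarith
    have h1 : ‖(I * m)⁻¹ ^ (k + 1)‖ = m⁻¹ * m⁻¹ ^ k := by
      simp [abs_of_pos h0, pow_succ']
    have h2 : m⁻¹ ^ k ≤ 1 := pow_le_one₀ (by positivity) (inv_le_one_of_one_le₀ hm)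
    have h3 : ‖ladU ℓ m F j v‖ ≤ ∑ k ∈ Finset.range (n + 1), ‖ladU ℓ m F k v‖ :=
      Finset.single_le_sum (f := fun k => ‖ladU ℓ m F k v‖) (fun _ _ => norm_nonneg _)
        (Finset.mem_range.2 (Nat.lt_succ_of_le hj))
    rw [norm_mul, h1, norm_mul, ← mul_assoc, ← mul_assoc m, mul_inv_cancel₀ h0.ne', one_mul]
    calc _ ≤ 1 * (‖c v‖ * ‖ladU ℓ m F j v‖) := by gcongr
      _ ≤ _ := by rw [one_mul]; gcongr
  | add _ _ ih ih' =>
    obtain ⟨C, c1, c2, c3⟩ := ih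
    obtain ⟨C', d1, d2, d3⟩ := ih'
    refine ⟨fun v => C v + C' v, c1.add d1, fun v => add_nonneg (c2 v) (d2 v), fun m hm F v => ?_⟩
    rw [add_mul]
    refine le_trans ?_ (add_le_add (c3 m hm F v) (d3 m hm F v))
    rw [← mul_add]
    exact mul_le_mul_of_nonneg_left (norm_add_le _ _) (by linarith)

lemma LadSp.step {n : ℕ} {R : ℝ → (V → ℂ) → V → ℂ} (h : LadSp ℓ n R) (hs : ContDiffOn ℝ ∞ ℓ UH)
    (a : ℂ) : ∃ R', LadSp ℓ (n + 1) R' ∧ ∀ m : ℝ, m ≠ 0 → ∀ F, ContDiffOn ℝ ∞ F Om → ∀ v ∈ Om,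
      (I * m)⁻¹ * ((sV ℓ v : ℂ)⁻¹ * (Ep (R m F) v - a * (AV ℓ v * R m F v))) = R' m F v := by
  induction h with
  | term k j c hj hc =>
    refine ⟨_, .add (.term (k + 1) j (fun v => (sV ℓ v : ℂ)⁻¹ * (Ep c v + (j - a) * (AV ℓ v * c v)))
      (by omega) ((cd_sC_inv hs).mul ((contDiffOn_Ep (n := ∞) hc).add
        (contDiffOn_const.mul ((cd_AV hs).mul hc))))) (.term k (j + 1) c (by omega) hc),
      fun m hm F hF v hv => ?_⟩
    have h1 := mul_inv_cancel₀ (lad_Im hm)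
    have h2 := mul_inv_cancel₀ (sC_ne (ℓ := ℓ) v)
    rw [(lad_cmul _ ((lad_has hc hv).mul (lad_has (ladU_smooth hs hF j) hv))).ep, ladU_up hm]
    linear_combination (I * m)⁻¹ ^ (k + 1) * c v * ladU ℓ m F (j + 1) v * h2
      + (I * m)⁻¹ ^ (k + 1) * c v * ladU ℓ m F (j + 1) v * (sV ℓ v * (sV ℓ v : ℂ)⁻¹) * h1
  | add h h' ih ih' =>
    obtain ⟨S, s1, s2⟩ := ih
    obtain ⟨S', t1, t2⟩ := ih'
    refine ⟨_, s1.add t1, fun m hm F hF v hv => ?_⟩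
    rw [(lad_add (lad_has (h.smooth hs hF) hv) (lad_has (h'.smooth hs hF) hv)).ep,
      ← s2 m hm F hF v hv, ← t2 m hm F hF v hv]
    ring

lemma lad_sp (hs : ContDiffOn ℝ ∞ ℓ UH) (n : ℕ) : ∃ R, LadSp ℓ n R ∧ ∀ m : ℝ, m ≠ 0 → ∀ F,
    ContDiffOn ℝ ∞ F Om → Hom 0 F → (∀ v ∈ Om, Em (Ep F) v = -(m ^ 2 * sV ℓ v ^ 2) * F v) →
      ∀ v ∈ Om, ladR ℓ m F n v = R m F v := by
  induction n with
  | zero =>
    exact ⟨_, .term 0 0 (fun _ => 0) le_rfl contDiffOn_const, fun m hm F hF _ hC v hv => by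
      simp [ladR_zero hs hm hF hC hv]⟩
  | succ n ih =>
    obtain ⟨R, r1, r2⟩ := ih
    obtain ⟨S, s1, s2⟩ := r1.step hs n
    refine ⟨_, s1.add (.term 0 (n + 1)
      (fun v => -2 * (n + 1) * (1 + Em (AV ℓ) v) * (sV ℓ v : ℂ)⁻¹ ^ 2) le_rfl
      ((contDiffOn_const.mul (contDiffOn_const.add (contDiffOn_Em (n := ∞) (cd_AV hs)))).mul
        ((cd_sC_inv hs).pow 2))), fun m hm F hF h hC v hv => ?_⟩
    rw [ladR_succ hs hm hF h n hv, Ep_congr_Om hv (r2 m hm F hF h hC), r2 m hm F hF h hC v hv,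
      s2 m hm F hF v hv]
    simp

def ladZ (ℓ : ℂ → ℝ) (m : ℝ) (F : V → ℂ) : ℤ → V → ℂ
  | Int.ofNat n => ladU ℓ m F n
  | Int.negSucc n => fun v => (-1) ^ (n + 1) * conj (ladU ℓ m F (n + 1) v)

lemma ladZ_neg (hr : ∀ v, conj (F v) = F v) (n : ℕ) :
    ladZ ℓ m F (-n) = fun v => (-1) ^ n * conj (ladU ℓ m F n v) := by
  cases n with
  | zero => ext v; simp [ladZ, ladU, hr]
  | succ n => rfl

lemma ladZ_pre (hs : ContDiffOn ℝ ∞ ℓ UH) (hF : ContDiffOn ℝ ∞ F Om) (h : Hom 0 F)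
    (hr : ∀ v, conj (F v) = F v) : Pre (ladZ ℓ m F) := by
  have sm : ∀ n : ℕ, ContDiffOn ℝ 1 (ladU ℓ m F n) Om := fun n =>
    (ladU_smooth hs hF n).of_le (by simp)
  refine ⟨?_, ?_, ?_⟩
  · rintro (n | n)
    · exact sm n
    · exact contDiffOn_const.mul (contDiffOn_conj' (sm (n + 1)))
  · rintro (n | n)
    · exact ladU_hom hs hF h n
    · exact (ladU_hom hs hF h (n + 1)).conj.const_mul _
  · rintro (n | n) v
    · change conj (ladU ℓ m F n v) = (-1) ^ (n : ℤ) * ladZ ℓ m F (-(n : ℤ)) v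
      rw [ladZ_neg hr]
      simp only [zpow_natCast]
      rw [← mul_assoc, ← mul_pow]; simp
    · change conj ((-1) ^ (n + 1) * conj (ladU ℓ m F (n + 1) v))
        = (-1) ^ (Int.negSucc n) * ladU ℓ m F (n + 1) v
      simp only [map_mul, map_pow, map_neg, map_one, Complex.conj_conj, zpow_negSucc]
      rw [← inv_pow]; simp

lemma lad_eU_nat (hm : m ≠ 0) (n : ℕ) (v : V) : eU ℓ m (ladZ ℓ m F) n v = 0 := by
  change Ep (ladU ℓ m F n) v - I * m * sV ℓ v * ladU ℓ m F (n + 1) v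
    - ((n : ℤ) : ℂ) * AV ℓ v * ladU ℓ m F n v = 0
  rw [ladU_up hm]; push_cast; ring

lemma lad_eD_nat (n : ℕ) (v : V) : eD ℓ m (ladZ ℓ m F) n v = sV ℓ v * ladR ℓ m F n v := by
  change Em (ladU ℓ m F (n + 1)) v - I * m * sV ℓ v * ladU ℓ m F n v
    + (((n : ℤ) : ℂ) + 1) * conj (AV ℓ v) * ladU ℓ m F (n + 1) v = _
  have h2 := sC_ne (ℓ := ℓ) v
  rw [ladR]; push_cast; field_simp; ring

lemma lad_eU_neg (hs : ContDiffOn ℝ ∞ ℓ UH) (hF : ContDiffOn ℝ ∞ F Om)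
    (hr : ∀ v, conj (F v) = F v) (n : ℕ) {v : V} (hv : v ∈ Om) :
    eU ℓ m (ladZ ℓ m F) (Int.negSucc n) v = (-1) ^ (n + 1) * conj (sV ℓ v * ladR ℓ m F n v) := by
  have e1 : Int.negSucc n + 1 = -(n : ℤ) := by omega
  have h2 := sC_ne (ℓ := ℓ) v
  have e : Ep (ladZ ℓ m F (Int.negSucc n)) v = _ :=
    (lad_cmul ((-1) ^ (n + 1)) (lad_has (ladU_smooth (m := m) hs hF (n + 1)) hv).conj).ep
  rw [eU, e1, ladZ_neg hr, e, ladR]
  simp only [ladZ, map_mul, map_sub, map_add, map_inv₀, conj_ofReal, conj_I, map_natCast, map_one,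
    Complex.conj_conj, Int.cast_negSucc]
  push_cast; field_simp; ring

lemma lad_eD_neg (hs : ContDiffOn ℝ ∞ ℓ UH) (hm : m ≠ 0) (hF : ContDiffOn ℝ ∞ F Om)
    (hr : ∀ v, conj (F v) = F v) (n : ℕ) {v : V} (hv : v ∈ Om) :
    eD ℓ m (ladZ ℓ m F) (Int.negSucc n) v = 0 := by
  have e1 : Int.negSucc n + 1 = -(n : ℤ) := by omega
  rw [eD, e1, ladZ_neg hr,
    (lad_cmul ((-1) ^ n) (lad_has (ladU_smooth (m := m) hs hF n) hv).conj).em, ladU_up hm]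
  simp only [ladZ, map_mul, map_add, conj_ofReal, conj_I, map_natCast, Int.cast_negSucc]
  push_cast; ring

lemma lad_pr_Lg (a b c d : ℝ) {v : V} (hv : v ∈ Om) :
    pr (Lg a b c d v) = (a * pr v + b) / (c * pr v + d) := by
  have h2 := snd_ne_zero hv
  simp only [pr, Lg_apply]
  have e1 : a * (v.1 / v.2) + b = (a * v.1 + b * v.2) / v.2 := by field_simp
  have e2 : c * (v.1 / v.2) + d = (c * v.1 + d * v.2) / v.2 := by field_simp
  rw [e1, e2, div_div_div_cancel_right₀ h2]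

theorem exists_vl {ℓ : ℂ → ℝ} (hs : ContDiffOn ℝ ∞ ℓ UH) : ∃ Cb, OKC ℓ Cb ∧
    ∀ (lam : ℝ) (φ : ℂ → ℝ), 1 ≤ lam → ContDiffOn ℝ ∞ φ UH →
      (∀ z ∈ UH, z.im ^ 2 * Δ φ z = -lam * rh ℓ z * φ z) →
      ∃ Φ : ℤ → V → ℂ, VL ℓ Cb (√lam) Φ ∧ (∀ v, Φ 0 v = φ (pr v)) ∧
        ∀ a b c d : ℝ, a * d - b * c = 1 → (∀ z ∈ UH, φ ((a * z + b) / (c * z + d)) = φ z) →
          (∀ z ∈ UH, ℓ ((a * z + b) / (c * z + d)) = ℓ z) → ∀ n, Inv a b c d (Φ n) := by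
  choose R r1 r2 using lad_sp hs
  choose C c1 c2 c3 using fun n => (r1 n).bound
  let ix : ℤ → ℕ := fun n => match n with
    | Int.ofNat k => k
    | Int.negSucc k => k
  refine ⟨fun n v => sV ℓ v * C (ix n) v, ⟨hs, fun n => (cd_sV hs).continuousOn.mul (c1 _),
    fun n v => mul_nonneg (sV_pos v).le (c2 _ v)⟩, fun lam φ hl hφ he => ?_⟩
  have hF : ContDiffOn ℝ ∞ (fun w : V => (φ (pr w) : ℂ)) Om :=
    ofRealCLM.contDiff.comp_contDiffOn (hφ.comp contDiffOn_pr fun v hv => pr_mem hv)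
  have hm : 1 ≤ √lam := Real.one_le_sqrt.2 hl
  have hm0 : √lam ≠ 0 := by linarith
  have hH : Hom 0 fun w : V => (φ (pr w) : ℂ) := fun c hc v _ => by simp [pr_smul hc]
  have hr : ∀ v : V, conj (φ (pr v) : ℂ) = φ (pr v) := by simp
  have hC : ∀ v ∈ Om, Em (Ep fun w : V => (φ (pr w) : ℂ)) v
      = -((√lam : ℝ) ^ 2 * sV ℓ v ^ 2) * (φ (pr v) : ℂ) := fun v hv => by
    have e : rh ℓ (pr v) = sV ℓ v ^ 2 := by rw [rh, sV, ← Real.exp_nat_mul]; simp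
    rw [Em_Ep_comp_pr (hφ.of_le two_le_infty) hv, he _ (pr_mem hv), e, ← ofReal_pow,
      Real.sq_sqrt (by linarith)]
    push_cast; ring
  have key : ∀ n : ℕ, ∀ v ∈ Om, √lam * ‖sV ℓ v * ladR ℓ (√lam) (fun w => φ (pr w)) n v‖
      ≤ sV ℓ v * C n v * SN (ladZ ℓ (√lam) fun w => φ (pr w)) n v := fun n v hv => by
    rw [r2 n _ hm0 _ hF hH hC v hv, norm_mul, norm_real, Real.norm_of_nonneg (sV_pos v).le,
      mul_left_comm, mul_assoc]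
    exact mul_le_mul_of_nonneg_left (c3 n _ hm _ v) (sV_pos v).le
  have nn : ∀ n k v, 0 ≤ sV ℓ v * C k v * SN (ladZ ℓ (√lam) fun w => φ (pr w)) n v :=
    fun n k v => mul_nonneg (mul_nonneg (sV_pos v).le (c2 _ v))
      (Finset.sum_nonneg fun _ _ => norm_nonneg _)
  refine ⟨ladZ ℓ (√lam) fun w => φ (pr w), ⟨ladZ_pre hs hF hH hr, hm, ?_, ?_⟩, fun v => rfl, ?_⟩
  · rintro (n | n) v hv
    · rw [Int.ofNat_eq_natCast, lad_eU_nat hm0]; simpa using nn _ _ v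
    · rw [lad_eU_neg hs hF hr n hv, norm_mul, norm_pow, norm_neg, norm_one, one_pow, one_mul,
        norm_conj]
      refine (key n v hv).trans (mul_le_mul_of_nonneg_left ?_
        (mul_nonneg (sV_pos v).le (c2 _ v)))
      exact Finset.sum_le_sum_of_subset_of_nonneg (Finset.range_mono (by simp))
        fun _ _ _ => norm_nonneg _
  · rintro (n | n) v hv
    · rw [Int.ofNat_eq_natCast, lad_eD_nat]; exact key n v hv
    · rw [lad_eD_neg hs hm0 hF hr n hv]; simpa using nn _ _ v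
  · intro a b c d hd hi hi' n
    have i1 : Inv a b c d fun w : V => (φ (pr w) : ℂ) := fun v hv => by
      simp only [lad_pr_Lg a b c d hv, hi _ (pr_mem hv)]
    have i2 : Inv a b c d (lV ℓ) := fun v hv => by
      simp only [lV, lad_pr_Lg a b c d hv, hi' _ (pr_mem hv)]
    rcases n with n | n
    · exact ladU_inv hs hF hd i2 i1 n
    · intro v hv
      simp only [ladZ]
      rw [ladU_inv hs hF hd i2 i1 (n + 1) v hv]

end Pool.Agent.Lib.MP_a52643_an
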