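import Pool.Agent.Lib.MP_a52643_an.VC.Defs

/-!
The pair measure of an invariant measure with square integrable projection.
-/

open MeasureTheory Set Filter Topology Metric UpperHalfPlane
open scoped ENNReal MatrixGroups Pointwise NNReal

noncomputable section

namespace Pool.Agent.Lib.MP_a52643_an

variable {Γ : Type*} [Group Γ] [MulAction Γ ℍ] [Countable Γ] {l : Γ → SL2} {D : Set ℍ}
  {X : Type*} [MeasurableSpace X] {μ : Measure X} [SFinite μ] {τ : Γ → X → X} {P : X → ℍ}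
  {f : ℍ → ℝ≥0∞} {g : ℝ → X → X}

lemma measurable_sec {S : Set (X × X)} (hS : MeasurableSet S) : Measurable (sec μ S) :=
  measurable_measure_prodMk_left hS

lemma pm_apply {S : Set (X × X)} (hS : MeasurableSet S) :
    pm μ P D S = ∫⁻ v in P ⁻¹' D, sec μ S v ∂μ := by
  rw [pm, Measure.prod_apply hS]; rfl

lemma DM.toEqv (h : DM l D μ τ P f g) : Eqv μ τ P :=
  ⟨h.mp, ⟨h.mP, h.dens ▸ withDensity_absolutelyContinuous _ _⟩, h.eqv⟩

omit [Countable Γ] [SFinite μ] in
lemma DM.mea_setL (h : DM l D μ τ P f g) {F : ℍ → ℝ≥0∞} (hF : Measurable F) {S : Set ℍ}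
    (hS : MeasurableSet S) : ∫⁻ v in P ⁻¹' S, F (P v) ∂μ = ∫⁻ z in S, f z * F z := by
  rw [← setLIntegral_map hS hF h.mP, h.dens,
    setLIntegral_withDensity_eq_setLIntegral_mul _ h.mf hF hS]; rfl

omit [Countable Γ] [SFinite μ] in
lemma DM.mea_pre (h : DM l D μ τ P f g) {S : Set ℍ} (hS : MeasurableSet S) :
    μ (P ⁻¹' S) = ∫⁻ z in S, f z := by
  rw [← Measure.map_apply h.mP hS, h.dens, withDensity_apply _ hS]

lemma DM.fin (h : DM l D μ τ P f g) : μ (P ⁻¹' D) ≠ ⊤ := by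
  rw [h.mea_pre h.fd.meas]
  refine ne_top_of_le_ne_top (b := ∫⁻ z in D, (1 + f z ^ 2)) ?_ (lintegral_mono fun z => ?_)
  · rw [lintegral_add_left measurable_const, setLIntegral_const, one_mul]
    exact ENNReal.add_ne_top.2 ⟨h.fd.fin, h.sq⟩
  · rcases le_total (f z) 1 with h1 | h1
    · exact h1.trans le_self_add
    · exact (le_self_pow₀ h1 two_ne_zero).trans le_add_self

lemma DM.mg1 (h : DM l D μ τ P f g) (t : ℝ) : Measurable (g t) := (h.fl t).measurable

lemma DM.m_jt (h : DM l D μ τ P f g) (t : ℝ) : Measurable (jt g t) :=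
  ((h.mg1 t).comp measurable_fst).prodMk ((h.mg1 t).comp measurable_snd)

lemma DM.inv_jt (h : DM l D μ τ P f g) {S : Set (X × X)} (iS : InvS τ S) (t : ℝ) :
    InvS τ (jt g t ⁻¹' S) := by
  intro γ v w
  simp only [mem_preimage, jt, h.comm]
  exact iS γ _ _

lemma DM.sec_inv (h : DM l D μ τ P f g) {S : Set (X × X)} (hS : MeasurableSet S) (iS : InvS τ S)
    (γ : Γ) (v : X) : sec μ S (τ γ v) = sec μ S v := by
  have m : MeasurableSet {w | (τ γ v, w) ∈ S} := measurable_prodMk_left hS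
  rw [sec, ← (h.mp γ).measure_preimage m.nullMeasurableSet, sec]
  congr 1; ext w; exact iS γ v w

lemma DM.sec_jt (h : DM l D μ τ P f g) {S : Set (X × X)} (hS : MeasurableSet S) (t : ℝ) (v : X) :
    sec μ (jt g t ⁻¹' S) v = sec μ S (g t v) := by
  have m : MeasurableSet {w | (g t v, w) ∈ S} := measurable_prodMk_left hS
  rw [sec, sec, ← (h.fl t).measure_preimage m.nullMeasurableSet]
  rfl

lemma DM.shift (h : DM l D μ τ P f g) {F : X → ℝ≥0∞} (hF : Measurable F)
    (hi : ∀ γ v, F (τ γ v) = F v) (t : ℝ) :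
    ∫⁻ v in P ⁻¹' D, F (g t v) ∂μ = ∫⁻ v in P ⁻¹' D, F v ∂μ := by
  have e : Eqv μ τ (P ∘ g t) :=
    ⟨h.mp, h.toEqv.qmp.comp (h.fl t).quasiMeasurePreserving,
      fun γ v => by simp only [Function.comp, h.comm, h.eqv]⟩
  rw [h.toEqv.transport h.fd e (F := fun v => F (g t v)) (hF.comp (h.mg1 t))
    (fun γ v => by simp only [h.comm, hi]), preimage_comp]
  exact (h.fl t).setLIntegral_comp_preimage (h.mP h.fd.meas) hF

lemma DM.pm_jt (h : DM l D μ τ P f g) {S : Set (X × X)} (hS : MeasurableSet S) (iS : InvS τ S)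
    (t : ℝ) : pm μ P D (jt g t ⁻¹' S) = pm μ P D S := by
  rw [pm_apply (h.m_jt t hS), pm_apply hS]
  simp only [h.sec_jt hS]
  exact h.shift (measurable_sec hS) (h.sec_inv hS iS) t

lemma mea_avg {Y T : Type*} [MeasurableSpace Y] [MeasurableSpace T] {ν : Measure Y} [SFinite ν]
    {m : Measure T} [SFinite m] {Φ : T → Y → Y} (hΦ : Measurable fun z : T × Y => Φ z.1 z.2)
    {S S' : Set Y} (hS : MeasurableSet S) (hS' : MeasurableSet S') (hi : ∀ q, ν (Φ q ⁻¹' S) = ν S)
    {A : Set T} (hA : MeasurableSet A) {b : ℝ≥0∞} (hb : ∀ p ∈ S', b ≤ m {q ∈ A | Φ q p ∈ S}) :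
    b * ν S' ≤ m A * ν S := by
  have mW : MeasurableSet {z : T × Y | z.1 ∈ A ∧ Φ z.1 z.2 ∈ S} :=
    (measurable_fst hA).inter (hΦ hS)
  calc b * ν S' ≤ (m.prod ν) {z : T × Y | z.1 ∈ A ∧ Φ z.1 z.2 ∈ S} := by
        rw [Measure.prod_apply_symm mW, ← lintegral_indicator_const hS']
        refine lintegral_mono fun p => ?_
        by_cases hp : p ∈ S'
        · rw [indicator_of_mem hp]; exact hb p hp
        · simp [indicator_of_notMem hp]
    _ = m A * ν S := by
        rw [Measure.prod_apply mW, mul_comm, ← lintegral_indicator_const hA]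
        congr 1; ext q
        by_cases hq : q ∈ A
        · rw [indicator_of_mem hq, ← hi q]
          congr 1; ext p; simp [hq]
        · simp [hq]

omit [Countable Γ] [SFinite μ] in
lemma DM.mea_m_sl (h : DM l D μ τ P f g) (u : ℝ) : Measurable (sl g u) :=
  measurable_fst.prodMk ((h.fl u).measurable.comp measurable_snd)

omit [Countable Γ] in
lemma DM.mea_pm_sl (h : DM l D μ τ P f g) {S : Set (X × X)} (hS : MeasurableSet S) (u : ℝ) :
    pm μ P D (sl g u ⁻¹' S) = pm μ P D S := by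
  rw [pm_apply (h.mea_m_sl u hS), pm_apply hS]
  congr 1; ext v
  have m : MeasurableSet {w | (v, w) ∈ S} := measurable_prodMk_left hS
  rw [sec, sec, ← (h.fl u).measure_preimage m.nullMeasurableSet]
  rfl

theorem DM.avg1 (h : DM l D μ τ P f g) {S S' : Set (X × X)} (hS : MeasurableSet S)
    (hS' : MeasurableSet S') {A : Set ℝ} (hA : MeasurableSet A) {b : ℝ≥0∞}
    (hb : ∀ p ∈ S', b ≤ volume {u ∈ A | sl g u p ∈ S}) :
    b * pm μ P D S' ≤ volume A * pm μ P D S := by
  have : SFinite (pm μ P D) := by unfold pm; infer_instance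
  exact mea_avg (Φ := sl g) (measurable_snd.fst.prodMk
    (h.mg.comp (measurable_fst.prodMk measurable_snd.snd))) hS hS' (h.mea_pm_sl hS) hA hb

theorem DM.avg2 (h : DM l D μ τ P f g) {S S' : Set (X × X)} (hS : MeasurableSet S) (iS : InvS τ S)
    (hS' : MeasurableSet S') {A : Set (ℝ × ℝ)} (hA : MeasurableSet A) {b : ℝ≥0∞}
    (hb : ∀ p ∈ S', b ≤ volume {q ∈ A | Tp g q p ∈ S}) :
    b * pm μ P D S' ≤ volume A * pm μ P D S := by
  have : SFinite (pm μ P D) := by unfold pm; infer_instance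
  refine mea_avg (Φ := Tp g) ((h.mg.comp (measurable_fst.fst.prodMk measurable_snd.fst)).prodMk
    (h.mg.comp (measurable_fst.snd.prodMk
      (h.mg.comp (measurable_fst.fst.prodMk measurable_snd.snd))))) hS hS' (fun q => ?_) hA hb
  have e : Tp g q ⁻¹' S = jt g q.1 ⁻¹' (sl g q.2 ⁻¹' S) := rfl
  rw [e, h.pm_jt (h.mea_m_sl q.2 hS), h.mea_pm_sl hS]
  intro γ v w
  simp only [mem_preimage, sl, h.comm]
  exact iS γ _ _

lemma DM.m_near (h : DM l D μ τ P f g) (r : ℝ) : MeasurableSet (NearS P r) :=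
  measurableSet_le ((h.mP.comp measurable_snd).dist (h.mP.comp measurable_fst)) measurable_const

omit [Countable Γ] [SFinite μ] in
lemma DM.mea_sec_near (h : DM l D μ τ P f g) (r : ℝ) (v : X) :
    sec μ (NearS P r) v = AB r f (P v) := by
  rw [AB, ← h.mea_pre measurableSet_closedBall, sec]
  rfl

omit [Countable Γ] [SFinite μ] in
lemma DM.mea_tail (h : DM l D μ τ P f g) {η : ℝ≥0∞} (hη : η ≠ 0) :
    ∃ L : ℕ, ∫⁻ z in D, {z | (L : ℝ≥0∞) < f z}.indicator f z ^ 2 ≤ η := by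
  have := tendsto_lintegral_of_dominated_convergence (μ := volume.restrict D)
    (F := fun (L : ℕ) z => {z | (L : ℝ≥0∞) < f z}.indicator f z ^ 2) (f := fun _ => 0)
    (fun z => f z ^ 2)
    (fun L => (h.mf.indicator (measurableSet_lt measurable_const h.mf)).pow_const 2)
    (fun L => Eventually.of_forall fun z => by
      simp only; gcongr; exact indicator_le_self _ _ z) h.sq (by
      filter_upwards [ae_lt_top (h.mf.pow_const 2) h.sq] with z hz
      obtain ⟨n, hn⟩ := ENNReal.exists_nat_gt (r := f z) (fun e => by simp [e] at hz)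
      refine tendsto_const_nhds.congr' ?_
      filter_upwards [eventually_ge_atTop n] with L hL
      rw [indicator_of_notMem]
      · simp
      · exact not_lt.2 (hn.le.trans (by exact_mod_cast hL)))
  rw [lintegral_zero] at this
  exact (this.eventually (ge_mem_nhds (pos_iff_ne_zero.2 hη))).exists

theorem DM.near_le (h : DM l D μ τ P f g) (R : ℝ) : ∃ c : ℝ≥0∞, c ≠ ⊤ ∧ ∀ r, 0 ≤ r → r ≤ R →
    pm μ P D (NearS P r) ≤ c * ENNReal.ofReal r ^ 2 := by
  obtain ⟨C, hC, hC'⟩ := exists_ball_bound R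
  refine ⟨C * ∫⁻ z in D, f z ^ 2, ENNReal.mul_ne_top hC h.sq, fun r h0 h1 => ?_⟩
  rw [pm_apply (h.m_near r)]
  simp only [h.mea_sec_near]
  rw [h.mea_setL (measurable_AB r h.mf) h.fd.meas]
  have := h.fd.schur h.mf h.mf h.inv r one_ne_zero ENNReal.one_ne_top
  rw [inv_one, one_mul, ← two_mul, mul_left_comm] at this
  refine ((ENNReal.mul_le_mul_iff_right two_ne_zero ENNReal.ofNat_ne_top).1 this).trans ?_
  rw [mul_right_comm]
  exact mul_le_mul_left (hC' _ r h0 h1) _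

theorem DM.ui (h : DM l D μ τ P f g) {η : ℝ≥0∞} (hη : η ≠ 0) : ∃ L : ℝ≥0∞, L ≠ ⊤ ∧
    ∀ r, 0 ≤ r → r ≤ 1 → ∃ R : X → ℝ≥0∞, Measurable R ∧
      (∀ v, sec μ (NearS P r) v ≤ L * ENNReal.ofReal r ^ 2 + R v) ∧
      ∫⁻ v in P ⁻¹' D, R v ∂μ ≤ η * ENNReal.ofReal r ^ 2 := by
  obtain ⟨C, hC, hC'⟩ := exists_ball_bound 1
  set Y := ∫⁻ z in D, f z ^ 2
  have hY : Y ≠ ⊤ := h.sq
  have h2 : η / 2 ≠ 0 := by simp [hη]
  obtain ⟨t, t0, t1, ht⟩ := exists_mul_le_enn (c := C * Y) (by finiteness) h2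
  obtain ⟨u, u0, -, hu⟩ := exists_mul_le_enn (c := C * t⁻¹) (by finiteness) h2
  obtain ⟨L, hL⟩ := h.mea_tail u0
  set fL := {z | (L : ℝ≥0∞) < f z}.indicator f
  have mL : Measurable fL := h.mf.indicator (measurableSet_lt measurable_const h.mf)
  have iL : ∀ (γ : Γ) z, fL (γ • z) = fL z := fun γ z => by simp [fL, indicator, h.inv]
  refine ⟨L * C, by finiteness, fun r hr hr1 => ⟨fun v => AB r fL (P v),
    (measurable_AB r mL).comp h.mP, fun v => ?_, ?_⟩⟩
  · rw [h.mea_sec_near]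
    calc _ ≤ ∫⁻ w in closedBall (P v) r, (L + fL w) := by
          refine lintegral_mono fun w => ?_
          by_cases hw : (L : ℝ≥0∞) < f w
          · simp [fL, hw]
          · exact (not_lt.1 hw).trans le_self_add
      _ ≤ _ := by
          rw [lintegral_add_left measurable_const, setLIntegral_const, mul_assoc]
          exact add_le_add (mul_le_mul_right (hC' _ r hr hr1) _) le_rfl
  · rw [h.mea_setL (measurable_AB r mL) h.fd.meas]
    calc _ ≤ C * ENNReal.ofReal r ^ 2 * (t * Y + t⁻¹ * u) := by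
          refine le_trans ?_ ((h.fd.schur h.mf mL iL r t0 t1).trans ?_)
          · rw [two_mul]; exact le_self_add
          · gcongr; exact hC' _ r hr hr1
      _ = (C * Y * t + C * t⁻¹ * u) * ENNReal.ofReal r ^ 2 := by ring
      _ ≤ _ := by
          gcongr
          exact (add_le_add ht hu).trans (ENNReal.add_halves η).le

lemma DM.mea_swap (h : DM l D μ τ P f g) {S : Set (X × X)} {T : Set X} (hS : MeasurableSet S)
    (iS : InvS τ S) (hT : MeasurableSet T) (iT : ∀ γ w, τ γ w ∈ T ↔ w ∈ T) {F : X → ℝ≥0∞}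
    (hF : Measurable F) (iF : ∀ γ v, F (τ γ v) = F v) :
    ∫⁻ v in P ⁻¹' D, μ ({w | (v, w) ∈ S} ∩ T) * F v ∂μ
      = ∫⁻ w in P ⁻¹' D, T.indicator (fun w => ∫⁻ v in {v | (v, w) ∈ S}, F v ∂μ) w ∂μ := by
  have m : MeasurableSet {p : X × X | p ∈ S ∧ p.2 ∈ T} := hS.inter (measurable_snd hT)
  have := h.toEqv.swap h.fd
    (k := fun v w => {p : X × X | p ∈ S ∧ p.2 ∈ T}.indicator (fun p => F p.1) (v, w))
    ((hF.comp measurable_fst).indicator m) fun γ v w =>
      ind_congr (and_congr (iS γ v w) (iT γ w)) (iF γ v)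
  convert this using 3 with v w
  · have m1 : MeasurableSet {w | (v, w) ∈ S} := measurable_prodMk_left hS
    rw [mul_comm, ← lintegral_indicator_const (m1.inter hT)]; rfl
  · have m1 : MeasurableSet {v | (v, w) ∈ S} := measurable_prodMk_right hS
    by_cases hw : w ∈ T
    · rw [indicator_of_mem hw, ← lintegral_indicator m1]
      congr 1; ext v
      exact ind_congr (and_iff_left hw).symm rfl
    · simp [indicator, hw]

lemma mea_min {a y z b t : ℝ≥0∞} (h : a ≤ y + z) (t0 : t ≠ 0) (t1 : t ≠ ⊤) :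
    min a b ≤ z + (t + t⁻¹ * (y * b)) := by
  rcases le_total y t with h1 | h1
  · calc min a b ≤ y + z := (min_le_left _ _).trans h
      _ ≤ t + z := by gcongr
      _ ≤ _ := by rw [add_comm]; gcongr; exact le_self_add
  · calc min a b ≤ t⁻¹ * (t * b) := by
          rw [ENNReal.inv_mul_cancel_left t0 t1]; exact min_le_right _ _
      _ ≤ t⁻¹ * (y * b) := by gcongr
      _ ≤ _ := le_add_self.trans le_add_self

theorem DM.triple (h : DM l D μ τ P f g) {η : ℝ≥0∞} (hη : η ≠ 0) : ∃ L : ℝ≥0∞, L ≠ ⊤ ∧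
    ∀ r, 0 ≤ r → r ≤ 1 → ∀ S S' Z : Set (X × X), MeasurableSet S → InvS τ S → MeasurableSet S' →
      InvS τ S' → MeasurableSet Z → S ⊆ NearS P r →
      (∀ v w w', (v, w) ∈ S → (v, w') ∈ S' → (w, w') ∈ Z) → ∀ t : ℝ≥0∞, t ≠ 0 → t ≠ ⊤ →
      ∫⁻ v in P ⁻¹' D, min (sec μ S v) (sec μ S' v) ∂μ ≤ η * ENNReal.ofReal r ^ 2
        + t * μ (P ⁻¹' D) + t⁻¹ * (L * ENNReal.ofReal r ^ 2 * pm μ P D Z) := by
  obtain ⟨L, hL, hR⟩ := h.ui (η := η / 2) (by simp [hη])
  refine ⟨2 * L, by finiteness, fun r h0 h1 S S' Z hS iS hS' iS' hZ hN hc t t0 t1 => ?_⟩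
  obtain ⟨R, mR, R1, R2⟩ := hR r h0 h1
  set a := L * ENNReal.ofReal r ^ 2 with ha
  have iN : InvS τ (NearS P r) := fun γ v w => by
    simp only [NearS, mem_ofPred_eq, h.eqv, h.fd.act, dist_smul]
  set G : Set X := {w | sec μ (NearS P r) w ≤ 2 * a}
  have mG : MeasurableSet G := measurableSet_le (measurable_sec (h.m_near r)) measurable_const
  have iG : ∀ γ w, τ γ w ∈ G ↔ w ∈ G := fun γ w => by
    simp only [G, mem_ofPred_eq, h.sec_inv (h.m_near r) iN]
  have hs : ∀ w, μ {v | (v, w) ∈ S} ≤ sec μ (NearS P r) w := fun w =>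
    measure_mono fun v hv => by
      have := hN hv
      simp only [NearS, mem_ofPred_eq] at this ⊢
      rwa [dist_comm]
  have mY : ∀ {T : Set X}, MeasurableSet T → Measurable fun v => μ ({w | (v, w) ∈ S} ∩ T) :=
    fun {T} hT => measurable_measure_prodMk_left (s := {p : X × X | p ∈ S ∧ p.2 ∈ T})
      (hS.inter (measurable_snd hT))
  have e1 : ∫⁻ v in P ⁻¹' D, μ ({w | (v, w) ∈ S} ∩ Gᶜ) ∂μ ≤ η * ENNReal.ofReal r ^ 2 := by
    have e := h.mea_swap hS iS mG.compl (fun γ w => by simp only [mem_compl_iff, iG])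
      (F := fun _ => 1) measurable_const fun _ _ => rfl
    simp only [mul_one, setLIntegral_one] at e
    rw [e]
    calc _ ≤ ∫⁻ w in P ⁻¹' D, 2 * R w ∂μ := by
          refine lintegral_mono fun w => ?_
          by_cases hw : w ∈ Gᶜ
          · rw [indicator_of_mem hw]
            exact (hs w).trans (le_two_mul_enn (R1 w) (not_le.1 hw))
          · simp [indicator_of_notMem hw]
      _ ≤ 2 * (η / 2 * ENNReal.ofReal r ^ 2) := by
          rw [lintegral_const_mul _ mR]; gcongr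
      _ = _ := by rw [← mul_assoc, ENNReal.mul_div_cancel two_ne_zero ENNReal.ofNat_ne_top]
  have e2 : ∫⁻ v in P ⁻¹' D, μ ({w | (v, w) ∈ S} ∩ G) * sec μ S' v ∂μ
      ≤ 2 * a * pm μ P D Z := by
    rw [h.mea_swap hS iS mG iG (measurable_sec hS') (h.sec_inv hS' iS'), pm_apply hZ,
      ← lintegral_const_mul _ (measurable_sec hZ)]
    refine lintegral_mono fun w => ?_
    by_cases hw : w ∈ G
    · have m1 : MeasurableSet {v | (v, w) ∈ S} := measurable_prodMk_right hS
      rw [indicator_of_mem hw]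
      calc _ ≤ ∫⁻ _ in {v | (v, w) ∈ S}, sec μ Z w ∂μ :=
            setLIntegral_mono' m1 fun v hv => measure_mono fun w' hw' => hc v w w' hv hw'
        _ ≤ _ := by
            rw [setLIntegral_const, mul_comm]
            exact mul_le_mul_left ((hs w).trans hw) _
    · simp [indicator_of_notMem hw]
  calc _ ≤ ∫⁻ v in P ⁻¹' D, (μ ({w | (v, w) ∈ S} ∩ Gᶜ)
        + (t + t⁻¹ * (μ ({w | (v, w) ∈ S} ∩ G) * sec μ S' v))) ∂μ :=
        lintegral_mono fun v => mea_min (measure_le_inter_add_sdiff μ _ G) t0 t1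
    _ = ∫⁻ v in P ⁻¹' D, μ ({w | (v, w) ∈ S} ∩ Gᶜ) ∂μ + (t * μ (P ⁻¹' D)
        + t⁻¹ * ∫⁻ v in P ⁻¹' D, μ ({w | (v, w) ∈ S} ∩ G) * sec μ S' v ∂μ) := by
        rw [lintegral_add_left (mY mG.compl), lintegral_add_left measurable_const,
          setLIntegral_const, lintegral_const_mul' _ _ (ENNReal.inv_ne_top.2 t0)]
    _ ≤ _ := by
        rw [add_assoc, mul_assoc 2 L]
        gcongr

end Pool.Agent.Lib.MP_a52643_an
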