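import Pool.Agent.Lib.MP_a52643_an.VC.Fld

/-!
Algebra of the pair coordinates.
-/

open Complex MeasureTheory Set Filter Topology Asymptotics Metric
open scoped ComplexConjugate ContDiff ENNReal Laplacian

noncomputable section

namespace Pool.Agent.Lib.MP_a52643_an

variable {Γ : Type*} {l : Γ → SL2} {ℓ : ℂ → ℝ} {φ : Flow ℝ V}

lemma aa_bb_decomp {v : V} (hv : dt v = 1) (w : V) : w = aa v w • v + bb v w • cj v := by
  have h : v.1 * conj v.2 - conj v.1 * v.2 = 2 * I := by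
    rw [dt_eq] at hv
    apply Complex.ext <;> simp <;> linarith
  refine Prod.ext ?_ ?_ <;> simp only [aa, bb, Prod.fst_add, Prod.snd_add, Prod.smul_fst,
    Prod.smul_snd, smul_eq_mul, cj_apply] <;> field_simp
  · linear_combination (-w.1) * h
  · linear_combination (-w.2) * h

lemma normSq_aa {v : V} (hv : dt v = 1) (w : V) : normSq (aa v w) - normSq (bb v w) = dt w := by
  rw [dt_eq] at hv ⊢
  simp only [aa, bb, normSq_div]
  simp [normSq_apply]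
  linear_combination (w.1.im * w.2.re - w.1.re * w.2.im) * hv

lemma aa_iv (g h : SL2) : aa (iv g) (iv h) = ((ea (g⁻¹ * h) + ed (g⁻¹ * h)) / 2 : ℝ)
    + ((ec (g⁻¹ * h) - eb (g⁻¹ * h)) / 2 : ℝ) * I := by
  rw [aa, div_eq_iff (by simp)]
  apply Complex.ext <;> simp [iv] <;> ring

lemma bb_iv (g h : SL2) : bb (iv g) (iv h) = ((ed (g⁻¹ * h) - ea (g⁻¹ * h)) / 2 : ℝ)
    + ((eb (g⁻¹ * h) + ec (g⁻¹ * h)) / 2 : ℝ) * I := by
  rw [bb, div_eq_iff (by simp)]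
  apply Complex.ext <;> simp [iv] <;> ring

lemma re_aa {p : SL2 × SL2} (hp : xiP p ≤ 1 / 10) :
    |(aa (iv p.1) (iv p.2)).re - 1| ≤ xiP p ^ 2 := by
  have h := normSq_aa (dt_iv p.1) (iv p.2)
  rw [dt_iv] at h
  unfold xiP at hp ⊢
  set a := aa (iv p.1) (iv p.2)
  set b := bb (iv p.1) (iv p.2)
  have e1 : ‖a - 1‖ ^ 2 = (a.re - 1) ^ 2 + a.im ^ 2 := by
    rw [Complex.sq_norm, normSq_apply]; simp; ring
  have e2 : normSq b = ‖b‖ ^ 2 := (Complex.sq_norm b).symm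
  have e3 : 2 * (a.re - 1) = ‖b‖ ^ 2 - ‖a - 1‖ ^ 2 := by
    rw [e1, ← e2, normSq_apply a] at *; linarith
  have n1 := norm_nonneg (a - 1)
  have n2 := norm_nonneg b
  rw [abs_le]
  constructor <;> nlinarith [mul_nonneg n1 n2, sq_nonneg ‖a - 1‖, sq_nonneg ‖b‖]

/-- half the inverse of the conformal factor -/
def sg (ℓ : ℂ → ℝ) (g : SL2) : ℝ := (2 * sV ℓ (iv g))⁻¹

def kp (ℓ : ℂ → ℝ) (g : SL2) : ℝ := (AV ℓ (iv g)).im

lemma pga_cont {v w : ℝ → V} (hv : Continuous v) (hw : Continuous w) :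
    Continuous fun t => ‖aa (v t) (w t) - 1‖ + ‖bb (v t) (w t)‖ := by
  unfold aa bb
  fun_prop

lemma pga_aa {v w : ℝ → V} {v' w' : V} {t : ℝ} (hv : HasDerivAt v v' t) (hw : HasDerivAt w w' t) :
    HasDerivAt (fun t => aa (v t) (w t)) (aa (v t) w' + aa v' (w t)) t := by
  have a1 := (ContinuousLinearMap.fst ℝ ℂ ℂ).hasFDerivAt.comp_hasDerivAt t hv
  have a2 := (ContinuousLinearMap.snd ℝ ℂ ℂ).hasFDerivAt.comp_hasDerivAt t hv
  have b1 := (ContinuousLinearMap.fst ℝ ℂ ℂ).hasFDerivAt.comp_hasDerivAt t hw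
  have b2 := (ContinuousLinearMap.snd ℝ ℂ ℂ).hasFDerivAt.comp_hasDerivAt t hw
  refine (((b1.fun_mul a2.star).fun_sub (b2.fun_mul a1.star)).div_const (2 * I)).congr_deriv ?_
  simp [aa]
  ring

lemma pga_bb {v w : ℝ → V} {v' w' : V} {t : ℝ} (hv : HasDerivAt v v' t) (hw : HasDerivAt w w' t) :
    HasDerivAt (fun t => bb (v t) (w t)) (bb (v t) w' + bb v' (w t)) t := by
  have a1 := (ContinuousLinearMap.fst ℝ ℂ ℂ).hasFDerivAt.comp_hasDerivAt t hv
  have a2 := (ContinuousLinearMap.snd ℝ ℂ ℂ).hasFDerivAt.comp_hasDerivAt t hv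
  have b1 := (ContinuousLinearMap.fst ℝ ℂ ℂ).hasFDerivAt.comp_hasDerivAt t hw
  have b2 := (ContinuousLinearMap.snd ℝ ℂ ℂ).hasFDerivAt.comp_hasDerivAt t hw
  refine (((b2.fun_mul a1).fun_sub (b1.fun_mul a2)).div_const (2 * I)).congr_deriv ?_
  simp [bb]
  ring

lemma IsFl.deriv_aa_sl (hφ : IsFl (XV ℓ) φ) (g h : SL2) :
    HasDerivAt (fun u => aa (iv g) (iv (gS φ u h)))
      (sg ℓ h * (-conj (bb (iv g) (iv h)) + I * kp ℓ h * aa (iv g) (iv h))) 0 := by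
  refine (pga_aa (hasDerivAt_const 0 (iv g)) (hφ.hasDeriv_iv h)).congr_deriv ?_
  simp only [gS_zero, aa, bb, sg, kp, YV]
  simp [map_ofNat]
  field_simp
  ring

lemma IsFl.deriv_bb_sl (hφ : IsFl (XV ℓ) φ) (g h : SL2) :
    HasDerivAt (fun u => bb (iv g) (iv (gS φ u h)))
      (sg ℓ h * (-conj (aa (iv g) (iv h)) + I * kp ℓ h * bb (iv g) (iv h))) 0 := by
  refine (pga_bb (hasDerivAt_const 0 (iv g)) (hφ.hasDeriv_iv h)).congr_deriv ?_
  simp only [gS_zero, aa, bb, sg, kp, YV]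
  simp [map_ofNat]
  field_simp
  ring

lemma IsFl.deriv_aa_jt (hφ : IsFl (XV ℓ) φ) (g h : SL2) :
    HasDerivAt (fun t => aa (iv (gS φ t g)) (iv (gS φ t h)))
      (sg ℓ h * (-conj (bb (iv g) (iv h)) + I * kp ℓ h * aa (iv g) (iv h))
        + sg ℓ g * (bb (iv g) (iv h) - I * kp ℓ g * aa (iv g) (iv h))) 0 := by
  refine (pga_aa (hφ.hasDeriv_iv g) (hφ.hasDeriv_iv h)).congr_deriv ?_
  simp only [gS_zero, aa, bb, sg, kp, YV]
  simp [map_ofNat]
  field_simp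
  ring

lemma IsFl.deriv_bb_jt (hφ : IsFl (XV ℓ) φ) (g h : SL2) :
    HasDerivAt (fun t => bb (iv (gS φ t g)) (iv (gS φ t h)))
      (sg ℓ h * (-conj (aa (iv g) (iv h)) + I * kp ℓ h * bb (iv g) (iv h))
        + sg ℓ g * (aa (iv g) (iv h) + I * kp ℓ g * bb (iv g) (iv h))) 0 := by
  refine (pga_bb (hφ.hasDeriv_iv g) (hφ.hasDeriv_iv h)).congr_deriv ?_
  simp only [gS_zero, aa, bb, sg, kp, YV]
  simp [map_ofNat]
  field_simp
  ring

lemma IsFl.deriv_hom (hφ : IsFl (XV ℓ) φ) {k : ℤ} {f : V → ℂ} (hf : ContDiffOn ℝ 1 f Om)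
    (hk : Hom k f) (g : SL2) : HasDerivAt (fun t => f (iv (gS φ t g)))
      (sg ℓ g * (Ep f (iv g) + Em f (iv g) - 2 * I * k * kp ℓ g * f (iv g))) 0 := by
  have d := diffAt_of_Om hf one_ne_zero (iv_mem g)
  have h1 : HasFDerivAt f (fderiv ℝ f (iv g)) (iv (gS φ 0 g)) := by
    rw [gS_zero]; exact d.hasFDerivAt
  refine (h1.comp_hasDerivAt (0 : ℝ) (hφ.hasDeriv_iv g)).congr_deriv ?_
  rw [YV, map_smul, map_add, map_neg, map_smul, hk.fderiv_I (iv_mem g) d, Ep_add_Em, sg, kp]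
  simp only [real_smul]
  ring

lemma IsFl.deriv_sV (hφ : IsFl (XV ℓ) φ) (hs : ContDiffOn ℝ ∞ ℓ UH) (g : SL2) :
    HasDerivAt (fun t => sV ℓ (iv (gS φ t g))) (AV ℓ (iv g)).re 0 := by
  have h1 := hφ.deriv_hom ((cd_sC hs).of_le (by simp)) hom_sC g
  rw [(hasE_sC hs (iv_mem g)).ep, (hasE_sC hs (iv_mem g)).em] at h1
  have h2 := reCLM.hasFDerivAt.comp_hasDerivAt (0 : ℝ) h1
  refine HasDerivAt.congr_deriv (f := fun t => sV ℓ (iv (gS φ t g))) h2 ?_
  have h0 := (sV_pos (ℓ := ℓ) (iv g)).ne'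
  rw [← mul_add, add_conj]
  simp only [sg, reCLM_apply, Int.cast_zero, mul_zero, zero_mul, sub_zero, ← ofReal_mul, ofReal_re]
  field_simp

lemma IsFl.cont_jt (hφ : IsFl (XV ℓ) φ) (p : SL2 × SL2) :
    Continuous fun t => xiP (jt (gS φ) t p) := by
  exact pga_cont (hφ.cont_iv p.1) (hφ.cont_iv p.2)

lemma IsFl.cont_sl (hφ : IsFl (XV ℓ) φ) (p : SL2 × SL2) :
    Continuous fun u => xiP (sl (gS φ) u p) := by
  exact pga_cont (v := fun _ => iv p.1) continuous_const (hφ.cont_iv p.2)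

theorem CG.pm (h : CG l ℓ) : ∃ C : ℝ, 1 ≤ C ∧
    PM (fun γ g => l γ * g) bp xiP (xP ℓ) (JP ℓ) (TP ℓ) C (1 / 10) := by
  obtain ⟨C, hC, hb⟩ := h.s_bd
  have ma : Measurable fun p : SL2 × SL2 => aa (iv p.1) (iv p.2) := by
    simp only [aa_iv]; fun_prop
  have mb : Measurable fun p : SL2 × SL2 => bb (iv p.1) (iv p.2) := by
    simp only [bb_iv]; fun_prop
  have ms : Measurable fun p : SL2 × SL2 => sV ℓ (iv p.1) :=
    (measurable_comp_iv (cd_sV h.sm).continuousOn).comp measurable_fst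
  have mA : Measurable fun p : SL2 × SL2 => AV ℓ (iv p.1) :=
    (measurable_comp_iv (cd_AV h.sm).continuousOn).comp measurable_fst
  have ia : ∀ k v w : SL2, aa (iv (k * v)) (iv (k * w)) = aa (iv v) (iv w) := fun k v w => by
    simp only [aa_iv, mul_inv_rev, mul_assoc, inv_mul_cancel_left]
  have ib : ∀ k v w : SL2, bb (iv (k * v)) (iv (k * w)) = bb (iv v) (iv w) := fun k v w => by
    simp only [bb_iv, mul_inv_rev, mul_assoc, inv_mul_cancel_left]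
  have is : ∀ γ v, sV ℓ (iv (l γ * v)) = sV ℓ (iv v) := fun γ v => by
    have := h.ci_s.inv γ _ (iv_mem v)
    rw [iv_mul]; exact_mod_cast this
  have iA : ∀ γ v, AV ℓ (iv (l γ * v)) = AV ℓ (iv v) := fun γ v => by
    rw [iv_mul]; exact h.ci_A.inv γ _ (iv_mem v)
  refine ⟨C, hC, ⟨?_, ?_, ?_, ?_, fun γ v w => ?_, fun γ v w => ?_, fun γ v w => ?_,
    fun γ v w => ?_, fun p _ => ?_⟩⟩
  · unfold xiP; fun_prop
  · unfold xP; fun_prop
  · unfold JP; fun_prop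
  · exact ((measurable_im.comp ma).add (measurable_im.comp (mA.mul mb))).const_mul 2
  · simp only [xiP, ia, ib]
  · simp only [xP, ib, is]
  · simp only [JP, ib, is]
  · simp only [TP, ia, ib, iA]
  · have s0 := sV_pos (ℓ := ℓ) (iv p.1)
    have h1 := (hb _ (iv_mem p.1)).2.1
    rw [← dist_bp]
    set k := p.1⁻¹ * p.2
    have e1 : (bb (iv p.1) (iv p.2)).re = (ed k - ea k) / 2 := by rw [bb_iv]; simp [k]
    have e2 : (bb (iv p.1) (iv p.2)).im = (eb k + ec k) / 2 := by rw [bb_iv]; simp [k]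
    have e3 : |xP ℓ p| + |JP ℓ p| = sV ℓ (iv p.1) * (|ea k - ed k| + |eb k + ec k|) := by
      rw [xP, JP, e1, e2, mul_add, ← abs_of_pos s0, ← abs_mul, ← abs_mul, abs_of_pos s0]
      congr 2 <;> ring
    have n1 := abs_nonneg (ea k - ed k)
    have n2 := abs_nonneg (eb k + ec k)
    refine (dist_bp_le (add_nonneg n1 n2) ?_).trans ?_
    · nlinarith [sq_abs (ea k - ed k), sq_abs (eb k + ec k), mul_nonneg n1 n2]
    · rw [e3, ← mul_assoc]
      refine le_mul_of_one_le_left (add_nonneg n1 n2) ?_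
      rwa [inv_le_iff_one_le_mul₀ s0] at h1

end Pool.Agent.Lib.MP_a52643_an
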