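import Pool.Agent.Lib.MP_a52643_an.VC.PgA

/-!
The Jacobi equation for nearby pairs.
-/

open Complex MeasureTheory Set Filter Topology Asymptotics Metric
open scoped ComplexConjugate ContDiff ENNReal Laplacian

noncomputable section

namespace Pool.Agent.Lib.MP_a52643_an

variable {Γ : Type*} {l : Γ → SL2} {ℓ : ℂ → ℝ} {φ : Flow ℝ V}

lemma pgb_mul {x y X Y : ℝ} (hx : |x| ≤ X) (hy : |y| ≤ Y) : |x * y| ≤ X * Y := by
  rw [abs_mul]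
  exact mul_le_mul hx hy (abs_nonneg _) ((abs_nonneg _).trans hx)

/-- The second order remainders of the three derivatives. -/
lemma pgb_rem {N ξ s σ A1 κ a b1 b2 ρ dσ dκ D e1 e2 : ℝ} (hN : 1 ≤ N)
    (hs : |s| ≤ N) (hσ : |σ| ≤ N) (hA : |A1| ≤ N) (hκ : |κ| ≤ N) (ha : |a| ≤ N * ξ)
    (hb1 : |b1| ≤ N * ξ) (hb2 : |b2| ≤ N * ξ) (hρ : |ρ| ≤ N * ξ) (hdσ : |dσ| ≤ N * ξ)
    (hdκ : |dκ| ≤ N * ξ) (hD : |D| ≤ N * ξ) (he1 : |e1| ≤ N * ξ * (N * ξ))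
    (he2 : |e2| ≤ N * ξ * (N * ξ)) :
    |2 * s * (e1 + dσ * ρ + D * b2)| ≤ 20 * N ^ 3 * ξ ^ 2 ∧
    |2 * s * (dσ * a + D * b1)| ≤ 20 * N ^ 3 * ξ ^ 2 ∧
    |2 * (dσ * b2 + dσ * dκ + κ * e1 + σ * e2 + D * ρ + A1 * (dσ * a + D * b1)
      - κ * (e1 + dσ * ρ + D * b2))| ≤ 20 * N ^ 3 * ξ ^ 2 := by
  obtain ⟨P, hP⟩ : ∃ P, P = N * ξ * (N * ξ) := ⟨_, rfl⟩
  have pm : ∀ {x y : ℝ}, |x| ≤ N * ξ → |y| ≤ N * ξ → |x * y| ≤ P := fun hx hy =>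
    hP ▸ pgb_mul hx hy
  rw [← hP] at he1 he2
  have hP0 : 0 ≤ P := (abs_nonneg _).trans he1
  have hPN : P ≤ N * P := le_mul_of_one_le_left hP0 hN
  have hQ : 20 * N ^ 3 * ξ ^ 2 = 20 * (N * P) := by rw [hP]; ring
  have t1 : |dσ * ρ| ≤ P := pm hdσ hρ
  have t2 : |D * b2| ≤ P := pm hD hb2
  have t3 : |dσ * a| ≤ P := pm hdσ ha
  have t4 : |D * b1| ≤ P := pm hD hb1
  have t5 := abs_le.1 (pm hdσ hb2)
  have t6 := abs_le.1 (pm hdσ hdκ)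
  have t7 := abs_le.1 (pm hD hρ)
  have u1 : |e1 + dσ * ρ + D * b2| ≤ 3 * P :=
    (abs_add_three _ _ _).trans (by linarith)
  have u2 : |dσ * a + D * b1| ≤ 2 * P := (abs_add_le _ _).trans (by linarith)
  have v1 := abs_le.1 (pgb_mul hs u1)
  have v2 := abs_le.1 (pgb_mul hs u2)
  have v3 := abs_le.1 (pgb_mul hκ he1)
  have v4 := abs_le.1 (pgb_mul hσ he2)
  have v5 := abs_le.1 (pgb_mul hA u2)
  have v6 := abs_le.1 (pgb_mul hκ u1)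
  rw [hQ]
  refine ⟨abs_le.2 ⟨?_, ?_⟩, abs_le.2 ⟨?_, ?_⟩, abs_le.2 ⟨?_, ?_⟩⟩ <;>
    linarith [v1.1, v1.2, v2.1, v2.2, v3.1, v3.2, v4.1, v4.2, v5.1, v5.2, v6.1, v6.2,
      t5.1, t5.2, t6.1, t6.2, t7.1, t7.2, mul_nonneg (zero_le_one.trans hN) hP0]

lemma pgb_re {f : ℝ → ℂ} {f' : ℂ} {t : ℝ} (h : HasDerivAt f f' t) :
    HasDerivAt (fun t => (f t).re) f'.re t := reCLM.hasFDerivAt.comp_hasDerivAt t h

lemma pgb_im {f : ℝ → ℂ} {f' : ℂ} {t : ℝ} (h : HasDerivAt f f' t) :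
    HasDerivAt (fun t => (f t).im) f'.im t := imCLM.hasFDerivAt.comp_hasDerivAt t h

/-- Uniform first and second order comparison of the data at two nearby points. -/
lemma CG.pgb_cmp (h : CG l ℓ) : ∃ N : ℝ, 1 ≤ N ∧ ∀ g g' : SL2, xiP (g, g') ≤ 1 / 10 →
    |sV ℓ (iv g)| ≤ N ∧ |sg ℓ g| ≤ N ∧ ‖AV ℓ (iv g)‖ ≤ N ∧
    |sg ℓ g' - sg ℓ g| ≤ N * xiP (g, g') ∧ |kp ℓ g' - kp ℓ g| ≤ N * xiP (g, g') ∧
    |sg ℓ g' * kp ℓ g' - sg ℓ g * kp ℓ g| ≤ N * xiP (g, g') ∧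
    |sg ℓ g' - sg ℓ g - 2 * sg ℓ g * (bb (iv g) (iv g') * AV ℓ (iv g)).re|
      ≤ N * xiP (g, g') ^ 2 ∧
    |kp ℓ g' - kp ℓ g - (-2 * (aa (iv g) (iv g')).im * (AV ℓ (iv g)).re
      - (bb (iv g) (iv g') * Ep (AV ℓ) (iv g)).im + qV ℓ (iv g) * (bb (iv g) (iv g')).im)|
      ≤ N * xiP (g, g') ^ 2 := by
  obtain ⟨C1, hC1, t1⟩ := h.ci_si.taylor
  obtain ⟨C2, hC2, t2⟩ := h.ci_A.taylor
  obtain ⟨C3, hC3, l1⟩ := h.ci_si.lip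
  obtain ⟨C4, hC4, l2⟩ := h.ci_A.lip
  obtain ⟨C5, hC5, sb⟩ := h.s_bd
  have hC6 : 0 ≤ C3 * C5 + C5 * C4 := by positivity
  refine ⟨C1 + C2 + C3 + C4 + C5 + (C3 * C5 + C5 * C4), by linarith, fun g g' hp => ?_⟩
  obtain ⟨N, hN⟩ : ∃ N, N = C1 + C2 + C3 + C4 + C5 + (C3 * C5 + C5 * C4) := ⟨_, rfl⟩
  rw [← hN]
  have hw := (aa_bb_decomp (dt_iv g) (iv g')).symm
  have T1 := t1 _ (dt_iv g) _ _ hp
  have T2 := t2 _ (dt_iv g) _ _ hp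
  have L1 := l1 _ (dt_iv g) _ _ hp
  have L2 := l2 _ (dt_iv g) _ _ hp
  have hx : ‖aa (iv g) (iv g') - 1‖ + ‖bb (iv g) (iv g')‖ = xiP (g, g') := rfl
  have hx0 : 0 ≤ xiP (g, g') := by rw [← hx]; positivity
  rw [hw, hx] at T1 T2 L1 L2
  rw [(hasE_sC_inv h.sm (iv_mem g)).ep, (hasE_sC_inv h.sm (iv_mem g)).em] at T1
  rw [Em_AV h.sm (iv_mem g)] at T2
  obtain ⟨s1, s2, s3⟩ := sb _ (iv_mem g)
  obtain ⟨-, -, s4⟩ := sb _ (iv_mem g')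
  have s0 := sV_pos (ℓ := ℓ) (iv g)
  have e0 : ∀ u, sg ℓ u = (sV ℓ (iv u))⁻¹ / 2 := fun u => by rw [sg, mul_inv]; ring
  have hσ : |sg ℓ g| ≤ C5 := by
    have := inv_pos.2 s0
    rw [e0, abs_of_pos (by positivity)]
    linarith
  have hdσ : |sg ℓ g' - sg ℓ g| ≤ C3 * xiP (g, g') := by
    have h1 := (abs_re_le_norm _).trans L1
    simp only [← ofReal_inv, sub_re, ofReal_re] at h1
    rw [e0, e0, ← sub_div, abs_div, abs_two]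
    linarith [abs_nonneg ((sV ℓ (iv g'))⁻¹ - (sV ℓ (iv g))⁻¹)]
  have hdκ : |kp ℓ g' - kp ℓ g| ≤ C4 * xiP (g, g') := (abs_im_le_norm _).trans L2
  have hκ : |kp ℓ g'| ≤ C5 := (abs_im_le_norm _).trans s4
  have up : ∀ {c y : ℝ}, c ≤ N → 0 ≤ y → c * y ≤ N * y := fun hc hy =>
    mul_le_mul_of_nonneg_right hc hy
  refine ⟨by rw [abs_of_pos s0]; linarith, by linarith, by linarith,
    hdσ.trans (up (by linarith) hx0), hdκ.trans (up (by linarith) hx0), ?_, ?_, ?_⟩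
  · have e : sg ℓ g' * kp ℓ g' - sg ℓ g * kp ℓ g =
        (sg ℓ g' - sg ℓ g) * kp ℓ g' + sg ℓ g * (kp ℓ g' - kp ℓ g) := by ring
    rw [e]
    refine ((abs_add_le _ _).trans (add_le_add (pgb_mul hdσ hκ) (pgb_mul hσ hdκ))).trans
      (le_trans (le_of_eq (by ring)) (up (c := C3 * C5 + C5 * C4) (by linarith) hx0))
  · have h1 := (abs_re_le_norm _).trans T1
    simp only [← ofReal_inv] at h1
    refine le_trans ?_ (up (c := C1) (by linarith) (sq_nonneg _))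
    have e : sg ℓ g' - sg ℓ g - 2 * sg ℓ g * (bb (iv g) (iv g') * AV ℓ (iv g)).re =
        (((((sV ℓ (iv g'))⁻¹ : ℝ) : ℂ) - (((sV ℓ (iv g))⁻¹ : ℝ) : ℂ) -
        (-2 * I * ((0 : ℤ) : ℂ) * (aa (iv g) (iv g')).im * (((sV ℓ (iv g))⁻¹ : ℝ) : ℂ) -
          bb (iv g) (iv g') * -((((sV ℓ (iv g))⁻¹ : ℝ) : ℂ) * AV ℓ (iv g)) -
          conj (bb (iv g) (iv g')) *
            -((((sV ℓ (iv g))⁻¹ : ℝ) : ℂ) * conj (AV ℓ (iv g))))).re) / 2 := by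
      rw [e0, e0]
      generalize (sV ℓ (iv g'))⁻¹ = x
      generalize (sV ℓ (iv g))⁻¹ = y
      simp
      ring
    rw [e, abs_div, abs_two]
    exact (half_le_self (abs_nonneg _)).trans h1
  · refine le_trans (le_of_eq ?_) (((abs_im_le_norm _).trans T2).trans
      (up (c := C2) (by linarith) (sq_nonneg _)))
    congr 1
    simp [kp]
    ring

theorem CG.joint (h : CG l ℓ) (hφ : IsFl (XV ℓ) φ) : ∃ C a : ℝ, 1 ≤ C ∧ 0 < a ∧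
    ∀ p, xiP p ≤ 1 / 10 → ∃ x' J' Θ' k : ℝ, HasDerivAt (fun t => xP ℓ (jt (gS φ) t p)) x' 0 ∧
      HasDerivAt (fun t => JP ℓ (jt (gS φ) t p)) J' 0 ∧
      HasDerivAt (fun t => TP ℓ (jt (gS φ) t p)) Θ' 0 ∧ |x'| ≤ C * xiP p ^ 2 ∧
      |J' - TP ℓ p| ≤ C * xiP p ^ 2 ∧ |Θ' - k * JP ℓ p| ≤ C * xiP p ^ 2 ∧ a ≤ k ∧ k ≤ C := by
  obtain ⟨N, hN, cmp⟩ := h.pgb_cmp
  obtain ⟨a, C6, ha, cb⟩ := h.curv_bd
  have hN3 : 1 ≤ N ^ 3 := one_le_pow₀ hN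
  refine ⟨20 * N ^ 3 + |C6|, a, by linarith [abs_nonneg C6], ha, fun ⟨g, g'⟩ hp => ?_⟩
  obtain ⟨c1, c2, c3, c4, c5, c6, c7, c8⟩ := cmp g g' hp
  have hx : ‖aa (iv g) (iv g') - 1‖ + ‖bb (iv g) (iv g')‖ = xiP (g, g') := rfl
  have hx0 : 0 ≤ xiP (g, g') := by rw [← hx]; positivity
  have hxN : xiP (g, g') ≤ N * xiP (g, g') := le_mul_of_one_le_left hx0 hN
  have h2N : N * xiP (g, g') ^ 2 ≤ N * xiP (g, g') * (N * xiP (g, g')) := by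
    rw [sq, ← mul_assoc]
    exact mul_le_mul_of_nonneg_left hxN (by positivity)
  have hα : ‖aa (iv g) (iv g') - 1‖ ≤ N * xiP (g, g') := by
    linarith [norm_nonneg (bb (iv g) (iv g'))]
  have hβ : ‖bb (iv g) (iv g')‖ ≤ N * xiP (g, g') := by
    linarith [norm_nonneg (aa (iv g) (iv g') - 1)]
  obtain ⟨r1, r2, r3⟩ := pgb_rem (a := (aa (iv g) (iv g')).im) (ρ := (aa (iv g) (iv g')).re - 1)
    (κ := kp ℓ g) hN c1 c2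
    ((abs_re_le_norm _).trans c3) ((abs_im_le_norm _).trans c3)
    (by simpa using (abs_im_le_norm _).trans hα) ((abs_re_le_norm _).trans hβ)
    ((abs_im_le_norm _).trans hβ) (by simpa using (abs_re_le_norm _).trans hα) c4 c5 c6
    (c7.trans h2N) (c8.trans h2N)
  have up : 20 * N ^ 3 * xiP (g, g') ^ 2 ≤ (20 * N ^ 3 + |C6|) * xiP (g, g') ^ 2 :=
    mul_le_mul_of_nonneg_right (by linarith [abs_nonneg C6]) (sq_nonneg _)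
  have dα := hφ.deriv_aa_jt g g'
  have dβ := hφ.deriv_bb_jt g g'
  have ds := hφ.deriv_sV h.sm g
  have dA := hφ.deriv_hom ((cd_AV h.sm).of_le (by simp)) (hom_AV h.sm) g
  rw [Em_AV h.sm (iv_mem g)] at dA
  have s0 := (sV_pos (ℓ := ℓ) (iv g)).ne'
  have hsσ : 2 * sV ℓ (iv g) * sg ℓ g = 1 := mul_inv_cancel₀ (by positivity)
  have hk : (1 + qV ℓ (iv g)) / sV ℓ (iv g) ^ 2 * JP ℓ (g, g') =
      4 * sg ℓ g * (1 + qV ℓ (iv g)) * (bb (iv g) (iv g')).im := by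
    simp only [JP, sg]
    field_simp
    ring
  have hκ : (AV ℓ (iv g)).im = kp ℓ g := rfl
  refine ⟨_, _, _, (1 + qV ℓ (iv g)) / sV ℓ (iv g) ^ 2, (ds.const_mul (-2)).mul (pgb_re dβ),
    (ds.const_mul 2).mul (pgb_im dβ), ((pgb_im dα).add (pgb_im (dA.mul dβ))).const_mul 2,
    le_trans (le_of_eq ?_) (r1.trans up), le_trans (le_of_eq ?_) (r2.trans up),
    le_trans (le_of_eq ?_) (r3.trans up), (cb _ (iv_mem g)).1,
    (cb _ (iv_mem g)).2.trans (by linarith [le_abs_self C6])⟩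
  · congr 1
    simp [jt, gS_zero, hκ]
    linear_combination (2 * (AV ℓ (iv g)).re * (bb (iv g) (iv g')).re) * hsσ
  · congr 1
    simp [jt, gS_zero, hκ, TP]
    linear_combination (2 * ((aa (iv g) (iv g')).im + kp ℓ g * (bb (iv g) (iv g')).re)) * hsσ
  · congr 1
    rw [hk]
    simp [gS_zero, hκ]
    ring

end Pool.Agent.Lib.MP_a52643_an
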