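import Pool.Agent.Lib.MP_a52643_an.VC.Defs

/-!
Properties of weight families that do not depend on the ladder relations.
-/

open Complex MeasureTheory Set Filter Topology Asymptotics Metric Polynomial
open scoped ComplexConjugate ContDiff ENNReal CompactlySupported

noncomputable section

namespace Pool.Agent.Lib.MP_a52643_an

section one

variable {ι : Type} [Fintype ι] [DecidableEq ι] {Φ : ℤ → V → ℂ}

lemma Pre.cont (h : Pre Φ) (n : ℤ) :
    ContinuousOn (Φ n) Om := (h.smooth n).continuousOn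

lemma Pre.norm_neg (h : Pre Φ) (n : ℤ) (v : V) :
    ‖Φ (-n) v‖ = ‖Φ n v‖ := by
  have := congrArg norm (h.cnj n v)
  simpa using this.symm

lemma Pre.eq_ph (h : Pre Φ) (n : ℤ) {v : V} (hv : v ∈ Om) :
    Φ n v = om v ^ n * ph Φ n (pr v) := (h.hom n).eq_om hv

lemma Pre.norm_ph (h : Pre Φ) (n : ℤ) {v : V} (hv : v ∈ Om) :
    ‖ph Φ n (pr v)‖ = ‖Φ n v‖ := by
  rw [h.eq_ph n hv, norm_mul, norm_zpow, norm_om (snd_ne_zero hv)]; simp

omit [DecidableEq ι] in
lemma Pre.psi_pr (h : Pre Φ) (a : ι → ℤ) {v : V} (hv : v ∈ Om) :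
    psi Φ a (pr v) = om v ^ (-∑ i, a i) * mono Φ a v := by
  have h0 := om_ne_zero (snd_ne_zero hv)
  have : mono Φ a v = om v ^ (∑ i, a i) * psi Φ a (pr v) := by
    simp only [mono, psi, h.eq_ph _ hv, Finset.prod_mul_distrib]
    congr 1
    classical
    induction (Finset.univ : Finset ι) using Finset.induction_on with
    | empty => simp
    | insert i s hi ih => rw [Finset.prod_insert hi, Finset.sum_insert hi, ih, zpow_add₀ h0]
  rw [this, ← mul_assoc, ← zpow_add₀ h0]; simp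

lemma Pre.cd_ph (h : Pre Φ) (n : ℤ) : ContDiffOn ℝ 1 (ph Φ n) UH :=
  (h.smooth n).comp (contDiff_id.prodMk contDiff_const).contDiffOn fun _ hz => one_mem_Om hz

omit [DecidableEq ι] in
lemma Pre.cd_mono (h : Pre Φ) (a : ι → ℤ) : ContDiffOn ℝ 1 (mono Φ a) Om :=
  contDiffOn_prod fun i _ => h.smooth (a i)

omit [DecidableEq ι] in
lemma Pre.cd_psi (h : Pre Φ) (a : ι → ℤ) : ContDiffOn ℝ 1 (psi Φ a) UH :=
  contDiffOn_prod fun i _ => h.cd_ph (a i)

omit [DecidableEq ι] in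
lemma integral_psiA (h : Pre Φ) {τ : ℂ → ℂ} (hτ : TF τ)
    (a : ι → ℤ) : ∫ z, τ z * psi Φ a z ∂hyp
      = ∫ v, (τ (pr v) * om v ^ (-∑ i, a i)) * mono Φ a v ∂mV := by
  rw [integral_hyp_eq (hτ.integrable_mul (h.cd_psi a).continuousOn).aestronglyMeasurable]
  refine integral_congr_ae (ae_Om.mono fun v hv => ?_)
  simp only [h.psi_pr a hv, mul_assoc]

omit [DecidableEq ι] in
lemma Pre.cont_GG (h : Pre Φ) (P : LA ι) :
    ContinuousOn (GG Φ P) UH := by
  induction P using AddMonoidAlgebra.induction_linear with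
  | zero => exact continuousOn_const.congr fun z _ => GG_zero Φ z
  | add f g hf hg => exact (hf.add hg).congr fun z _ => GG_add Φ f g z
  | single a c =>
    exact (continuousOn_const.mul (h.cd_psi a).continuousOn).congr fun z _ => GG_single Φ a c z

omit [DecidableEq ι] in
lemma Pre.conj_GG (h : Pre Φ) (P : LA ι) (z : ℂ) :
    conj (GG Φ P z) = GG Φ (invol P) z := by
  induction P using AddMonoidAlgebra.induction_linear with
  | zero => simp
  | add f g hf hg => simp [hf, hg]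
  | single a c =>
    simp only [invol_single, GG_single, psi, ph, map_mul, conj_ofReal, map_prod, h.cnj,
      Finset.prod_mul_distrib, Pi.neg_apply]
    have : ∏ i, (-1 : ℂ) ^ a i = (-1) ^ ∑ i, a i := by
      classical
      induction (Finset.univ : Finset ι) using Finset.induction_on with
      | empty => simp
      | insert i s hi ih =>
        rw [Finset.prod_insert hi, Finset.sum_insert hi, ih, zpow_add₀ (by norm_num)]
    rw [this]; push_cast; ring

lemma Pre.conj_GG_aeval (h : Pre Φ) (i k : ι)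
    (p : Polynomial ℝ) (z : ℂ) :
    conj (GG Φ (Polynomial.aeval (cc i k) p) z) = GG Φ (Polynomial.aeval (cc i k) p) z := by
  rw [h.conj_GG, ← Polynomial.aeval_algHom_apply, invol_cc]

lemma Pre.cd_TT (h : Pre Φ) (a b : ℤ) : ContDiffOn ℝ 1 (TT Φ a b) Om :=
  (h.smooth a).mul (contDiffOn_conj' (h.smooth b))

lemma Pre.cont_SS (h : Pre Φ) (s : ℤ) (N : ℕ) : ContinuousOn (SS Φ s N) Om :=
  continuousOn_finsetSum _ fun _ _ => h.cont _

lemma Pre.TT_eq (h : Pre Φ) (a b : ℤ) (v : V) :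
    TT Φ a b v = (-1) ^ b * mono Φ ![a, -b] v := by
  simp [TT, mono, h.cnj]; ring

lemma Pre.hom_TT (h : Pre Φ) (a b : ℤ) : Hom (a - b) (TT Φ a b) := by
  have := (h.hom a).mul (h.hom b).conj
  rwa [← sub_eq_add_neg] at this

lemma Pre.integral_SS (h : Pre Φ) (N : ℕ) (R : ℝ) :
    ∫ v in KB R, ‖SS Φ 0 N v‖ ^ 2 ∂mV = ∑ a ∈ Finset.range N, ∫ v in KB R, ‖Φ a v‖ ^ 2 ∂mV := by
  apply Complex.ofReal_injective
  rw [ofReal_sum, ← integral_complex_ofReal]
  simp only [← mul_conj_sq, SS_mul_conj, add_zero]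
  rw [integral_finsetSum _ fun a _ => integrable_finsetSum _ fun b _ =>
    integrableOn_KB (h.cd_TT _ _).continuousOn R]
  refine Finset.sum_congr rfl fun a ha => ?_
  rw [integral_finsetSum _ fun b _ => integrableOn_KB (h.cd_TT _ _).continuousOn R,
    Finset.sum_eq_single a, ← integral_complex_ofReal]
  · simp only [← mul_conj_sq, TT]
  · intro b _ hb
    exact integral_KB_hom_zero (by omega) (h.cd_TT _ _).continuousOn (h.hom_TT a b) R
  · intro h'; exact absurd ha h'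

lemma Pre.diff_ph (h : Pre Φ) (n : ℤ) {z : ℂ} (hz : z ∈ UH) :
    DifferentiableAt ℝ (ph Φ n) z :=
  ((h.cd_ph n).contDiffAt (isOpen_UH.mem_nhds hz)).differentiableAt one_ne_zero

lemma Pre.GR_eq (h : Pre Φ) (p : ℝ[X]) (z : ℂ) :
    GG (ι := Fin 2) Φ (aeval (cc 0 1) p) z = GR Φ p z :=
  (conj_eq_iff_re.1 (h.conj_GG_aeval 0 1 p z)).symm

lemma Pre.cont_GR (h : Pre Φ) (p : ℝ[X]) :
    ContinuousOn (GR Φ p) UH := continuous_re.comp_continuousOn (h.cont_GG _)

lemma Pre.cnj_trL (h : Pre Φ) (M : ℝ) (n : ℤ) (v : V) :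
    conj (trL M Φ n v) = (-1) ^ n * trL M Φ (-n) v := by
  rw [trL, conj_TM, h.cnj, TM_mul _ (by simp), trL]

lemma Pre.cd_trL (h : Pre Φ) (M : ℝ) (n : ℤ) :
    ContDiffOn ℝ 1 (ph (trL M Φ) n) UH := (contDiff_TM M).comp_contDiffOn (h.cd_ph n)

lemma Pre.cd_psi_trL (h : Pre Φ) (M : ℝ) {ι : Type}
    [Fintype ι] (a : ι → ℤ) : ContDiffOn ℝ 1 (psi (trL M Φ) a) UH :=
  contDiffOn_prod fun i _ => h.cd_trL M (a i)

end one

end Pool.Agent.Lib.MP_a52643_an
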