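import Pool.Agent.Lib.MP_a52643_an.VC.Cross

/-!
Decorrelation of nearly parallel pairs.
-/

open MeasureTheory Set Filter Topology Metric UpperHalfPlane
open scoped ENNReal MatrixGroups Pointwise NNReal

noncomputable section

namespace Pool.Agent.Lib.MP_a52643_an

lemma tri_ev (K : ℝ) {b : ℝ} (hb : 0 < b) : ∀ᶠ e in 𝓝[>] (0 : ℝ), K * e ≤ b := by
  have h : Tendsto (fun e : ℝ => K * e) (𝓝 0) (𝓝 (K * 0)) :=
    (continuous_const.mul continuous_id).tendsto 0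
  rw [mul_zero] at h
  exact ((h.eventually (ge_mem_nhds hb))).filter_mono nhdsWithin_le_nhds

lemma tri_min (s a b a' b' : ℝ≥0∞) (ha : a ≤ s + a') (hb : b ≤ s + b') :
    min a b ≤ s + min a' b' := by
  rcases le_total a' b' with h | h
  · rw [min_eq_left h]; exact (min_le_left _ _).trans ha
  · rw [min_eq_right h]; exact (min_le_right _ _).trans hb

section geo

variable {X : Type*} {g : ℝ → X → X} {ξ x J Θ : X × X → ℝ} {C a r0 : ℝ}

/-- The constants and smallness conditions of the case split. -/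
structure TriOK (g : ℝ → X → X) (ξ x J : X × X → ℝ) (C r0 M N κ Λ T e : ℝ) : Prop where
  e0 : 0 < e
  Λ0 : 0 < Λ
  ΛT : Λ ≤ T
  M0 : 0 < M
  MN : M ≤ N
  Nr : N * e ≤ r0
  err : C * (2 * N) ^ 2 * e ≤ 1
  gr : ∀ p, ξ p ≤ M * e → ∀ t, |t| ≤ T → ξ (jt g t p) ≤ N * e ∧ |x (jt g t p) - x p| ≤ e
  cv : ∀ p, (∀ t ∈ Icc 0 T, ξ (jt g t p) ≤ N * e) → |J p| ≤ 3 * e → |J (jt g T p)| ≤ 3 * e →
    |J (jt g Λ p)| ≤ κ * e

variable {M N κ Λ T e : ℝ}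

lemma TriOK.back (hg : PG g ξ x J Θ C a r0) (k : TriOK g ξ x J C r0 M N κ Λ T e) {p : X × X}
    (hp : ξ (jt g T p) ≤ M * e) {t : ℝ} (ht : t ∈ Icc 0 T) :
    ξ (jt g t p) ≤ N * e ∧ |x (jt g t p) - x (jt g T p)| ≤ e := by
  have h := k.gr _ hp (t - T) (by rw [abs_le]; constructor <;> linarith [ht.1, ht.2])
  rwa [← hg.jt_add, sub_add_cancel] at h

lemma TriOK.le_big (hg : PG g ξ x J Θ C a r0) (k : TriOK g ξ x J C r0 M N κ Λ T e) :
    N * e ≤ 2 * C * N * e := by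
  have h1 : 0 < N * e := mul_pos (k.M0.trans_le k.MN) k.e0
  have h2 := hg.C1
  nlinarith

lemma TriOK.split0 (hg : PG g ξ x J Θ C a r0) (k : TriOK g ξ x J C r0 M N κ Λ T e) :
    BP ξ x J M e ⊆ (CrS g ξ J (2 * C * N) T e ∪ jt g Λ ⁻¹' ThS ξ x J N κ e) ∪
      (BP ξ x J M e ∩ jt g T ⁻¹' {p | 3 * e < J p}) := by
  intro p hp
  obtain ⟨h1, h2, h3, h4⟩ := id hp
  have he := k.e0
  have hT : 0 ≤ T := k.Λ0.le.trans k.ΛT
  rcases lt_or_ge (3 * e) (J (jt g T p)) with h | h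
  · exact Or.inr ⟨hp, h⟩
  rcases lt_or_ge (J (jt g T p)) (-(3 * e)) with h' | h'
  · refine Or.inl (Or.inl ⟨?_, ?_, ?_⟩)
    · exact h1.trans ((mul_le_mul_of_nonneg_right k.MN he.le).trans (k.le_big hg))
    · have := neg_le_abs (J (jt g T p))
      have := abs_nonneg (J p)
      linarith
    · exact mul_nonpos_of_nonneg_of_nonpos h3 (by linarith)
  · have h5 := k.gr p h1 Λ (by rw [abs_of_pos k.Λ0]; exact k.ΛT)
    refine Or.inl (Or.inr ⟨h5.1, ?_, ?_⟩)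
    · have := abs_sub_abs_le_abs_sub (x (jt g Λ p)) (x p)
      linarith [h5.2]
    · refine k.cv p (fun t ht => (k.gr p h1 t (by rw [abs_of_nonneg ht.1]; exact ht.2)).1) ?_
        (abs_le.2 ⟨h', h⟩)
      rw [abs_of_nonneg h3]; linarith

lemma TriOK.split1 (hg : PG g ξ x J Θ C a r0) (k : TriOK g ξ x J C r0 M N κ Λ T e) :
    jt g T ⁻¹' BP ξ x J M e ⊆ (CrS g ξ J (2 * C * N) T e ∪ jt g Λ ⁻¹' ThS ξ x J N κ e) ∪
      (jt g T ⁻¹' BP ξ x J M e ∩ {p | 3 * e < J p}) := by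
  intro p hp
  obtain ⟨h1, h2, h3, h4⟩ := id hp
  have he := k.e0
  have hT : 0 ≤ T := k.Λ0.le.trans k.ΛT
  rcases lt_or_ge (3 * e) (J p) with h | h
  · exact Or.inr ⟨hp, h⟩
  rcases lt_or_ge (J p) (-(3 * e)) with h' | h'
  · refine Or.inl (Or.inl ⟨?_, ?_, ?_⟩)
    · have := (k.back hg h1 (t := 0) ⟨le_rfl, hT⟩).1
      rw [hg.jt_zero] at this
      exact this.trans (k.le_big hg)
    · have := neg_le_abs (J p)
      have := abs_nonneg (J (jt g T p))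
      linarith
    · exact mul_nonpos_of_nonpos_of_nonneg (by linarith) h3
  · have h5 := k.back hg h1 (t := Λ) ⟨k.Λ0.le, k.ΛT⟩
    refine Or.inl (Or.inr ⟨h5.1, ?_, ?_⟩)
    · have := abs_sub_abs_le_abs_sub (x (jt g Λ p)) (x (jt g T p))
      linarith [h5.2]
    · refine k.cv p (fun t ht => (k.back hg h1 ht).1) (abs_le.2 ⟨h', h⟩) ?_
      rw [abs_of_nonneg h3]; linarith

lemma TriOK.add (hg : PG g ξ x J Θ C a r0) (k : TriOK g ξ x J C r0 M N κ Λ T e) {v w w' : X}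
    (h1 : ξ (v, w) ≤ N * e) (h2 : ξ (v, w') ≤ N * e) :
    ξ (w, w') ≤ 2 * C * N * e ∧ |J (w, w') - (J (v, w') - J (v, w))| ≤ e := by
  obtain ⟨h3, h4⟩ := hg.tri v w w' (h1.trans k.Nr) (h2.trans k.Nr)
  have hC : 0 ≤ C := zero_le_one.trans hg.C1
  have h5 : ξ (v, w) + ξ (v, w') ≤ 2 * N * e := by linarith
  have h6 : 0 ≤ ξ (v, w) + ξ (v, w') := add_nonneg (hg.nn _) (hg.nn _)
  refine ⟨h3.trans ?_, h4.trans ?_⟩
  · calc C * (ξ (v, w) + ξ (v, w')) ≤ C * (2 * N * e) := mul_le_mul_of_nonneg_left h5 hC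
      _ = 2 * C * N * e := by ring
  · calc C * (ξ (v, w) + ξ (v, w')) ^ 2 ≤ C * (2 * N * e) ^ 2 :=
          mul_le_mul_of_nonneg_left (pow_le_pow_left₀ h6 h5 2) hC
      _ = (C * (2 * N) ^ 2 * e) * e := by ring
      _ ≤ 1 * e := mul_le_mul_of_nonneg_right k.err k.e0.le
      _ = e := one_mul e

lemma TriOK.cross (hg : PG g ξ x J Θ C a r0) (k : TriOK g ξ x J C r0 M N κ Λ T e) (v w w' : X)
    (hw : (v, w) ∈ BP ξ x J M e ∩ jt g T ⁻¹' {p | 3 * e < J p})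
    (hw' : (v, w') ∈ jt g T ⁻¹' BP ξ x J M e ∩ {p | 3 * e < J p}) :
    (w, w') ∈ CrS g ξ J (2 * C * N) T e := by
  obtain ⟨⟨a1, -, -, a4⟩, a5⟩ := hw
  obtain ⟨⟨b1, -, -, b4⟩, b5⟩ := hw'
  have he := k.e0
  have hT : 0 ≤ T := k.Λ0.le.trans k.ΛT
  have hMN := mul_le_mul_of_nonneg_right k.MN he.le
  have c1 : ξ (v, w') ≤ N * e := by
    have := (k.back hg b1 (t := 0) ⟨le_rfl, hT⟩).1
    rwa [hg.jt_zero] at this
  have c2 : ξ (g T v, g T w) ≤ N * e := (k.gr _ a1 T (by rw [abs_of_nonneg hT])).1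
  obtain ⟨d1, d2⟩ := k.add hg (a1.trans hMN) c1
  obtain ⟨-, d3⟩ := k.add hg (v := g T v) (w := g T w) (w' := g T w') c2 (b1.trans hMN)
  have a5' : 3 * e < J (g T v, g T w) := a5
  have b4' : J (g T v, g T w') ≤ e := b4
  have b5' : 3 * e < J (v, w') := b5
  have e1 : e ≤ J (w, w') := by linarith [(abs_le.1 d2).1]
  have e2 : J (jt g T (w, w')) ≤ -e := by
    show J (g T w, g T w') ≤ -e
    linarith [(abs_le.1 d3).2]
  refine ⟨d1, ?_, mul_nonpos_of_nonneg_of_nonpos (by linarith) (by linarith)⟩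
  have := le_abs_self (J (w, w'))
  have := abs_nonneg (J (jt g T (w, w')))
  linarith

lemma tri_ok (hg : PG g ξ x J Θ C a r0) (hM : 0 < M) (hκ : 0 < κ) : ∃ Λ > (0 : ℝ), ∀ T,
    2 * Λ ≤ T → ∃ N > (0 : ℝ), ∀ᶠ e in 𝓝[>] (0 : ℝ), TriOK g ξ x J C r0 M N κ Λ T e := by
  obtain ⟨Λ, hΛ, hc⟩ := hg.convex hκ
  refine ⟨Λ, hΛ, fun T hT => ?_⟩
  obtain ⟨M1, r1, hM1, hr1, hMr, hgr⟩ := hg.grow T
  have hN : 0 < M1 * M := mul_pos (by linarith) hM
  obtain ⟨e0, he0, hcv⟩ := hc T hT _ hN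
  refine ⟨M1 * M, hN, ?_⟩
  filter_upwards [self_mem_nhdsWithin, tri_ev 1 he0, tri_ev M hr1,
    tri_ev (C * (2 * (M1 * M)) ^ 2) one_pos, tri_ev (M1 * M ^ 2 * T) one_pos]
    with e he h1 h2 h3 h4
  have he' : 0 < e := he
  have hT0 : 0 ≤ T := by linarith
  refine ⟨he', hΛ, by linarith, hM, le_mul_of_one_le_left hM.le hM1, ?_, h3, ?_,
    hcv e he' (by linarith)⟩
  · rw [mul_assoc]
    exact (mul_le_mul_of_nonneg_left h2 (by linarith)).trans hMr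
  · intro p hp t ht
    obtain ⟨k1, k2⟩ := hgr p (hp.trans h2) t ht
    have k3 := (k2 0 (by simpa using hT0)).1
    rw [hg.jt_zero, sub_zero] at k3
    refine ⟨k1.trans ?_, k3.trans ?_⟩
    · rw [mul_assoc]
      exact mul_le_mul_of_nonneg_left hp (by linarith)
    · calc M1 * ξ p ^ 2 * |t| ≤ M1 * (M * e) ^ 2 * T := by
            have := hg.nn p
            gcongr
        _ = (M1 * M ^ 2 * T * e) * e := by ring
        _ ≤ 1 * e := mul_le_mul_of_nonneg_right h4 he'.le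
        _ = e := one_mul e

end geo

variable {Γ : Type*} [Group Γ] [MulAction Γ ℍ] [Countable Γ] {l : Γ → SL2} {D : Set ℍ}
  {X : Type*} [MeasurableSpace X] {μ : Measure X} [SFinite μ] {τ : Γ → X → X} {P : X → ℍ}
  {f : ℍ → ℝ≥0∞} {g : ℝ → X → X} {ξ x J Θ : X × X → ℝ} {C a r0 : ℝ}

omit [Group Γ] [MulAction Γ ℍ] [Countable Γ] in
lemma tri_m_BP (hm : PM τ P ξ x J Θ C r0) (M e : ℝ) : MeasurableSet (BP ξ x J M e) :=
  (measurableSet_le hm.mξ measurable_const).inter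
    ((measurableSet_le hm.mx.abs measurable_const).inter
      ((measurableSet_le measurable_const hm.mJ).inter (measurableSet_le hm.mJ measurable_const)))

omit [Group Γ] [MulAction Γ ℍ] [Countable Γ] in
lemma tri_m_Th (hm : PM τ P ξ x J Θ C r0) (M κ e : ℝ) : MeasurableSet (ThS ξ x J M κ e) :=
  (measurableSet_le hm.mξ measurable_const).inter
    ((measurableSet_le hm.mx.abs measurable_const).inter
      (measurableSet_le hm.mJ.abs measurable_const))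

lemma tri_m_Cr (h : DM l D μ τ P f g) (hm : PM τ P ξ x J Θ C r0) (M T e : ℝ) :
    MeasurableSet (CrS g ξ J M T e) :=
  (measurableSet_le hm.mξ measurable_const).inter
    ((measurableSet_le measurable_const (hm.mJ.abs.add (hm.mJ.comp (h.m_jt T)).abs)).inter
      (measurableSet_le (hm.mJ.mul (hm.mJ.comp (h.m_jt T))) measurable_const))

omit [Group Γ] [MulAction Γ ℍ] [Countable Γ] in
lemma tri_i_BP (hm : PM τ P ξ x J Θ C r0) (M e : ℝ) : InvS τ (BP ξ x J M e) := fun γ v w => by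
  simp only [BP, mem_ofPred_eq, hm.iξ, hm.ix, hm.iJ]

omit [Group Γ] [MulAction Γ ℍ] [Countable Γ] in
lemma tri_i_Th (hm : PM τ P ξ x J Θ C r0) (M κ e : ℝ) : InvS τ (ThS ξ x J M κ e) :=
  fun γ v w => by simp only [ThS, mem_ofPred_eq, hm.iξ, hm.ix, hm.iJ]

omit [Group Γ] [MulAction Γ ℍ] [Countable Γ] in
lemma tri_i_J (hm : PM τ P ξ x J Θ C r0) (b : ℝ) : InvS τ {p | b < J p} :=
  fun γ v w => by simp only [mem_ofPred_eq, hm.iJ]

omit [Group Γ] [MulAction Γ ℍ] [Countable Γ] [MeasurableSpace X] in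
lemma tri_i_inter {S S' : Set (X × X)} (h : InvS τ S) (h' : InvS τ S') : InvS τ (S ∩ S') :=
  fun γ v w => and_congr (h γ v w) (h' γ v w)

omit [SFinite μ] in
lemma tri_sec {S A B : Set (X × X)} (h : S ⊆ A ∪ B) (v : X) :
    sec μ S v ≤ sec μ A v + sec μ B v :=
  (measure_mono (s := {w | (v, w) ∈ S}) (t := {w | (v, w) ∈ A} ∪ {w | (v, w) ∈ B})
    (fun _ hw => h hw)).trans (measure_union_le _ _)

theorem DM.min_small (h : DM l D μ τ P f g) (hg : PG g ξ x J Θ C a r0) (hm : PM τ P ξ x J Θ C r0)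
    {M : ℝ} (hM : 0 < M) {η : ℝ≥0∞} (hη : η ≠ 0) : ∃ Λ > (0 : ℝ), ∀ T, 2 * Λ ≤ T →
      ∀ᶠ e in 𝓝[>] (0 : ℝ), ∫⁻ v in P ⁻¹' D,
        min (sec μ (BP ξ x J M e) v) (sec μ (BP ξ x J M e) (g T v)) ∂μ
          ≤ η * ENNReal.ofReal e ^ 2 := by
  obtain ⟨η0, hη0, hη4⟩ := ENNReal.exists_nnreal_pos_mul_lt (a := 4) (by simp) hη
  have hη0' : (η0 : ℝ≥0∞) ≠ 0 := by simpa using hη0.ne'
  obtain ⟨c1, hc1, hth⟩ := h.thin_le hg hm
  obtain ⟨κ0, hκ0, hκc⟩ := ENNReal.exists_nnreal_pos_mul_lt hc1 hη0'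
  have hκ : 0 < min (κ0 : ℝ) 1 := lt_min hκ0 one_pos
  obtain ⟨Λ, hΛ, hok⟩ := tri_ok hg hM hκ
  refine ⟨Λ, hΛ, fun T hT => ?_⟩
  obtain ⟨N, hN, hok⟩ := hok T hT
  have hC : 0 < C := one_pos.trans_le hg.C1
  set K : ℝ≥0∞ := ENNReal.ofReal (2 * C) ^ 2 with hK
  have hKt : K ≠ ⊤ := ENNReal.pow_ne_top ENNReal.ofReal_ne_top
  obtain ⟨η1, hη1, hη1K⟩ := ENNReal.exists_nnreal_pos_mul_lt hKt hη0'
  obtain ⟨L, hL, htr⟩ := h.triple (η := η1) (by simpa using hη1.ne')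
  obtain ⟨t0, ht0, ht0μ⟩ := ENNReal.exists_nnreal_pos_mul_lt h.fin hη0'
  have ht0' : (t0 : ℝ≥0∞) ≠ 0 := by simpa using ht0.ne'
  have hQ : 1 + (t0 : ℝ≥0∞)⁻¹ * (L * K) ≠ ⊤ :=
    ENNReal.add_ne_top.2 ⟨by simp, ENNReal.mul_ne_top (ENNReal.inv_ne_top.2 ht0')
      (ENNReal.mul_ne_top hL hKt)⟩
  obtain ⟨η2, hη2, hη2Q⟩ := ENNReal.exists_nnreal_pos_mul_lt hQ hη0'
  have hrob := h.robust_small hg hm (T := T) (M := 2 * C * N) (by linarith) (by positivity)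
    (η := η2) (by simpa using hη2.ne')
  filter_upwards [hok, hrob, hth N _ hN hκ (min_le_right _ _), tri_ev (2 * C) one_pos]
    with e k hZ hTh hr
  have he := k.e0
  set E : ℝ≥0∞ := ENNReal.ofReal e ^ 2 with hE
  have hE0 : E ≠ 0 := pow_ne_zero _ (by simpa using he)
  have hEt : E ≠ ⊤ := ENNReal.pow_ne_top ENNReal.ofReal_ne_top
  have hKE : ENNReal.ofReal (2 * C * e) ^ 2 = K * E := by
    rw [ENNReal.ofReal_mul (by positivity), mul_pow]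
  set Z := CrS g ξ J (2 * C * N) T e with hZd
  set Th := jt g Λ ⁻¹' ThS ξ x J N (min (κ0 : ℝ) 1) e with hThd
  set S0 := BP ξ x J M e ∩ jt g T ⁻¹' {p | 3 * e < J p} with hS0
  set S1 := jt g T ⁻¹' BP ξ x J M e ∩ {p | 3 * e < J p} with hS1
  have mB := tri_m_BP hm M e
  have mJ3 : MeasurableSet {p | 3 * e < J p} := measurableSet_lt measurable_const hm.mJ
  have mZ : MeasurableSet Z := tri_m_Cr h hm _ _ _
  have mTh : MeasurableSet Th := h.m_jt Λ (tri_m_Th hm _ _ _)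
  have mS0 : MeasurableSet S0 := mB.inter (h.m_jt T mJ3)
  have mS1 : MeasurableSet S1 := (h.m_jt T mB).inter mJ3
  have iS0 : InvS τ S0 := tri_i_inter (tri_i_BP hm M e) (h.inv_jt (tri_i_J hm _) T)
  have iS1 : InvS τ S1 := tri_i_inter (h.inv_jt (tri_i_BP hm M e) T) (tri_i_J hm _)
  have hnear : S0 ⊆ NearS P (2 * C * e) := by
    rintro p ⟨⟨h1, h2, h3, h4⟩, -⟩
    have h5 := hm.pos p (h1.trans ((mul_le_mul_of_nonneg_right k.MN he.le).trans k.Nr))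
    refine h5.trans ?_
    rw [abs_of_nonneg h3]
    nlinarith
  have h3 := htr (2 * C * e) (by positivity) hr S0 S1 Z mS0 iS0 mS1 iS1 mZ hnear (k.cross hg)
    (t0 * E) (mul_ne_zero ht0' hE0) (ENNReal.mul_ne_top (by simp) hEt)
  have hpt : ∀ v, min (sec μ (BP ξ x J M e) v) (sec μ (BP ξ x J M e) (g T v)) ≤
      sec μ (Z ∪ Th) v + min (sec μ S0 v) (sec μ S1 v) := by
    intro v
    rw [← h.sec_jt mB T v]
    exact tri_min _ _ _ _ _ (tri_sec (k.split0 hg) v) (tri_sec (k.split1 hg) v)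
  have hTh' : pm μ P D Th ≤ η0 * E := by
    rw [hThd, h.pm_jt (tri_m_Th hm _ _ _) (tri_i_Th hm _ _ _)]
    refine hTh.trans (mul_le_mul_left ?_ E)
    rw [mul_comm]
    refine le_trans (mul_le_mul_left ?_ c1) hκc.le
    exact (ENNReal.ofReal_le_ofReal (min_le_left _ _)).trans (by simp)
  have h4 : ((t0 : ℝ≥0∞) * E)⁻¹ * (L * (K * E) * pm μ P D Z)
      = (t0 : ℝ≥0∞)⁻¹ * (L * K) * pm μ P D Z := by
    rw [ENNReal.mul_inv (Or.inl ht0') (Or.inl (by simp))]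
    calc (t0 : ℝ≥0∞)⁻¹ * E⁻¹ * (L * (K * E) * pm μ P D Z)
        = (t0 : ℝ≥0∞)⁻¹ * (L * K) * pm μ P D Z * (E⁻¹ * E) := by ring
      _ = _ := by rw [ENNReal.inv_mul_cancel hE0 hEt, mul_one]
  rw [hKE, h4] at h3
  have h5 : (1 + (t0 : ℝ≥0∞)⁻¹ * (L * K)) * pm μ P D Z ≤ η0 * E := by
    calc (1 + (t0 : ℝ≥0∞)⁻¹ * (L * K)) * pm μ P D Z
        ≤ (1 + (t0 : ℝ≥0∞)⁻¹ * (L * K)) * (η2 * E) := mul_le_mul_right hZ _
      _ = (η2 * (1 + (t0 : ℝ≥0∞)⁻¹ * (L * K))) * E := by ring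
      _ ≤ η0 * E := mul_le_mul_left hη2Q.le E
  have h6 : (η1 : ℝ≥0∞) * (K * E) ≤ η0 * E := by
    rw [← mul_assoc]; exact mul_le_mul_left hη1K.le E
  have h7 : (t0 : ℝ≥0∞) * E * μ (P ⁻¹' D) ≤ η0 * E := by
    rw [mul_right_comm]; exact mul_le_mul_left ht0μ.le E
  calc ∫⁻ v in P ⁻¹' D, min (sec μ (BP ξ x J M e) v) (sec μ (BP ξ x J M e) (g T v)) ∂μ
      ≤ ∫⁻ v in P ⁻¹' D, sec μ (Z ∪ Th) v + min (sec μ S0 v) (sec μ S1 v) ∂μ := lintegral_mono hpt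
    _ = pm μ P D (Z ∪ Th) + ∫⁻ v in P ⁻¹' D, min (sec μ S0 v) (sec μ S1 v) ∂μ := by
        rw [lintegral_add_left (measurable_sec (mZ.union mTh)), pm_apply (mZ.union mTh)]
    _ ≤ (pm μ P D Z + η0 * E) + (η0 * E + η0 * E + (t0 : ℝ≥0∞)⁻¹ * (L * K) * pm μ P D Z) :=
        add_le_add ((measure_union_le _ _).trans (add_le_add_right hTh' _))
          (h3.trans (add_le_add_left (add_le_add h6 h7) _))
    _ = (1 + (t0 : ℝ≥0∞)⁻¹ * (L * K)) * pm μ P D Z + 3 * (η0 * E) := by ring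
    _ ≤ η0 * E + 3 * (η0 * E) := add_le_add_left h5 _
    _ = η0 * 4 * E := by ring
    _ ≤ η * E := mul_le_mul_left hη4.le E

end Pool.Agent.Lib.MP_a52643_an
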