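import Pool.Agent.Lib.MP_a52643_an.VC.PreL

/-!
The microlocal limit measure of an abstract family.
-/

open Complex MeasureTheory Set Filter Topology Asymptotics Metric Polynomial
open scoped ComplexConjugate ContDiff ENNReal CompactlySupported

noncomputable section

namespace Pool.Agent.Lib.MP_a52643_an

section fam

variable {J : Type} {l : Filter J} {Φ : J → ℤ → V → ℂ}

lemma FamA.lh2 (h : FamA l Φ) (n : ℤ) : LH l fun j z => ‖ph (Φ j) n z‖ ^ 2 := by
  refine LB.lh ?_ (fun j z => by positivity) fun j => ((h.lad j).cd_ph n).continuousOn.norm.pow 2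
  intro R
  obtain ⟨C, hC⟩ := h.two n R
  refine ⟨C, hC.mono fun j hj => le_of_eq_of_le ?_ hj⟩
  refine setIntegral_congr_fun (measurableSet_KB R) fun v hv => ?_
  simp only [(h.lad j).norm_ph n (KB_subset_Om R hv)]

variable {ι : Type} [Fintype ι] [DecidableEq ι]

omit [DecidableEq ι] in
lemma FamA.lb_mono (h : FamA l Φ) (hι : Fintype.card ι ≤ 2) (a : ι → ℤ) :
    LB l fun j v => ‖mono (Φ j) a v‖ := by
  intro R
  choose C hC using fun i => h.two (a i) R
  refine ⟨mV.real (KB R) + ∑ i, C i, ?_⟩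
  filter_upwards [eventually_all.2 hC] with j hj
  have i1 : ∀ i, IntegrableOn (fun v => ‖Φ j (a i) v‖ ^ 2) (KB R) mV := fun i =>
    integrableOn_KB (((h.lad j).cont _).norm.pow 2) R
  have i2 : IntegrableOn (fun _ => (1 : ℝ)) (KB R) mV := integrableOn_KB continuousOn_const R
  have i3 := integrable_finsetSum Finset.univ fun i _ => i1 i
  calc ∫ v in KB R, ‖mono (Φ j) a v‖ ∂mV ≤ ∫ v in KB R, (1 + ∑ i, ‖Φ j (a i) v‖ ^ 2) ∂mV := by
        refine integral_mono (integrableOn_KB ((h.lad j).cd_mono a).continuousOn.norm R)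
          (i2.add i3) fun v => ?_
        simp only [mono, norm_prod]
        exact prod_le_one_add_sum2 hι _ fun i => norm_nonneg _
    _ = mV.real (KB R) + ∑ i, ∫ v in KB R, ‖Φ j (a i) v‖ ^ 2 ∂mV := by
        rw [integral_add i2 i3, integral_finsetSum _ fun i _ => i1 i]; simp
    _ ≤ _ := by gcongr with i; exact hj i

omit [DecidableEq ι] in
lemma FamA.isBigO_mono (h : FamA l Φ) (hι : Fintype.card ι ≤ 2) (a : ι → ℤ) {τ : V → ℂ}
    (hc : CS τ) (hτ : ContinuousOn τ Om) :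
    (fun j => ∫ v, τ v * mono (Φ j) a v ∂mV) =O[l] fun _ => (1 : ℝ) :=
  (h.lb_mono hι a).isBigO (fun j => ((h.lad j).cd_mono a).continuousOn) hc hτ

omit [DecidableEq ι] in
lemma FamA.isBigO_psi (h : FamA l Φ) (hι : Fintype.card ι ≤ 2) (a : ι → ℤ) {τ : ℂ → ℂ}
    (hτ : TF τ) : (fun j => ∫ z, τ z * psi (Φ j) a z ∂hyp) =O[l] fun _ => (1 : ℝ) := by
  simp only [integral_psiA (h.lad _) hτ]
  exact h.isBigO_mono hι a (hτ.cs.mul_right _) (hτ.contOn.mul (contDiffOn_om_zpow (n := 0) _).continuousOn)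

lemma FamA.lb_TT (h : FamA l Φ) (a b : ℤ) : LB l fun j v => ‖TT (Φ j) a b v‖ := by
  simpa [(h.lad _).TT_eq] using h.lb_mono (ι := Fin 2) (by simp) ![a, -b]

lemma FamA.isBigO_TT (h : FamA l Φ) (a b : ℤ) {τ : V → ℂ} (hc : CS τ) (hτ : ContinuousOn τ Om) :
    (fun j => ∫ v, τ v * TT (Φ j) a b v ∂mV) =O[l] fun _ => (1 : ℝ) :=
  (h.lb_TT a b).isBigO (fun j => ((h.lad j).cd_TT a b).continuousOn) hc hτ

lemma FamA.TT_shift (h : FamA l Φ) {τ : V → ℂ} (hc : CS τ) (hτ : ContDiffOn ℝ 1 τ Om) (a b : ℤ)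
    (n : ℤ) : Tendsto (fun j => (∫ v, τ v * TT (Φ j) (a + n) (b + n) v ∂mV)
      - ∫ v, τ v * TT (Φ j) a b v ∂mV) l (𝓝 0) := by
  induction n using Int.induction_on with
  | zero => simpa using tendsto_const_nhds
  | succ n ih =>
    have := (h.succ hc hτ (a + n) (b + n)).add ih
    simpa [add_assoc] using this
  | pred n ih =>
    have := ih.sub (h.succ hc hτ (a + (-n - 1)) (b + (-n - 1)))
    simpa [add_assoc] using this

/-- uniform square bounds along the ladder -/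
lemma FamA.sq_bound (h : FamA l Φ) (R : ℝ) :
    ∃ C : ℝ, 0 ≤ C ∧ ∀ a : ℤ, ∀ᶠ j in l, ∫ v in KB R, ‖Φ j a v‖ ^ 2 ∂mV ≤ C := by
  obtain ⟨ζ, Z, hc, h1⟩ := exists_cut (lt_max_of_lt_right one_pos : 0 < max R 1)
  obtain ⟨C, hC⟩ := (h.isBigO_TT 0 0 hc.csc hc.cdo.continuousOn).bound
  refine ⟨max C 0 + 1, by positivity, fun a => ?_⟩
  have t := (h.TT_shift hc.csc hc.cdo 0 0 a).norm.eventually
    (gt_mem_nhds (by simp : ‖(0 : ℂ)‖ < 1))
  filter_upwards [hC, t] with j h2 h3
  have s1 := hc.setIntegral_le (R' := R) (fun v hv => h1 v (hv.trans (le_max_left _ _))) 0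
    (F := fun v => ‖Φ j a v‖ ^ 2) (((h.lad j).cont a).norm.pow 2) fun v => by positivity
  have e : ∫ v, (ζ v : ℂ) * TT (Φ j) a a v ∂mV = ((∫ v, ζ v * ‖Φ j a v‖ ^ 2 ∂mV : ℝ) : ℂ) := by
    rw [← integral_complex_ofReal]; simp only [TT, mul_conj_sq, ofReal_mul]
  simp only [zero_add] at h3
  have h4 := norm_le_norm_add_norm_sub' (∫ v, (ζ v : ℂ) * TT (Φ j) a a v ∂mV)
    (∫ v, (ζ v : ℂ) * TT (Φ j) 0 0 v ∂mV)
  rw [e, Complex.norm_real] at h4
  rw [e] at h3
  simp only [zero_add, pow_one] at s1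
  simp only [norm_one, mul_one] at h2
  have := le_max_left C 0
  have := Real.le_norm_self (∫ v, ζ v * ‖Φ j a v‖ ^ 2 ∂mV)
  have s1' : ∫ v in KB R, ‖Φ j a v‖ ^ 2 ∂mV ≤ ∫ v, ζ v * ‖Φ j a v‖ ^ 2 ∂mV := s1
  linarith

lemma FamA.SS_bound (h : FamA l Φ) (R : ℝ) :
    ∃ C : ℝ, 0 ≤ C ∧ (∀ a : ℤ, ∀ᶠ j in l, ∫ v in KB R, ‖Φ j a v‖ ^ 2 ∂mV ≤ C) ∧
      ∀ N : ℕ, ∀ᶠ j in l, ∫ v in KB R, ‖SS (Φ j) 0 N v‖ ^ 2 ∂mV ≤ N * C := by
  obtain ⟨C, hC0, hC⟩ := h.sq_bound R
  refine ⟨C, hC0, hC, fun N => ?_⟩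
  filter_upwards [(Finset.range N).eventually_all.2 fun a _ => hC a] with j hj
  rw [(h.lad j).integral_SS]
  refine (Finset.sum_le_sum hj).trans (by simp)

lemma FamA.lh_psi (h : FamA l Φ) (a b : ℤ) : LH l fun j z => ‖psi (Φ j) ![a, b] z‖ := by
  intro K hK hU
  obtain ⟨C1, h1⟩ := h.lh2 a K hK hU
  obtain ⟨C2, h2⟩ := h.lh2 b K hK hU
  refine ⟨C1 + C2, ?_⟩
  filter_upwards [h1, h2] with j h1 h2
  have i1 : IntegrableOn (fun z => ‖ph (Φ j) a z‖ ^ 2) K hyp :=
    integrableOn_hyp (((h.lad j).cd_ph a).continuousOn.norm.pow 2) hK hU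
  have i2 : IntegrableOn (fun z => ‖ph (Φ j) b z‖ ^ 2) K hyp :=
    integrableOn_hyp (((h.lad j).cd_ph b).continuousOn.norm.pow 2) hK hU
  calc _ ≤ ∫ z in K, (‖ph (Φ j) a z‖ ^ 2 + ‖ph (Φ j) b z‖ ^ 2) ∂hyp := by
        refine integral_mono (integrableOn_hyp ((h.lad j).cd_psi _).continuousOn.norm hK hU)
          (i1.add i2) fun z => ?_
        simp only [psi_two, norm_mul]
        nlinarith [sq_nonneg (‖ph (Φ j) a z‖ - ‖ph (Φ j) b z‖), sq_nonneg ‖ph (Φ j) a z‖,
          sq_nonneg ‖ph (Φ j) b z‖]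
    _ ≤ _ := by rw [integral_add i1 i2]; linarith

variable {U : Ultrafilter J}

omit [DecidableEq ι] in
theorem FamA.tendsto_QQ (h : FamA U Φ) (hι : Fintype.card ι ≤ 2) {τ : ℂ → ℂ} (hτ : TF τ)
    (P : LA ι) : Tendsto (fun j => ∫ z, τ z * GG (Φ j) P z ∂hyp) U (𝓝 (QQ U Φ τ P)) := by
  induction P using AddMonoidAlgebra.induction_linear with
  | zero => simp
  | add f g hf hg =>
    rw [map_add]
    refine (hf.add hg).congr fun j => ?_
    simp only [GG_add, mul_add]
    rw [integral_add (hτ.integrable_mul ((h.lad j).cont_GG f))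
      (hτ.integrable_mul ((h.lad j).cont_GG g))]
  | single a c =>
    have := (tendsto_ul (h.isBigO_psi hι a hτ)).const_mul (c : ℂ)
    simp only [QQ, lin_single, real_smul, GG_single]
    refine this.congr fun j => ?_
    rw [← integral_const_mul]
    congr 1; ext z; ring

lemma FamA.cont_dens (h : FamA U Φ) (p : ℕ × J) : ContinuousOn (dens Φ p) Om :=
  (((h.lad p.2).cont_SS 0 p.1).norm.pow 2).div_const _

lemma FamA.cont_densC (h : FamA U Φ) (p : ℕ × J) :
    ContinuousOn (fun v => (dens Φ p v : ℂ)) Om :=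
  continuous_ofReal.comp_continuousOn (h.cont_dens p)

lemma FamA.lb_dens (h : FamA U Φ) : LB (UW U) fun p v => ‖(dens Φ p v : ℂ)‖ := by
  intro R
  obtain ⟨C, -, -, hC⟩ := h.SS_bound R
  refine ⟨C, eventually_UW ?_⟩
  filter_upwards [eventually_gt_atTop 0] with N hN
  filter_upwards [hC N] with j hj
  simp only [Complex.norm_real, Real.norm_of_nonneg (dens_nonneg _ _)]
  simp only [dens]
  rw [integral_div, div_le_iff₀ (by exact_mod_cast hN)]
  linarith

lemma FamA.isBigO_dens (h : FamA U Φ) {F : V → ℝ} (hF : Continuous F)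
    (hc : HasCompactSupport F) :
    (fun p => ∫ v, F v * dens Φ p v ∂mV) =O[UW U] fun _ => (1 : ℝ) := by
  have := h.lb_dens.isBigO h.cont_densC (τ := fun v => (F v : ℂ))
    ((CS.of_hcs hc).comp (g := ofReal) (by simp)) (by fun_prop)
  simp only [← ofReal_mul, integral_complex_ofReal] at this
  exact isBigO_ofReal_left.1 this

lemma FamA.int_dens (h : FamA U Φ) {F : V → ℝ} (hF : Continuous F) (hc : HasCompactSupport F)
    (p : ℕ × J) : Integrable (fun v => F v * dens Φ p v) mV :=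
  ((CS.of_hcs hc).mul_right _).integrable (hF.continuousOn.mul (h.cont_dens p))

theorem FamA.exists_isLim (h : FamA U Φ) : ∃ μ, IsLim U Φ μ := by
  have T := fun F : C_c(V, ℝ) => tendsto_ul (h.isBigO_dens F.continuous F.hasCompactSupport)
  let L : C_c(V, ℝ) →ₗ[ℝ] ℝ :=
    { toFun := fun F => ul (UW U) fun p => ∫ v, F v * dens Φ p v ∂mV
      map_add' := fun F G => by
        refine tendsto_nhds_unique (T (F + G)) (((T F).add (T G)).congr fun p => ?_)
        rw [← integral_add (h.int_dens F.continuous F.hasCompactSupport p)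
          (h.int_dens G.continuous G.hasCompactSupport p)]
        simp [add_mul]
      map_smul' := fun c F => by
        refine tendsto_nhds_unique (T (c • F)) (((T F).const_mul c).congr fun p => ?_)
        rw [← integral_const_mul]
        simp [mul_assoc] }
  let Λ : C_c(V, ℝ) →ₚ[ℝ] ℝ := PositiveLinearMap.mk₀ L fun F hF =>
    ge_of_tendsto' (T F) fun p => integral_nonneg fun v => mul_nonneg (hF v) (dens_nonneg p v)
  refine ⟨RealRMK.rieszMeasure Λ, inferInstance, fun F hF hc => ?_⟩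
  have := RealRMK.integral_rieszMeasure Λ ⟨⟨F, hF⟩, hc⟩
  have e : ∫ v, F v ∂(RealRMK.rieszMeasure Λ) = _ := this
  rw [e]
  exact T ⟨⟨F, hF⟩, hc⟩

variable {μ : Measure V}

lemma IsLim.tendCA (h : FamA U Φ) (hμ : IsLim U Φ μ) {F : V → ℂ} (hF : Continuous F)
    (hc : HasCompactSupport F) :
    Tendsto (fun p => ∫ v, F v * dens Φ p v ∂mV) (UW U) (𝓝 (∫ v, F v ∂μ)) := by
  have := hμ.lf
  have c1 : Continuous fun v => (F v).re := by fun_prop
  have c2 : Continuous fun v => (F v).im := by fun_prop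
  have s1 : HasCompactSupport fun v => (F v).re := hc.comp_left (g := re) (by simp)
  have s2 : HasCompactSupport fun v => (F v).im := hc.comp_left (g := im) (by simp)
  have := (hμ.tend _ c1 s1).ofReal.add ((hμ.tend _ c2 s2).ofReal.mul_const I)
  have e := integral_re_add_im (hF.integrable_of_hasCompactSupport hc (μ := μ))
  simp only [RCLike.re_to_complex, RCLike.im_to_complex, RCLike.I_to_complex] at e
  rw [← e]
  refine this.congr fun p => ?_
  have e2 := integral_re_add_im (((CS.of_hcs hc).mul_right fun v => (dens Φ p v : ℂ)).integrable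
    (hF.continuousOn.mul (h.cont_densC p)))
  simp only [RCLike.re_to_complex, RCLike.im_to_complex, RCLike.I_to_complex, re_mul_ofReal,
    im_mul_ofReal] at e2
  exact e2

lemma IsLim.tendWA (h : FamA U Φ) (hμ : IsLim U Φ μ) {F : V → ℂ} (hc : WCS F)
    (hF : ContinuousOn F Om) :
    Tendsto (fun p => ∫ v, F v * dens Φ p v ∂mV) (UW U) (𝓝 (∫ v, F v ∂μ)) := by
  rw [← integral_congr_ae (hμ.ae_th F)]
  refine (hμ.tendCA h (hc.cut hF).1 (hc.cut hF).2).congr fun p => ?_
  exact integral_congr_ae (ae_slab.mono fun v hv => by simp [th_one hv.1.le hv.2.le])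

/-- Fourier modes of the limit measure, smooth test functions -/
lemma IsLim.mode_smoothA (h : FamA U Φ) (hμ : IsLim U Φ μ) {τ : ℂ → ℂ} (hτ : TF τ)
    (hd : ContDiff ℝ 1 τ) (a b : ℤ) :
    Tendsto (fun j => ∫ v, (τ (pr v) * om v ^ (-(a - b))) * TT (Φ j) a b v ∂mV) U
      (𝓝 (∫ v, τ (pr v) * om v ^ (-(a - b)) ∂μ)) := by
  set k := a - b with hk
  set σ : V → ℂ := fun v => τ (pr v) * om v ^ (-k) with hσ
  have cs : CS σ := hτ.cs.mul_right _
  have cd : ContDiffOn ℝ 1 σ Om := (hd.comp_contDiffOn contDiffOn_pr).mul (contDiffOn_om_zpow _)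
  have t0 := tendsto_ul (h.isBigO_TT a b cs cd.continuousOn)
  set t := ul U fun j => ∫ v, σ v * TT (Φ j) a b v ∂mV
  have key : ∀ a' b' : ℤ, Tendsto (fun j => ∫ v, σ v * TT (Φ j) a' b' v ∂mV) U
      (𝓝 (((if a' - b' = k then (1 : ℝ) else 0 : ℝ) : ℂ) * t)) := by
    intro a' b'
    split_ifs with h'
    · have := (h.TT_shift cs cd a b (a' - a)).add t0
      have e1 : a + (a' - a) = a' := by ring
      have e2 : b + (a' - a) = b' := by omega
      simpa [e1, e2] using this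
    · have : ∀ j, ∫ v, σ v * TT (Φ j) a' b' v ∂mV = 0 := fun j =>
        integral_hom_zero (k := -k + (a' - b')) (by omega) ((cs.mul_right _).integrable
          (cd.continuousOn.mul ((h.lad j).cd_TT a' b').continuousOn))
          ((hom_test τ (-k)).mul ((h.lad j).hom_TT a' b'))
      simp [this]
  have t1 : Tendsto (fun p => ∫ v, σ v * dens Φ p v ∂mV) (UW U) (𝓝 t) := by
    refine tendsto_UW (y := fun N => (((∑ a ∈ Finset.range N, ∑ b ∈ Finset.range N,
      (if (a : ℤ) - b = k then (1 : ℝ) else 0)) / N : ℝ) : ℂ) * t) (fun N => ?_) (by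
        simpa using (tendsto_card_shift k).ofReal.mul_const t)
    have := (tendsto_finsetSum (Finset.range N) fun (a : ℕ) _ =>
      tendsto_finsetSum (Finset.range N) fun (b : ℕ) _ => key a b).div_const (N : ℂ)
    have ii : ∀ j a b, Integrable (fun v => σ v * TT (Φ j) a b v) mV := fun j a b =>
      (cs.mul_right _).integrable (cd.continuousOn.mul ((h.lad j).cd_TT a b).continuousOn)
    convert this using 2 with j
    · simp only [dens, ofReal_div, ← mul_conj_sq, SS_mul_conj, add_zero, ← mul_div_assoc,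
        integral_div, Finset.mul_sum, ofReal_natCast]
      rw [integral_finsetSum _ fun a _ => integrable_finsetSum _ fun b _ => ii _ _ _]
      congr 1
      exact Finset.sum_congr rfl fun a _ => integral_finsetSum _ fun b _ => ii _ _ _
    · simp only [← Finset.sum_mul]; push_cast; ring
  rwa [tendsto_nhds_unique t1 (hμ.tendWA h (hτ.wcs _) cd.continuousOn)] at t0

/-- Fourier modes of the limit measure -/
theorem IsLim.modeA (h : FamA U Φ) (hμ : IsLim U Φ μ) {τ : ℂ → ℂ} (hτ : TF τ) (a b : ℤ) :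
    Tendsto (fun j => ∫ z, τ z * psi (Φ j) ![a, b] z ∂hyp) U
      (𝓝 ((-1) ^ b * ∫ v, τ (pr v) * om v ^ (-(a + b)) ∂μ)) := by
  have := hμ.lf
  have e : ∀ {τ : ℂ → ℂ} (_ : TF τ) j, ∫ z, τ z * psi (Φ j) ![a, b] z ∂hyp
      = (-1) ^ b * ∫ v, (τ (pr v) * om v ^ (-(a + b))) * TT (Φ j) a (-b) v ∂mV := by
    intro τ hτ j
    rw [integral_psiA (h.lad j) hτ, ← integral_const_mul]
    congr 1; ext v
    have : (-1 : ℂ) ^ b * (-1) ^ (-b) = 1 := by rw [← zpow_add₀ (by norm_num)]; simp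
    simp only [(h.lad j).TT_eq, neg_neg, Fin.sum_univ_two, Matrix.cons_val_zero,
      Matrix.cons_val_one]
    linear_combination (-(τ (pr v) * om v ^ (-(a + b)) * mono (Φ j) ![a, b] v)) * this
  simp only [e hτ]
  refine Tendsto.const_mul _ ?_
  obtain ⟨R, hR⟩ := exists_R_of_compact hτ.hcs.isCompact hτ.sub
  obtain ⟨C, hC⟩ := h.lb_TT a (-b) R
  rw [Metric.tendsto_nhds]
  intro ε hε
  set M := μ.real (KB R)
  have hM : 0 ≤ M := measureReal_nonneg
  set δ := ε / (3 * (|C| + M + 1)) with hδ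
  have hδ0 : 0 < δ := by positivity
  have hδ1 : δ * (|C| + M + 1) = ε / 3 := by rw [hδ]; field_simp
  obtain ⟨g, hg, hgd, hg1, hg2⟩ := hτ.approx hδ0
  have t := hμ.mode_smoothA h hg hgd a (-b)
  simp only [sub_neg_eq_add] at t
  have hz : ∀ v ∈ cslab, R < ‖v‖ → g (pr v) - τ (pr v) = 0 := by
    intro v hv h'
    have h1 : pr v ∉ tsupport τ := fun h2 => by linarith [hR v hv h2]
    rw [image_eq_zero_of_notMem_tsupport h1, image_eq_zero_of_notMem_tsupport fun h2 => h1 (hg2 h2)]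
    simp
  have hb : ∀ v ∈ Om, ‖(g (pr v) - τ (pr v)) * om v ^ (-(a + b))‖ ≤ δ := by
    intro v hv
    rw [norm_mul, norm_zpow, norm_om (snd_ne_zero hv)]; simpa using hg1 _
  have co := (contDiffOn_om_zpow (n := 0) (-(a + b))).continuousOn
  have n2 : ‖(∫ v, g (pr v) * om v ^ (-(a + b)) ∂μ) - ∫ v, τ (pr v) * om v ^ (-(a + b)) ∂μ‖
      ≤ δ * M := by
    rw [← integral_sub (hμ.integrable (hg.wcs _) (hg.contOn.mul co))
      (hμ.integrable (hτ.wcs _) (hτ.contOn.mul co)),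
      ← setIntegral_eq_integral_of_ae_compl_eq_zero (s := KB R)]
    · refine norm_setIntegral_le_of_norm_le_const (isCompact_KB R).measure_lt_top fun v hv => ?_
      rw [← sub_mul]; exact hb v (KB_subset_Om R hv)
    · filter_upwards [hμ.ae_cslab] with v hv h'
      rw [← sub_mul, hz v hv, zero_mul]
      by_contra h3
      exact h' ⟨by simpa using h3, hv⟩
  filter_upwards [hC, Metric.tendsto_nhds.1 t (ε / 3) (by positivity)] with j h1 h2
  have cT := ((h.lad j).cd_TT a (-b)).continuousOn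
  have n1 := norm_integral_mul_le (τ := fun v => (g (pr v) - τ (pr v)) * om v ^ (-(a + b))) (R := R)
    (fun v hv h' => by rw [hz v (slab_subset_cslab hv) h', zero_mul])
    (fun v hv => hb v (slab_subset_Om hv)) cT
  simp only [sub_mul] at n1
  rw [integral_sub (((hg.cs.mul_right _).mul_right _).integrable ((hg.contOn.mul co).mul cT))
    (((hτ.cs.mul_right _).mul_right _).integrable ((hτ.contOn.mul co).mul cT))] at n1
  rw [dist_eq_norm] at h2 ⊢
  have n1' := n1.trans (mul_le_mul_of_nonneg_left (h1.trans (le_abs_self C)) hδ0.le)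
  rw [norm_sub_rev] at n1'
  have := norm_sub_le_norm_sub_add_norm_sub
    (∫ v, τ (pr v) * om v ^ (-(a + b)) * TT (Φ j) a (-b) v ∂mV)
    (∫ v, g (pr v) * om v ^ (-(a + b)) * TT (Φ j) a (-b) v ∂mV)
    (∫ v, τ (pr v) * om v ^ (-(a + b)) ∂μ)
  have := norm_sub_le_norm_sub_add_norm_sub
    (∫ v, g (pr v) * om v ^ (-(a + b)) * TT (Φ j) a (-b) v ∂mV)
    (∫ v, g (pr v) * om v ^ (-(a + b)) ∂μ)
    (∫ v, τ (pr v) * om v ^ (-(a + b)) ∂μ)
  nlinarith

theorem IsLim.mp_LgA (h : FamA U Φ) (hμ : IsLim U Φ μ) {a b c d : ℝ} (hd : a * d - b * c = 1)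
    (hi : ∀ j n, Inv a b c d (Φ j n)) : MeasurePreserving (Lg a b c d) μ μ := by
  have := hμ.lf
  refine measurePreserving_of_smooth (LgH hd) fun F hF hc => ?_
  refine tendsto_nhds_unique (hμ.tend _ (hF.continuous.comp (LgH hd).continuous)
    (hc.comp_homeomorph (LgH hd))) ((hμ.tend F hF.continuous hc).congr fun p => ?_)
  have mp := measurePreserving_Lg_mV hd
  rw [← mp.map_eq, integral_map mp.measurable.aemeasurable
    (by rw [mp.map_eq]; exact (h.int_dens hF.continuous hc p).1), mp.map_eq]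
  refine integral_congr_ae (Pool.Agent.Lib.MP_a52643_an.ae_Om.mono fun v hv => ?_)
  simp only [dens, SS, hi _ _ v hv]
  rfl

lemma IsLim.QQ_twoA (h : FamA U Φ) (hμ : IsLim U Φ μ) {τ : ℂ → ℂ} (hτ : TF τ) (p : ℝ[X]) :
    QQ (ι := Fin 2) U Φ τ (aeval (cc 0 1) p) = (p.eval (-1) : ℝ) * ∫ v, τ (pr v) ∂μ := by
  have hu : ∀ v i, ![(ou v)⁻¹, -(ou v)⁻¹] i ≠ 0 := fun v i => by
    fin_cases i <;> simp [ou_ne_zero]
  have ii : ∀ P : LA (Fin 2), Integrable
      (fun v => τ (pr v) * evC ![(ou v)⁻¹, -(ou v)⁻¹] (hu v) P) μ := fun P => by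
    obtain ⟨m, C, hC⟩ := ev2_bound P hu
    exact (hμ.integrable_tf hτ).mul_bdd m.aestronglyMeasurable (Eventually.of_forall hC)
  have key : ∀ P : LA (Fin 2), QQ U Φ τ P
      = ∫ v, τ (pr v) * evC ![(ou v)⁻¹, -(ou v)⁻¹] (hu v) P ∂μ := by
    intro P
    induction P using AddMonoidAlgebra.induction_linear with
    | zero => simp
    | add f g hf hg => simp only [map_add, mul_add, hf, hg]; rw [integral_add (ii f) (ii g)]
    | single a c =>
      have e : a = ![a 0, a 1] := by ext i; fin_cases i <;> rfl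
      have t := tendsto_ul (h.isBigO_psi (by simp) a hτ)
      rw [e] at t
      have t' := tendsto_nhds_unique t (hμ.modeA h hτ (a 0) (a 1))
      rw [← e] at t'
      simp only [QQ, lin_single, t', evC_single, real_smul, ← integral_const_mul]
      refine integral_congr_ae (hμ.ae_cslab.mono fun v hv => ?_)
      have h0 := om_ne_zero (snd_ne_zero (cslab_subset_Om hv))
      simp only [ou_eq (cslab_subset_Om hv), Fin.prod_univ_two, Matrix.cons_val]
      rw [neg_eq_neg_one_mul (om v)⁻¹, mul_zpow, neg_add, zpow_add₀ h0, zpow_neg, zpow_neg,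
        inv_zpow, inv_zpow]
      ring
  rw [key, ← integral_const_mul]
  congr 1; ext v
  rw [evC_cc_two, mul_comm]

lemma FamA.tendsto_GR (h : FamA U Φ) (hμ : IsLim U Φ μ) {τ : ℂ → ℝ} (hτ : TF τ) (p : ℝ[X]) :
    Tendsto (fun j => ∫ z, τ z * GR (Φ j) p z ∂hyp) U (𝓝 (p.eval (-1) * ∫ v, τ (pr v) ∂μ)) := by
  have := (continuous_re.tendsto _).comp
    (h.tendsto_QQ (ι := Fin 2) (by simp) hτ.ofReal (aeval (cc 0 1) p))
  rw [hμ.QQ_twoA h hτ.ofReal, integral_complex_ofReal, ← ofReal_mul, ofReal_re] at this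
  refine this.congr fun j => ?_
  simp only [Function.comp, (h.lad j).GR_eq, ← ofReal_mul, integral_complex_ofReal, ofReal_re]

end fam

end Pool.Agent.Lib.MP_a52643_an
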