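import Pool.Agent.Lib.MP_a52643_an.VC.VLB
import Pool.Agent.Lib.MP_a52643_an.VC.TwoA

/-!
Square bounds and the shift relation for approximate ladders.
-/

open Complex MeasureTheory Set Filter Topology Asymptotics Metric
open scoped ComplexConjugate ContDiff ENNReal Laplacian

noncomputable section

namespace Pool.Agent.Lib.MP_a52643_an

variable {ℓ : ℂ → ℝ} {Cb : ℤ → V → ℝ} {J : Type} {l : Filter J} {m : J → ℝ} {Φ : J → ℤ → V → ℂ}

lemma twv_le {u w : J → V → ℝ} (hw : LB l w) (cu : ∀ j, ContinuousOn (u j) Om)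
    (cw : ∀ j, ContinuousOn (w j) Om)
    (h : ∀ R, ∃ C : ℝ, 0 ≤ C ∧ ∀ j, ∀ v ∈ KB R, u j v ≤ C * w j v) : LB l u := by
  intro R
  obtain ⟨C, hC0, hC⟩ := h R
  obtain ⟨D, hD⟩ := hw R
  refine ⟨C * D, hD.mono fun j hj => ?_⟩
  calc ∫ v in KB R, u j v ∂mV ≤ ∫ v in KB R, C * w j v ∂mV :=
        setIntegral_mono_on (integrableOn_KB (cu j) R) ((integrableOn_KB (cw j) R).const_mul C)
          (measurableSet_KB R) (hC j)
    _ = C * ∫ v in KB R, w j v ∂mV := integral_const_mul _ _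
    _ ≤ C * D := mul_le_mul_of_nonneg_left hj hC0

lemma twv_add {u w : J → V → ℝ} (hu : LB l u) (hw : LB l w) (cu : ∀ j, ContinuousOn (u j) Om)
    (cw : ∀ j, ContinuousOn (w j) Om) : LB l fun j v => u j v + w j v := by
  intro R
  obtain ⟨C, hC⟩ := hu R
  obtain ⟨D, hD⟩ := hw R
  refine ⟨C + D, ?_⟩
  filter_upwards [hC, hD] with j h1 h2
  rw [integral_add (integrableOn_KB (cu j) R) (integrableOn_KB (cw j) R)]
  linarith

lemma twv_sum {u : ℕ → J → V → ℝ} (N : ℕ) (hu : ∀ k < N, LB l (u k))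
    (cu : ∀ k j, ContinuousOn (u k j) Om) : LB l fun j v => ∑ k ∈ Finset.range N, u k j v := by
  induction N with
  | zero => exact fun R => ⟨0, Eventually.of_forall fun j => by simp⟩
  | succ N ih =>
    simp only [Finset.sum_range_succ]
    exact twv_add (ih fun k hk => hu k (by omega)) (hu N (by omega))
      (fun j => continuousOn_finsetSum _ fun k _ => cu k j) (cu N)

lemma twv_SN (h : ∀ j, Pre (Φ j)) (n : ℤ)
    (hk : ∀ k : ℕ, k ≤ n.natAbs → LB l fun j v => ‖Φ j k v‖ ^ 2) :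
    LB l fun j v => SN (Φ j) n v ^ 2 :=
  twv_le (twv_sum (u := fun k j v => ‖Φ j k v‖ ^ 2) (n.natAbs + 1) (fun k hk' => hk k (by omega))
    fun k j => ((h j).cont _).norm.pow 2) (fun j => ((h j).cont_SN n).pow 2)
    (fun j => continuousOn_finsetSum _ fun k _ => ((h j).cont _).norm.pow 2)
    fun R => ⟨n.natAbs + 1, by positivity, fun j v _ => SN_sq_le _ n v⟩

lemma twv_arith {z Z C S a b : ℝ} (hz0 : 0 ≤ z) (hz1 : z ≤ 1) (hZ : 0 ≤ Z) (hC : 0 ≤ C)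
    (ha : 0 ≤ a) (hb : 0 ≤ b) (haS : a ≤ S) :
    2 * z * Z * (a * b) + 2 * z ^ 2 * C * (a * b) + z ^ 2 * (C * S * b) + z ^ 2 * (a * (C * S))
      ≤ (Z + 3 * C) * (S ^ 2 + z ^ 2 * b ^ 2) := by
  have hS : 0 ≤ S := ha.trans haS
  have h1 : 2 * (S * (z * b)) ≤ S ^ 2 + z ^ 2 * b ^ 2 := by nlinarith [sq_nonneg (S - z * b)]
  have h2 : a * (z * b) ≤ S * (z * b) := by gcongr
  have h3 : z * (S * (z * b)) ≤ S * (z * b) := mul_le_of_le_one_left (by positivity) hz1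
  have h4 : z * (a * (z * b)) ≤ S * (z * b) := (mul_le_of_le_one_left (by positivity) hz1).trans h2
  have h5 : z ^ 2 * (a * S) ≤ S ^ 2 := by
    have : z ^ 2 ≤ 1 := by nlinarith
    have e : a * S ≤ S ^ 2 := by nlinarith
    exact (mul_le_of_le_one_left (by positivity) this).trans e
  have h6 : 0 ≤ z ^ 2 * b ^ 2 := by positivity
  have k1 := mul_le_mul_of_nonneg_left h2 hZ
  have k2 := mul_le_mul_of_nonneg_left h1 hZ
  have k3 := mul_le_mul_of_nonneg_left h3 hC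
  have k4 := mul_le_mul_of_nonneg_left h4 hC
  have k5 := mul_le_mul_of_nonneg_left h5 hC
  have k6 := mul_le_mul_of_nonneg_left h1 hC
  have k7 := mul_nonneg hC h6
  have k8 := mul_nonneg hC (sq_nonneg S)
  nlinarith

lemma twv_hasE {m : ℝ} {Φ : ℤ → V → ℂ} (h : Pre Φ) (ℓ : ℂ → ℝ) (a b : ℤ) {v : V} (hv : v ∈ Om) :
    Ep (TT Φ a (b + 1)) v = I * m * sV ℓ v * (TT Φ (a + 1) (b + 1) v - TT Φ a b v)
      + (a - b - 1) * AV ℓ v * TT Φ a (b + 1) v + eU ℓ m Φ a v * conj (Φ (b + 1) v)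
      + conj (eD ℓ m Φ b v) * Φ a v := by
  have e := ((h.hasE ℓ m a hv).mul (h.hasE ℓ m (b + 1) hv).conj).ep
  have e0 : TT Φ a (b + 1) = fun w => Φ a w * conj (Φ (b + 1) w) := rfl
  rw [e0, e]
  simp only [TT, map_add, map_sub, map_mul, conj_I, conj_ofReal, add_sub_cancel_right,
    Complex.conj_conj, map_intCast]
  push_cast
  ring

lemma twv_step {m : ℝ} {Φ : ℤ → V → ℂ} {ζ : V → ℝ} {R Z C : ℝ} (ok : OKC ℓ Cb)
    (h : VL ℓ Cb m Φ) (hc : Cut ζ R Z) (n : ℤ) (hC : 0 ≤ C)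
    (hb : ∀ v ∈ KB R, Cb n v ≤ C ∧ ‖AV ℓ v‖ ≤ C ∧ sV ℓ v ≤ C ∧ (sV ℓ v)⁻¹ ≤ C) :
    m * ∫ v, ζ v ^ 2 * ‖Φ (n + 1) v‖ ^ 2 ∂mV ≤
      (m + C * (Z + 3 * C)) * (∫ v in KB R, SN Φ n v ^ 2 ∂mV)
        + C * (Z + 3 * C) * ∫ v, ζ v ^ 2 * ‖Φ (n + 1) v‖ ^ 2 ∂mV := by
  have hp := h.toPre
  have ib : Integrable (fun v => ζ v ^ 2 * ‖Φ (n + 1) v‖ ^ 2) mV :=
    hc.int_pow 1 ((hp.cont _).norm.pow 2)
  have iA := integrable_ind_mul (F := fun v => SN Φ n v ^ 2) ((hp.cont_SN n).pow 2) R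
  set G : V → ℂ := fun v => (ζ v * ζ v : ℂ) * (sV ℓ v : ℂ)⁻¹ * TT Φ n (n + 1) v with hG
  have hG1 : ContDiffOn ℝ 1 G Om :=
    ((hc.cdo.mul hc.cdo).mul ((cd_sC_inv ok.sm).of_le (by simp))).mul (hp.cd_TT _ _)
  have hG2 : CS G := ((hc.csc.mul_right _).mul_right _).mul_right _
  have key := le_of_ibp3 (H := fun v => Ep G v) (C * (Z + 3 * C) - m) (m + C * (Z + 3 * C)) 0
    (hG2.Ep.integrable (continuousOn_Ep hG1)) (integral_Ep hG1 hG2) ib iA iA ?_
  · rw [integral_ind_mul] at key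
    linarith
  intro v hv
  have hv' := slab_subset_Om hv
  have e := ((((hc.hasE hv').mul (hc.hasE hv')).mul (hasE_sC_inv ok.sm hv')).mul
    (HasE.of_diff (diffAt_of_Om (hp.cd_TT n (n + 1)) one_ne_zero hv'))).ep
  rw [twv_hasE (m := m) hp ℓ n n hv'] at e
  set P : ℂ := 2 * ζ v * Ep (fun w => (ζ w : ℂ)) v * (Φ n v * conj (Φ (n + 1) v))
    - 2 * ζ v ^ 2 * AV ℓ v * (Φ n v * conj (Φ (n + 1) v))
    + ζ v ^ 2 * (eU ℓ m Φ n v * conj (Φ (n + 1) v)) + ζ v ^ 2 * (Φ n v * conj (eD ℓ m Φ n v))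
    with hP
  have e' : Ep G v = (sV ℓ v : ℂ)⁻¹ * P + I * ((ζ v ^ 2 * (m * ‖Φ (n + 1) v‖ ^ 2
      - m * ‖Φ n v‖ ^ 2) : ℝ) : ℂ) := by
    rw [hG, e, hP]
    have a1 := mul_conj_sq (Φ n v)
    have a2 := mul_conj_sq (Φ (n + 1) v)
    have a3 : (sV ℓ v : ℂ)⁻¹ * sV ℓ v = 1 := inv_mul_cancel₀ (sC_ne v)
    simp only [ofReal_mul, ofReal_sub, ← a1, ← a2, TT]
    push_cast
    linear_combination (I * m * ζ v ^ 2 * (Φ (n + 1) v * conj (Φ (n + 1) v)
      - Φ n v * conj (Φ n v))) * a3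
  have hZ : 0 ≤ Z := (norm_nonneg _).trans (hc.em v hv)
  have hm := h.m_pos
  have hz0 := hc.nonneg v
  have hz1 := hc.le_one v
  have h1 := neg_im_le_norm ((sV ℓ v : ℂ)⁻¹ * P)
  have hS := SN_nonneg Φ n v
  have haS := hp.norm_le_SN (k := n) (n := n) le_rfl v
  rw [e', add_im, I_mul_im, ofReal_re]
  by_cases hK : v ∈ KB R
  · obtain ⟨b1, b2, -, b4⟩ := hb v hK
    have u1 : ‖eU ℓ m Φ n v‖ ≤ C * SN Φ n v :=
      (h.eu_le n hv').trans (mul_le_mul_of_nonneg_right b1 hS)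
    have u2 : ‖eD ℓ m Φ n v‖ ≤ C * SN Φ n v :=
      (h.ed_le n hv').trans (mul_le_mul_of_nonneg_right b1 hS)
    have u3 := hc.ep v hv
    have hPn : ‖P‖ ≤ 2 * ζ v * Z * (‖Φ n v‖ * ‖Φ (n + 1) v‖)
        + 2 * ζ v ^ 2 * C * (‖Φ n v‖ * ‖Φ (n + 1) v‖) + ζ v ^ 2 * (C * SN Φ n v * ‖Φ (n + 1) v‖)
        + ζ v ^ 2 * (‖Φ n v‖ * (C * SN Φ n v)) := by
      rw [hP]
      refine (norm_add_le _ _).trans (add_le_add ((norm_add_le _ _).trans
        (add_le_add ((norm_sub_le _ _).trans (add_le_add ?_ ?_)) ?_)) ?_) <;>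
      simp only [norm_mul, norm_pow, Complex.norm_real, Complex.norm_ofNat, RCLike.norm_conj,
        Real.norm_of_nonneg hz0] <;> gcongr
    have h2 := hPn.trans (twv_arith hz0 hz1 hZ hC (norm_nonneg _) (norm_nonneg _) haS)
    have h3 : ‖(sV ℓ v : ℂ)⁻¹ * P‖
        ≤ C * ((Z + 3 * C) * (SN Φ n v ^ 2 + ζ v ^ 2 * ‖Φ (n + 1) v‖ ^ 2)) := by
      rw [norm_mul, norm_inv, Complex.norm_real, Real.norm_of_nonneg (sV_pos v).le]
      exact mul_le_mul b4 h2 (norm_nonneg _) hC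
    have h5 : ζ v ^ 2 * ‖Φ n v‖ ^ 2 ≤ SN Φ n v ^ 2 := by
      have : ζ v ^ 2 ≤ 1 := by nlinarith
      exact (mul_le_of_le_one_left (by positivity) this).trans
        (pow_le_pow_left₀ (norm_nonneg _) haS 2)
    have h6 := mul_le_mul_of_nonneg_left h5 hm.le
    rw [indicator_of_mem hK]
    nlinarith
  · have h0 : ζ v = 0 := by
      refine hc.zero v ?_
      by_contra h'
      exact hK ⟨by simpa using h', slab_subset_cslab hv⟩
    rw [indicator_of_notMem hK, hP, h0]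
    simp

lemma twv_two_step (ok : OKC ℓ Cb) (hL : ∀ j, VL ℓ Cb (m j) (Φ j)) (hm : Tendsto m l atTop)
    (n : ℤ) (h : LB l fun j v => SN (Φ j) n v ^ 2) : LB l fun j v => ‖Φ j (n + 1) v‖ ^ 2 := by
  refine LB.of_pos (fun j v => by positivity) (fun j => ((hL j).toPre.cont _).norm.pow 2)
    fun R hR => ?_
  obtain ⟨ζ, Z, hc, h1⟩ := exists_cut hR
  obtain ⟨D, hD⟩ := h (R + 1)
  obtain ⟨C, hC1, hC⟩ := ok.bound (isCompact_KB (R + 1)) (KB_subset_Om _) n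
  refine ⟨3 * D, ?_⟩
  filter_upwards [hD, hm.eventually_ge_atTop (2 * (C * (Z + 3 * C)))] with j hj t1
  have s0 := twv_step ok (hL j) hc n (by linarith) hC
  have s1 := hc.setIntegral_le h1 1 (F := fun v => ‖Φ j (n + 1) v‖ ^ 2)
    (((hL j).toPre.cont (n + 1)).norm.pow 2) fun v => by positivity
  have hA : 0 ≤ ∫ v in KB (R + 1), SN (Φ j) n v ^ 2 ∂mV := integral_nonneg fun v => by positivity
  have hb : 0 ≤ ∫ v, ζ v ^ 2 * ‖Φ j (n + 1) v‖ ^ 2 ∂mV := integral_nonneg fun v => by positivity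
  have hp := (hL j).m_pos
  set A := ∫ v in KB (R + 1), SN (Φ j) n v ^ 2 ∂mV
  set b := ∫ v, ζ v ^ 2 * ‖Φ j (n + 1) v‖ ^ 2 ∂mV
  have g : m j * b ≤ m j * (3 * A) := by
    nlinarith [mul_le_mul_of_nonneg_right (show C * (Z + 3 * C) ≤ m j / 2 by linarith)
      (add_nonneg hA hb)]
  have := le_of_mul_le_mul_left g hp
  have s1' : ∫ v in KB R, ‖Φ j (n + 1) v‖ ^ 2 ∂mV ≤ b := s1
  linarith

theorem LB_twoV (ok : OKC ℓ Cb) (hL : ∀ j, VL ℓ Cb (m j) (Φ j)) (hm : Tendsto m l atTop)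
    (h : LB l fun j v => ‖Φ j 0 v‖ ^ 2) (n : ℤ) : LB l fun j v => ‖Φ j n v‖ ^ 2 := by
  have key : ∀ n : ℕ, LB l fun j v => ‖Φ j n v‖ ^ 2 := by
    intro n
    induction n using Nat.strong_induction_on with
    | _ n ih =>
      cases n with
      | zero => exact h
      | succ n =>
        exact_mod_cast twv_two_step ok hL hm n
          (twv_SN (fun j => (hL j).toPre) n fun k hk => ih k (by simpa [Nat.lt_succ_iff] using hk))
  rcases Int.eq_nat_or_neg n with ⟨k, rfl | rfl⟩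
  · exact key k
  · simpa only [(hL _).toPre.norm_neg] using key k

lemma twv_div (hm : Tendsto m l atTop) {f : J → ℂ}
    (hf : (fun j => (m j : ℂ) * f j) =O[l] fun _ => (1 : ℝ)) : Tendsto f l (𝓝 0) := by
  have h1 : (fun j => ((m j : ℂ))⁻¹) =o[l] fun _ => (1 : ℝ) := by
    rw [isLittleO_one_iff]
    simpa using (tendsto_inv_atTop_zero.comp hm).ofReal
  have h2 := h1.mul_isBigO hf
  simp only [mul_one, isLittleO_one_iff] at h2
  refine h2.congr' ?_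
  filter_upwards [hm.eventually_gt_atTop 0] with j hj
  have : (m j : ℂ) ≠ 0 := by exact_mod_cast hj.ne'
  rw [inv_mul_cancel_left₀ this]

/-- products of an error term with a ladder function are negligible -/
lemma FamV.err (h : FamV ℓ Cb l m Φ) {E : J → V → ℂ} (cE : ∀ j, ContinuousOn (E j) Om) {n : ℤ}
    (hE : ∀ j, ∀ v ∈ Om, m j * ‖E j v‖ ≤ Cb n v * SN (Φ j) n v) {G : J → V → ℂ}
    (cG : ∀ j, ContinuousOn (G j) Om) {b : ℤ} (hG : ∀ j v, ‖G j v‖ = ‖Φ j b v‖) {τ : V → ℂ}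
    (hc : CS τ) (hτ : ContinuousOn τ Om) :
    Tendsto (fun j => ∫ v, τ v * (E j v * G j v) ∂mV) l (𝓝 0) := by
  have hp : ∀ j, Pre (Φ j) := fun j => (h.vl j).toPre
  have cF : ∀ j, ContinuousOn (fun v => (m j : ℂ) * (E j v * G j v)) Om := fun j =>
    continuousOn_const.mul ((cE j).mul (cG j))
  have c1 : ∀ j, ContinuousOn (fun v => SN (Φ j) n v ^ 2) Om := fun j => ((hp j).cont_SN n).pow 2
  have c2 : ∀ j, ContinuousOn (fun v => ‖Φ j b v‖ ^ 2) Om := fun j => ((hp j).cont b).norm.pow 2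
  have lb : LB l fun j v => ‖(m j : ℂ) * (E j v * G j v)‖ := by
    refine twv_le (twv_add (twv_SN hp n fun k _ => h.two k) (h.two b) c1 c2)
      (fun j => (cF j).norm) (fun j => (c1 j).add (c2 j)) fun R => ?_
    obtain ⟨C, hC1, hC⟩ := h.ok.bound (isCompact_KB R) (KB_subset_Om _) n
    refine ⟨C, by linarith, fun j v hv => ?_⟩
    have hS := SN_nonneg (Φ j) n v
    have a1 := (hE j v (KB_subset_Om R hv)).trans (mul_le_mul_of_nonneg_right (hC v hv).1 hS)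
    have a2 := mul_le_mul_of_nonneg_right a1 (norm_nonneg (Φ j b v))
    have a3 : SN (Φ j) n v * ‖Φ j b v‖ ≤ SN (Φ j) n v ^ 2 + ‖Φ j b v‖ ^ 2 := by
      nlinarith [sq_nonneg (SN (Φ j) n v - ‖Φ j b v‖), mul_nonneg hS (norm_nonneg (Φ j b v))]
    have a4 := mul_le_mul_of_nonneg_left a3 (by linarith : 0 ≤ C)
    rw [norm_mul, norm_mul, hG, Complex.norm_real, Real.norm_of_nonneg (h.vl j).m_pos.le]
    linarith
  refine twv_div h.tend ((lb.isBigO cF hc hτ).congr_left fun j => ?_)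
  rw [← integral_const_mul]
  exact integral_congr_ae (Eventually.of_forall fun v => by ring)

lemma twv_TT (h : FamV ℓ Cb l m Φ) (a b : ℤ) {τ : V → ℂ} (hc : CS τ) (hτ : ContinuousOn τ Om) :
    (fun j => ∫ v, τ v * TT (Φ j) a b v ∂mV) =O[l] fun _ => (1 : ℝ) := by
  have hp : ∀ j, Pre (Φ j) := fun j => (h.vl j).toPre
  have c : ∀ b j, ContinuousOn (fun v => ‖Φ j b v‖ ^ 2) Om := fun b j =>
    ((hp j).cont b).norm.pow 2
  have cT : ∀ j, ContinuousOn (TT (Φ j) a b) Om := fun j => ((hp j).cd_TT a b).continuousOn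
  refine LB.isBigO (twv_le (twv_add (h.two a) (h.two b) (c a) (c b)) (fun j => (cT j).norm)
    (fun j => (c a j).add (c b j)) fun R => ⟨1, zero_le_one, fun j v _ => ?_⟩) cT hc hτ
  simp only [TT, norm_mul, RCLike.norm_conj]
  nlinarith [sq_nonneg (‖Φ j a v‖ - ‖Φ j b v‖), mul_nonneg (norm_nonneg (Φ j a v))
    (norm_nonneg (Φ j b v))]

theorem FamV.famA (h : FamV ℓ Cb l m Φ) : FamA l Φ := by
  have hp : ∀ j, Pre (Φ j) := fun j => (h.vl j).toPre
  refine ⟨hp, h.two, fun {τ} hc hτ a b => ?_⟩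
  set σ : V → ℂ := fun v => τ v * (sV ℓ v : ℂ)⁻¹ with hσ
  have s1 : ContDiffOn ℝ 1 σ Om := hτ.mul ((cd_sC_inv h.ok.sm).of_le (by simp))
  have s2 : CS σ := hc.mul_right _
  have cA := (cd_AV h.ok.sm).continuousOn
  have cU := fun j => (hp j).cont_eU h.ok.sm (m j) a
  have cD : ∀ j, ContinuousOn (fun v => conj (eD ℓ (m j) (Φ j) b v)) Om := fun j =>
    continuous_conj.comp_continuousOn ((hp j).cont_eD h.ok.sm (m j) b)
  have cB : ∀ j, ContinuousOn (fun v => conj (Φ j (b + 1) v)) Om := fun j =>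
    continuous_conj.comp_continuousOn ((hp j).cont _)
  have o1 := twv_TT h a (b + 1) s2.Ep (continuousOn_Ep s1)
  have o2 := twv_TT h a (b + 1) (s2.mul_right (AV ℓ)) (s1.continuousOn.mul cA)
  have o3 := (h.err cU (fun j => (h.vl j).eu a) cB (b := b + 1) (fun j v => RCLike.norm_conj _)
    s2 s1.continuousOn).isBigO_one ℝ
  have o4 := (h.err cD (n := b) (fun j v hv => by rw [RCLike.norm_conj]; exact (h.vl j).ed b v hv)
    (fun j => (hp j).cont a) (b := a) (fun j v => rfl) s2 s1.continuousOn).isBigO_one ℝ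
  refine twv_div h.tend (((((o1.add (o2.const_mul_left ((a : ℂ) - b - 1))).add o3).add
    o4).const_mul_left I).congr_left fun j => ?_)
  have e := ibp_Ep s1 s2 ((hp j).cd_TT a (b + 1))
  have i : ∀ c d, Integrable (fun v => τ v * TT (Φ j) c d v) mV := fun c d =>
    (hc.mul_right _).integrable (hτ.continuousOn.mul ((hp j).cd_TT c d).continuousOn)
  have i1 : Integrable (fun v => I * m j * (τ v * TT (Φ j) (a + 1) (b + 1) v
      - τ v * TT (Φ j) a b v)) mV := ((i (a + 1) (b + 1)).sub (i a b)).const_mul (I * m j)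
  have i2 : Integrable (fun v => ((a : ℂ) - b - 1) * (σ v * AV ℓ v * TT (Φ j) a (b + 1) v)) mV :=
    (((s2.mul_right _).mul_right _).integrable
      ((s1.continuousOn.mul cA).mul ((hp j).cd_TT _ _).continuousOn)).const_mul _
  have i3 : Integrable (fun v => σ v * (eU ℓ (m j) (Φ j) a v * conj (Φ j (b + 1) v))) mV :=
    (s2.mul_right _).integrable (s1.continuousOn.mul ((cU j).mul (cB j)))
  have i4 : Integrable (fun v => σ v * (conj (eD ℓ (m j) (Φ j) b v) * Φ j a v)) mV :=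
    (s2.mul_right _).integrable (s1.continuousOn.mul ((cD j).mul ((hp j).cont a)))
  have e2 : ∫ v, σ v * Ep (TT (Φ j) a (b + 1)) v ∂mV
      = I * m j * ((∫ v, τ v * TT (Φ j) (a + 1) (b + 1) v ∂mV) - ∫ v, τ v * TT (Φ j) a b v ∂mV)
        + ((a : ℂ) - b - 1) * (∫ v, σ v * AV ℓ v * TT (Φ j) a (b + 1) v ∂mV)
        + (∫ v, σ v * (eU ℓ (m j) (Φ j) a v * conj (Φ j (b + 1) v)) ∂mV)
        + ∫ v, σ v * (conj (eD ℓ (m j) (Φ j) b v) * Φ j a v) ∂mV := by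
    rw [← integral_sub (i _ _) (i _ _), ← integral_const_mul, ← integral_const_mul,
      ← integral_add i1 i2, ← integral_add (by exact i1.add i2) i3,
      ← integral_add (by exact (i1.add i2).add i3) i4]
    refine integral_congr_ae (ae_Om.mono fun v hv => ?_)
    have a3 : (sV ℓ v : ℂ)⁻¹ * sV ℓ v = 1 := inv_mul_cancel₀ (sC_ne v)
    simp only [twv_hasE (m := m j) (hp j) ℓ a b hv, hσ]
    linear_combination (I * m j * τ v * (TT (Φ j) (a + 1) (b + 1) v - TT (Φ j) a b v)) * a3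
  rw [e2] at e
  linear_combination I * e - (m j * ((∫ v, τ v * TT (Φ j) (a + 1) (b + 1) v ∂mV)
    - ∫ v, τ v * TT (Φ j) a b v ∂mV)) * I_mul_I

end Pool.Agent.Lib.MP_a52643_an
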