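import Pool.Agent.Lib.MP_a52643_an.VC.CoreV

/-!
Lower bound for the truncated fourth moment in variable negative curvature.
-/

open MeasureTheory Set Filter Topology Metric UpperHalfPlane
open scoped ENNReal MatrixGroups Pointwise NNReal ComplexConjugate ContDiff Laplacian

noncomputable section

namespace Pool.Agent.Lib.MP_a52643_an

variable {Γ : Type*} [Group Γ] [MulAction Γ ℍ] [Countable Γ] {l : Γ → SL2} {D : Set ℍ}
  {ℓ : ℂ → ℝ}

section general

variable {X : Type*} [MeasurableSpace X] {m : Measure X} [IsFiniteMeasure m]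

lemma uv_int {φ : X → ℝ} (hφ : Measurable φ) (i : Integrable (fun z => φ z ^ 2) m) {g : ℝ → ℝ}
    (hg : Continuous g) (g0 : ∀ t, 0 ≤ g t) {a b : ℝ} (hb : ∀ t, g t ≤ a + b * t ^ 2) :
    Integrable (fun z => g (φ z)) m :=
  ((integrable_const a).add (i.const_mul b)).mono'
    (hg.measurable.comp hφ).aestronglyMeasurable (Eventually.of_forall fun z => by
      rw [Real.norm_of_nonneg (g0 _)]; exact hb _)

lemma uv_HN {φ : X → ℝ} (hφ : Measurable φ) (i : Integrable (fun z => φ z ^ 2) m) {k : ℝ}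
    (hk : 0 ≤ k) : Integrable (fun z => HN k (φ z ^ 2)) m :=
  uv_int hφ i (g := fun t => HN k (t ^ 2)) ((continuous_HN _).comp (by fun_prop))
    (fun _ => HN_nonneg hk _) fun t => HN_le_lin hk (sq_nonneg t)

lemma uv_hub {J : Type} {U : Ultrafilter J} {φ : J → X → ℝ} {k : J → ℝ}
    (hφ : ∀ j, Measurable (φ j)) (h : ∀ j, Integrable (fun z => φ j z ^ 2) m)
    (hk : Tendsto k U atTop) {M : ℝ}
    (hM : ∀ᶠ j in (U : Filter J), ∫ z, HN (k j) (φ j z ^ 2) ∂m ≤ M) {η : ℝ} (hη : 0 < η) :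
    ∃ A ≥ 0, ∀ Λ > 0, ∀ᶠ j in (U : Filter J), ∫ z, hub A Λ (φ j z ^ 2) ∂m ≤ η := by
  have iM : ∀ j (N : ℕ), Integrable (fun z => min (φ j z ^ 2) N ^ 2) m := fun j N =>
    uv_int (hφ j) (h j) (g := fun t => min (t ^ 2) N ^ 2) (by fun_prop) (fun t => sq_nonneg _)
      (a := N ^ 2) (b := 0) fun t => by
        rw [zero_mul, add_zero]
        exact pow_le_pow_left₀ (le_min (sq_nonneg _) N.cast_nonneg) (min_le_right _ _) 2
  have iP : ∀ j (N : ℕ), Integrable (fun z => max (φ j z ^ 2 - N) 0) m := fun j N =>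
    uv_int (hφ j) (h j) (g := fun t => max (t ^ 2 - N) 0) (by fun_prop)
      (fun t => le_max_right _ _) (a := 0) (b := 1)
      fun t => max_le (by linarith [(N.cast_nonneg : (0 : ℝ) ≤ N)]) (by positivity)
  have b : ∀ N : ℕ, ∀ᶠ j in (U : Filter J), ∫ z, min (φ j z ^ 2) N ^ 2 ∂m ≤ M ∧
      N * ∫ z, max (φ j z ^ 2 - N) 0 ∂m ≤ M := fun N => by
    filter_upwards [hM, hk.eventually_ge_atTop N] with j h1 h2
    have iH := uv_HN (hφ j) (h j) (N.cast_nonneg.trans h2)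
    refine ⟨(integral_mono (iM j N) iH fun z =>
      min_sq_le_HN N.cast_nonneg h2 (sq_nonneg _)).trans h1, ?_⟩
    rw [← integral_const_mul]
    exact (integral_mono ((iP j N).const_mul _) iH fun z =>
      pos_le_HN N.cast_nonneg h2 (sq_nonneg _)).trans h1
  have t := fun N : ℕ => tendsto_ul (U := U) (f := fun j => ∫ z, min (φ j z ^ 2) N ^ 2 ∂m)
    (Asymptotics.IsBigO.of_bound M ((b N).mono fun j hj => by
      rw [Real.norm_of_nonneg (integral_nonneg fun z => sq_nonneg _)]; simpa using hj.1))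
  set G := fun N : ℕ => ul U fun j => ∫ z, min (φ j z ^ 2) N ^ 2 ∂m
  have bG : BddAbove (range G) := ⟨M, by
    rintro _ ⟨N, rfl⟩; exact le_of_tendsto (t N) ((b N).mono fun j hj => hj.1)⟩
  obtain ⟨A, hA⟩ := exists_lt_of_lt_ciSup (sub_lt_self (⨆ N, G N) (half_pos hη))
  refine ⟨A, A.cast_nonneg, fun Λ hΛ => ?_⟩
  obtain ⟨N, hN⟩ := exists_nat_gt (max (A : ℝ) (2 * Λ * M / (η / 2)))
  have h1 : (A : ℝ) < N := (le_max_left _ _).trans_lt hN
  have N0 : (0 : ℝ) < N := A.cast_nonneg.trans_lt h1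
  have h2 : 2 * Λ * M < N * (η / 2) :=
    (div_lt_iff₀ (half_pos hη)).1 ((le_max_right _ _).trans_lt hN)
  have lt : G N - G A < η / 2 := by linarith [le_ciSup bG N]
  filter_upwards [b N, ((t N).sub (t A)).eventually (gt_mem_nhds lt)] with j h3 h4
  have iw := uv_int (hφ j) (h j) (g := fun t => hub A Λ (t ^ 2))
    ((continuous_hub A Λ).comp (by fun_prop)) (fun t => hub_nonneg hΛ.le) (a := 0) (b := 2 * Λ)
    fun t => by simpa using hub_le_lin hΛ.le A.cast_nonneg (sq_nonneg t)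
  have mo := integral_mono iw (((iM j N).sub (iM j A)).add ((iP j N).const_mul (2 * Λ)))
    fun z => hub_le_min A.cast_nonneg h1.le hΛ.le
  simp only [Pi.add_apply, Pi.sub_apply] at mo
  rw [integral_add (by exact (iM j N).sub (iM j A)) ((iP j N).const_mul _),
    integral_sub (iM j N) (iM j A), integral_const_mul] at mo
  have h5 : 2 * Λ * ∫ z, max (φ j z ^ 2 - N) 0 ∂m ≤ η / 2 := by
    refine le_of_mul_le_mul_left ?_ N0
    nlinarith [mul_le_mul_of_nonneg_left h3.2 hΛ.le]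
  linarith

lemma uv_bessel {W : ℝ} (hW : ∫ _, (1 : ℝ) ∂m = W) (V0 : W ≠ 0) {f ψ : X → ℝ} {B : ℝ}
    (mf : Measurable f) (i : Integrable (fun z => f z ^ 2) m) (e2 : ∫ z, f z ∂m = 1)
    (hψ : Measurable ψ) (hB : ∀ z, |ψ z| ≤ B) (h0 : ∫ z, ψ z ∂m = 0)
    (h1 : ∫ z, ψ z ^ 2 ∂m ≤ 1) :
    1 / W + (∫ z, ψ z * f z ∂m) ^ 2 ≤ ∫ z, f z ^ 2 ∂m := by
  rw [integral_const, smul_eq_mul, mul_one] at hW
  set x := ∫ z, ψ z * f z ∂m with e1
  have i1 : Integrable f m := ((integrable_const 1).add i).mono' mf.aestronglyMeasurable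
    (Eventually.of_forall fun z => by
      rw [Real.norm_eq_abs, Pi.add_apply, ← sq_abs]; nlinarith [sq_nonneg (|f z| - 1)])
  have i2 : Integrable ψ m := integrable_of_abs_le hψ hB
  have i3 : Integrable (fun z => ψ z * f z) m :=
    i1.bdd_mul hψ.aestronglyMeasurable (Eventually.of_forall hB)
  have i4 : Integrable (fun z => ψ z ^ 2) m := integrable_of_abs_le (hψ.pow_const 2) (B := B ^ 2)
    fun z => by rw [abs_pow]; exact pow_le_pow_left₀ (abs_nonneg _) (hB z) 2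
  set c := 1 / W
  have key : ∫ z, (2 * c * f z + 2 * x * (ψ z * f z) - c ^ 2 - 2 * c * x * ψ z
      - x ^ 2 * ψ z ^ 2) ∂m ≤ ∫ z, f z ^ 2 ∂m :=
    integral_mono (((((i1.const_mul _).add (i3.const_mul _)).sub (integrable_const _)).sub
      (i2.const_mul _)).sub (i4.const_mul _)) i fun z => by
        simp only; nlinarith [sq_nonneg (f z - c - x * ψ z)]
  rw [integral_sub (by exact ((((i1.const_mul _).add (i3.const_mul _)).sub
      (integrable_const _)).sub (i2.const_mul _))) (i4.const_mul _),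
    integral_sub (by exact (((i1.const_mul _).add (i3.const_mul _)).sub (integrable_const _)))
      (i2.const_mul _), integral_sub (by exact (i1.const_mul _).add (i3.const_mul _))
      (integrable_const _), integral_add (i1.const_mul _) (i3.const_mul _), integral_const_mul,
    integral_const_mul, integral_const_mul, integral_const_mul, integral_const, ← e1, e2, h0,
    smul_eq_mul, hW] at key
  have e3 : W * c ^ 2 = c := by simp only [c]; field_simp
  nlinarith [mul_le_mul_of_nonneg_left h1 (sq_nonneg x)]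

end general

omit [Countable Γ] in
lemma EigV.uv_meas {φ : ℍ → ℝ} {lam : ℝ} (h : EigV Γ ℓ D φ lam) : Measurable φ := by
  have := h.sm.continuousOn.comp_continuous continuous_coe fun z => z.im_pos
  simp only [Function.comp_def, ofComplex_apply] at this
  exact this.measurable

omit [Group Γ] [MulAction Γ ℍ] [Countable Γ] in
lemma CG.uv_meas (hG : CG l ℓ) : Measurable fun z : ℍ => rh ℓ z := by
  have := hG.sm.continuousOn.comp_continuous continuous_coe fun z => z.im_pos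
  exact (Real.continuous_exp.comp (continuous_const.mul this)).measurable

omit [Countable Γ] in
/-- The weighted measure on the fundamental domain. -/
lemma uv_measure (hG : CG l ℓ) (hD : FD l D) : ∃ m : Measure ℍ, IsFiniteMeasure m ∧
    (∀ g : ℍ → ℝ, ∫ z in D, g z * rh ℓ z = ∫ z, g z ∂m) ∧
    ∀ g : ℍ → ℝ, IntegrableOn g D → Integrable g m := by
  have : IsFiniteMeasure (volume.restrict D) := isFiniteMeasure_restrict.2 hD.fin
  obtain ⟨C, -, hC⟩ := hG.rh_bd
  have p : ∀ z : ℍ, 0 < rh ℓ z := fun z => Real.exp_pos _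
  have mr : Measurable fun z : ℍ => ENNReal.ofReal (rh ℓ z) := hG.uv_meas.ennreal_ofReal
  have lt : ∀ᵐ z : ℍ ∂(volume.restrict D), ENNReal.ofReal (rh ℓ z) < ⊤ :=
    Eventually.of_forall fun z => ENNReal.ofReal_lt_top
  have bd : ∀ z : ℍ, |rh ℓ z| ≤ C := fun z => by
    rw [abs_of_pos (p z)]; exact (hC z z.im_pos).1
  refine ⟨(volume.restrict D).withDensity fun z => ENNReal.ofReal (rh ℓ z),
    isFiniteMeasure_withDensity_ofReal (integrable_of_abs_le hG.uv_meas bd).2, fun g => ?_,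
    fun g hg => ?_⟩
  · rw [integral_withDensity_eq_integral_toReal_smul mr lt]
    refine integral_congr_ae (Eventually.of_forall fun z => ?_)
    simp only [ENNReal.toReal_ofReal (p z).le, smul_eq_mul, mul_comm]
  · rw [integrable_withDensity_iff mr lt]
    simp only [fun z => ENNReal.toReal_ofReal (p z).le]
    exact hg.mul_bdd hG.uv_meas.aestronglyMeasurable (Eventually.of_forall bd)

theorem trunc_fourthV (hG : CG l ℓ) (hD : FD l D) {ψ : ℍ → ℝ} {B : ℝ} (hψ : Measurable ψ)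
    (hB : ∀ z, |ψ z| ≤ B) (h0 : ∫ z in D, ψ z * rh ℓ z = 0)
    (h1 : ∫ z in D, ψ z ^ 2 * rh ℓ z ≤ 1) {ε : ℝ} (hε : 0 < ε) :
    ∃ N > 0, ∃ L : ℝ, ∀ (φ : ℍ → ℝ) (lam : ℝ), EigV Γ ℓ D φ lam →
      ∫ z in D, φ z ^ 2 * rh ℓ z = 1 → L ≤ lam →
      3 / (∫ z in D, rh ℓ z) + 3 * (∫ z in D, ψ z * φ z ^ 2 * rh ℓ z) ^ 2 - ε
        ≤ ∫ z in D, HN N (φ z ^ 2) * rh ℓ z := by
  obtain ⟨m, hm, hi, hI⟩ := uv_measure hG hD
  obtain ⟨C, -, hC⟩ := hG.rh_bd
  have bd : ∀ z : ℍ, |rh ℓ z| ≤ C := fun z => by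
    rw [abs_of_pos (show 0 < rh ℓ z from Real.exp_pos _)]; exact (hC z z.im_pos).1
  have hW : ∫ _, (1 : ℝ) ∂m = ∫ z in D, rh ℓ z := by rw [← hi]; simp only [one_mul]
  set W := ∫ z in D, rh ℓ z
  by_contra hc
  push Not at hc
  choose φ lam h hn hl hb using fun j : ℕ => hc (j + 1) (by positivity) (j + 1)
  obtain ⟨U, hU⟩ := Ultrafilter.exists_le (atTop : Filter ℕ)
  have mφ : ∀ j, Measurable (φ j) := fun j => (h j).uv_meas
  have iφ : ∀ j, Integrable (fun z => φ j z ^ 2) m := fun j => hI _ (h j).int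
  have hn' := hn
  simp only [hi] at hn hb h0 h1
  have V0 : W ≠ 0 := fun e => by
    rw [← hW, integral_const, smul_eq_mul, mul_one, measureReal_eq_zero_iff,
      Measure.measure_univ_eq_zero] at e
    have := hn 0
    rw [e, integral_zero_measure] at this
    exact zero_ne_one this
  have b : ∀ j, |∫ z, ψ z * φ j z ^ 2 ∂m| ≤ B := fun j => by
    rw [← mul_one B, ← hn j, ← integral_const_mul, ← Real.norm_eq_abs]
    refine norm_integral_le_of_norm_le ((iφ j).const_mul _) (Eventually.of_forall fun z => ?_)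
    rw [norm_mul, Real.norm_of_nonneg (sq_nonneg (φ j z))]
    exact mul_le_mul_of_nonneg_right (hB z) (sq_nonneg _)
  have t := tendsto_ul (U := U) (f := fun j => ∫ z, ψ z * φ j z ^ 2 ∂m)
    (Asymptotics.IsBigO.of_bound B (Eventually.of_forall fun j => by simpa using b j))
  set x := ul U fun j => ∫ z, ψ z * φ j z ^ 2 ∂m
  have tk : Tendsto (fun j : ℕ => (j : ℝ) + 1) U atTop :=
    (tendsto_atTop_add_const_right _ _ tendsto_natCast_atTop_atTop).mono_left hU
  have hM : ∀ᶠ j : ℕ in (U : Filter ℕ), ∫ z, HN (j + 1) (φ j z ^ 2) ∂m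
      ≤ 3 / W + 3 * x ^ 2 - ε / 2 := by
    filter_upwards [((t.pow 2).const_mul 3).eventually
      (gt_mem_nhds (lt_add_of_pos_right _ (half_pos hε)))] with j h3
    linarith [hb j]
  obtain ⟨f, mf, i, q, hf⟩ := coreV (U := U) hG hD
    (fun j => le_trans (le_add_of_nonneg_left j.cast_nonneg) (hl j))
    (tendsto_atTop_mono hl tk) h (fun j => (hn' j).le)
    (fun η hη => by simpa only [hi] using uv_hub mφ iφ tk hM hη)
    (M := 3 / W + 3 * x ^ 2 - ε / 2) fun N hN η hη => by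
      filter_upwards [hM, tk.eventually_ge_atTop N] with j h2 h3
      rw [hi]
      refine (integral_mono_of_nonneg (Eventually.of_forall fun z => sq_nonneg _)
        (uv_HN (mφ j) (iφ j) (k := j + 1) (by positivity))
        (Eventually.of_forall fun z => min_sq_le_HN hN.le h3 (sq_nonneg _))).trans ?_
      linarith
  have hf' : ∀ (χ : ℍ → ℝ) (A : ℝ), Measurable χ → (∀ z, |χ z| ≤ A) →
      Tendsto (fun j => ∫ z, χ z * φ j z ^ 2 ∂m) U (𝓝 (∫ z, χ z * f z ∂m)) := by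
    intro χ A h2 h3
    have := hf (fun z => χ z * rh ℓ z) (A * C) (h2.mul hG.uv_meas) fun z => by
      rw [abs_mul]
      exact mul_le_mul (h3 z) (bd z) (abs_nonneg _) ((abs_nonneg _).trans (h3 z))
    simpa only [mul_right_comm _ (rh ℓ _), hi] using this
  have e1 : x = ∫ z, ψ z * f z ∂m := tendsto_nhds_unique t (hf' ψ B hψ hB)
  have e2 : ∫ z, f z ∂m = 1 := by
    have := hf' (fun _ => 1) 1 measurable_const (by simp)
    simp only [one_mul, hn] at this
    exact tendsto_nhds_unique this tendsto_const_nhds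
  have := uv_bessel hW V0 mf (hI _ i) e2 hψ hB h0 h1
  rw [← e1] at this
  rw [hi] at q
  have e4 : 3 / W = 3 * (1 / W) := by ring
  linarith

theorem trunc_fourth_all (hΓ : ∀ γ : Γ, ∃ g : SL(2, ℝ), ∀ z : ℍ, γ • z = g • z)
    (D : Set ℍ) (hD : IsFundamentalDomain Γ D) (hvol : volume D ≠ ⊤)
    (ρ : ℍ → ℝ) (hρ0 : ∀ z, 0 < ρ z) (hρi : ∀ (γ : Γ) (z : ℍ), ρ (γ • z) = ρ z)
    (hρs : ContDiffOn ℝ ∞ (fun w : ℂ => ρ (ofComplex w)) {w | 0 < w.im})
    (K : Set ℍ) (hK : IsCompact K) (hρK : ∀ z, ρ z ≠ 1 → ∃ γ : Γ, γ • z ∈ K)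
    (hcurv : ∀ z : ℍ,
      (-1 - z.im ^ 2 * Δ (fun w : ℂ => Real.log (ρ (ofComplex w))) z / 2) / ρ z < 0)
    (ψ : ℍ → ℝ) (hψ : Measurable ψ) (B : ℝ) (hB : ∀ z, |ψ z| ≤ B)
    (hmean : ∫ z in D, ψ z * ρ z = 0) (hsq : ∫ z in D, ψ z ^ 2 * ρ z ≤ 1) (ε : ℝ) (hε : 0 < ε) :
    ∃ N > 0, ∃ L : ℝ, ∀ (φ : ℍ → ℝ) (lam : ℝ),
      (∀ (γ : Γ) (z : ℍ), φ (γ • z) = φ z) →
      ContDiffOn ℝ ∞ (fun w : ℂ => φ (ofComplex w)) {w | 0 < w.im} →
      (∀ z : ℍ, z.im ^ 2 * Δ (fun w : ℂ => φ (ofComplex w)) z = -lam * ρ z * φ z) →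
      ∫ z in D, φ z ^ 2 * ρ z = 1 → L ≤ lam →
      3 / (∫ z in D, ρ z) + 3 * (∫ z in D, ψ z * φ z ^ 2 * ρ z) ^ 2 - ε
        ≤ ∫ z in D, (φ z ^ 4 - max (φ z ^ 2 - N) 0 ^ 2) * ρ z := by
  obtain ⟨l, D', hF, e⟩ := exists_FD hΓ hD hvol
  simp only [← setIntegral_congr_set e] at hmean hsq ⊢
  let ℓ : ℂ → ℝ := (1 / 2 : ℝ) • fun w => Real.log (ρ (ofComplex w))
  have hℓ : ∀ w, ℓ w = 1 / 2 * Real.log (ρ (ofComplex w)) := fun _ => rfl
  have hr : ∀ w, rh ℓ w = ρ (ofComplex w) := fun w => by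
    rw [rh, hℓ, ← mul_assoc, show (2 : ℝ) * (1 / 2) = 1 by norm_num, one_mul,
      Real.exp_log (hρ0 _)]
  have hr' : ∀ z : ℍ, rh ℓ z = ρ z := fun z => by rw [hr, ofComplex_apply]
  have sm : ContDiffOn ℝ ∞ (fun w : ℂ => Real.log (ρ (ofComplex w))) UH :=
    hρs.log fun w _ => (hρ0 _).ne'
  have hG : CG l ℓ := by
    refine ⟨sm.const_smul (1 / 2 : ℝ), fun γ z => ?_, ⟨K, hK, fun z hz => ?_⟩, fun z hz => ?_⟩
    · rw [hℓ, hℓ, ofComplex_apply, ofComplex_apply, ← hF.act, hρi]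
    · simp only [← hF.act]
      refine hρK z fun e1 => hz ?_
      rw [hℓ, ofComplex_apply, e1, Real.log_one, mul_zero]
    · have h2 : ContDiffAt ℝ 2 (fun w : ℂ => Real.log (ρ (ofComplex w))) z :=
        (sm.contDiffAt ((isOpen_lt continuous_const Complex.continuous_im).mem_nhds hz)).of_le
          two_le_infty
      have h3 := (div_lt_iff₀ (hρ0 ⟨z, hz⟩)).1 (hcurv ⟨z, hz⟩)
      rw [InnerProductSpace.laplacian_smul _ h2, smul_eq_mul]
      change -1 - z.im ^ 2 * Δ (fun w : ℂ => Real.log (ρ (ofComplex w))) z / 2 < _ at h3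
      linarith
  obtain ⟨N, hN, L, h⟩ := trunc_fourthV hG hF hψ hB (by simpa only [hr'] using hmean)
    (by simpa only [hr'] using hsq) hε
  refine ⟨N, hN, L, fun φ lam h1 h2 h3 h4 h5 => ?_⟩
  have i : IntegrableOn (fun z => φ z ^ 2 * ρ z) D' := by
    by_contra h'
    rw [integral_undef h'] at h4
    exact zero_ne_one h4
  obtain ⟨C, -, hC⟩ := hG.rh_bd
  have i2 : IntegrableOn (fun z => φ z ^ 2) D' := by
    have := i.mul_bdd (g := fun z : ℍ => (rh ℓ z)⁻¹) (c := C)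
      hG.uv_meas.inv.aestronglyMeasurable (Eventually.of_forall fun z => by
        rw [Real.norm_of_nonneg (inv_nonneg.2 (show 0 < rh ℓ z from Real.exp_pos _).le)]
        exact (hC z z.im_pos).2)
    simpa only [IntegrableOn, hr', mul_inv_cancel_right₀ (hρ0 _).ne'] using this
  have := h φ lam ⟨h1, h2, fun z hz => by
    have h6 := h3 ⟨z, hz⟩
    rw [hr, ofComplex_apply_of_im_pos hz]
    exact h6, i2⟩ (by simpa only [hr'] using h4) h5
  simpa only [hr', HN, ← pow_mul] using this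

end Pool.Agent.Lib.MP_a52643_an
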