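import Pool.Agent.Lib.MP_a52643_an.VC.PreL

/-!
First consequences of the approximate ladder relations.
-/

open Complex MeasureTheory Set Filter Topology Asymptotics Metric
open scoped ComplexConjugate ContDiff ENNReal Laplacian

noncomputable section

namespace Pool.Agent.Lib.MP_a52643_an

variable {ℓ : ℂ → ℝ} {Cb : ℤ → V → ℝ} {m : ℝ} {Φ : ℤ → V → ℂ}

lemma SN_nonneg (Φ : ℤ → V → ℂ) (n : ℤ) (v : V) : 0 ≤ SN Φ n v :=
  Finset.sum_nonneg fun _ _ => norm_nonneg _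

lemma SN_mono (Φ : ℤ → V → ℂ) {n n' : ℤ} (h : n.natAbs ≤ n'.natAbs) (v : V) :
    SN Φ n v ≤ SN Φ n' v :=
  Finset.sum_le_sum_of_subset_of_nonneg (Finset.range_mono (by omega)) fun _ _ _ => norm_nonneg _

lemma SN_sq_le (Φ : ℤ → V → ℂ) (n : ℤ) (v : V) :
    SN Φ n v ^ 2 ≤ (n.natAbs + 1) * ∑ k ∈ Finset.range (n.natAbs + 1), ‖Φ k v‖ ^ 2 := by
  simpa [SN] using sq_sum_le_card_mul_sum_sq (s := Finset.range (n.natAbs + 1))
    (f := fun k : ℕ => ‖Φ k v‖)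

lemma Pre.cont_SN (h : Pre Φ) (n : ℤ) : ContinuousOn (SN Φ n) Om :=
  continuousOn_finsetSum _ fun _ _ => (h.cont _).norm

lemma Pre.norm_le_SN (h : Pre Φ) {k n : ℤ} (hk : k.natAbs ≤ n.natAbs) (v : V) :
    ‖Φ k v‖ ≤ SN Φ n v := by
  have e : ‖Φ k v‖ = ‖Φ k.natAbs v‖ := by
    rcases Int.natAbs_eq k with e | e
    · rw [← e]
    · conv_lhs => rw [e, h.norm_neg]
  rw [e]
  exact Finset.single_le_sum (f := fun k : ℕ => ‖Φ k v‖) (fun _ _ => norm_nonneg _)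
    (Finset.mem_range.2 (by omega))

lemma Pre.cont_eU (h : Pre Φ) (hs : ContDiffOn ℝ ∞ ℓ UH) (m : ℝ) (n : ℤ) :
    ContinuousOn (eU ℓ m Φ n) Om :=
  ((continuousOn_Ep (h.smooth n)).sub ((continuousOn_const.mul (cd_sC hs).continuousOn).mul
    (h.cont _))).sub ((continuousOn_const.mul (cd_AV hs).continuousOn).mul (h.cont _))

lemma Pre.cont_eD (h : Pre Φ) (hs : ContDiffOn ℝ ∞ ℓ UH) (m : ℝ) (n : ℤ) :
    ContinuousOn (eD ℓ m Φ n) Om :=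
  ((continuousOn_Em (h.smooth _)).sub ((continuousOn_const.mul (cd_sC hs).continuousOn).mul
    (h.cont _))).add ((continuousOn_const.mul
      (contDiffOn_conj' (cd_AV hs)).continuousOn).mul (h.cont _))

lemma Pre.hasE (h : Pre Φ) (ℓ : ℂ → ℝ) (m : ℝ) (n : ℤ) {v : V} (hv : v ∈ Om) :
    HasE (Φ n) v (I * m * sV ℓ v * Φ (n + 1) v + n * AV ℓ v * Φ n v + eU ℓ m Φ n v)
      (I * m * sV ℓ v * Φ (n - 1) v - n * conj (AV ℓ v) * Φ n v + eD ℓ m Φ (n - 1) v) := by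
  refine ⟨diffAt_of_Om (h.smooth n) one_ne_zero hv, ?_, ?_⟩
  · simp only [eU]; ring
  · simp only [eD, sub_add_cancel]; push_cast; ring

lemma Pre.dz_ph (h : Pre Φ) (ℓ : ℂ → ℝ) (m : ℝ) (n : ℤ) {z : ℂ} (hz : z ∈ UH) :
    2 * I * z.im * dz (ph Φ n) z = I * m * sV ℓ (z, 1) * ph Φ (n + 1) z
      + n * (AV ℓ (z, 1) - 1) * ph Φ n z + eU ℓ m Φ n (z, 1) := by
  have hv := one_mem_Om hz
  have h2 : ((z, 1) : V).2 ≠ 0 := one_ne_zero
  have hp : pr (z, 1) = z := by simp [pr]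
  have ho : om (z, 1) = 1 := by simp [om]
  have hd : DifferentiableAt ℝ (ph Φ n) (pr (z, 1)) := by rw [hp]; exact h.diff_ph n hz
  have e := (h.hasE ℓ m n hv).ep
  rw [Ep_congr_Om hv fun w hw => h.eq_ph n hw, Ep_mul (G := fun w => ph Φ n (pr w))
    (diffAt_om_zpow h2 n)
    (hd.comp _ ((contDiffAt_pr (n := 1) h2).differentiableAt one_ne_zero)), Ep_om_zpow h2,
    Ep_comp_pr h2 hd, hp, ho, Aop_eq] at e
  simp only [one_zpow, mul_one, one_mul] at e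
  unfold ph at e ⊢
  linear_combination e

lemma Pre.dzb_ph (h : Pre Φ) (ℓ : ℂ → ℝ) (m : ℝ) (n : ℤ) {z : ℂ} (hz : z ∈ UH) :
    2 * I * z.im * dzb (ph Φ n) z = -(I * m * sV ℓ (z, 1) * ph Φ (n - 1) z)
      + n * (conj (AV ℓ (z, 1)) - 1) * ph Φ n z - eD ℓ m Φ (n - 1) (z, 1) := by
  have hv := one_mem_Om hz
  have h2 : ((z, 1) : V).2 ≠ 0 := one_ne_zero
  have hp : pr (z, 1) = z := by simp [pr]
  have ho : om (z, 1) = 1 := by simp [om]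
  have hd : DifferentiableAt ℝ (ph Φ n) (pr (z, 1)) := by rw [hp]; exact h.diff_ph _ hz
  have e := (h.hasE ℓ m n hv).em
  rw [Em_congr_Om hv fun w hw => h.eq_ph n hw, Em_mul (G := fun w => ph Φ n (pr w))
    (diffAt_om_zpow h2 _)
    (hd.comp _ ((contDiffAt_pr (n := 1) h2).differentiableAt one_ne_zero)), Em_om_zpow h2,
    Em_comp_pr h2 hd, hp, ho, Bop_eq] at e
  simp only [one_zpow, mul_one, one_mul, inv_one] at e
  unfold ph at e ⊢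
  linear_combination -e

/-- bounds for the coefficients on a compact set -/
lemma OKC.bound (ok : OKC ℓ Cb) {K : Set V} (hK : IsCompact K) (hO : K ⊆ Om) (n : ℤ) :
    ∃ C : ℝ, 1 ≤ C ∧ ∀ v ∈ K, Cb n v ≤ C ∧ ‖AV ℓ v‖ ≤ C ∧ sV ℓ v ≤ C ∧ (sV ℓ v)⁻¹ ≤ C := by
  obtain ⟨C1, h1⟩ := hK.exists_bound_of_continuousOn ((ok.cont n).mono hO)
  obtain ⟨C2, h2⟩ := hK.exists_bound_of_continuousOn ((cd_AV ok.sm).continuousOn.mono hO)
  obtain ⟨C3, h3⟩ := hK.exists_bound_of_continuousOn ((cd_sV ok.sm).continuousOn.mono hO)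
  obtain ⟨C4, h4⟩ := hK.exists_bound_of_continuousOn
    (((cd_sV ok.sm).continuousOn.inv₀ fun v _ => (sV_pos v).ne').mono hO)
  refine ⟨1 + |C1| + |C2| + |C3| + |C4|, by
    linarith [abs_nonneg C1, abs_nonneg C2, abs_nonneg C3, abs_nonneg C4], fun v hv => ?_⟩
  have a1 := (le_abs_self _).trans (h1 v hv)
  have a2 := h2 v hv
  have a3 := (le_abs_self _).trans (h3 v hv)
  have a4 : (sV ℓ v)⁻¹ ≤ C4 := (le_abs_self _).trans (h4 v hv)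
  have := le_abs_self C1
  have := le_abs_self C2
  have := le_abs_self C3
  have := le_abs_self C4
  refine ⟨?_, ?_, ?_, ?_⟩ <;> linarith [abs_nonneg C1, abs_nonneg C2, abs_nonneg C3, abs_nonneg C4]

lemma OKC.bound_ph (ok : OKC ℓ Cb) {K : Set ℂ} (hK : IsCompact K) (hU : K ⊆ UH) (n : ℤ) :
    ∃ C : ℝ, 1 ≤ C ∧ ∀ z ∈ K, Cb n (z, 1) ≤ C ∧ ‖AV ℓ (z, 1)‖ ≤ C ∧ sV ℓ (z, 1) ≤ C ∧
      (sV ℓ (z, 1))⁻¹ ≤ C := by
  obtain ⟨C, h1, h2⟩ := ok.bound (K := (fun z : ℂ => ((z, 1) : V)) '' K) (hK.image (by fun_prop))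
    (by rintro _ ⟨z, hz, rfl⟩; exact one_mem_Om (hU hz)) n
  exact ⟨C, h1, fun z hz => h2 _ ⟨z, hz, rfl⟩⟩

lemma VL.m_pos (h : VL ℓ Cb m Φ) : 0 < m := one_pos.trans_le h.one_le

lemma VL.eu_le (h : VL ℓ Cb m Φ) (n : ℤ) {v : V} (hv : v ∈ Om) :
    ‖eU ℓ m Φ n v‖ ≤ Cb n v * SN Φ n v :=
  (le_mul_of_one_le_left (norm_nonneg _) h.one_le).trans (h.eu n v hv)

lemma VL.ed_le (h : VL ℓ Cb m Φ) (n : ℤ) {v : V} (hv : v ∈ Om) :
    ‖eD ℓ m Φ n v‖ ≤ Cb n v * SN Φ n v :=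
  (le_mul_of_one_le_left (norm_nonneg _) h.one_le).trans (h.ed n v hv)

lemma UU_SN {J : Type} {l : Filter J} {Φ : J → ℤ → V → ℂ} (h : ∀ j, Pre (Φ j)) (n : ℤ)
    (huu : ∀ k : ℕ, k ≤ n.natAbs → UU l fun j z => ‖ph (Φ j) k z‖ ^ 2) :
    UU l fun j z => SN (Φ j) n (z, 1) ^ 2 := by
  refine (UU.sum (Finset.range (n.natAbs + 1)) (f := fun k j z => ‖ph (Φ j) k z‖ ^ 2)
    fun k hk => huu k (by simpa [Nat.lt_succ_iff] using hk)).of_le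
    (fun j => (((h j).cont_SN n).comp (by fun_prop) fun z hz => one_mem_Om hz).pow 2)
    (fun j z => sq_nonneg _) fun K _ _ => ⟨_, Eventually.of_forall fun j z _ => SN_sq_le _ n _⟩

end Pool.Agent.Lib.MP_a52643_an
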